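import Pool.Agent.Lib_MP_f1a94e_lp.Defs
import Pool.Agent.Lib_MP_f1a94e_eq.FzD

/-!
# Piece FX: simple facts on the family
-/

set_option autoImplicit false

namespace Pool.Agent.LPr

open Finset Pool.Agent.GaussMR Pool.Agent.OmAll Pool.Agent.OmEq Filter

/-- `gx` is multiplicative on nonzero numbers (`Nat.perm_primeFactorsList_mul`, `List.Perm.prod_eq`, `List.map_append`, `List.prod_append`) -/
theorem gx_mul (φ : ℝ → ℂ) (X : ℝ) {m n : ℕ} (hm : m ≠ 0) (hn : n ≠ 0) : gx φ X (m * n) = gx φ X m * gx φ X n := by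
  unfold gx
  rw [((Nat.perm_primeFactorsList_mul hm hn).map _).prod_eq, List.map_append, List.prod_append]

/-- `gx φ X p = φ (log p / log X)` -/
theorem gx_prime (φ : ℝ → ℂ) (X : ℝ) {p : ℕ} (hp : p.Prime) : gx φ X p = φ (Real.log p / Real.log X) := by
  unfold gx
  rw [Nat.primeFactorsList_prime hp, List.map_singleton, List.prod_singleton]

/-- a product of numbers of modulus one -/
theorem gx_norm (φ : ℝ → ℂ) (hφ : ∀ t, ‖φ t‖ = 1) (X : ℝ) (n : ℕ) : ‖gx φ X n‖ = 1 := by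
  unfold gx
  generalize n.primeFactorsList = l
  induction l with
  | nil => simp
  | cons a l ih => rw [List.map_cons, List.prod_cons, norm_mul, hφ, ih, one_mul]

/-- `gx 1 = 1` -/
theorem gx_const (X : ℝ) (n : ℕ) : gx (fun _ => 1) X n = 1 := by
  unfold gx
  generalize n.primeFactorsList = l
  induction l with
  | nil => simp
  | cons a l ih => rw [List.map_cons, List.prod_cons, ih, one_mul]

/-- for a step function `φ (log n / log X) = 1` for all `1 ≤ n ≤ T` if `X` is large (`log n / log X ≤ log T / log X < min u_i`, or `r = 0`) -/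
theorem stepf_small (φ : ℝ → ℂ) (hφ : StepF φ) (T : ℕ) :
    ∀ᶠ X : ℝ in atTop, ∀ n : ℕ, n ≤ T → φ (Real.log n / Real.log X) = 1 := by
  obtain ⟨r, c, u, v, huv, hex⟩ := hφ.ex
  have hlim : Tendsto (fun X : ℝ => Real.log T / Real.log X) atTop (nhds 0) :=
    tendsto_const_nhds.div_atTop Real.tendsto_log_atTop
  have h1 : ∀ i : Fin r, ∀ᶠ X : ℝ in atTop, Real.log T / Real.log X < u i := fun i =>
    hlim.eventually_lt_const (huv i).1
  have h2 : ∀ᶠ X : ℝ in atTop, ∀ i : Fin r, Real.log T / Real.log X < u i := eventually_all.2 h1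
  filter_upwards [h2, eventually_gt_atTop (1 : ℝ)] with X hX hX1 n hn
  have hlX : 0 < Real.log X := Real.log_pos hX1
  rw [hex]
  have hz : ∑ i, (if u i < Real.log n / Real.log X ∧ Real.log n / Real.log X ≤ v i then c i else 0) = 0 := by
    refine sum_eq_zero (fun i _ => ?_)
    refine if_neg (fun h => ?_)
    have h3 : Real.log n ≤ Real.log T := by
      rcases Nat.eq_zero_or_pos n with h0 | h0
      · subst h0
        rw [Nat.cast_zero, Real.log_zero]
        exact Real.log_natCast_nonneg T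
      · exact Real.log_le_log (by exact_mod_cast h0) (by exact_mod_cast hn)
    have h4 : Real.log n / Real.log X ≤ Real.log T / Real.log X := div_le_div_of_nonneg_right h3 hlX.le
    have h5 := hX i
    linarith [h.1]
  rw [hz, add_zero]

/-- hence `gx φ X n = 1` for `n ≤ T` and large `X` -/
theorem gx_small (φ : ℝ → ℂ) (hφ : StepF φ) (T : ℕ) : ∀ᶠ X : ℝ in atTop, ∀ n : ℕ, n ≤ T → gx φ X n = 1 := by
  filter_upwards [stepf_small φ hφ T] with X hX n hn
  unfold gx
  apply List.prod_eq_one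
  intro z hz
  obtain ⟨p, hp, rfl⟩ := List.mem_map.1 hz
  exact hX p ((Nat.le_of_mem_primeFactorsList hp).trans hn)

/-- `fx R w 1 X = fz R w` -/
theorem fx_const (R : ℕ) (w : ℂ) (X : ℝ) (n : ℕ) : fx R w (fun _ => 1) X n = fz R w n := by
  unfold fx fz
  rw [gx_const, mul_one]

/-- `fx = fz * gx` -/
theorem fx_eq (R : ℕ) (w : ℂ) (φ : ℝ → ℂ) (X : ℝ) (n : ℕ) : fx R w φ X n = fz R w n * gx φ X n := by
  unfold fx fz
  split_ifs
  · rw [zero_mul]
  · rfl

private theorem auxfx_fz_mul (R : ℕ) (w : ℂ) (m n : ℕ) : fz R w (m * n) = fz R w m * fz R w n := by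
  unfold fz
  by_cases hm : m = 0
  · subst hm
    simp
  by_cases hn : n = 0
  · subst hn
    simp
  by_cases h1 : m.Coprime R
  · by_cases h2 : n.Coprime R
    · have h3 : (m * n).Coprime R := Nat.Coprime.mul_left h1 h2
      rw [if_neg (by rintro (h | h); exacts [mul_ne_zero hm hn h, h h3]),
        if_neg (by rintro (h | h); exacts [hm h, h h1]), if_neg (by rintro (h | h); exacts [hn h, h h2]),
        ArithmeticFunction.cardFactors_mul hm hn, pow_add]
    · have h3 : ¬ (m * n).Coprime R := fun h => h2 (Nat.Coprime.coprime_mul_left h)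
      rw [if_pos (Or.inr h3), if_pos (Or.inr h2), mul_zero]
  · have h3 : ¬ (m * n).Coprime R := fun h => h1 (Nat.Coprime.coprime_mul_right h)
    rw [if_pos (Or.inr h3), if_pos (Or.inr h1), zero_mul]

private theorem auxfx_fz_zero (R : ℕ) (w : ℂ) : fz R w 0 = 0 := by
  unfold fz
  rw [if_pos (Or.inl rfl)]

/-- completely multiplicative (as `fz_FF`) -/
theorem fx_mul (R : ℕ) (w : ℂ) (φ : ℝ → ℂ) (X : ℝ) (m n : ℕ) :
    fx R w φ X (m * n) = fx R w φ X m * fx R w φ X n := by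
  simp only [fx_eq, auxfx_fz_mul]
  by_cases hm : m = 0
  · subst hm
    simp [auxfx_fz_zero]
  by_cases hn : n = 0
  · subst hn
    simp [auxfx_fz_zero]
  rw [gx_mul φ X hm hn]
  ring

private theorem auxfx_fx_bd (R : ℕ) (w : ℂ) (hw : ‖w‖ = 1) (φ : ℝ → ℂ) (hφ : ∀ t, ‖φ t‖ = 1) (X : ℝ) (n : ℕ) :
    ‖fx R w φ X n‖ ≤ 1 := by
  unfold fx
  split_ifs
  · rw [norm_zero]
    exact zero_le_one
  · rw [norm_mul, norm_pow, hw, one_pow, gx_norm φ hφ, one_mul]

private theorem auxfx_fz_prime (R : ℕ) (w : ℂ) {p : ℕ} (hp : p.Prime) (h : ¬ p ∣ R) : fz R w p = w := by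
  unfold fz
  have h1 : p.Coprime R := (Nat.Prime.coprime_iff_not_dvd hp).2 h
  rw [if_neg (by rintro (h' | h'); exacts [hp.ne_zero h', h' h1]), ArithmeticFunction.cardFactors_apply_prime hp,
    pow_one]

theorem fx_FX (R : ℕ) (hR : 0 < R) (w : ℂ) (hw : ‖w‖ = 1) (φ : ℝ → ℂ) (hφ : StepF φ) :
    FX (fx R w φ) R.primeFactors w := by
  refine ⟨fx_mul R w φ, auxfx_fx_bd R w hw φ hφ.un, fun T => ?_⟩
  filter_upwards [gx_small φ hφ T] with X hX p hpT hp _ hpR
  rw [fx_eq, hX p hpT, mul_one]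
  exact auxfx_fz_prime R w hp (fun h => hpR (Nat.mem_primeFactors.2 ⟨hp, h, hR.ne'⟩))

theorem fz_FX (R : ℕ) (hR : 0 < R) (w : ℂ) (hw : ‖w‖ = 1) : FX (fun _ => fz R w) R.primeFactors w := by
  have h := fz_FF R hR w hw
  exact ⟨fun _ => h.mul, fun _ => h.bd, fun T => Eventually.of_forall (fun _ p _ hp h4 hpR => h.pr p hp h4 hpR)⟩

/-- primes larger than `R` do not divide `R`; `fx R w φ X 1 = 1` -/
theorem fx_UF (R : ℕ) (hR : 0 < R) (w : ℂ) (hw : ‖w‖ = 1) (φ : ℝ → ℂ) (hφ : ∀ t, ‖φ t‖ = 1) (X : ℝ) :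
    UF R (fx R w φ X) := by
  refine ⟨fx_mul R w φ X, ?_, auxfx_fx_bd R w hw φ hφ X, fun p hp hRp => ?_⟩
  · unfold fx gx
    simp
  · rw [fx_eq, norm_mul, gx_norm φ hφ, mul_one, auxfx_fz_prime R w hp (fun h => absurd (Nat.le_of_dvd hR h) (not_le.2 hRp)), hw]

theorem fz_UF (R : ℕ) (hR : 0 < R) (w : ℂ) (hw : ‖w‖ = 1) : UF R (fz R w) := by
  have h := fx_UF R hR w hw (fun _ => 1) (fun _ => norm_one) 2
  have h2 : fx R w (fun _ => 1) 2 = fz R w := funext (fun n => fx_const R w 2 n)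
  rwa [h2] at h

/-- the value at `2 n` (multiplicativity; `fx R w φ X 2 = w` if `R` is odd and `X` is large, `0` if `R` is even) -/
theorem fx_two (R : ℕ) (hR : 0 < R) (w : ℂ) (φ : ℝ → ℂ) (hφ : StepF φ) :
    ∀ᶠ X : ℝ in atTop, ∀ n : ℕ, fx R w φ X (2 * n) = (if 2 ∣ R then 0 else w) * fx R w φ X n := by
  filter_upwards [gx_small φ hφ 2] with X hX n
  rw [fx_mul]
  congr 1
  rw [fx_eq, hX 2 le_rfl, mul_one]
  split_ifs with h
  · unfold fz
    exact if_pos (Or.inr (fun h' => (Nat.Prime.coprime_iff_not_dvd Nat.prime_two).1 h' h))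
  · exact auxfx_fz_prime R w Nat.prime_two h

theorem fz_two (R : ℕ) (hR : 0 < R) (w : ℂ) (n : ℕ) : fz R w (2 * n) = (if 2 ∣ R then 0 else w) * fz R w n := by
  rw [auxfx_fz_mul]
  congr 1
  split_ifs with h
  · unfold fz
    exact if_pos (Or.inr (fun h' => (Nat.Prime.coprime_iff_not_dvd Nat.prime_two).1 h' h))
  · exact auxfx_fz_prime R w Nat.prime_two h

/-- the constant one is a step function (`r = 0`) -/
theorem stepf_one : StepF (fun _ => 1) := by
  refine ⟨fun _ => norm_one, 0, fun _ => 0, fun _ => 1, fun _ => 1, fun i => i.elim0, fun t => ?_⟩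
  simp

end Pool.Agent.LPr
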