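import Pool.Agent.Lib_MP_f1a94e_lp.WinF

/-!
# Fourier inversion for the numbers of prime factors in arbitrary windows
-/

set_option autoImplicit false

namespace Pool.Agent.LPr

open Finset Pool.Agent.GaussMR Pool.Agent.OmAll Pool.Agent.OmEq Filter

/-- step functions from a finite type of windows -/
theorem stepf_fin {ι : Type*} [Fintype ι] (φ : ℝ → ℂ) (h1 : ∀ t, ‖φ t‖ = 1) (c : ι → ℂ) (u v : ι → ℝ)
    (hw : ∀ i, 0 < u i ∧ u i ≤ v i) (h : ∀ t, φ t = 1 + ∑ i, if u i < t ∧ t ≤ v i then c i else 0) : StepF φ := by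
  classical
  let e := Fintype.equivFin ι
  refine ⟨h1, Fintype.card ι, fun i => c (e.symm i), fun i => u (e.symm i), fun i => v (e.symm i), fun i => hw _, ?_⟩
  intro t
  rw [h t]
  congr 1
  exact (Equiv.sum_comp e.symm (fun i => if u i < t ∧ t ≤ v i then c i else 0)).symm

/-- products of step functions -/
theorem StepF.mul {φ ψ : ℝ → ℂ} (hφ : StepF φ) (hψ : StepF ψ) : StepF (fun t => φ t * ψ t) := by
  classical
  obtain ⟨r, c, u, v, hw, h⟩ := hφ.ex
  obtain ⟨r', c', u', v', hw', h'⟩ := hψ.ex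
  refine stepf_fin (ι := Fin r ⊕ Fin r' ⊕ Fin r × Fin r') _ (fun t => by rw [norm_mul, hφ.un, hψ.un, one_mul])
    (Sum.elim c (Sum.elim c' (fun p => c p.1 * c' p.2)))
    (Sum.elim u (Sum.elim u' (fun p => max (u p.1) (u' p.2))))
    (Sum.elim v (Sum.elim v' (fun p => max (max (u p.1) (u' p.2)) (min (v p.1) (v' p.2))))) ?_ ?_
  · rintro (i | i | ⟨i, j⟩)
    · exact hw i
    · exact hw' i
    · exact ⟨lt_max_of_lt_left (hw i).1, le_max_left _ _⟩
  · intro t
    rw [h t, h' t, Fintype.sum_sum_type, Fintype.sum_sum_type]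
    simp only [Sum.elim_inl, Sum.elim_inr]
    have h3 : ∑ p : Fin r × Fin r', (if max (u p.1) (u' p.2) < t ∧
        t ≤ max (max (u p.1) (u' p.2)) (min (v p.1) (v' p.2)) then c p.1 * c' p.2 else 0) =
        (∑ i, if u i < t ∧ t ≤ v i then c i else 0) * (∑ i, if u' i < t ∧ t ≤ v' i then c' i else 0) := by
      rw [Fintype.sum_prod_type, sum_mul_sum]
      refine sum_congr rfl fun i _ => sum_congr rfl fun j _ => ?_
      by_cases h4 : u i < t ∧ t ≤ v i
      · by_cases h5 : u' j < t ∧ t ≤ v' j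
        · rw [if_pos h4, if_pos h5, if_pos]
          exact ⟨max_lt h4.1 h5.1, le_max_of_le_right (le_min h4.2 h5.2)⟩
        · rw [if_neg h5, mul_zero, if_neg]
          rintro ⟨h6, h7⟩
          rw [le_max_iff] at h7
          rcases h7 with h7 | h7
          · exact absurd h6 (not_lt.2 h7)
          · exact h5 ⟨(le_max_right _ _).trans_lt h6, h7.trans (min_le_right _ _)⟩
      · rw [if_neg h4, zero_mul, if_neg]
        rintro ⟨h6, h7⟩
        rw [le_max_iff] at h7
        rcases h7 with h7 | h7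
        · exact absurd h6 (not_lt.2 h7)
        · exact h4 ⟨(le_max_left _ _).trans_lt h6, h7.trans (min_le_left _ _)⟩
    rw [h3]
    ring

/-- one window -/
theorem stepf_ind (c : ℂ) (hc : ‖c‖ = 1) (u v : ℝ) (hu : 0 < u) (huv : u ≤ v) :
    StepF (fun t => if u < t ∧ t ≤ v then c else 1) := by
  refine stepf_fin (ι := Fin 1) _ (fun t => ?_) (fun _ => c - 1) (fun _ => u) (fun _ => v) (fun _ => ⟨hu, huv⟩) (fun t => ?_)
  · split_ifs
    · exact hc
    · exact norm_one
  · simp only [univ_unique, sum_const, card_singleton, one_smul]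
    split_ifs
    · ring
    · ring

/-- the step function with values `ζ^(j i)` on the windows `(u i, v i]`, `i < r` -/
noncomputable def phg (K : ℕ) (u v : ℕ → ℝ) (r : ℕ) (j : Fin r → ℕ) (t : ℝ) : ℂ :=
  ∏ i : Fin r, if u i < t ∧ t ≤ v i then zq K ^ (j i) else 1

theorem phg_step (K : ℕ) (hK : 0 < K) (u v : ℕ → ℝ) (r : ℕ) (h : ∀ i < r, 0 < u i ∧ u i ≤ v i) (j : Fin r → ℕ) :
    StepF (phg K u v r j) := by
  classical
  have key : ∀ s : Finset (Fin r), StepF (fun t => ∏ i ∈ s, if u i < t ∧ t ≤ v i then zq K ^ (j i) else 1) := by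
    intro s
    induction s using Finset.induction_on with
    | empty => simpa using stepf_one
    | insert a s ha ih =>
      have h1 := (stepf_ind (zq K ^ (j a)) (fine_norm K hK (j a)) (u a) (v a) (h a a.2).1 (h a a.2).2).mul ih
      have h2 : (fun t => ∏ i ∈ insert a s, if u i < t ∧ t ≤ v i then zq K ^ (j i) else 1) =
          (fun t => (if u a < t ∧ t ≤ v a then zq K ^ (j a) else 1) *
            ∏ i ∈ s, if u i < t ∧ t ≤ v i then zq K ^ (j i) else 1) := by
        funext t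
        rw [prod_insert ha]
      rw [h2]
      exact h1
  exact key univ

private theorem list_prod_windows' {r : ℕ} (P : Fin r → ℕ → Bool) (y : Fin r → ℂ) (L : List ℕ) :
    (L.map (fun p => ∏ i : Fin r, if P i p = true then y i else 1)).prod =
      ∏ i : Fin r, y i ^ (L.filter (P i)).length := by
  induction L with
  | nil => simp
  | cons p L ih =>
    rw [List.map_cons, List.prod_cons, ih, ← Finset.prod_mul_distrib]
    apply Finset.prod_congr rfl
    intro i _
    rw [List.filter_cons]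
    by_cases h : P i p = true
    · rw [if_pos h, if_pos h, List.length_cons, pow_succ]
      ring
    · rw [if_neg h, if_neg h, one_mul]

theorem gx_phg (K : ℕ) (u v : ℕ → ℝ) (r : ℕ) (j : Fin r → ℕ) (X : ℝ) (hX : 1 < X) (n : ℕ) :
    gx (phg K u v r j) X n = ∏ i : Fin r, (zq K ^ (j i)) ^ wc X (u i) (v i) n := by
  classical
  have hX0 : 0 < X := by linarith
  have hlX : 0 < Real.log X := Real.log_pos hX
  unfold gx
  have h1 : n.primeFactorsList.map (fun p : ℕ => phg K u v r j (Real.log p / Real.log X)) =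
      n.primeFactorsList.map (fun p : ℕ => ∏ i : Fin r,
        if (decide (X ^ (u i) < (p : ℝ) ∧ (p : ℝ) ≤ X ^ (v i))) = true then zq K ^ (j i) else 1) := by
    apply List.map_congr_left
    intro p hp
    have hp0 : (0 : ℝ) < p := by exact_mod_cast (Nat.prime_of_mem_primeFactorsList hp).pos
    unfold phg
    apply Finset.prod_congr rfl
    intro i _
    have ha : u i < Real.log p / Real.log X ↔ X ^ (u i) < (p : ℝ) := by
      rw [lt_div_iff₀ hlX, ← Real.log_rpow hX0, Real.log_lt_log_iff (Real.rpow_pos_of_pos hX0 _) hp0]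
    have hb : Real.log p / Real.log X ≤ v i ↔ (p : ℝ) ≤ X ^ (v i) := by
      rw [div_le_iff₀ hlX, ← Real.log_rpow hX0, Real.log_le_log_iff hp0 (Real.rpow_pos_of_pos hX0 _)]
    simp only [ha, hb, decide_eq_true_eq]
  rw [h1, list_prod_windows' (fun (i : Fin r) (p : ℕ) =>
    decide (X ^ (u i) < (p : ℝ) ∧ (p : ℝ) ≤ X ^ (v i)))]
  apply Finset.prod_congr rfl
  intro i _
  unfold wc
  congr 3

/-- the coefficient sum -/
noncomputable def cG (K : ℕ) (u v : ℕ → ℝ) (r : ℕ) (k : ℕ → ℕ) : ℂ :=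
  (1 / (K : ℂ) ^ r) * ∑ j ∈ Fintype.piFinset (fun _ : Fin r => range K),
    (∏ i : Fin r, (zq K ^ (j i * k i))⁻¹) * mu (phg K u v r j)

private theorem win_countG (K : ℕ) (u0 : ℝ) (hu0 : 0 < u0) (u v : ℕ → ℝ) (r : ℕ) (hu : ∀ i < r, u0 ≤ u i)
    (hK : 3 < K * u0) (k : ℕ → ℕ) (hk : ∀ i < r, k i < K) (x : ℝ) (hx : 2 ≤ x) :
    ((Set.ncard {n : ℕ | 1 ≤ n ∧ (n : ℝ) ≤ x ∧ ∀ i < r, wc x (u i) (v i) n = k i} : ℝ) : ℂ) =
      (1 / (K : ℂ) ^ r) * ∑ j ∈ Fintype.piFinset (fun _ : Fin r => range K),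
        (∏ i : Fin r, (zq K ^ (j i * k i))⁻¹) * ∑ n ∈ Icc 1 ⌊x⌋₊, gx (phg K u v r j) x n := by
  classical
  have hx0 : 0 ≤ x := by linarith
  have hK0 : 0 < K := by
    rcases Nat.eq_zero_or_pos K with h | h
    · subst h
      simp at hK
      linarith
    · exact h
  have hKc : (K : ℂ) ^ r ≠ 0 := pow_ne_zero _ (by exact_mod_cast hK0.ne')
  have hset : {n : ℕ | 1 ≤ n ∧ (n : ℝ) ≤ x ∧ ∀ i < r, wc x (u i) (v i) n = k i} =
      (((Icc 1 ⌊x⌋₊).filter (fun n => ∀ i : Fin r, wc x (u i) (v i) n = k i) : Finset ℕ) : Set ℕ) := by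
    ext n
    simp only [Set.mem_ofPred_eq, coe_filter, mem_Icc, Nat.le_floor_iff hx0, and_assoc]
    constructor
    · rintro ⟨h1, h2, h3⟩
      exact ⟨h1, h2, fun i => h3 i i.2⟩
    · rintro ⟨h1, h2, h3⟩
      exact ⟨h1, h2, fun i hi => h3 ⟨i, hi⟩⟩
  rw [hset, Set.ncard_coe_finset, Finset.card_filter]
  have hcast : (((∑ n ∈ Icc 1 ⌊x⌋₊, if ∀ i : Fin r, wc x (u i) (v i) n = k i then 1 else 0 : ℕ) : ℝ) : ℂ) =
      ∑ n ∈ Icc 1 ⌊x⌋₊, (if ∀ i : Fin r, wc x (u i) (v i) n = k i then (1 : ℂ) else 0) := by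
    rw [Nat.cast_sum, Complex.ofReal_sum]
    apply Finset.sum_congr rfl
    intro n _
    split_ifs <;> simp
  rw [hcast]
  have hterm : ∀ n ∈ Icc 1 ⌊x⌋₊, (if ∀ i : Fin r, wc x (u i) (v i) n = k i then (1 : ℂ) else 0) =
      (1 / (K : ℂ) ^ r) * ∑ j ∈ Fintype.piFinset (fun _ : Fin r => range K),
        (∏ i : Fin r, (zq K ^ (j i * k i))⁻¹) * gx (phg K u v r j) x n := by
    intro n hn
    rw [mem_Icc, Nat.le_floor_iff hx0] at hn
    have hn3 : (n : ℝ) ≤ x ^ 3 := by
      have : x ≤ x ^ 3 := by nlinarith [mul_nonneg hx0 hx0]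
      linarith [hn.2]
    have h := win_inv K hK0 r (fun i => k i) (fun i => wc x (u i) (v i) n) (fun i => hk i i.2)
      (fun i => wc_lt K u0 hu0 hK x hx n (by omega) hn3 _ _ (hu i i.2))
    have hg : ∀ j : Fin r → ℕ, gx (phg K u v r j) x n = ∏ i : Fin r, (zq K ^ (j i)) ^ wc x (u i) (v i) n :=
      fun j => gx_phg K u v r j x (by linarith) n
    simp only [hg]
    rw [h]
    split_ifs
    · rw [one_div, inv_mul_cancel₀ hKc]
    · rw [mul_zero]
  rw [Finset.sum_congr rfl hterm, ← Finset.mul_sum, Finset.sum_comm]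
  simp only [Finset.mul_sum]

/-- the law over the integers -/
theorem int_lawG (K : ℕ) (u0 : ℝ) (hu0 : 0 < u0) (u v : ℕ → ℝ) (r : ℕ) (hu : ∀ i < r, u0 ≤ u i ∧ u i ≤ v i)
    (hK : 3 < K * u0) (k : ℕ → ℕ) (hk : ∀ i < r, k i < K) :
    ∃ c : ℝ, (c : ℂ) = cG K u v r k ∧ Tendsto (fun x : ℝ => (Set.ncard {n : ℕ | 1 ≤ n ∧ (n : ℝ) ≤ x ∧
      ∀ i < r, wc x (u i) (v i) n = k i} : ℝ) / x) atTop (nhds c) := by
  have hK0 : 0 < K := by
    rcases Nat.eq_zero_or_pos K with h | h
    · subst h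
      simp at hK
      linarith
    · exact h
  set f : ℝ → ℝ := fun x : ℝ => (Set.ncard {n : ℕ | 1 ≤ n ∧ (n : ℝ) ≤ x ∧
      ∀ i < r, wc x (u i) (v i) n = k i} : ℝ) / x with hf
  have hlim : Tendsto (fun x : ℝ => ((f x : ℝ) : ℂ)) atTop (nhds (cG K u v r k)) := by
    have h1 : Tendsto (fun x : ℝ => (1 / (K : ℂ) ^ r) * ∑ j ∈ Fintype.piFinset (fun _ : Fin r => range K),
        (∏ i : Fin r, (zq K ^ (j i * k i))⁻¹) * ((∑ n ∈ Icc 1 ⌊x⌋₊, gx (phg K u v r j) x n) / x))
        atTop (nhds (cG K u v r k)) := by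
      unfold cG
      apply Tendsto.const_mul
      apply tendsto_finsetSum
      intro j _
      exact (mu_tendsto _ (phg_step K hK0 u v r (fun i hi => ⟨hu0.trans_le (hu i hi).1, (hu i hi).2⟩) j)).const_mul _
    refine h1.congr' ?_
    filter_upwards [eventually_ge_atTop (2 : ℝ)] with x hx
    have h2 := win_countG K u0 hu0 u v r (fun i hi => (hu i hi).1) hK k hk x hx
    have h3 : ((f x : ℝ) : ℂ) = ((Set.ncard {n : ℕ | 1 ≤ n ∧ (n : ℝ) ≤ x ∧
      ∀ i < r, wc x (u i) (v i) n = k i} : ℝ) : ℂ) / (x : ℂ) := by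
      rw [hf]
      push_cast
      rfl
    rw [h3, h2, mul_div_assoc, Finset.sum_div]
    congr 1
    apply Finset.sum_congr rfl
    intro j _
    rw [mul_div_assoc]
  have hre : Tendsto f atTop (nhds (cG K u v r k).re) := by
    have := (Complex.continuous_re.tendsto _).comp hlim
    simpa [Function.comp_def] using this
  have him : (cG K u v r k).im = 0 := by
    have := (Complex.continuous_im.tendsto _).comp hlim
    have h0 : Tendsto (fun _ : ℝ => (0 : ℝ)) atTop (nhds (cG K u v r k).im) := by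
      simpa [Function.comp_def] using this
    exact (tendsto_nhds_unique h0 tendsto_const_nhds)
  refine ⟨(cG K u v r k).re, ?_, hre⟩
  apply Complex.ext
  · simp
  · simp [him]

end Pool.Agent.LPr
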