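import Pool.Agent.Lib_MP_f1a94e_lp.ProfD

/-!
# Piece PERTP: distinct exponents
-/

set_option autoImplicit false

namespace Pool.Agent.LPr

open Finset Filter

/-- PROOF. `τ i = t i - η (i + 1)` with `0 < η`, `η (k + 1) < δ`, `η (k + 1) < t i` for all `i`, and `η` different from the finitely many numbers `(t i - t j) / (i - j)`, `i ≠ j` (the interval of the admissible `η` is infinite). Then `τ i = τ j` would give
`t i - t j = η (i - j)`. -/
theorem pert (k : ℕ) (t : Fin k → ℝ) (ht : ∀ i, 0 < t i) (δ : ℝ) (hδ : 0 < δ) :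
    ∃ τ : Fin k → ℝ, Function.Injective τ ∧ ∀ i, 0 < τ i ∧ τ i < t i ∧ t i - δ < τ i := by
  classical
  obtain ⟨m, hm0, hmδ, hmt⟩ : ∃ m : ℝ, 0 < m ∧ m ≤ δ ∧ ∀ i, m ≤ t i := by
    have hne : (insert δ (Finset.univ.image t)).Nonempty := Finset.insert_nonempty _ _
    refine ⟨(insert δ (Finset.univ.image t)).min' hne, ?_, ?_, ?_⟩
    · rw [Finset.lt_min'_iff]
      intro y hy
      rw [Finset.mem_insert, Finset.mem_image] at hy
      rcases hy with rfl | ⟨i, -, rfl⟩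
      · exact hδ
      · exact ht i
    · exact Finset.min'_le _ _ (Finset.mem_insert_self _ _)
    · intro i
      exact Finset.min'_le _ _ (Finset.mem_insert_of_mem (Finset.mem_image_of_mem t (Finset.mem_univ i)))
  have hk : (0 : ℝ) < (k : ℝ) + 1 := by positivity
  have hI : (Set.Ioo (0 : ℝ) (m / (k + 1))).Infinite := Set.Ioo_infinite (by positivity)
  obtain ⟨η, hη, hbad⟩ := hI.exists_notMem_finset
    ((Finset.univ : Finset (Fin k × Fin k)).image
      (fun x => (t x.1 - t x.2) / (((x.1 : ℕ) : ℝ) - ((x.2 : ℕ) : ℝ))))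
  obtain ⟨h0, h1⟩ := hη
  have h1' : η * (k + 1) < m := by rwa [lt_div_iff₀ hk] at h1
  have hi : ∀ i : Fin k, 0 < η * (((i : ℕ) : ℝ) + 1) ∧ η * (((i : ℕ) : ℝ) + 1) < m := by
    intro i
    constructor
    · positivity
    · have h2 : ((i : ℕ) : ℝ) ≤ k := by exact_mod_cast i.2.le
      have h3 : η * (((i : ℕ) : ℝ) + 1) ≤ η * (k + 1) :=
        mul_le_mul_of_nonneg_left (by linarith) h0.le
      linarith
  refine ⟨fun i => t i - η * (((i : ℕ) : ℝ) + 1), ?_, ?_⟩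
  · intro i j hij
    by_contra hne
    have hij' : t i - η * (((i : ℕ) : ℝ) + 1) = t j - η * (((j : ℕ) : ℝ) + 1) := hij
    have hd : ((i : ℕ) : ℝ) - ((j : ℕ) : ℝ) ≠ 0 := by
      intro h
      apply hne
      apply Fin.ext
      have h5 : ((i : ℕ) : ℝ) = ((j : ℕ) : ℝ) := by linarith
      exact_mod_cast h5
    apply hbad
    rw [Finset.mem_image]
    refine ⟨(i, j), Finset.mem_univ _, ?_⟩
    rw [div_eq_iff hd]
    linarith
  · intro i
    obtain ⟨h2, h3⟩ := hi i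
    have h4 := hmt i
    refine ⟨?_, ?_, ?_⟩
    · show 0 < t i - η * (((i : ℕ) : ℝ) + 1)
      linarith
    · show t i - η * (((i : ℕ) : ℝ) + 1) < t i
      linarith
    · show t i - δ < t i - η * (((i : ℕ) : ℝ) + 1)
      linarith

/-- PROOF. The same `s` and `p`: `t i - ε ≤ τ i - ε'`, `τ i + ε' ≤ t i + ε`, `1 - ∑ τ i + ε' ≤ 1 - ∑ t i + k δ + ε' ≤ 1 - ∑ t i + ε`, `ε' ≤ ε`, and `y ≥ 1`. -/
theorem BigG.mono (k : ℕ) (t τ : Fin k → ℝ) (ε ε' δ : ℝ) (h1 : ∀ i, τ i ≤ t i) (h2 : ∀ i, t i - δ ≤ τ i) (hδ : 0 ≤ δ)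
    (h3 : (k + 1) * δ + ε' ≤ ε) (y : ℝ) (hy : 1 ≤ y) (n : ℕ) (h : BigG k τ ε' y n) : BigG k t ε y n := by
  obtain ⟨s, p, hp, hn, hs, hr⟩ := h
  have hkδ : 0 ≤ (k : ℝ) * δ := by positivity
  have hε : ε' ≤ ε := by linarith
  have hsum : ∑ i, t i - k * δ ≤ ∑ i, τ i := by
    have h5 : ∑ i : Fin k, (t i - δ) ≤ ∑ i, τ i := Finset.sum_le_sum fun i _ => h2 i
    rw [Finset.sum_sub_distrib, Finset.sum_const, Finset.card_univ, Fintype.card_fin,
      nsmul_eq_mul] at h5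
    exact h5
  refine ⟨s, p, ?_, hn, ?_, ?_⟩
  · intro i
    obtain ⟨a, b, c⟩ := hp i
    have h4 := h1 i
    have h5 := h2 i
    refine ⟨a, ?_, ?_⟩
    · exact (Real.rpow_le_rpow_of_exponent_le hy (by linarith)).trans b
    · exact c.trans (Real.rpow_le_rpow_of_exponent_le hy (by linarith))
  · exact hs.trans (Real.rpow_le_rpow_of_exponent_le hy (by linarith))
  · intro r hr1 hr2
    exact (hr r hr1 hr2).trans (Real.rpow_le_rpow_of_exponent_le hy hε)

end Pool.Agent.LPr
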