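import Pool.Agent.Lib_MP_f1a94e_lp.SWlim

/-!
# Piece ABSM: abstract mean values over tuples of primes
-/

set_option autoImplicit false

namespace Pool.Agent.LPr

open Finset Filter

/-- iterated sums over primes -/
noncomputable def MX (u0 : ℝ → ℂ) (G : ℕ → ℂ) (X : ℝ) : List (ℝ × ℝ) → ℝ → ℂ
  | [], Y => u0 Y
  | w :: l, Y => ∑ p ∈ PW X w.1 w.2, G p * MX u0 G X l (Y / p)

private theorem pw_one {X u v : ℝ} {p : ℕ} (hp : p ∈ PW X u v) : (1 : ℝ) ≤ p := by
  classical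
  unfold PW at hp
  rw [mem_filter, mem_Icc] at hp
  exact_mod_cast hp.1.1

private theorem pw_prime {X u v : ℝ} {p : ℕ} (hp : p ∈ PW X u v) : p.Prime ∧ X ^ u < (p : ℝ) := by
  classical
  unfold PW at hp
  rw [mem_filter, mem_Icc] at hp
  exact hp.2

/-- PROOF. Induction on `l` with `δ` the minimum of the exponents (use `X ≥ 1`) and `C'_(w :: l) = C'_w + C'_l (log (w.2 / w.1) + 1)`:
`U X (w :: l) Y - MX (w :: l) Y = (U X (w :: l) Y - ∑_p G p U X l (Y / p)) + ∑_p G p (U X l (Y / p) - MX l (Y / p))`, `‖G p‖ ≤ g p`, `0 ≤ Y / p ≤ X ^ 2`, `∑_(p ∈ PW) g p / p ≤ log (w.2 / w.1) + 1` for large `X` (`Mert.lim`). -/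
theorem u_sub_mx (u0 : ℝ → ℂ) (G : ℕ → ℂ) (g : ℕ → ℝ) (hg : Mert g) (hG : ∀ p, ‖G p‖ ≤ g p)
    (U : ℝ → List (ℝ × ℝ) → ℝ → ℂ) (hU0 : ∀ X Y, U X [] Y = u0 Y)
    (hrec : ∀ w l, Win (w :: l) → ∃ C' δ : ℝ, 0 < δ ∧ ∀ᶠ X : ℝ in atTop, ∀ Y : ℝ, 0 ≤ Y → Y ≤ X ^ 2 →
      ‖U X (w :: l) Y - ∑ p ∈ PW X w.1 w.2, G p * U X l (Y / p)‖ ≤ C' * Y * X ^ (-δ))
    (l : List (ℝ × ℝ)) (hl : Win l) :
    ∃ C' δ : ℝ, 0 < δ ∧ ∀ᶠ X : ℝ in atTop, ∀ Y : ℝ, 0 ≤ Y → Y ≤ X ^ 2 →
      ‖U X l Y - MX u0 G X l Y‖ ≤ C' * Y * X ^ (-δ) := by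
  induction l with
  | nil =>
    refine ⟨0, 1, one_pos, Eventually.of_forall fun X Y _ _ => ?_⟩
    rw [hU0]
    simp [MX]
  | cons w l ih =>
    have hl' : Win l := fun x hx => hl x (List.mem_cons_of_mem _ hx)
    obtain ⟨C1, δ1, hδ1, h1⟩ := ih hl'
    obtain ⟨C2, δ2, hδ2, h2⟩ := hrec w l hl
    have hw := hl w List.mem_cons_self
    have h3 := (hg.lim w.1 w.2 hw.1 hw.2).eventually_le_const (lt_add_one (Real.log (w.2 / w.1)))
    refine ⟨|C2| + |C1| * (Real.log (w.2 / w.1) + 1), min δ1 δ2, lt_min hδ1 hδ2, ?_⟩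
    filter_upwards [h1, h2, h3, eventually_ge_atTop 1] with X h1 h2 h3 hX Y hY0 hY
    have hX0 : (0 : ℝ) ≤ X := zero_le_one.trans hX
    have hr1 : X ^ (-δ1) ≤ X ^ (-(min δ1 δ2)) :=
      Real.rpow_le_rpow_of_exponent_le hX (neg_le_neg (min_le_left _ _))
    have hr2 : X ^ (-δ2) ≤ X ^ (-(min δ1 δ2)) :=
      Real.rpow_le_rpow_of_exponent_le hX (neg_le_neg (min_le_right _ _))
    have hr0 : 0 ≤ X ^ (-(min δ1 δ2)) := Real.rpow_nonneg hX0 _
    have hr01 : 0 ≤ X ^ (-δ1) := Real.rpow_nonneg hX0 _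
    have hr02 : 0 ≤ X ^ (-δ2) := Real.rpow_nonneg hX0 _
    have e1 : U X (w :: l) Y - MX u0 G X (w :: l) Y =
        (U X (w :: l) Y - ∑ p ∈ PW X w.1 w.2, G p * U X l (Y / p)) +
          ∑ p ∈ PW X w.1 w.2, G p * (U X l (Y / p) - MX u0 G X l (Y / p)) := by
      simp only [MX, mul_sub, sum_sub_distrib]
      ring
    have e2 : ‖∑ p ∈ PW X w.1 w.2, G p * (U X l (Y / p) - MX u0 G X l (Y / p))‖ ≤
        ∑ p ∈ PW X w.1 w.2, g p / p * (|C1| * Y * X ^ (-(min δ1 δ2))) := by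
      refine (norm_sum_le _ _).trans (sum_le_sum fun p hp => ?_)
      rw [norm_mul]
      have hp1 : (1 : ℝ) ≤ p := pw_one hp
      have hp0 : (0 : ℝ) < p := one_pos.trans_le hp1
      have hYp0 : 0 ≤ Y / p := div_nonneg hY0 hp0.le
      have hYp : Y / p ≤ X ^ 2 := (div_le_self hY0 hp1).trans hY
      calc ‖G p‖ * ‖U X l (Y / p) - MX u0 G X l (Y / p)‖ ≤ g p * (C1 * (Y / p) * X ^ (-δ1)) :=
            mul_le_mul (hG p) (h1 _ hYp0 hYp) (norm_nonneg _) (hg.nn p)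
        _ ≤ g p * (|C1| * (Y / p) * X ^ (-(min δ1 δ2))) := by
            refine mul_le_mul_of_nonneg_left ?_ (hg.nn p)
            exact mul_le_mul (mul_le_mul_of_nonneg_right (le_abs_self C1) hYp0) hr1 hr01
              (mul_nonneg (abs_nonneg _) hYp0)
        _ = g p / p * (|C1| * Y * X ^ (-(min δ1 δ2))) := by ring
    have e3 : ∑ p ∈ PW X w.1 w.2, g p / p * (|C1| * Y * X ^ (-(min δ1 δ2))) ≤
        (Real.log (w.2 / w.1) + 1) * (|C1| * Y * X ^ (-(min δ1 δ2))) := by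
      rw [← sum_mul]
      exact mul_le_mul_of_nonneg_right h3 (mul_nonneg (mul_nonneg (abs_nonneg _) hY0) hr0)
    have e4 : ‖U X (w :: l) Y - ∑ p ∈ PW X w.1 w.2, G p * U X l (Y / p)‖ ≤ |C2| * Y * X ^ (-(min δ1 δ2)) := by
      refine (h2 Y hY0 hY).trans ?_
      exact mul_le_mul (mul_le_mul_of_nonneg_right (le_abs_self C2) hY0) hr2 hr02
        (mul_nonneg (abs_nonneg _) hY0)
    rw [e1]
    refine (norm_add_le _ _).trans ((add_le_add e4 (e2.trans e3)).trans (le_of_eq ?_))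
    ring

/-- the error term -/
private noncomputable def Er (g : ℕ → ℝ) (ε C2 κ X : ℝ) (l : List (ℝ × ℝ)) (Y : ℝ) : ℝ :=
  ε * Y * SW g X l (Real.log Y / Real.log X) +
    C2 * Y * (SW g X l (Real.log Y / Real.log X) - SW g X l (Real.log Y / Real.log X - κ))

private theorem er_cons (g : ℕ → ℝ) (ε C2 κ X : ℝ) (w : ℝ × ℝ) (l : List (ℝ × ℝ)) (Y : ℝ) (hY : 0 < Y) :
    Er g ε C2 κ X (w :: l) Y = ∑ p ∈ PW X w.1 w.2, g p * Er g ε C2 κ X l (Y / p) := by
  unfold Er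
  simp only [SW]
  rw [mul_sum, ← sum_sub_distrib, mul_sum, ← sum_add_distrib]
  refine sum_congr rfl fun p hp => ?_
  have hp1 : (1 : ℝ) ≤ p := pw_one hp
  have hp0 : (0 : ℝ) < p := one_pos.trans_le hp1
  have hl : Real.log (Y / p) / Real.log X = Real.log Y / Real.log X - Real.log p / Real.log X := by
    rw [Real.log_div hY.ne' hp0.ne', sub_div]
  rw [hl]
  have h2 : Real.log Y / Real.log X - κ - Real.log p / Real.log X =
      Real.log Y / Real.log X - Real.log p / Real.log X - κ := by ring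
  rw [h2]
  ring

private theorem mx_step (u0 : ℝ → ℂ) (ρ : ℂ) (G : ℕ → ℂ) (g : ℕ → ℝ) (hg : Mert g) (hG : ∀ p, ‖G p‖ ≤ g p)
    (hr : ρ = 0 ∨ ∃ P : ℕ, ∀ p : ℕ, P ≤ p → p.Prime → G p = g p) (ε C2 : ℝ) (κ : ℝ → ℝ)
    (h0 : ∀ᶠ X : ℝ in atTop, ∀ Y : ℝ, 0 < Y →
      ‖u0 Y - ρ * Y * SW g X [] (Real.log Y / Real.log X)‖ ≤ Er g ε C2 (κ X) X [] Y)
    (l : List (ℝ × ℝ)) (hl : Win l) :
    ∀ᶠ X : ℝ in atTop, ∀ Y : ℝ, 0 < Y →
      ‖MX u0 G X l Y - ρ * Y * SW g X l (Real.log Y / Real.log X)‖ ≤ Er g ε C2 (κ X) X l Y := by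
  induction l with
  | nil => exact h0
  | cons w l ih =>
    have hl' : Win l := fun x hx => hl x (List.mem_cons_of_mem _ hx)
    have hw := hl w List.mem_cons_self
    have hP : ∀ᶠ X : ℝ in atTop, ρ = 0 ∨ ∀ p ∈ PW X w.1 w.2, G p = g p := by
      rcases hr with hr | ⟨P, hP⟩
      · exact Eventually.of_forall fun _ => Or.inl hr
      · filter_upwards [(tendsto_rpow_atTop hw.1).eventually_ge_atTop (P : ℝ)] with X hX
        refine Or.inr fun p hp => ?_
        obtain ⟨h1, h2⟩ := pw_prime hp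
        exact hP p (by exact_mod_cast (hX.trans h2.le)) h1
    filter_upwards [ih hl', hP] with X h1 hP Y hY
    rw [er_cons g ε C2 (κ X) X w l Y hY]
    have e1 : MX u0 G X (w :: l) Y - ρ * Y * SW g X (w :: l) (Real.log Y / Real.log X) =
        ∑ p ∈ PW X w.1 w.2, (G p * MX u0 G X l (Y / p) -
          ρ * (g p * ((Y / p : ℝ) : ℂ) * SW g X l (Real.log (Y / p) / Real.log X))) := by
      simp only [MX, SW]
      rw [sum_sub_distrib, ← mul_sum]
      congr 1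
      rw [mul_assoc]
      congr 1
      push_cast
      rw [mul_sum]
      refine sum_congr rfl fun p hp => ?_
      have hp1 : (1 : ℝ) ≤ p := pw_one hp
      have hp0 : (0 : ℝ) < p := one_pos.trans_le hp1
      have hl : Real.log (Y / p) / Real.log X = Real.log Y / Real.log X - Real.log p / Real.log X := by
        rw [Real.log_div hY.ne' hp0.ne', sub_div]
      rw [hl]
      ring
    rw [e1]
    refine (norm_sum_le _ _).trans (sum_le_sum fun p hp => ?_)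
    have hp1 : (1 : ℝ) ≤ p := pw_one hp
    have hp0 : (0 : ℝ) < p := one_pos.trans_le hp1
    have hYp : 0 < Y / p := div_pos hY hp0
    have h2 := h1 (Y / p) hYp
    rcases hP with hρ | hP
    · rw [hρ] at h2 ⊢
      rw [zero_mul, sub_zero, norm_mul]
      rw [zero_mul, zero_mul, sub_zero] at h2
      exact mul_le_mul (hG p) h2 (norm_nonneg _) (hg.nn p)
    · rw [hP p hp]
      have e2 : (g p : ℂ) * MX u0 G X l (Y / p) -
          ρ * (g p * ((Y / p : ℝ) : ℂ) * SW g X l (Real.log (Y / p) / Real.log X)) =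
          (g p : ℂ) * (MX u0 G X l (Y / p) -
            ρ * ((Y / p : ℝ) : ℂ) * SW g X l (Real.log (Y / p) / Real.log X)) := by
        ring
      rw [e2, norm_mul, Complex.norm_real, Real.norm_of_nonneg (hg.nn p)]
      exact mul_le_mul_of_nonneg_left h2 (hg.nn p)

private theorem mx_base (u0 : ℝ → ℂ) (ρ : ℂ) (C : ℝ) (h0 : ∀ Y : ℝ, Y < 1 → u0 Y = 0)
    (hb : ∀ Y : ℝ, 0 ≤ Y → ‖u0 Y‖ ≤ C * Y) (g : ℕ → ℝ) (ε K : ℝ) (hε : 0 ≤ ε) (hK : 1 ≤ K)
    (hlK : ∀ Y : ℝ, K ≤ Y → ‖u0 Y - ρ * Y‖ ≤ ε * Y) :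
    ∀ᶠ X : ℝ in atTop, ∀ Y : ℝ, 0 < Y →
      ‖u0 Y - ρ * Y * SW g X [] (Real.log Y / Real.log X)‖ ≤
        Er g ε (C + ‖ρ‖) (Real.log K / Real.log X) X [] Y := by
  filter_upwards [eventually_gt_atTop 1] with X hX Y hY
  have hlX : 0 < Real.log X := Real.log_pos hX
  unfold Er
  simp only [SW]
  rcases lt_or_ge Y 1 with h1 | h1
  · have hlY : Real.log Y < 0 := Real.log_neg hY h1
    have n1 : ¬ 0 ≤ Real.log Y / Real.log X := not_le.2 (div_neg_of_neg_of_pos hlY hlX)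
    have hk : 0 ≤ Real.log K / Real.log X := div_nonneg (Real.log_nonneg hK) hlX.le
    have n2 : ¬ 0 ≤ Real.log Y / Real.log X - Real.log K / Real.log X := by
      intro h
      exact n1 (by linarith)
    rw [if_neg n1, if_neg n2, h0 Y h1]
    simp
  · have y1 : 0 ≤ Real.log Y / Real.log X := div_nonneg (Real.log_nonneg h1) hlX.le
    rw [if_pos y1]
    rcases lt_or_ge Y K with h2 | h2
    · have n2 : ¬ 0 ≤ Real.log Y / Real.log X - Real.log K / Real.log X := by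
        rw [← sub_div]
        exact not_le.2 (div_neg_of_neg_of_pos (sub_neg.2 (Real.log_lt_log hY h2)) hlX)
      rw [if_neg n2]
      have h3 := hb Y hY.le
      calc ‖u0 Y - ρ * Y * ((1 : ℝ) : ℂ)‖ ≤ ‖u0 Y‖ + ‖ρ * Y * ((1 : ℝ) : ℂ)‖ := norm_sub_le _ _
        _ ≤ C * Y + ‖ρ‖ * Y := by
            refine add_le_add h3 (le_of_eq ?_)
            rw [Complex.ofReal_one, mul_one, norm_mul, Complex.norm_real, Real.norm_of_nonneg hY.le]
        _ ≤ ε * Y * 1 + (C + ‖ρ‖) * Y * (1 - 0) := by nlinarith [mul_nonneg hε hY.le]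
    · have y2 : 0 ≤ Real.log Y / Real.log X - Real.log K / Real.log X := by
        rw [← sub_div]
        exact div_nonneg (sub_nonneg.2 (Real.log_le_log (one_pos.trans_le hK) h2)) hlX.le
      rw [if_pos y2, Complex.ofReal_one, mul_one, mul_one, sub_self, mul_zero, add_zero]
      exact hlK Y h2

/-- PROOF. Case 1, `G p = g p` for the primes `p ≥ P`. Write `s Y = log Y / log X` (`X > 1`, `Y > 0`), `1[Y ≥ 1] = 1[s Y ≥ 0] = SW g X [] (s Y)`, `s (Y / p) = s Y - log p / log X`. From the hypotheses on `u0`: for every `ε` there is `K ≥ 1` with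
`‖u0 Y - ρ Y SW g X [] (s Y)‖ ≤ ε Y SW [] (s Y) + C2 Y (SW [] (s Y) - SW [] (s Y - log K / log X))`, `C2 = C + ‖ρ‖` (for `Y < 1` both sides vanish; for `1 ≤ Y < K` the last bracket is `1`; for `Y ≥ K` use the limit). By induction on `l` (for `X` so large that
`X ^ w.1 ≥ P` for the windows of `l`, so `G p = g p`), for all `Y > 0`: `‖MX l Y - ρ Y SW g X l (s Y)‖ ≤ ε Y SW g X l (s Y) + C2 Y (SW g X l (s Y) - SW g X l (s Y - log K / log X))`. At `Y = a X`: the first term is `≤ ε a X (B + 1)` (`sw_bd`), the second is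
`≤ C2 a X ε` for large `X` if `l ≠ []` (`sw_equi`, `log K / log X → 0`), and for `l = []` it vanishes for large `X` (`s Y - log K / log X ≥ 0`). With `sw_at`: `MX l (a X) / X → ρ a NW l`.
Case 2, `ρ = 0`: the same with `‖MX l Y‖ ≤ ε Y SW g X l (s Y) + C Y (SW g X l (s Y) - SW g X l (s Y - log K / log X))` (only `‖G p‖ ≤ g p` is used). -/
theorem mx_lim (u0 : ℝ → ℂ) (ρ : ℂ) (C : ℝ) (h0 : ∀ Y : ℝ, Y < 1 → u0 Y = 0) (hb : ∀ Y : ℝ, 0 ≤ Y → ‖u0 Y‖ ≤ C * Y)
    (hl0 : Tendsto (fun Y : ℝ => u0 Y / Y) atTop (nhds ρ)) (G : ℕ → ℂ) (g : ℕ → ℝ) (hg : Mert g) (hG : ∀ p, ‖G p‖ ≤ g p)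
    (hr : ρ = 0 ∨ ∃ P : ℕ, ∀ p : ℕ, P ≤ p → p.Prime → G p = g p) (l : List (ℝ × ℝ)) (hl : Win l) (a : ℝ) (ha : 0 < a) :
    Tendsto (fun X : ℝ => MX u0 G X l (a * X) / X) atTop (nhds (ρ * a * NW l)) := by
  have hT : Tendsto (fun X : ℝ => ρ * a * (SW g X l (Real.log (a * X) / Real.log X) : ℂ)) atTop
      (nhds (ρ * a * NW l)) :=
    ((Complex.continuous_ofReal.tendsto _).comp (sw_at g hg l hl a ha)).const_mul _
  have hF : Tendsto (fun X : ℝ => MX u0 G X l (a * X) / X -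
      ρ * a * (SW g X l (Real.log (a * X) / Real.log X) : ℂ)) atTop (nhds 0) := by
    rw [Metric.tendsto_nhds]
    intro η hη
    obtain ⟨B, hB0, hB⟩ := sw_bd g hg l hl
    have hC0 : 0 ≤ C := by
      have := (norm_nonneg _).trans (hb 1 zero_le_one)
      linarith
    have hC2 : 0 ≤ C + ‖ρ‖ := add_nonneg hC0 (norm_nonneg _)
    set C2 : ℝ := C + ‖ρ‖ with hC2d
    have hB1 : 0 < B + 1 := by linarith
    have hε : 0 < η / (4 * a * (B + 1)) := by positivity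
    set ε : ℝ := η / (4 * a * (B + 1)) with hεd
    have hε2 : 0 < η / (4 * (C2 * a + 1)) := by positivity
    set ε2 : ℝ := η / (4 * (C2 * a + 1)) with hε2d
    obtain ⟨K0, hK0⟩ := eventually_atTop.1 (Metric.tendsto_nhds.1 hl0 ε hε)
    set K : ℝ := max K0 1 with hKd
    have hK1 : 1 ≤ K := le_max_right _ _
    have hlK : ∀ Y : ℝ, K ≤ Y → ‖u0 Y - ρ * Y‖ ≤ ε * Y := by
      intro Y hY
      have hY0 : 0 < Y := one_pos.trans_le (hK1.trans hY)
      have h1 := hK0 Y ((le_max_left _ _).trans hY)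
      rw [dist_eq_norm] at h1
      have hYc : (Y : ℂ) ≠ 0 := by exact_mod_cast hY0.ne'
      have h2 : u0 Y - ρ * Y = (u0 Y / Y - ρ) * Y := by
        field_simp
      rw [h2, norm_mul, Complex.norm_real, Real.norm_of_nonneg hY0.le]
      exact mul_le_mul_of_nonneg_right h1.le hY0.le
    have hst := mx_step u0 ρ G g hg hG hr ε C2 (fun X => Real.log K / Real.log X)
      (mx_base u0 ρ C h0 hb g ε K hε.le hK1 hlK) l hl
    have hsm : ∀ᶠ X : ℝ in atTop, SW g X l (Real.log (a * X) / Real.log X) -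
        SW g X l (Real.log (a * X) / Real.log X - Real.log K / Real.log X) ≤ ε2 := by
      by_cases hne : l = []
      · subst hne
        filter_upwards [eventually_gt_atTop 1, eventually_ge_atTop (K / a)] with X h1 h2
        have hlX : 0 < Real.log X := Real.log_pos h1
        have hKX : K ≤ a * X := by
          rw [div_le_iff₀ ha] at h2
          linarith
        have y2 : 0 ≤ Real.log (a * X) / Real.log X - Real.log K / Real.log X := by
          rw [← sub_div]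
          exact div_nonneg (sub_nonneg.2 (Real.log_le_log (one_pos.trans_le hK1) hKX)) hlX.le
        have y1 : 0 ≤ Real.log (a * X) / Real.log X :=
          div_nonneg (Real.log_nonneg (hK1.trans hKX)) hlX.le
        simp only [SW]
        rw [if_pos y1, if_pos y2, sub_self]
        exact hε2.le
      · obtain ⟨η', hη', h⟩ := sw_equi g hg l hl hne ε2 hε2
        have hκ : Tendsto (fun X : ℝ => Real.log K / Real.log X) atTop (nhds 0) :=
          Tendsto.div_atTop tendsto_const_nhds Real.tendsto_log_atTop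
        filter_upwards [h, hκ.eventually_le_const hη'] with X h1 h2
        have h3 := h1 (Real.log (a * X) / Real.log X - Real.log K / Real.log X)
        have h4 := sw_mono g hg.nn X l (Real.log (a * X) / Real.log X)
          (Real.log (a * X) / Real.log X - Real.log K / Real.log X + η') (by linarith)
        linarith
    filter_upwards [hst, hsm, hB, eventually_gt_atTop 0] with X h1 h2 h3 hX
    have haX : 0 < a * X := mul_pos ha hX
    have e := h1 (a * X) haX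
    unfold Er at e
    have hXc : (X : ℂ) ≠ 0 := by exact_mod_cast hX.ne'
    have e2 : MX u0 G X l (a * X) / X - ρ * a * (SW g X l (Real.log (a * X) / Real.log X) : ℂ) =
        (MX u0 G X l (a * X) - ρ * ((a * X : ℝ) : ℂ) * SW g X l (Real.log (a * X) / Real.log X)) / X := by
      push_cast
      field_simp
    rw [dist_zero_right, e2, norm_div, Complex.norm_real, Real.norm_of_nonneg hX.le, div_lt_iff₀ hX]
    refine e.trans_lt ?_
    have i1 : ε * (a * X) * SW g X l (Real.log (a * X) / Real.log X) ≤ ε * (a * X) * B :=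
      mul_le_mul_of_nonneg_left (h3 _) (mul_nonneg hε.le haX.le)
    have i2 : C2 * (a * X) * (SW g X l (Real.log (a * X) / Real.log X) -
        SW g X l (Real.log (a * X) / Real.log X - Real.log K / Real.log X)) ≤ C2 * (a * X) * ε2 :=
      mul_le_mul_of_nonneg_left h2 (mul_nonneg hC2 haX.le)
    have i3 : ε * a * B ≤ η / 4 := by
      have h5 : ε * a * (B + 1) = η / 4 := by
        rw [hεd]
        field_simp
      nlinarith [mul_pos hε ha]
    have i4 : C2 * a * ε2 ≤ η / 4 := by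
      have h5 : (C2 * a + 1) * ε2 = η / 4 := by
        rw [hε2d]
        have : C2 * a + 1 ≠ 0 := by positivity
        field_simp
      nlinarith
    have i5 : ε * (a * X) * B = ε * a * B * X := by ring
    have i6 : C2 * (a * X) * ε2 = C2 * a * ε2 * X := by ring
    nlinarith [mul_le_mul_of_nonneg_right i3 hX.le, mul_le_mul_of_nonneg_right i4 hX.le, mul_pos hη hX]
  simpa using hF.add hT

/-- `u_sub_mx` and `mx_lim` (for `X` large `0 ≤ a X ≤ X ^ 2`, and `C' (a X) X^(-δ) / X → 0`). -/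
theorem abs_mean (u0 : ℝ → ℂ) (ρ : ℂ) (C : ℝ) (h0 : ∀ Y : ℝ, Y < 1 → u0 Y = 0) (hb : ∀ Y : ℝ, 0 ≤ Y → ‖u0 Y‖ ≤ C * Y)
    (hl0 : Tendsto (fun Y : ℝ => u0 Y / Y) atTop (nhds ρ)) (G : ℕ → ℂ) (g : ℕ → ℝ) (hg : Mert g) (hG : ∀ p, ‖G p‖ ≤ g p)
    (hr : ρ = 0 ∨ ∃ P : ℕ, ∀ p : ℕ, P ≤ p → p.Prime → G p = g p)
    (U : ℝ → List (ℝ × ℝ) → ℝ → ℂ) (hU0 : ∀ X Y, U X [] Y = u0 Y)
    (hrec : ∀ w l, Win (w :: l) → ∃ C' δ : ℝ, 0 < δ ∧ ∀ᶠ X : ℝ in atTop, ∀ Y : ℝ, 0 ≤ Y → Y ≤ X ^ 2 →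
      ‖U X (w :: l) Y - ∑ p ∈ PW X w.1 w.2, G p * U X l (Y / p)‖ ≤ C' * Y * X ^ (-δ))
    (l : List (ℝ × ℝ)) (hl : Win l) (a : ℝ) (ha : 0 < a) :
    Tendsto (fun X : ℝ => U X l (a * X) / X) atTop (nhds (ρ * a * NW l)) := by
  obtain ⟨C', δ, hδ, h1⟩ := u_sub_mx u0 G g hg hG U hU0 hrec l hl
  have h2 := mx_lim u0 ρ C h0 hb hl0 G g hg hG hr l hl a ha
  have h3 : Tendsto (fun X : ℝ => U X l (a * X) / X - MX u0 G X l (a * X) / X) atTop (nhds 0) := by
    refine squeeze_zero_norm' (a := fun X : ℝ => |C'| * a * X ^ (-δ)) ?_ ?_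
    · filter_upwards [h1, eventually_ge_atTop 1, eventually_ge_atTop a] with X h1 hX hXa
      have hX0 : 0 < X := one_pos.trans_le hX
      have haX : a * X ≤ X ^ 2 := by nlinarith
      have haX0 : 0 ≤ a * X := (mul_pos ha hX0).le
      have e := h1 (a * X) haX0 haX
      have hr0 : 0 ≤ X ^ (-δ) := Real.rpow_nonneg hX0.le _
      rw [← sub_div, norm_div, Complex.norm_real, Real.norm_of_nonneg hX0.le, div_le_iff₀ hX0]
      refine e.trans ?_
      have h4 : C' * (a * X) * X ^ (-δ) ≤ |C'| * (a * X) * X ^ (-δ) :=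
        mul_le_mul_of_nonneg_right (mul_le_mul_of_nonneg_right (le_abs_self _) haX0) hr0
      refine h4.trans (le_of_eq ?_)
      ring
    · simpa using (tendsto_rpow_neg_atTop hδ).const_mul (|C'| * a)
  simpa using h3.add h2

end Pool.Agent.LPr
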