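import Pool.Agent.Lib_MP_f1a94e_lp.Defs
import Pool.Agent.Lib_MP_f1a94e_ecm.ArcDec

/-!
# Piece ARCDECG: sums over a residue class and an arc in terms of characters
-/

set_option autoImplicit false

namespace Pool.Agent.LPr

open Finset Pool.Agent.GaussMR Pool.Agent.GaussCM Pool.Agent.OmAll Pool.Agent.ECM

open Classical in
/-- PROOF. Copy of `arc_dec` (ecm/ArcDec.lean): the same `D'`, `n`, `χ`, `m = nm δ`, `φ = arg δ` and `c_i` (there `a_i = (-1)^Ω(nm δ) c_i`); every step multiplies `(-1)^Ω(nm z)`, which is replaced by `f (nm z)`: `f (nm (δ z')) = f (nm δ) f (nm z')`.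
In the degenerate case (no odd primitive `z ≡ b`) take `n = 0`. The second identity is the same without arcs (`fcC F X 0 = ∑_(V X) F z` since `xi 0 z = 1` on `V X`). -/
theorem arc_decG (D : ℕ) (hD : 0 < D) (b : G) : ∃ (D' : ℕ) (n : ℕ) (χ : Fin n → G → ℂ) (c : Fin n → ℂ) (m : ℕ) (φ : ℝ), 0 < D' ∧ 0 < m ∧
    (∀ i, Chi D' (χ i)) ∧ (∀ i, ‖c i‖ ≤ 1) ∧ ∀ f : ℕ → ℂ, (∀ m n, f (m * n) = f m * f n) →
      (∀ X w θ : ℝ, (∑ z ∈ (V X).filter (fun z => cg D z b ∧ InArc θ w z), f (nm z)) =
        f m * ∑ i, c i * arcS (FG f (χ i)) (X / m) w (θ - φ)) ∧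
      (∀ X : ℝ, clS f D b X = f m * ∑ i, c i * fcC (FG f (χ i)) (X / m) 0) := by
  by_cases hex : ∃ z0 : G, Odd (nm z0) ∧ Prim z0 ∧ cg D z0 b
  swap
  · refine ⟨1, 0, fun i => i.elim0, fun i => i.elim0, 1, 0, one_pos, one_pos, fun i => i.elim0,
      fun i => i.elim0, ?_⟩
    intro f _
    constructor
    · intro X w θ
      rw [Finset.univ_eq_empty, Finset.sum_empty, mul_zero]
      apply Finset.sum_eq_zero
      intro z hz
      exfalso
      rw [Finset.mem_filter, mem_V] at hz
      exact hex ⟨z, hz.1.2.1, hz.1.2.2, hz.2.1⟩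
    · intro X
      rw [Finset.univ_eq_empty, Finset.sum_empty, mul_zero]
      unfold clS
      apply Finset.sum_eq_zero
      intro z hz
      exfalso
      rw [Finset.mem_filter, mem_V] at hz
      exact hex ⟨z, hz.1.2.1, hz.1.2.2, hz.2⟩
  obtain ⟨z0, hz0o, hz0p, hz0c⟩ := hex
  have hDG : ((D : ℕ) : G) ≠ 0 := by exact_mod_cast hD.ne'
  set δ : G := EuclideanDomain.gcd b ((D : ℕ) : G) with hδdef
  obtain ⟨b', hb'⟩ : δ ∣ b := EuclideanDomain.gcd_dvd_left _ _
  obtain ⟨μ, hμ⟩ : δ ∣ ((D : ℕ) : G) := EuclideanDomain.gcd_dvd_right _ _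
  have hδ0 : δ ≠ 0 := by
    intro h
    rw [h, zero_mul] at hμ
    exact hDG hμ
  have hμ0 : μ ≠ 0 := by
    intro h
    rw [h, mul_zero] at hμ
    exact hDG hμ
  have hcop : IsCoprime b' μ := by
    have h1 : δ = b * EuclideanDomain.gcdA b ((D : ℕ) : G) + ((D : ℕ) : G) * EuclideanDomain.gcdB b ((D : ℕ) : G) :=
      EuclideanDomain.gcd_eq_gcd_ab _ _
    refine ⟨EuclideanDomain.gcdA b ((D : ℕ) : G), EuclideanDomain.gcdB b ((D : ℕ) : G), ?_⟩
    have h2 : δ * (EuclideanDomain.gcdA b ((D : ℕ) : G) * b' + EuclideanDomain.gcdB b ((D : ℕ) : G) * μ) = δ * 1 := by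
      calc δ * (EuclideanDomain.gcdA b ((D : ℕ) : G) * b' + EuclideanDomain.gcdB b ((D : ℕ) : G) * μ)
          = (δ * b') * EuclideanDomain.gcdA b ((D : ℕ) : G) + (δ * μ) * EuclideanDomain.gcdB b ((D : ℕ) : G) := by ring
        _ = δ * 1 := by rw [← hb', ← hμ, mul_one]; exact h1.symm
    exact mul_left_cancel₀ hδ0 h2
  -- the gcd is odd and primitive
  have hδz0 : δ ∣ z0 := by
    have h1 := (arcdec_cg D z0 b).1 hz0c
    have h2 : δ ∣ z0 - b := dvd_trans ⟨μ, hμ⟩ h1
    have h3 := dvd_add h2 (⟨b', hb'⟩ : δ ∣ b)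
    rwa [sub_add_cancel] at h3
  obtain ⟨y0, hy0⟩ := hδz0
  have hδo : Odd (nm δ) := by
    rw [hy0] at hz0o
    exact (odd_nm_mul.1 hz0o).1
  have hδp : Prim δ := by
    rw [hy0] at hz0p
    exact (prim_of_mul hz0p).1
  have hm : 0 < nm δ := nm_pos hδ0
  obtain ⟨n, χ, c, hχ, hc, hc1, hc0⟩ := cls_char μ hμ0 b' hcop
  refine ⟨2 * D * nm δ, n, fun i z => χ i z * (if Odd (nm z) ∧ IsCoprime z (star δ) then 1 else 0),
    c, nm δ, Complex.arg (δ : ℂ), by positivity, hm, ?_, ?_, ?_⟩
  · intro i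
    obtain ⟨h1, h2, h3, h4⟩ := hχ i
    constructor
    · have h5 : Odd (nm (1 : G)) ∧ IsCoprime (1 : G) (star δ) := by
        rw [nm_one]
        exact ⟨odd_one, isCoprime_one_left⟩
      beta_reduce
      rw [h1, if_pos h5, one_mul]
    · intro z w
      beta_reduce
      rw [h2]
      by_cases hz : Odd (nm z) ∧ IsCoprime z (star δ)
      · by_cases hw : Odd (nm w) ∧ IsCoprime w (star δ)
        · have hzw : Odd (nm (z * w)) ∧ IsCoprime (z * w) (star δ) :=
            ⟨odd_nm_mul.2 ⟨hz.1, hw.1⟩, IsCoprime.mul_left hz.2 hw.2⟩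
          rw [if_pos hz, if_pos hw, if_pos hzw]
          ring
        · have hzw : ¬ (Odd (nm (z * w)) ∧ IsCoprime (z * w) (star δ)) := by
            rintro ⟨h5, h6⟩
            exact hw ⟨(odd_nm_mul.1 h5).2, (IsCoprime.mul_left_iff.1 h6).2⟩
          rw [if_neg hw, if_neg hzw]
          ring
      · have hzw : ¬ (Odd (nm (z * w)) ∧ IsCoprime (z * w) (star δ)) := by
          rintro ⟨h5, h6⟩
          exact hz ⟨(odd_nm_mul.1 h5).1, (IsCoprime.mul_left_iff.1 h6).1⟩
        rw [if_neg hz, if_neg hzw]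
        ring
    · intro z w hzw
      have h5 : ((2 * D * nm δ : ℕ) : G) ∣ z - w := (arcdec_cg _ z w).1 hzw
      have h6 : μ ∣ z - w := by
        refine dvd_trans ?_ h5
        refine ⟨2 * δ * ((nm δ : ℕ) : G), ?_⟩
        push_cast
        rw [hμ]
        ring
      have h7 : star δ ∣ z - w := by
        refine dvd_trans ?_ h5
        refine ⟨2 * ((D : ℕ) : G) * δ, ?_⟩
        push_cast
        rw [← clschar_mul_star]
        ring
      have h8 : IsCoprime z (star δ) ↔ IsCoprime w (star δ) := by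
        obtain ⟨k, hk⟩ := h7
        have h9 : z = w + star δ * k := by rw [← hk]; ring
        rw [h9]
        exact IsCoprime.add_mul_left_left_iff
      have h10 : Odd (nm z) ↔ Odd (nm w) := by
        rw [odd_nm_iff, odd_nm_iff]
        obtain ⟨h11, h12⟩ := hzw
        have h13 : (2 : ℤ) ∣ z.re - w.re := by
          refine dvd_trans ?_ h11
          push_cast
          rw [mul_assoc]
          exact dvd_mul_right _ _
        have h14 : (2 : ℤ) ∣ z.im - w.im := by
          refine dvd_trans ?_ h12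
          push_cast
          rw [mul_assoc]
          exact dvd_mul_right _ _
        rw [Int.odd_iff, Int.odd_iff]
        omega
      have h15 := h3 z w h6
      simp only [h15, h8, h10]
    · intro z hz
      have h5 : ¬ (Odd (nm z) ∧ IsCoprime z (star δ)) := fun h => hz h.1
      simp only [if_neg h5, mul_zero]
    · intro z
      beta_reduce
      rw [norm_mul]
      have h5 : ‖(if Odd (nm z) ∧ IsCoprime z (star δ) then (1 : ℂ) else 0)‖ ≤ 1 := by
        split_ifs
        · simp
        · simp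
      calc ‖χ i z‖ * ‖(if Odd (nm z) ∧ IsCoprime z (star δ) then (1 : ℂ) else 0)‖ ≤ 1 * 1 :=
            mul_le_mul (h4 z) h5 (norm_nonneg _) zero_le_one
        _ = 1 := one_mul 1
  · intro i
    exact (Finset.single_le_sum (f := fun i => ‖c i‖) (fun j _ => norm_nonneg _) (Finset.mem_univ i)).trans hc
  · intro f hf
    have hmR : (0 : ℝ) < (nm δ : ℕ) := by exact_mod_cast hm
    have hchar : ∀ z : G, Odd (nm z) → ∑ i, c i * (χ i z * (if Odd (nm z) ∧ IsCoprime z (star δ) then 1 else 0)) =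
        if IsCoprime z (star δ) ∧ μ ∣ z - b' then 1 else 0 := by
      intro z hz
      by_cases hco : IsCoprime z (star δ)
      swap
      · have h1 : ¬ (IsCoprime z (star δ) ∧ μ ∣ z - b') := fun h => hco h.1
        have h2 : ¬ (Odd (nm z) ∧ IsCoprime z (star δ)) := fun h => hco h.2
        rw [if_neg h1]
        simp only [if_neg h2, mul_zero, Finset.sum_const_zero]
      have h2 : (Odd (nm z) ∧ IsCoprime z (star δ)) := ⟨hz, hco⟩
      simp only [if_pos h2, mul_one]
      by_cases hd : μ ∣ z - b'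
      · rw [hc1 z hd, if_pos ⟨hco, hd⟩]
      · have h1 : ¬ (IsCoprime z (star δ) ∧ μ ∣ z - b') := fun h => hd h.2
        rw [hc0 z hd, if_neg h1]
    have hbij : ∀ (u : G → ℂ) (X : ℝ), ∑ z ∈ (V X).filter (fun z => cg D z b), u z =
        ∑ z ∈ (V (X / (nm δ : ℕ))).filter (fun z => IsCoprime z (star δ) ∧ μ ∣ z - b'), u (δ * z) := by
      intro u X
      symm
      refine Finset.sum_bij (fun z _ => δ * z) ?_ ?_ ?_ ?_
      · intro z hz
        rw [Finset.mem_filter, mem_V] at hz
        obtain ⟨⟨h1, h2, h3⟩, h5, h6⟩ := hz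
        rw [Finset.mem_filter, mem_V]
        refine ⟨⟨?_, odd_nm_mul.2 ⟨hδo, h2⟩, (arcdec_prim hδp h3).2 h5⟩, ?_⟩
        · rw [nm_mul]
          push_cast
          rw [le_div_iff₀ hmR] at h1
          linarith
        · rw [arcdec_cg, hμ, hb', ← mul_sub]
          exact mul_dvd_mul_left δ h6
      · intro z _ z' _ h
        exact mul_left_cancel₀ hδ0 h
      · intro z hz
        rw [Finset.mem_filter, mem_V] at hz
        obtain ⟨⟨h1, h2, h3⟩, h4⟩ := hz
        have h6 := (arcdec_cg D z b).1 h4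
        have h7 : δ ∣ z := by
          have h2 : δ ∣ z - b := dvd_trans ⟨μ, hμ⟩ h6
          have h3 := dvd_add h2 (⟨b', hb'⟩ : δ ∣ b)
          rwa [sub_add_cancel] at h3
        obtain ⟨y, rfl⟩ := h7
        have h8 := odd_nm_mul.1 h2
        have h9 := prim_of_mul h3
        refine ⟨y, ?_, rfl⟩
        rw [Finset.mem_filter, mem_V]
        refine ⟨⟨?_, h8.2, h9.2⟩, (arcdec_prim hδp h9.2).1 h3, ?_⟩
        · rw [nm_mul] at h1
          push_cast at h1
          rw [le_div_iff₀ hmR]
          linarith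
        · rw [hμ, hb', ← mul_sub] at h6
          exact (mul_dvd_mul_iff_left hδ0).1 h6
      · intro z _
        rfl
    -- the general identity
    have hgen : ∀ (g : G → ℂ) (X : ℝ),
        f (nm δ) * ∑ i, c i * ∑ z ∈ V (X / (nm δ : ℕ)),
          g z * FG f (fun z => χ i z * (if Odd (nm z) ∧ IsCoprime z (star δ) then 1 else 0)) z =
        ∑ z ∈ (V (X / (nm δ : ℕ))).filter (fun z => IsCoprime z (star δ) ∧ μ ∣ z - b'),
          g z * f (nm (δ * z)) := by
      intro g X
      rw [Finset.sum_filter]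
      simp only [Finset.mul_sum]
      rw [Finset.sum_comm]
      refine Finset.sum_congr rfl fun z hz => ?_
      have hzV := mem_V.1 hz
      have h3 : ∀ i : Fin n, f (nm δ) * (c i * (g z *
          FG f (fun z => χ i z * (if Odd (nm z) ∧ IsCoprime z (star δ) then 1 else 0)) z)) =
          g z * f (nm (δ * z)) * (c i * (χ i z * (if Odd (nm z) ∧ IsCoprime z (star δ) then 1 else 0))) := by
        intro i
        simp only [FG]
        rw [nm_mul, hf]
        ring
      rw [Finset.sum_congr rfl fun i _ => h3 i, ← Finset.mul_sum, hchar z hzV.2.1]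
      split_ifs
      · rw [mul_one]
      · rw [mul_zero]
    constructor
    · intro X w θ
      have e1 : ∑ z ∈ (V X).filter (fun z => cg D z b ∧ InArc θ w z), f (nm z) =
          ∑ z ∈ (V X).filter (fun z => cg D z b), if InArc θ w z then f (nm z) else 0 := by
        rw [← Finset.filter_filter, Finset.sum_filter (fun z => InArc θ w z)]
      rw [e1, hbij]
      have e2 : ∀ i : Fin n, arcS (FG f (fun z => χ i z * (if Odd (nm z) ∧ IsCoprime z (star δ) then 1 else 0)))
          (X / (nm δ : ℕ)) w (θ - Complex.arg (δ : ℂ)) = ∑ z ∈ V (X / (nm δ : ℕ)),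
          (if InArc (θ - Complex.arg (δ : ℂ)) w z then 1 else 0) *
            FG f (fun z => χ i z * (if Odd (nm z) ∧ IsCoprime z (star δ) then 1 else 0)) z := by
        intro i
        unfold arcS
        refine Finset.sum_congr rfl fun z _ => ?_
        rw [ite_mul, one_mul, zero_mul]
      have e3 : ∑ i, c i * arcS (FG f (fun z => χ i z * (if Odd (nm z) ∧ IsCoprime z (star δ) then 1 else 0)))
          (X / (nm δ : ℕ)) w (θ - Complex.arg (δ : ℂ)) = ∑ i, c i * ∑ z ∈ V (X / (nm δ : ℕ)),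
          (if InArc (θ - Complex.arg (δ : ℂ)) w z then 1 else 0) *
            FG f (fun z => χ i z * (if Odd (nm z) ∧ IsCoprime z (star δ) then 1 else 0)) z :=
        Finset.sum_congr rfl fun i _ => by rw [e2 i]
      beta_reduce
      rw [e3, hgen (fun z => if InArc (θ - Complex.arg (δ : ℂ)) w z then 1 else 0) X]
      refine Finset.sum_congr rfl fun z hz => ?_
      rw [Finset.mem_filter, mem_V] at hz
      simp only [arcdec_arc hδ0 (ne_zero_of_odd hz.1.2.1) θ w]
      rw [ite_mul, one_mul, zero_mul]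
    · intro X
      unfold clS
      rw [hbij]
      have e2 : ∀ i : Fin n, fcC (FG f (fun z => χ i z * (if Odd (nm z) ∧ IsCoprime z (star δ) then 1 else 0)))
          (X / (nm δ : ℕ)) 0 = ∑ z ∈ V (X / (nm δ : ℕ)), (1 : ℂ) *
            FG f (fun z => χ i z * (if Odd (nm z) ∧ IsCoprime z (star δ) then 1 else 0)) z := by
        intro i
        unfold fcC
        refine Finset.sum_congr rfl fun z _ => ?_
        have hxi : xi (-0) z = 1 := by unfold xi; simp
        rw [hxi, mul_one, one_mul]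
      have e3 : ∑ i, c i * fcC (FG f (fun z => χ i z * (if Odd (nm z) ∧ IsCoprime z (star δ) then 1 else 0)))
          (X / (nm δ : ℕ)) 0 = ∑ i, c i * ∑ z ∈ V (X / (nm δ : ℕ)), (1 : ℂ) *
            FG f (fun z => χ i z * (if Odd (nm z) ∧ IsCoprime z (star δ) then 1 else 0)) z :=
        Finset.sum_congr rfl fun i _ => by rw [e2 i]
      beta_reduce
      rw [e3, hgen (fun _ => 1) X]
      exact Finset.sum_congr rfl fun z _ => by rw [one_mul]

end Pool.Agent.LPr
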