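import Pool.Agent.Lib_MP_f1a94e_lp.Defs
import Pool.Agent.Lib_MP_f1a94e_eq.ArcPair

/-!
# Piece ARCX: pairs in short arcs, for families
-/

set_option autoImplicit false

namespace Pool.Agent.LPr

open Finset Pool.Agent.GaussMR Pool.Agent.OmAll Pool.Agent.OmEq MeasureTheory Filter

/-- PROOF. The proof of `arcpair_ev` (ArcPair.lean) with `f` replaced by `f (a * Y)`: at the radius `X_k = C0 Y k / I` the index is `a Y = (a I / (C0 k)) X_k`, so use `MRPX` with `a I / (C0 k)`. -/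
theorem arcx_ev (f : ℝ → ℕ → ℂ) (hM : MRPX f) {D : ℕ} (hD : 0 < D) {C0 ε : ℝ} (hC0 : 0 < C0) (hε : 0 < ε) {I : ℕ}
    (hI : 1 ≤ I) : ∀ᶠ N : ℕ in atTop, ∀ a : ℝ, 0 < a → ∀ᶠ Y : ℝ in atTop, ∀ b ∈ mrpoR D, ∀ k ∈ Icc 1 I,
      ∫ θ in (0 : ℝ)..(2 * Real.pi), ‖Sp (f (a * Y)) D b (C0 * Y * (k : ℝ) / I) (N / (I * Y)) θ‖ ^ 2 ≤
        ε * ((N : ℝ) * C0 / I) ^ 2 := by
  have hI' : (0 : ℝ) < I := by exact_mod_cast hI
  have h1 : ∀ᶠ N : ℕ in atTop, ∀ b ∈ mrpoR D, ∀ k ∈ Icc 1 I, ∀ a : ℝ, 0 < a → ∀ᶠ X : ℝ in atTop,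
      ∫ θ in (0 : ℝ)..(2 * Real.pi), ‖Sp (f (a * X)) D b X ((N * (C0 * k / (I * I))) / X) θ‖ ^ 2 ≤
        ε * ((N : ℝ) * (C0 * k / (I * I))) ^ 2 := by
    rw [eventually_all_finset]
    intro b _
    rw [eventually_all_finset]
    intro k hk
    have hk1 : (1 : ℝ) ≤ k := by exact_mod_cast (mem_Icc.1 hk).1
    obtain ⟨H0, -, h⟩ := hM D hD b ε hε
    have ht : Tendsto (fun N : ℕ => (N : ℝ) * (C0 * k / (I * I))) atTop atTop :=
      tendsto_natCast_atTop_atTop.atTop_mul_const (by positivity)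
    filter_upwards [ht.eventually_ge_atTop H0] with N hN
    intro a ha
    exact h _ hN a ha
  filter_upwards [h1] with N hN
  intro a ha
  rw [eventually_all_finset]
  intro b hb
  rw [eventually_all_finset]
  intro k hk
  have hk1 : (1 : ℝ) ≤ k := by exact_mod_cast (mem_Icc.1 hk).1
  have hk2 : (k : ℝ) ≤ I := by exact_mod_cast (mem_Icc.1 hk).2
  have ht : Tendsto (fun Y : ℝ => C0 * Y * (k : ℝ) / I) atTop atTop := by
    have h3 : Tendsto (fun Y : ℝ => Y * (C0 * k / I)) atTop atTop := tendsto_id.atTop_mul_const (by positivity)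
    refine h3.congr (fun Y => ?_)
    ring
  have ha' : 0 < a * I / (C0 * k) := by positivity
  filter_upwards [ht.eventually (hN b hb k hk _ ha'), eventually_gt_atTop 0] with Y hY hY0
  have e1 : (N : ℝ) * (C0 * k / (I * I)) / (C0 * Y * (k : ℝ) / I) = N / (I * Y) := by
    field_simp
  have e2 : a * I / (C0 * k) * (C0 * Y * (k : ℝ) / I) = a * Y := by
    field_simp
  rw [e1, e2] at hY
  refine hY.trans (mul_le_mul_of_nonneg_left (pow_le_pow_left₀ (by positivity) ?_ 2) hε.le)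
  rw [mul_div_assoc (N : ℝ)]
  refine mul_le_mul_of_nonneg_left ?_ (Nat.cast_nonneg _)
  rw [div_le_div_iff₀ (by positivity) hI']
  nlinarith [mul_le_mul_of_nonneg_left hk2 (by positivity : 0 ≤ C0 * I)]

/-- PROOF. The proof of `arcpair` (ArcPair.lean) with `f` replaced by `f (a * Y)` (`arcpair_term` is for a single function and is used as it is). -/
theorem arcX (f : ℝ → ℕ → ℂ) (hf : ∀ X n, ‖f X n‖ ≤ 1) (hM : MRPX f) (D : ℕ) (hD : 0 < D) (κ : G → G → ℂ)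
    (hκ : ∀ V V', ‖κ V V'‖ ≤ 2) (hper : ∀ V V' U U', cg D V U → cg D V' U' → κ V V' = κ U U')
    (c0 C0 B : ℝ) (hc0 : 0 < c0) (hC0 : c0 ≤ C0) (hB : 0 < B) (F : ℝ → ℝ → ℝ → ℝ)
    (hF : Continuous (fun v : ℝ × ℝ × ℝ => F v.1 v.2.1 v.2.2))
    (h1 : ∀ x x' σ, x ≤ c0 ∨ x' ≤ c0 ∨ C0 ≤ x ∨ C0 ≤ x' ∨ σ ≤ 0 ∨ B ≤ σ → F x x' σ = 0) (ε : ℝ) (hε : 0 < ε) :
    ∃ N0 : ℕ, ∀ N : ℕ, N0 ≤ N → ∀ a : ℝ, 0 < a → ∀ᶠ Y : ℝ in atTop,
      ‖∑ V ∈ PV (C0 * Y), ∑ V' ∈ PV (C0 * Y), κ V V' * (f (a * Y) (nm V) * (starRingEnd ℂ) (f (a * Y) (nm V'))) *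
        ((F (nm V / Y) (nm V' / Y) (Y * ang V V' / N) : ℝ) : ℂ)‖ ≤ ε * N * Y := by
  classical
  have hC0' : 0 < C0 := hc0.trans_le hC0
  have hD' : (0 : ℝ) < D := by exact_mod_cast hD
  obtain ⟨C, hC, hcnt⟩ := cntA (c0 / 2) C0 (B + 1) (by linarith) (by linarith) (by linarith)
  set ε1 : ℝ := ε / (4 * C) with hε1
  have hε1' : 0 < ε1 := by positivity
  obtain ⟨I, hI, happ⟩ := appG c0 C0 B hc0 hC0 hB F hF h1 ε1 hε1'
  have hI' : (0 : ℝ) < I := by exact_mod_cast hI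
  set Q : Finset (ℕ × ℕ × ℕ) := range I ×ˢ range I ×ˢ range (⌈B⌉₊ * I + 1) with hQ
  set cc : ℕ × ℕ × ℕ → ℝ := fun q => F (C0 * q.1 / I) (C0 * q.2.1 / I) ((q.2.2 : ℝ) / I) with hcc
  set S : ℝ := ∑ q ∈ Q, |cc q| with hS
  have hS0 : 0 ≤ S := sum_nonneg fun _ _ => abs_nonneg _
  set ε2 : ℝ := ε / (16 * (S + 1) * D ^ 4 * C0 ^ 2) with hε2
  have hε2' : 0 < ε2 := by positivity
  obtain ⟨N0, hN0⟩ := eventually_atTop.1 (arcx_ev f hM hD hC0' hε2' hI)
  refine ⟨max N0 1, fun N hN a ha => ?_⟩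
  have hN1 : 1 ≤ N := (le_max_right _ _).trans hN
  have hNr : (0 : ℝ) < N := by exact_mod_cast hN1
  have hδlim : Tendsto (fun Y : ℝ => ((⌈B⌉₊ * I + 1 : ℕ) + 1 : ℝ) * (N / (I * Y))) atTop (nhds 0) := by
    have h3 : Tendsto (fun Y : ℝ => (((⌈B⌉₊ * I + 1 : ℕ) + 1 : ℝ) * N / I) / Y) atTop (nhds 0) :=
      tendsto_const_nhds.div_atTop tendsto_id
    refine h3.congr (fun Y => ?_)
    ring
  filter_upwards [hN0 N ((le_max_left _ _).trans hN) a ha, hcnt N hN1, eventually_gt_atTop 0,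
    hδlim.eventually_lt_const Real.pi_pos] with Y hY1 hY2 hY0 hY3
  set δ : ℝ := N / (I * Y) with hδ
  have hδ0 : 0 < δ := by positivity
  set P := PV (C0 * Y) with hP
  set w : G → G → ℂ := fun V V' => f (a * Y) (nm V) * (starRingEnd ℂ) (f (a * Y) (nm V')) with hw
  have hwb : ∀ V V', ‖w V V'‖ ≤ 1 := by
    intro V V'
    rw [hw]
    dsimp only
    rw [norm_mul, RCLike.norm_conj]
    exact mul_le_one₀ (hf _ _) (norm_nonneg _) (hf _ _)
  set u : ℕ × ℕ × ℕ → G → G → ℝ := fun q V V' => cell C0 I q.1 (nm V / Y) * cell C0 I q.2.1 (nm V' / Y) *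
    max 0 (1 - |I * (Y * ang V V' / N) - q.2.2|) with hu
  set Ap : G → G → ℝ := fun V V' => ∑ q ∈ Q, cc q * u q V V' with hAp
  have hap : ∀ V ∈ P, ∀ V' ∈ P, |F (nm V / Y) (nm V' / Y) (Y * ang V V' / N) - Ap V V'| ≤
      if c0 / 2 * Y ≤ nm V ∧ c0 / 2 * Y ≤ nm V' ∧ |ang V V'| ≤ (B + 1) * N / Y then ε1 else 0 := by
    intro V hV V' hV'
    have hVp := arcpair_pos hV
    have hVp' := arcpair_pos hV'
    rw [hP, mem_PV] at hV hV'
    have a1 : (0 : ℝ) < nm V / Y := by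
      have : (0 : ℝ) < nm V := by exact_mod_cast hVp
      positivity
    have a2 : (0 : ℝ) < nm V' / Y := by
      have : (0 : ℝ) < nm V' := by exact_mod_cast hVp'
      positivity
    have a3 : (nm V : ℝ) / Y ≤ C0 := by
      rw [div_le_iff₀ hY0]
      exact hV.1
    have a4 : (nm V' : ℝ) / Y ≤ C0 := by
      rw [div_le_iff₀ hY0]
      exact hV'.1
    have h3 := happ _ _ (Y * ang V V' / N) a1 a3 a2 a4
    have e1 : Ap V V' = ∑ i ∈ range I, ∑ j ∈ range I, ∑ l ∈ range (⌈B⌉₊ * I + 1),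
        F (C0 * i / I) (C0 * j / I) ((l : ℝ) / I) * cell C0 I i (nm V / Y) * cell C0 I j (nm V' / Y) *
          max 0 (1 - |I * (Y * ang V V' / N) - l|) := by
      rw [hAp]
      dsimp only
      rw [hQ, sum_product]
      apply sum_congr rfl
      intro i _
      rw [sum_product]
      apply sum_congr rfl
      intro j _
      apply sum_congr rfl
      intro l _
      rw [hcc, hu]
      dsimp only
      ring
    rw [e1]
    refine h3.trans ?_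
    split_ifs with b1 b2 b3
    · exact le_rfl
    · exfalso
      apply b2
      obtain ⟨c1, c2, c3⟩ := b1
      rw [le_div_iff₀ hY0] at c1 c2
      refine ⟨c1, c2, ?_⟩
      rw [abs_div, abs_mul, abs_of_pos hY0, abs_of_pos hNr, div_le_iff₀ hNr] at c3
      rw [le_div_iff₀ hY0]
      linarith
    · exact hε1'.le
    · exact le_rfl
  -- first part
  have hfirst : ‖∑ V ∈ P, ∑ V' ∈ P, κ V V' * w V V' *
      (((F (nm V / Y) (nm V' / Y) (Y * ang V V' / N) : ℝ) : ℂ) - ((Ap V V' : ℝ) : ℂ))‖ ≤ ε / 2 * N * Y := by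
    have e1 : ∀ V ∈ P, ∀ V' ∈ P, ‖κ V V' * w V V' *
        (((F (nm V / Y) (nm V' / Y) (Y * ang V V' / N) : ℝ) : ℂ) - ((Ap V V' : ℝ) : ℂ))‖ ≤
        2 * (if c0 / 2 * Y ≤ nm V ∧ c0 / 2 * Y ≤ nm V' ∧ |ang V V'| ≤ (B + 1) * N / Y then ε1 else 0) := by
      intro V hV V' hV'
      rw [← Complex.ofReal_sub, norm_mul, Complex.norm_real, Real.norm_eq_abs, norm_mul]
      have h3 := hap V hV V' hV'
      have h4 : ‖κ V V'‖ * ‖w V V'‖ ≤ 2 := by
        have := mul_le_mul (hκ V V') (hwb V V') (norm_nonneg _) (by norm_num)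
        linarith
      exact mul_le_mul h4 h3 (abs_nonneg _) (by norm_num)
    refine (norm_sum_le _ _).trans ?_
    refine (sum_le_sum fun V hV => (norm_sum_le _ _).trans (sum_le_sum fun V' hV' => e1 V hV V' hV')).trans ?_
    rw [← sum_product' P P (fun V V' => 2 * (if c0 / 2 * Y ≤ (nm V : ℝ) ∧ c0 / 2 * Y ≤ (nm V' : ℝ) ∧
      |ang V V'| ≤ (B + 1) * N / Y then ε1 else 0)), ← mul_sum, ← sum_filter, sum_const, nsmul_eq_mul]
    have h5 : 2 * (C * N * Y * ε1) = ε / 2 * N * Y := by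
      rw [hε1]
      field_simp
      ring
    rw [← h5]
    refine mul_le_mul_of_nonneg_left (mul_le_mul_of_nonneg_right ?_ hε1'.le) (by norm_num)
    refine le_trans (le_of_eq ?_) hY2
    congr
  -- second part
  have hsecond : ‖∑ V ∈ P, ∑ V' ∈ P, κ V V' * w V V' * ((Ap V V' : ℝ) : ℂ)‖ ≤ ε / 2 * N * Y := by
    have e1 : ∑ V ∈ P, ∑ V' ∈ P, κ V V' * w V V' * ((Ap V V' : ℝ) : ℂ) =
        ∑ q ∈ Q, ((cc q : ℝ) : ℂ) * ∑ V ∈ P, ∑ V' ∈ P, κ V V' * w V V' * ((u q V V' : ℝ) : ℂ) := by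
      have e2 : ∀ V V' : G, κ V V' * w V V' * ((Ap V V' : ℝ) : ℂ) =
          ∑ q ∈ Q, ((cc q : ℝ) : ℂ) * (κ V V' * w V V' * ((u q V V' : ℝ) : ℂ)) := by
        intro V V'
        rw [hAp]
        dsimp only
        rw [Complex.ofReal_sum, mul_sum]
        apply sum_congr rfl
        intro q _
        rw [Complex.ofReal_mul]
        ring
      simp only [e2, mul_sum]
      rw [sum_congr rfl (fun V _ => sum_comm), sum_comm]
    rw [e1]
    refine (norm_sum_le _ _).trans ?_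
    set A : ℝ := ε2 * ((N : ℝ) * C0 / I) ^ 2 with hA
    have hA0 : 0 ≤ A := by positivity
    have e3 : ∀ q ∈ Q, ‖((cc q : ℝ) : ℂ) * ∑ V ∈ P, ∑ V' ∈ P, κ V V' * w V V' * ((u q V V' : ℝ) : ℂ)‖ ≤
        |cc q| * (8 * ((D : ℝ) ^ 4) * (A / δ)) := by
      intro q hq
      rw [hQ, mem_product, mem_product, mem_range, mem_range, mem_range] at hq
      rw [norm_mul, Complex.norm_real, Real.norm_eq_abs]
      refine mul_le_mul_of_nonneg_left ?_ (abs_nonneg _)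
      refine arcpair_term (f (a * Y)) D hD κ hκ hper hC0' hY0 hNr hq.1 hq.2.1 hδ ?_ hA0 hY1
      refine lt_of_le_of_lt ?_ hY3
      refine mul_le_mul_of_nonneg_right ?_ hδ0.le
      have : (q.2.2 : ℝ) ≤ (⌈B⌉₊ * I + 1 : ℕ) := by exact_mod_cast hq.2.2.le
      linarith
    refine (sum_le_sum e3).trans ?_
    rw [← sum_mul, ← hS]
    have e4 : A / δ = ε2 * C0 ^ 2 * N * Y / I := by
      rw [hA, hδ]
      field_simp
    rw [e4]
    have e5 : 8 * (D : ℝ) ^ 4 * (ε2 * C0 ^ 2 * N * Y / I) ≤ 8 * (D : ℝ) ^ 4 * (ε2 * C0 ^ 2 * N * Y) := by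
      refine mul_le_mul_of_nonneg_left ?_ (by positivity)
      apply div_le_self (by positivity)
      exact_mod_cast hI
    have e6 : (S + 1) * (8 * (D : ℝ) ^ 4 * (ε2 * C0 ^ 2 * N * Y)) = ε / 2 * N * Y := by
      rw [hε2]
      field_simp
      ring
    rw [← e6]
    exact mul_le_mul (by linarith) e5 (by positivity) (by linarith)
  have hsum : ∑ V ∈ P, ∑ V' ∈ P, κ V V' * (f (a * Y) (nm V) * (starRingEnd ℂ) (f (a * Y) (nm V'))) *
        ((F (nm V / Y) (nm V' / Y) (Y * ang V V' / N) : ℝ) : ℂ) =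
      ∑ V ∈ P, ∑ V' ∈ P, κ V V' * w V V' *
        (((F (nm V / Y) (nm V' / Y) (Y * ang V V' / N) : ℝ) : ℂ) - ((Ap V V' : ℝ) : ℂ)) +
      ∑ V ∈ P, ∑ V' ∈ P, κ V V' * w V V' * ((Ap V V' : ℝ) : ℂ) := by
    rw [← sum_add_distrib]
    apply sum_congr rfl
    intro V _
    rw [← sum_add_distrib]
    apply sum_congr rfl
    intro V' _
    rw [hw]
    dsimp only
    ring
  rw [hsum]
  refine (norm_add_le _ _).trans ((add_le_add hfirst hsecond).trans (le_of_eq ?_))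
  ring

end Pool.Agent.LPr
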