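import Pool.Agent.Lib_MP_f1a94e_lp.Defs
import Pool.Agent.Lib_MP_f1a94e_ecm.ZeroF

/-!
# Piece BASEC: mean values of characters
-/

set_option autoImplicit false

namespace Pool.Agent.LPr

open Finset Pool.Agent.GaussMR Pool.Agent.GaussCM Pool.Agent.OmAll Pool.Agent.OmEq Pool.Agent.ECM Filter

private theorem bc_cg_iff (D : ℕ) (u v : G) : cg D u v ↔ ((D : ℤ) : G) ∣ u - v := by
  unfold cg
  rw [Zsqrtd.intCast_dvd]
  simp

private theorem bc_cg_symm {D : ℕ} {u v : G} (h : cg D u v) : cg D v u := by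
  rw [bc_cg_iff] at *
  rw [← neg_sub]; exact (dvd_neg).2 h

private theorem bc_cg_trans {D : ℕ} {u v w : G} (h : cg D u v) (h' : cg D v w) : cg D u w := by
  rw [bc_cg_iff] at *
  have : u - w = (u - v) + (v - w) := by ring
  rw [this]; exact dvd_add h h'

private theorem bc_cg_mul {D : ℕ} {u v : G} (w : G) (h : cg D u v) : cg D (w * u) (w * v) := by
  rw [bc_cg_iff] at *
  rw [← mul_sub]; exact dvd_mul_of_dvd_right h w

private theorem bc_cg_mul' {D : ℕ} {u v : G} (w : G) (h : cg D u v) : cg D (u * w) (v * w) := by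
  rw [mul_comm u, mul_comm v]; exact bc_cg_mul w h

/-- representative with coordinates in `[0, D)` -/
private def bcrd (D : ℕ) (z : G) : G := ⟨z.re % D, z.im % D⟩

private noncomputable def bcR (D : ℕ) : Finset G :=
  open Classical in ((range D ×ˢ range D).image (fun w : ℕ × ℕ => (⟨(w.1 : ℤ), (w.2 : ℤ)⟩ : G)))

private theorem bc_mem (D : ℕ) (z : G) :
    z ∈ bcR D ↔ (0 ≤ z.re ∧ z.re < D) ∧ (0 ≤ z.im ∧ z.im < D) := by
  classical
  unfold bcR
  rw [mem_image]
  constructor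
  · rintro ⟨w, hw, rfl⟩
    rw [mem_product, mem_range, mem_range] at hw
    refine ⟨⟨by simp, by simpa using hw.1⟩, ⟨by simp, by simpa using hw.2⟩⟩
  · rintro ⟨⟨h1, h2⟩, h3, h4⟩
    refine ⟨(z.re.toNat, z.im.toNat), ?_, ?_⟩
    · rw [mem_product, mem_range, mem_range]
      constructor
      · show z.re.toNat < D
        omega
      · show z.im.toNat < D
        omega
    · apply Zsqrtd.ext
      · simp [h1]
      · simp [h3]

private theorem bc_card (D : ℕ) : (bcR D).card = D ^ 2 := by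
  classical
  unfold bcR
  rw [card_image_of_injective, card_product, card_range]
  · ring
  · rintro ⟨a, b⟩ ⟨a', b'⟩ h
    have h1 := congrArg Zsqrtd.re h
    have h2 := congrArg Zsqrtd.im h
    simp only at h1 h2
    rw [Prod.mk.injEq]
    exact ⟨by exact_mod_cast h1, by exact_mod_cast h2⟩

private theorem bc_rd_mem (D : ℕ) (hD : 0 < D) (z : G) : bcrd D z ∈ bcR D := by
  rw [bc_mem]
  have hD' : (0 : ℤ) < D := by exact_mod_cast hD
  refine ⟨⟨Int.emod_nonneg _ hD'.ne', Int.emod_lt_of_pos _ hD'⟩,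
    ⟨Int.emod_nonneg _ hD'.ne', Int.emod_lt_of_pos _ hD'⟩⟩

private theorem bc_rd_cg (D : ℕ) (z : G) : cg D (bcrd D z) z := by
  unfold cg bcrd
  constructor
  · have := Int.emod_add_mul_ediv z.re D
    exact ⟨-(z.re / D), by simp only; linarith⟩
  · have := Int.emod_add_mul_ediv z.im D
    exact ⟨-(z.im / D), by simp only; linarith⟩

private theorem bc_unique (D : ℕ) {u v : G} (hu : u ∈ bcR D) (hv : v ∈ bcR D)
    (h : cg D u v) : u = v := by
  rw [bc_mem] at hu hv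
  obtain ⟨h1, h2⟩ := h
  have key : ∀ a b : ℤ, 0 ≤ a → a < D → 0 ≤ b → b < D → (D : ℤ) ∣ a - b → a = b := by
    intro a b ha ha' hb hb' hd
    have := Int.eq_zero_of_abs_lt_dvd hd (by rw [abs_lt]; constructor <;> linarith)
    linarith
  exact Zsqrtd.ext (key _ _ hu.1.1 hu.1.2 hv.1.1 hv.1.2 h1) (key _ _ hu.2.1 hu.2.2 hv.2.1 hv.2.2 h2)

private theorem bc_sum_zero (D : ℕ) (hD : 0 < D) (χ : G → ℂ) (hχ : Chi D χ) (hp : ¬ Pri D χ) :
    ∑ c ∈ bcR D, χ c = 0 := by
  unfold Pri at hp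
  push Not at hp
  obtain ⟨z, ⟨w, hw⟩, hz⟩ := hp
  have hw' : cg D (w * z) 1 := by rwa [mul_comm]
  have h1 : ∑ c ∈ bcR D, χ c = ∑ c ∈ bcR D, χ (z * c) := by
    refine (Finset.sum_nbij' (fun c => bcrd D (z * c)) (fun c => bcrd D (w * c)) ?_ ?_ ?_ ?_ ?_).symm
    · intro c _; exact bc_rd_mem D hD _
    · intro c _; exact bc_rd_mem D hD _
    · intro c hc
      refine bc_unique D (bc_rd_mem D hD _) hc ?_
      refine bc_cg_trans (bc_rd_cg D _) ?_
      refine bc_cg_trans (bc_cg_mul w (bc_rd_cg D _)) ?_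
      rw [← mul_assoc]
      have := bc_cg_mul' c hw'
      rwa [one_mul] at this
    · intro c hc
      refine bc_unique D (bc_rd_mem D hD _) hc ?_
      refine bc_cg_trans (bc_rd_cg D _) ?_
      refine bc_cg_trans (bc_cg_mul z (bc_rd_cg D _)) ?_
      rw [← mul_assoc]
      have := bc_cg_mul' c hw
      rwa [one_mul] at this
    · intro c _
      exact (hχ.per _ _ (bc_rd_cg D _)).symm
  have h2 : ∑ c ∈ bcR D, χ (z * c) = χ z * ∑ c ∈ bcR D, χ c := by
    rw [mul_sum]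
    exact sum_congr rfl (fun c _ => hχ.mul z c)
  rw [h2] at h1
  have h3 : (χ z - 1) * ∑ c ∈ bcR D, χ c = 0 := by
    rw [sub_mul, one_mul, ← h1, sub_self]
  rcases mul_eq_zero.1 h3 with h4 | h4
  · exact absurd (sub_eq_zero.1 h4) hz
  · exact h4

open Classical in
private theorem bc_split (D : ℕ) (hD : 0 < D) (Y : ℝ) (f : G → ℂ) :
    ∑ z ∈ ball Y, f z = ∑ c ∈ bcR D, ∑ z ∈ (ball Y).filter (fun z => cg D z c), f z := by
  rw [← Finset.sum_fiberwise_of_maps_to (s := ball Y) (t := bcR D) (g := bcrd D)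
    (fun z _ => bc_rd_mem D hD z) f]
  apply sum_congr rfl
  intro c hc
  apply sum_congr _ (fun _ _ => rfl)
  apply filter_congr
  intro z _
  constructor
  · intro h
    rw [← h]
    exact bc_cg_symm (bc_rd_cg D z)
  · intro h
    exact bc_unique D (bc_rd_mem D hD _) hc (bc_cg_trans (bc_rd_cg D z) h)

open Classical in
/-- the sums over balls -/
private theorem bc_ball (D : ℕ) (hD : 0 < D) (χ : G → ℂ) (hχ : Chi D χ) :
    ∃ (A : ℂ) (C : ℝ), 0 < C ∧ (¬ Pri D χ → A = 0) ∧ ∀ Y : ℝ, 0 ≤ Y →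
      ‖∑ z ∈ ball Y, χ z - A * (Y : ℂ)‖ ≤ C * Real.sqrt Y := by
  obtain ⟨C1, hC1, h1⟩ := countG D hD
  obtain ⟨κ, C2, hκ, hC2, h2⟩ := ball_asymp
  have hDr : (0 : ℝ) < (D : ℝ) := by exact_mod_cast hD
  set A : ℂ := (∑ c ∈ bcR D, χ c) * ((κ / (D : ℝ) ^ 2 : ℝ) : ℂ) with hA
  have hAn : ‖A‖ ≤ κ := by
    rw [hA, norm_mul, Complex.norm_real, Real.norm_of_nonneg (by positivity)]
    have h3 : ‖∑ c ∈ bcR D, χ c‖ ≤ (D : ℝ) ^ 2 := by
      calc ‖∑ c ∈ bcR D, χ c‖ ≤ ∑ c ∈ bcR D, ‖χ c‖ := norm_sum_le _ _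
        _ ≤ ∑ c ∈ bcR D, (1 : ℝ) := sum_le_sum fun c _ => hχ.le c
        _ = (D : ℝ) ^ 2 := by rw [sum_const, nsmul_eq_mul, mul_one, bc_card]; push_cast; ring
    calc ‖∑ c ∈ bcR D, χ c‖ * (κ / (D : ℝ) ^ 2) ≤ (D : ℝ) ^ 2 * (κ / (D : ℝ) ^ 2) :=
          mul_le_mul_of_nonneg_right h3 (by positivity)
      _ = κ := by field_simp
  refine ⟨A, (D : ℝ) ^ 2 * C1 + 2 * C2 + κ, by positivity, ?_, ?_⟩
  · intro hp
    rw [hA, bc_sum_zero D hD χ hχ hp, zero_mul]
  intro Y hY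
  have hs0 := Real.sqrt_nonneg Y
  rcases lt_or_ge Y 1 with hY1 | hY1
  · have hz : ∑ z ∈ ball Y, χ z = 0 := by
      apply sum_eq_zero
      intro z hz
      rw [mem_ball] at hz
      have h3 : (nm z : ℝ) < 1 := lt_of_le_of_lt hz hY1
      have h4 : nm z = 0 := by
        have : nm z < 1 := by exact_mod_cast h3
        omega
      apply hχ.even
      rw [h4]
      decide
    rw [hz, zero_sub, norm_neg, norm_mul, Complex.norm_real, Real.norm_of_nonneg hY]
    have h5 : Y ≤ Real.sqrt Y := by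
      have h6 := Real.mul_self_sqrt hY
      have h7 : Real.sqrt Y ≤ 1 := Real.sqrt_le_one.2 hY1.le
      nlinarith
    have h8 : 0 ≤ (D : ℝ) ^ 2 * C1 + 2 * C2 := by positivity
    calc ‖A‖ * Y ≤ κ * Real.sqrt Y := mul_le_mul hAn h5 hY hκ.le
      _ ≤ ((D : ℝ) ^ 2 * C1 + 2 * C2 + κ) * Real.sqrt Y := by nlinarith
  · have hs1 : 1 ≤ Real.sqrt Y := Real.one_le_sqrt.2 hY1
    set N : G → ℝ := fun b => (((ball Y).filter (fun z => cg D z b)).card : ℝ) with hN
    have hS : ∑ z ∈ ball Y, χ z = ∑ c ∈ bcR D, χ c * ((N c : ℝ) : ℂ) := by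
      rw [bc_split D hD Y]
      apply sum_congr rfl
      intro c _
      have : ∀ z ∈ (ball Y).filter (fun z => cg D z c), χ z = χ c := by
        intro z hz
        rw [mem_filter] at hz
        exact hχ.per _ _ hz.2
      rw [sum_congr rfl this, sum_const, nsmul_eq_mul, mul_comm]
      push_cast [hN]
      rfl
    have hT : ((ball Y).card : ℝ) = ∑ c ∈ bcR D, N c := by
      have h3 := bc_split D hD Y (fun _ => (1 : ℂ))
      simp only [sum_const, nsmul_eq_mul, mul_one] at h3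
      have h4 : ((((ball Y).card : ℝ)) : ℂ) = ((∑ c ∈ bcR D, N c : ℝ) : ℂ) := by
        push_cast [hN]
        exact h3
      exact_mod_cast h4
    have hcl : ∀ b, |(D : ℝ) ^ 2 * N b - κ * Y| ≤ ((D : ℝ) ^ 2 * C1 + 2 * C2) * Real.sqrt Y := by
      intro b
      have h3 : |(D : ℝ) ^ 2 * N b - (ball Y).card| ≤ (D : ℝ) ^ 2 * (C1 * Real.sqrt Y) := by
        have h4 : (D : ℝ) ^ 2 * N b - (ball Y).card = ∑ c ∈ bcR D, (N b - N c) := by
          rw [sum_sub_distrib, hT, sum_const, nsmul_eq_mul, bc_card]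
          push_cast
          ring
        rw [h4]
        calc |∑ c ∈ bcR D, (N b - N c)| ≤ ∑ c ∈ bcR D, |N b - N c| := abs_sum_le_sum_abs _ _
          _ ≤ ∑ c ∈ bcR D, C1 * Real.sqrt Y := sum_le_sum fun c _ => h1 Y b c hY1
          _ = _ := by rw [sum_const, nsmul_eq_mul, bc_card]; push_cast; ring
      have h5 := h2 Y hY
      have h6 := abs_sub_le ((D : ℝ) ^ 2 * N b) ((ball Y).card : ℝ) (κ * Y)
      nlinarith
    have hterm : ∀ c ∈ bcR D, ‖χ c * ((N c : ℝ) : ℂ) - χ c * (((κ / (D : ℝ) ^ 2 : ℝ) : ℂ) * (Y : ℂ))‖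
        ≤ ((D : ℝ) ^ 2 * C1 + 2 * C2) * Real.sqrt Y / (D : ℝ) ^ 2 := by
      intro c _
      rw [← mul_sub, norm_mul]
      have h3 : ((N c : ℝ) : ℂ) - ((κ / (D : ℝ) ^ 2 : ℝ) : ℂ) * (Y : ℂ) =
          (((((D : ℝ) ^ 2 * N c - κ * Y) / (D : ℝ) ^ 2 : ℝ)) : ℂ) := by
        rw [← Complex.ofReal_mul, ← Complex.ofReal_sub]
        congr 1
        field_simp
      rw [h3, Complex.norm_real, Real.norm_eq_abs, abs_div,
        abs_of_pos (by positivity : (0 : ℝ) < (D : ℝ) ^ 2)]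
      calc ‖χ c‖ * (|(D : ℝ) ^ 2 * N c - κ * Y| / (D : ℝ) ^ 2)
          ≤ 1 * ((((D : ℝ) ^ 2 * C1 + 2 * C2) * Real.sqrt Y) / (D : ℝ) ^ 2) :=
            mul_le_mul (hχ.le c) (div_le_div_of_nonneg_right (hcl c) (by positivity))
              (by positivity) (by norm_num)
        _ = _ := one_mul _
    have h7 : ∑ z ∈ ball Y, χ z - A * (Y : ℂ) =
        ∑ c ∈ bcR D, (χ c * ((N c : ℝ) : ℂ) - χ c * (((κ / (D : ℝ) ^ 2 : ℝ) : ℂ) * (Y : ℂ))) := by
      rw [hS, sum_sub_distrib, ← sum_mul, hA]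
      ring
    rw [h7]
    calc _ ≤ ∑ c ∈ bcR D, ‖χ c * ((N c : ℝ) : ℂ) - χ c * (((κ / (D : ℝ) ^ 2 : ℝ) : ℂ) * (Y : ℂ))‖ :=
          norm_sum_le _ _
      _ ≤ ∑ c ∈ bcR D, ((D : ℝ) ^ 2 * C1 + 2 * C2) * Real.sqrt Y / (D : ℝ) ^ 2 := sum_le_sum hterm
      _ = ((D : ℝ) ^ 2 * C1 + 2 * C2) * Real.sqrt Y := by
          rw [sum_const, nsmul_eq_mul, bc_card]
          push_cast
          field_simp
      _ ≤ _ := by
          have : 0 ≤ κ * Real.sqrt Y := by positivity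
          linarith

private theorem bc_ob (χ : G → ℂ) (h : ∀ z, ¬ Odd (nm z) → χ z = 0) (Y : ℝ) :
    ∑ z ∈ ob Y, χ z = ∑ z ∈ ball Y, χ z := by
  classical
  apply sum_subset
  · intro z hz
    rw [mem_ob] at hz
    exact mem_ball.2 hz.1
  · intro z hz hz2
    apply h
    intro h3
    exact hz2 (mem_ob.2 ⟨mem_ball.1 hz, h3⟩)

/-- the sum over the multiples of `d` -/
private theorem bc_dvd (χ : G → ℂ) (hm : ∀ z w, χ (z * w) = χ z * χ w) (Y : ℝ) (d : ℕ) (hd : 0 < d) :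
    ∑ z ∈ (ob Y).filter (fun z => d ∣ gc z), χ z =
      if Odd d then χ ((d : ℕ) : G) * ∑ z ∈ ob (Y / (d : ℝ) ^ 2), χ z else 0 := by
  classical
  split_ifs with hodd
  · rw [mul_sum]
    symm
    apply sum_bij (fun w _ => (⟨d * w.re, d * w.im⟩ : G))
    · intro w hw
      rw [mem_ob] at hw
      have e1 : nm (⟨d * w.re, d * w.im⟩ : G) = d ^ 2 * nm w := by
        have : (nm (⟨d * w.re, d * w.im⟩ : G) : ℤ) = d ^ 2 * nm w := by
          rw [nm_eq, nm_eq]; ring
        exact_mod_cast this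
      rw [Finset.mem_filter, mem_ob, e1]
      have hd0 : (0 : ℝ) < (d : ℝ) ^ 2 := by positivity
      have h1 := hw.1
      rw [le_div_iff₀ hd0] at h1
      refine ⟨⟨by push_cast; linarith, (hodd.pow).mul hw.2⟩, ?_⟩
      unfold gc
      rw [Int.dvd_gcd_iff]
      simp
    · intro w _ w' _ h
      have a1 := congrArg Zsqrtd.re h
      have a2 := congrArg Zsqrtd.im h
      simp only at a1 a2
      have hd0 : (d : ℤ) ≠ 0 := by exact_mod_cast hd.ne'
      apply Zsqrtd.ext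
      · exact mul_left_cancel₀ hd0 a1
      · exact mul_left_cancel₀ hd0 a2
    · intro z hz
      rw [Finset.mem_filter, mem_ob] at hz
      obtain ⟨⟨hz1, hz2⟩, hz3⟩ := hz
      have h1 : (d : ℤ) ∣ z.re := (Int.natCast_dvd_natCast.2 hz3).trans (Int.gcd_dvd_left _ _)
      have h2 : (d : ℤ) ∣ z.im := (Int.natCast_dvd_natCast.2 hz3).trans (Int.gcd_dvd_right _ _)
      obtain ⟨a, ha⟩ := h1
      obtain ⟨b, hb⟩ := h2
      have e1 : nm z = d ^ 2 * nm (⟨a, b⟩ : G) := by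
        have : (nm z : ℤ) = d ^ 2 * nm (⟨a, b⟩ : G) := by
          rw [nm_eq, nm_eq, ha, hb]; ring
        exact_mod_cast this
      refine ⟨⟨a, b⟩, ?_, ?_⟩
      · rw [mem_ob]
        have hd0 : (0 : ℝ) < (d : ℝ) ^ 2 := by positivity
        rw [le_div_iff₀ hd0]
        rw [e1] at hz1 hz2
        push_cast at hz1
        exact ⟨by linarith, (Nat.odd_mul.1 hz2).2⟩
      · apply Zsqrtd.ext
        · simp [ha]
        · simp [hb]
    · intro w _
      rw [← hm]
      congr 1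
      apply Zsqrtd.ext <;> simp
  · rw [sum_eq_zero]
    intro z hz
    rw [mem_filter, mem_ob] at hz
    exfalso
    obtain ⟨⟨_, hz2⟩, hdz⟩ := hz
    rw [Nat.not_odd_iff_even] at hodd
    have h1 : (2 : ℤ) ∣ z.re := (Int.natCast_dvd_natCast.2 ((even_iff_two_dvd.1 hodd).trans hdz)).trans
      (Int.gcd_dvd_left _ _)
    have h2 : (2 : ℤ) ∣ z.im := (Int.natCast_dvd_natCast.2 ((even_iff_two_dvd.1 hodd).trans hdz)).trans
      (Int.gcd_dvd_right _ _)
    have h3 := odd_nm_iff.1 hz2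
    rw [Int.odd_iff] at h3
    omega

/-- Moebius inversion -/
private theorem bc_moebius (χ : G → ℂ) (hm : ∀ z w, χ (z * w) = χ z * χ w)
    (he : ∀ z, ¬ Odd (nm z) → χ z = 0) (X : ℝ) (D : ℕ) (hD : Real.sqrt X ≤ D + 1) :
    ∑ z ∈ V X, χ z =
      ∑ d ∈ Finset.range (D + 2), (if Odd d then (ArithmeticFunction.moebius d : ℂ) *
        (χ ((d : ℕ) : G) * ∑ z ∈ ball (X / (d : ℝ) ^ 2), χ z) else 0) := by
  classical
  have h1 : ∑ z ∈ V X, χ z = ∑ z ∈ ob X, if gc z = 1 then χ z else 0 := by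
    rw [← Finset.sum_filter]
    apply Finset.sum_congr _ (fun _ _ => rfl)
    ext z
    rw [mem_V, Finset.mem_filter, mem_ob, prim_iff_gc, and_assoc]
  have h2 : ∀ z ∈ ob X, (if gc z = 1 then χ z else 0) =
      ∑ d ∈ Finset.range (D + 2), if (d ∣ gc z ∧ d ≠ 0) then
        (ArithmeticFunction.moebius d : ℂ) * χ z else 0 := by
    intro z hz
    rw [mem_ob] at hz
    have hz0 := ne_zero_of_odd hz.2
    have hg := gc_pos z hz0
    have hgD : gc z ≤ D + 1 := by
      have a1 : ((gc z ^ 2 : ℕ) : ℝ) ≤ X := le_trans (by exact_mod_cast gc_sq_le z hz0) hz.1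
      push_cast at a1
      have a2 : (gc z : ℝ) ≤ Real.sqrt X := Real.le_sqrt_of_sq_le a1
      have a3 : (gc z : ℝ) ≤ D + 1 := a2.trans hD
      exact_mod_cast a3
    have h3 : ∑ d ∈ Finset.range (D + 2), (if (d ∣ gc z ∧ d ≠ 0) then
        (ArithmeticFunction.moebius d : ℂ) * χ z else 0) =
        ∑ d ∈ (gc z).divisors, (ArithmeticFunction.moebius d : ℂ) * χ z := by
      rw [← Finset.sum_filter]
      apply Finset.sum_congr _ (fun _ _ => rfl)
      ext d
      rw [Finset.mem_filter, Finset.mem_range, Nat.mem_divisors]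
      constructor
      · rintro ⟨_, b1, _⟩
        exact ⟨b1, hg.ne'⟩
      · rintro ⟨b1, b2⟩
        refine ⟨?_, b1, ?_⟩
        · have := Nat.le_of_dvd hg b1
          omega
        · rintro rfl
          exact b2 (zero_dvd_iff.1 b1)
    rw [h3, ← Finset.sum_mul]
    have h4 : ((∑ d ∈ (gc z).divisors, ArithmeticFunction.moebius d : ℤ) : ℂ) =
        if gc z = 1 then (1 : ℂ) else 0 := by
      rw [← ArithmeticFunction.coe_mul_zeta_apply, ArithmeticFunction.moebius_mul_coe_zeta,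
        ArithmeticFunction.one_apply]
      push_cast
      rfl
    push_cast at h4
    rw [h4]
    split_ifs <;> simp
  rw [h1, Finset.sum_congr rfl h2, Finset.sum_comm]
  apply Finset.sum_congr rfl
  intro d _
  rcases Nat.eq_zero_or_pos d with rfl | hd
  · simp
  have h5 := bc_dvd χ hm X d hd
  have h6 : ∑ z ∈ ob X, (if (d ∣ gc z ∧ d ≠ 0) then (ArithmeticFunction.moebius d : ℂ) * χ z else 0) =
      (ArithmeticFunction.moebius d : ℂ) * ∑ z ∈ (ob X).filter (fun z => d ∣ gc z), χ z := by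
    have : ∀ z ∈ ob X, (if (d ∣ gc z ∧ d ≠ 0) then (ArithmeticFunction.moebius d : ℂ) * χ z else 0) =
        if d ∣ gc z then (ArithmeticFunction.moebius d : ℂ) * χ z else 0 := by
      intro z _
      simp [hd.ne']
    rw [Finset.sum_congr rfl this, ← Finset.sum_filter, ← Finset.mul_sum]
  rw [h6, h5, bc_ob χ he]
  split_ifs <;> simp

/-- the coefficients `μ(d) χ(d) / d ^ 2`, `d` odd -/
private noncomputable def bccf (χ : G → ℂ) (d : ℕ) : ℂ :=
  if Odd d then (ArithmeticFunction.moebius d : ℂ) * χ ((d : ℕ) : G) / (d : ℂ) ^ 2 else 0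

private theorem bc_mu (d : ℕ) : ‖(ArithmeticFunction.moebius d : ℂ)‖ ≤ 1 := by
  have h := abs_moebius_le d
  have h1 : ‖((ArithmeticFunction.moebius d : ℝ) : ℂ)‖ ≤ 1 := by
    rw [Complex.norm_real, Real.norm_eq_abs]
    exact h
  have h2 : (((ArithmeticFunction.moebius d : ℝ)) : ℂ) = (ArithmeticFunction.moebius d : ℂ) := by
    push_cast
    rfl
  rwa [h2] at h1

private theorem bc_cf_le (χ : G → ℂ) (hl : ∀ z, ‖χ z‖ ≤ 1) (d : ℕ) :
    ‖bccf χ d‖ ≤ ((d : ℝ) ^ 2)⁻¹ := by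
  unfold bccf
  split_ifs with h
  · rw [norm_div, norm_mul, norm_pow, Complex.norm_natCast, div_eq_mul_inv]
    have h1 := bc_mu d
    have h3 : ‖(ArithmeticFunction.moebius d : ℂ)‖ * ‖χ ((d : ℕ) : G)‖ ≤ 1 * 1 :=
      mul_le_mul h1 (hl _) (norm_nonneg _) (by norm_num)
    have h2 : 0 ≤ ((d : ℝ) ^ 2)⁻¹ := by positivity
    nlinarith
  · rw [norm_zero]; positivity

private theorem bc_summable (χ : G → ℂ) (hl : ∀ z, ‖χ z‖ ≤ 1) : Summable (bccf χ) := by
  apply Summable.of_norm_bounded (g := fun d : ℕ => ((d : ℝ) ^ 2)⁻¹)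
  · have := Real.summable_nat_pow_inv (p := 2)
    exact this.2 (by norm_num)
  · intro d
    exact bc_cf_le χ hl d

private theorem bc_tail (χ : G → ℂ) (hl : ∀ z, ‖χ z‖ ≤ 1) (n : ℕ) :
    ‖∑' d, bccf χ d - ∑ d ∈ Finset.range (n + 1), bccf χ d‖ ≤ 2 / (n + 1) := by
  have h1 : Tendsto (fun N => ‖∑ d ∈ Finset.range N, bccf χ d - ∑ d ∈ Finset.range (n + 1), bccf χ d‖)
      atTop (nhds ‖∑' d, bccf χ d - ∑ d ∈ Finset.range (n + 1), bccf χ d‖) :=
    (((bc_summable χ hl).hasSum.tendsto_sum_nat).sub_const _).norm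
  refine le_of_tendsto h1 ?_
  filter_upwards [eventually_ge_atTop (n + 1)] with N hN
  rw [← Finset.sum_range_add_sum_Ico _ hN, add_sub_cancel_left]
  refine (norm_sum_le _ _).trans ?_
  have h2 : ∑ d ∈ Finset.Ico (n + 1) N, ‖bccf χ d‖ ≤ ∑ d ∈ Finset.Ioo n N, ((d : ℝ) ^ 2)⁻¹ := by
    have : Finset.Ico (n + 1) N = Finset.Ioo n N := by
      ext x; simp only [Finset.mem_Ico, Finset.mem_Ioo]; omega
    rw [this]
    exact Finset.sum_le_sum fun d _ => bc_cf_le χ hl d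
  exact h2.trans (sum_Ioo_inv_sq_le n N)

private theorem bc_main (D : ℕ) (hD : 0 < D) (χ : G → ℂ) (hχ : Chi D χ) :
    ∃ (ρ : ℂ) (C : ℝ), 0 < C ∧ (¬ Pri D χ → ρ = 0) ∧ ∀ X : ℝ, 0 ≤ X →
      ‖∑ z ∈ V X, χ z - ρ * (X : ℂ)‖ ≤ C * Real.sqrt X * Real.log (X + 3) := by
  obtain ⟨A, C, hC, hA, h⟩ := bc_ball D hD χ hχ
  set σ : ℂ := ∑' d, bccf χ d with hσ
  refine ⟨A * σ, 4 * C + 2 * ‖A‖ + 1, by positivity, fun hp => by rw [hA hp, zero_mul], fun X hX => ?_⟩
  set E : ℕ := ⌊Real.sqrt X⌋₊ with hE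
  have hs0 := Real.sqrt_nonneg X
  have hss := Real.mul_self_sqrt hX
  have hE1 : (E : ℝ) ≤ Real.sqrt X := Nat.floor_le hs0
  have hE2 : Real.sqrt X < E + 1 := Nat.lt_floor_add_one _
  have hlog := log_ge_one hX
  rw [bc_moebius χ hχ.mul hχ.even X E hE2.le]
  have hterm : ∀ d ∈ Finset.range (E + 2), ‖(if Odd d then (ArithmeticFunction.moebius d : ℂ) *
      (χ ((d : ℕ) : G) * ∑ z ∈ ball (X / (d : ℝ) ^ 2), χ z) else 0) - A * (X : ℂ) * bccf χ d‖ ≤
      C * Real.sqrt X * ((d : ℝ))⁻¹ := by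
    intro d _
    unfold bccf
    split_ifs with hodd
    · have hd0 : (0 : ℝ) < d := by
        have : 0 < d := hodd.pos
        exact_mod_cast this
      have hdc : (d : ℂ) ≠ 0 := by
        have : d ≠ 0 := hodd.pos.ne'
        exact_mod_cast this
      have h1 := h (X / (d : ℝ) ^ 2) (by positivity)
      have h2 : Real.sqrt (X / (d : ℝ) ^ 2) = Real.sqrt X * (d : ℝ)⁻¹ := by
        rw [Real.sqrt_div' _ (by positivity), Real.sqrt_sq hd0.le, div_eq_mul_inv]
      have h3 : (ArithmeticFunction.moebius d : ℂ) *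
          (χ ((d : ℕ) : G) * ∑ z ∈ ball (X / (d : ℝ) ^ 2), χ z) -
          A * (X : ℂ) * ((ArithmeticFunction.moebius d : ℂ) * χ ((d : ℕ) : G) / (d : ℂ) ^ 2) =
          (ArithmeticFunction.moebius d : ℂ) * (χ ((d : ℕ) : G) *
            (∑ z ∈ ball (X / (d : ℝ) ^ 2), χ z - A * ((X / (d : ℝ) ^ 2 : ℝ) : ℂ))) := by
        push_cast
        ring
      rw [h3, norm_mul, norm_mul]
      have h4 := bc_mu d
      rw [h2] at h1
      calc ‖(ArithmeticFunction.moebius d : ℂ)‖ * (‖χ ((d : ℕ) : G)‖ *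
            ‖∑ z ∈ ball (X / (d : ℝ) ^ 2), χ z - A * ((X / (d : ℝ) ^ 2 : ℝ) : ℂ)‖)
          ≤ 1 * (1 * (C * (Real.sqrt X * (d : ℝ)⁻¹))) :=
            mul_le_mul h4 (mul_le_mul (hχ.le _) h1 (norm_nonneg _) (by norm_num)) (by positivity)
              (by norm_num)
        _ = C * Real.sqrt X * (d : ℝ)⁻¹ := by ring
    · rw [mul_zero, sub_zero, norm_zero]
      positivity
  have hsum1 : ‖∑ d ∈ Finset.range (E + 2), (if Odd d then (ArithmeticFunction.moebius d : ℂ) *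
      (χ ((d : ℕ) : G) * ∑ z ∈ ball (X / (d : ℝ) ^ 2), χ z) else 0)
        - A * (X : ℂ) * ∑ d ∈ Finset.range (E + 2), bccf χ d‖ ≤
      C * Real.sqrt X * ∑ d ∈ Finset.range (E + 2), ((d : ℝ))⁻¹ := by
    rw [Finset.mul_sum, Finset.mul_sum, ← Finset.sum_sub_distrib]
    exact (norm_sum_le _ _).trans (Finset.sum_le_sum hterm)
  have hharm : ∑ d ∈ Finset.range (E + 2), ((d : ℝ))⁻¹ ≤ 4 * Real.log (X + 3) := by
    have e1 : ∑ d ∈ Finset.range (E + 2), ((d : ℝ))⁻¹ = (harmonic (E + 1) : ℝ) := by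
      rw [Finset.sum_range_succ', harmonic]
      push_cast
      simp
    rw [e1]
    have e2 := harmonic_le_one_add_log (E + 1)
    have e3 : Real.log ((E + 1 : ℕ) : ℝ) ≤ Real.log (X + 3) := by
      apply Real.log_le_log (by positivity)
      push_cast
      have : Real.sqrt X ≤ X + 1 := by nlinarith [sq_nonneg (Real.sqrt X - 1)]
      linarith
    linarith
  have htail := bc_tail χ hχ.le (E + 1)
  push_cast at htail
  have hA2 : ‖A * (X : ℂ) * ∑ d ∈ Finset.range (E + 2), bccf χ d - A * σ * (X : ℂ)‖ ≤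
      2 * ‖A‖ * Real.sqrt X := by
    have e1 : A * (X : ℂ) * ∑ d ∈ Finset.range (E + 2), bccf χ d - A * σ * (X : ℂ) =
        -(A * (X : ℂ) * (σ - ∑ d ∈ Finset.range (E + 1 + 1), bccf χ d)) := by ring
    rw [e1, norm_neg, norm_mul, norm_mul, Complex.norm_real, Real.norm_of_nonneg hX]
    have e2 : X * (2 / ((E : ℝ) + 1 + 1)) ≤ 2 * Real.sqrt X := by
      rw [mul_div_assoc', div_le_iff₀ (by positivity)]
      nlinarith
    calc ‖A‖ * X * ‖σ - ∑ d ∈ Finset.range (E + 1 + 1), bccf χ d‖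
        ≤ ‖A‖ * X * (2 / ((E : ℝ) + 1 + 1)) := mul_le_mul_of_nonneg_left htail (by positivity)
      _ = ‖A‖ * (X * (2 / ((E : ℝ) + 1 + 1))) := by ring
      _ ≤ ‖A‖ * (2 * Real.sqrt X) := mul_le_mul_of_nonneg_left e2 (norm_nonneg _)
      _ = 2 * ‖A‖ * Real.sqrt X := by ring
  have hB : C * Real.sqrt X * ∑ d ∈ Finset.range (E + 2), ((d : ℝ))⁻¹ ≤
      C * Real.sqrt X * (4 * Real.log (X + 3)) :=
    mul_le_mul_of_nonneg_left hharm (by positivity)
  have hF : 2 * ‖A‖ * Real.sqrt X ≤ 2 * ‖A‖ * Real.sqrt X * Real.log (X + 3) := by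
    have : 0 ≤ 2 * ‖A‖ * Real.sqrt X := by positivity
    nlinarith
  have hG : 0 ≤ Real.sqrt X * Real.log (X + 3) := by
    have : 0 ≤ Real.log (X + 3) := by linarith
    positivity
  calc _ ≤ C * Real.sqrt X * (4 * Real.log (X + 3)) + 2 * ‖A‖ * Real.sqrt X * Real.log (X + 3) := by
        refine (norm_sub_le_norm_sub_add_norm_sub _
          (A * (X : ℂ) * ∑ d ∈ Finset.range (E + 2), bccf χ d) _).trans ?_
        linarith
    _ ≤ (4 * C + 2 * ‖A‖ + 1) * Real.sqrt X * Real.log (X + 3) := by linarith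

/-- PROOF. Moebius inversion as in `card_V_eq` (mr/VAsymp.lean): `∑_(V Y) χ z = ∑_(d odd, d ≤ sqrt Y) μ(d) χ(d) ∑_(z ∈ ball (Y / d²)) χ z` (`χ` vanishes on even elements). `∑_(z ∈ ball Y) χ z / Y → A := (1/D²) π ∑_(c mod D) χ c` for `Y → ∞`
(in each residue class the number of the elements of the ball is `π Y / D² + o(Y)`: all classes have the same number up to `O(sqrt Y)`, `countG`, and the total number is `π Y + O(sqrt Y)`; any proof that the limit exists is fine),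
`‖∑_(ball Y) χ z‖ ≤ C Y` (`Y ≥ 0`), so by dominated convergence (tail `∑_(d > K) C Y / d² ≤ C Y / K`) `∑_(V Y) χ z / Y → ρ := A ∑_(d odd) μ(d) χ(d) / d²`. If `χ` is not principal then `A = 0` (`typeChi` with `k = 0`), so `ρ = 0`. If `χ` is principal: a prime `w` with
`nm w > D²` is invertible modulo `D` (`chi_norm`), so `χ w = 1`. -/
theorem base_chi (D : ℕ) (hD : 0 < D) (χ : G → ℂ) (hχ : Chi D χ) :
    ∃ ρ : ℂ, Tendsto (fun Y : ℝ => (∑ z ∈ V Y, χ z) / Y) atTop (nhds ρ) ∧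
      (ρ = 0 ∨ ∀ w : G, Prime w → (D : ℝ) ^ 2 < nm w → χ w = 1) := by
  obtain ⟨ρ, C, hC, hρ, h⟩ := bc_main D hD χ hχ
  refine ⟨ρ, ?_, ?_⟩
  · rw [tendsto_iff_norm_sub_tendsto_zero]
    have hlim : Tendsto (fun X : ℝ => C * (Real.log (X + 3) / Real.sqrt X)) atTop (nhds 0) := by
      have h1 : Tendsto (fun X : ℝ => Real.log X / X ^ (1 / 2 : ℝ)) atTop (nhds 0) :=
        (isLittleO_log_rpow_atTop (by norm_num : (0 : ℝ) < 1 / 2)).tendsto_div_nhds_zero
      have h2 : Tendsto (fun X : ℝ => X + 3) atTop atTop := tendsto_atTop_add_const_right _ _ tendsto_id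
      have h3 := h1.comp h2
      have h4 : Tendsto (fun X : ℝ => 2 * (Real.log (X + 3) / (X + 3) ^ (1 / 2 : ℝ))) atTop (nhds (2 * 0)) :=
        h3.const_mul 2
      rw [mul_zero] at h4
      have h5 : Tendsto (fun X : ℝ => Real.log (X + 3) / Real.sqrt X) atTop (nhds 0) := by
        refine squeeze_zero' ?_ ?_ h4
        · filter_upwards [eventually_ge_atTop 1] with X hX
          have : 0 ≤ Real.log (X + 3) := Real.log_nonneg (by linarith)
          positivity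
        · filter_upwards [eventually_ge_atTop 1] with X hX
          have h6 : 0 ≤ Real.log (X + 3) := Real.log_nonneg (by linarith)
          have h7 : 0 < Real.sqrt X := Real.sqrt_pos.2 (by linarith)
          rw [← Real.sqrt_eq_rpow, mul_div_assoc']
          rw [div_le_div_iff₀ h7 (Real.sqrt_pos.2 (by linarith))]
          have h8 : Real.sqrt (X + 3) ≤ 2 * Real.sqrt X := by
            have h9 : Real.sqrt (X + 3) ≤ Real.sqrt (4 * X) := Real.sqrt_le_sqrt (by linarith)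
            have h10 : Real.sqrt (4 * X) = 2 * Real.sqrt X := by
              rw [Real.sqrt_mul (by norm_num), show (4 : ℝ) = 2 ^ 2 by norm_num,
                Real.sqrt_sq (by norm_num)]
            linarith
          calc Real.log (X + 3) * Real.sqrt (X + 3) ≤ Real.log (X + 3) * (2 * Real.sqrt X) :=
                mul_le_mul_of_nonneg_left h8 h6
            _ = 2 * Real.log (X + 3) * Real.sqrt X := by ring
      have h6 := h5.const_mul C
      rwa [mul_zero] at h6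
    refine squeeze_zero' (Eventually.of_forall fun X => norm_nonneg _) ?_ hlim
    filter_upwards [eventually_ge_atTop 1] with X hX
    have hX0 : 0 < X := by linarith
    have hXc : (X : ℂ) ≠ 0 := by exact_mod_cast hX0.ne'
    have h1 := h X hX0.le
    have h2 : (∑ z ∈ V X, χ z) / (X : ℂ) - ρ = (∑ z ∈ V X, χ z - ρ * (X : ℂ)) / (X : ℂ) := by
      field_simp
    rw [h2, norm_div, Complex.norm_real, Real.norm_of_nonneg hX0.le, div_le_iff₀ hX0]
    refine h1.trans (le_of_eq ?_)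
    have h3 : 0 < Real.sqrt X := Real.sqrt_pos.2 hX0
    have h4 := Real.mul_self_sqrt hX0.le
    calc C * Real.sqrt X * Real.log (X + 3)
        = C * (Real.log (X + 3) / Real.sqrt X) * (Real.sqrt X * Real.sqrt X) := by
          field_simp
      _ = C * (Real.log (X + 3) / Real.sqrt X) * X := by rw [h4]
  · by_cases hp : Pri D χ
    · right
      intro w hw hD2
      exact hp w (chi_norm D hD χ hχ w hw hD2).1
    · left
      exact hρ hp

end Pool.Agent.LPr
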