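import Pool.Agent.Lib_MP_f1a94e_lp.GramT

/-!
# Piece BIL: linear combinations of two families
-/

set_option autoImplicit false

namespace Pool.Agent.LPr

open Finset Pool.Agent.GaussMR Pool.Agent.OmAll Pool.Agent.OmEq MeasureTheory Filter

theorem qs2_self (f : ℕ → ℂ) (n : ℕ) (x : ℝ) (W : ℝ → ℝ → ℂ) (X : ℝ) : Qs2 f f n x W X = Qs f n x W X := rfl

theorem bil_conj (a b μ : ℂ) : (starRingEnd ℂ) ((a - μ * b) / 2) =
    ((starRingEnd ℂ) a - (starRingEnd ℂ) μ * (starRingEnd ℂ) b) / 2 := by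
  rw [map_div₀, map_sub, map_mul, Complex.conj_ofNat]

theorem cg2_bil (a b : ℕ → ℂ) (μ : ℂ) (n : ℕ) (x : ℝ) (W : ℝ → ℝ → ℂ) (X : ℝ) :
    Cg2 (fun m => (a m - μ * b m) / 2) (fun m => (a m - μ * b m) / 2) n x W X =
      (Cg2 a a n x W X - (starRingEnd ℂ) μ * Cg2 a b n x W X - μ * Cg2 b a n x W X +
        μ * (starRingEnd ℂ) μ * Cg2 b b n x W X) / 4 := by
  classical
  unfold Cg2
  rw [mul_sum, mul_sum, mul_sum, ← sum_sub_distrib, ← sum_sub_distrib, ← sum_add_distrib, sum_div]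
  refine sum_congr rfl fun e _ => ?_
  rw [bil_conj]
  ring

theorem qs2_bil (a b : ℕ → ℂ) (μ : ℂ) (n : ℕ) (x : ℝ) (W : ℝ → ℝ → ℂ) (X : ℝ) :
    Qs (fun m => (a m - μ * b m) / 2) n x W X =
      (Qs2 a a n x W X - (starRingEnd ℂ) μ * Qs2 a b n x W X - μ * Qs2 b a n x W X +
        μ * (starRingEnd ℂ) μ * Qs2 b b n x W X) / 4 := by
  classical
  unfold Qs Qs2
  rw [mul_sum, mul_sum, mul_sum, ← sum_sub_distrib, ← sum_sub_distrib, ← sum_add_distrib, sum_div]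
  refine sum_congr rfl fun e _ => ?_
  rw [bil_conj]
  ring

/-- `GBX` for a combination -/
theorem comb_GBX (E : Finset ℕ) (ω : ℂ) (hω : ‖ω‖ = 1) (f f0 : ℝ → ℕ → ℂ) (h : FX f E ω) (h0 : FX f0 E ω) (μ : ℂ) :
    GBX (fun X n => (f X n - μ * f0 X n) / 2) := by
  intro n hn b W hW a ha
  have t1 := gramBT n hn _ _ E ω (h.dil ha) (h.dil ha) hω b W hW
  have t2 := gramBT n hn _ _ E ω (h.dil ha) (h0.dil ha) hω b W hW
  have t3 := gramBT n hn _ _ E ω (h0.dil ha) (h.dil ha) hω b W hW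
  have t4 := gramBT n hn _ _ E ω (h0.dil ha) (h0.dil ha) hω b W hW
  have t := (((t1.sub (t2.const_mul ((starRingEnd ℂ) μ))).sub (t3.const_mul μ)).add
    (t4.const_mul (μ * (starRingEnd ℂ) μ))).div_const 4
  simp only [mul_zero, sub_zero, add_zero, zero_div] at t
  refine t.congr fun X => ?_
  rw [cg2_bil, qs2_bil]
  ring

/-- `TVX` for a combination -/
theorem comb_TVX (E : Finset ℕ) (ω : ℂ) (hω : ‖ω‖ = 1) (f f0 : ℝ → ℕ → ℂ) (h : FX f E ω) (h0 : FX f0 E ω) (μ : ℂ) :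
    TVX (fun X n => (f X n - μ * f0 X n) / 2) := by
  intro n hn b W hW hz a ha
  have t1 := tvfBT n hn _ _ E ω (h.dil ha) (h.dil ha) hω b W hW hz
  have t2 := tvfBT n hn _ _ E ω (h.dil ha) (h0.dil ha) hω b W hW hz
  have t3 := tvfBT n hn _ _ E ω (h0.dil ha) (h.dil ha) hω b W hW hz
  have t4 := tvfBT n hn _ _ E ω (h0.dil ha) (h0.dil ha) hω b W hW hz
  have t := (((t1.sub (t2.const_mul ((starRingEnd ℂ) μ))).sub (t3.const_mul μ)).add
    (t4.const_mul (μ * (starRingEnd ℂ) μ))).div_const 4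
  simp only [mul_zero, sub_zero, add_zero, zero_div] at t
  refine t.congr fun X => ?_
  rw [qs2_bil]
  ring

/-- `GAX` -/
theorem gax (E : Finset ℕ) (ω : ℂ) (hω : ‖ω‖ = 1) (hω2 : ω ^ 2 ≠ 1) (f : ℝ → ℕ → ℂ) (h : FX f E ω) : GAX f := by
  intro n hn b W hW a ha
  exact gramAT n hn _ _ E ω (h.dil ha) (h.dil ha) hω hω2 b W hW

/-- `PTX` for a combination -/
theorem comb_PTX (E : Finset ℕ) (ω : ℂ) (hω : ‖ω‖ = 1) (f1 f f0 : ℝ → ℕ → ℂ) (h1 : FX f1 E ω) (h : FX f E ω)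
    (h0 : FX f0 E ω) (μ : ℂ) : PTX f1 (fun X n => (f X n - μ * f0 X n) / 2) := by
  intro b W hW hz a ha
  have t1 := ptx E f1 f ω ω h1 h hω hω b W hW hz a ha
  have t2 := ptx E f1 f0 ω ω h1 h0 hω hω b W hW hz a ha
  have t := (t1.sub (t2.const_mul μ)).div_const 2
  simp only [mul_zero, sub_zero, zero_div] at t
  refine t.congr fun X => ?_
  unfold Sx2
  rw [← mul_div_assoc, mul_sum, ← sub_div, ← sum_sub_distrib, div_div, mul_comm (X : ℂ) 2, ← div_div, sum_div]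
  congr 1
  refine sum_congr rfl fun e _ => ?_
  ring

end Pool.Agent.LPr
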