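import Pool.Agent.Lib_MP_f1a94e_lp.Defs
import Pool.Agent.Lib_MP_f1a94e_eq.CS

/-!
# Piece CS2: Cauchy-Schwarz over unbalanced edges for two functions
-/

set_option autoImplicit false

namespace Pool.Agent.LPr

open Finset Pool.Agent.GaussMR Pool.Agent.OmAll Pool.Agent.OmEq

/-- the sum over unbalanced edges for two functions -/
noncomputable def SX2 (f1 f2 : ℕ → ℂ) (h : ℝ → ℝ) (J N : ℕ) (x X : ℝ) : ℂ :=
  ∑ e ∈ EN 1 x, f1 (nm e.1) * f2 (nm e.2) * ((h (nm e.1 / X) * rho J N (mE e / nm e.1) : ℝ) : ℂ)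

private theorem csN2_SX (f1 f2 : ℕ → ℂ) (h : ℝ → ℝ) (h2 : ℝ) (hh2 : ∀ y, h2 ≤ y → h y = 0) (J N : ℕ) (hJ : 1 ≤ J)
    (hN : 1 ≤ N) (X : ℝ) (hX : 1 ≤ X) (x : ℝ) (hx : (J + N) * h2 * X ≤ x) :
    SX2 f1 f2 h J N x X = ∑ A ∈ csA (h2 * X), f1 (nm A) * ((h (nm A / X) : ℝ) : ℂ) * csT f2 J N A := by
  classical
  have hX0 : (0 : ℝ) < X := by linarith
  have hJ0 : (1 : ℝ) ≤ J := by exact_mod_cast hJ
  have hN0 : (0 : ℝ) ≤ N := Nat.cast_nonneg _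
  set P : Finset (G × G) := (EN 1 x).filter (fun e => e.1 ∈ csA (h2 * X) ∧ e.2 ∈ csB J N e.1)
    with hP
  have hPmem : ∀ e : G × G, e ∈ P ↔ e.1 ∈ csA (h2 * X) ∧ e.2 ∈ csB J N e.1 := by
    intro e
    rw [hP, mem_filter]
    refine ⟨fun h => h.2, fun he => ⟨?_, he⟩⟩
    obtain ⟨h3, h4⟩ := he
    rw [csN_memA] at h3
    rw [csN_mem] at h4
    rw [mem_EN one_pos]
    have h5 : (0 : ℝ) < ((dot e.1 e.2 : ℤ) : ℝ) := by
      have := csN_nm_pos h4.1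
      nlinarith [h4.2.1]
    refine ⟨⟨?_, ?_, (csN_prim h4.1).1, ?_⟩, ?_⟩
    · rw [h4.1]
      rfl
    · exact_mod_cast h5
    · exact ⟨1, isCoprime_one_left, csN_cg_one _ _⟩
    · unfold mE
      calc ((dot e.1 e.2 : ℤ) : ℝ) ≤ (J + N) * nm e.1 := h4.2.2
        _ ≤ (J + N) * (h2 * X) := by
          apply mul_le_mul_of_nonneg_left h3.2
          positivity
        _ ≤ x := by linarith
  have h3 : ∑ A ∈ csA (h2 * X), f1 (nm A) * ((h (nm A / X) : ℝ) : ℂ) * csT f2 J N A =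
      ∑ A ∈ csA (h2 * X), ∑ B ∈ csB J N A, f1 (nm A) * ((h (nm A / X) : ℝ) : ℂ) *
        (f2 (nm B) * ((rho J N (((dot A B : ℤ) : ℝ) / nm A) : ℝ) : ℂ)) := by
    apply sum_congr rfl
    intro A _
    unfold csT
    rw [mul_sum]
  rw [h3, ← sum_finset_product' P (csA (h2 * X)) (csB J N) hPmem]
  unfold SX2
  rw [hP, sum_filter_of_ne]
  · apply sum_congr rfl
    intro e _
    unfold mE
    push_cast
    ring
  · intro e he hne
    rw [mem_EN one_pos] at he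
    obtain ⟨⟨hdet, hdot, hprim, _⟩, _⟩ := he
    have hdet1 : det e.1 e.2 = 1 := by
      rw [hdet]
      rfl
    have hne1 : h (nm e.1 / X) ≠ 0 := by
      intro h0
      apply hne
      rw [h0]
      simp
    have hne2 : rho J N (((dot e.1 e.2 : ℤ) : ℝ) / nm e.1) ≠ 0 := by
      intro h0
      apply hne
      rw [h0]
      simp
    have hnm := csN_nm_pos hdet1
    have h4 : (nm e.1 : ℝ) / X < h2 := by
      by_contra hc
      push Not at hc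
      exact hne1 (hh2 _ hc)
    rw [div_lt_iff₀ hX0] at h4
    have h5 := csN_rho_ne hN hne2
    rw [le_div_iff₀ (by linarith), div_le_iff₀ (by linarith)] at h5
    rw [csN_memA, csN_mem]
    exact ⟨⟨csN_ne_zero hdet1, h4.le⟩, hdet1, h5.1, h5.2⟩

/-- PROOF. The proof of `csN` (CS.lean) with `f1` at the first vector: first `csN_SX` for two functions (`SX2 = ∑_(A ∈ csA (h2 X)) f1 (nm A) * h * csT f2 J N A`, same proof),
then the Cauchy-Schwarz step only uses `‖f1 (nm A)‖ ≤ 1`; the rest (`csN_TT`, `csN_U`, `csN_Gm`, bound of the diagonal) concerns `f2` only and is unchanged (public lemmas). -/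
theorem csN2 (f1 f2 : ℕ → ℂ) (hf1 : ∀ n, ‖f1 n‖ ≤ 1) (hf2 : ∀ n, ‖f2 n‖ ≤ 1) (h : ℝ → ℝ) (hh0 : ∀ y, 0 ≤ h y)
    (hh1 : ∀ y, h y ≤ 1) (h2 : ℝ) (hh2 : ∀ y, h2 ≤ y → h y = 0) (J N : ℕ) (hJ : 1 ≤ J) (hN : 1 ≤ N) (X : ℝ)
    (hX : 1 ≤ X) (hh2' : 1 ≤ h2) (x x' : ℝ) (hx : (J + N) * h2 * X ≤ x) (hx' : (J + N) ^ 2 * h2 * X + 1 ≤ x') :
    ‖SX2 f1 f2 h J N x X‖ ^ 2 ≤ 9 * h2 * X * (9 * h2 * X * (N + 1) + 2 * ‖∑ n ∈ Icc 1 N, Gm f2 h J N n x' X‖) := by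
  classical
  have hX0 : (0 : ℝ) < X := by linarith
  have hY0 : (0 : ℝ) ≤ h2 * X := by positivity
  set 𝒜 := csA (h2 * X) with h𝒜
  have hcardA : (𝒜.card : ℝ) ≤ 9 * (h2 * X) := csN_cardA hY0
  rw [csN2_SX f1 f2 h h2 hh2 J N hJ hN X hX x hx]
  -- the sum of the squares
  set Q : ℝ := ∑ A ∈ 𝒜, h (nm A / X) ^ 2 * ‖csT f2 J N A‖ ^ 2 with hQ
  have h1 : ‖∑ A ∈ 𝒜, f1 (nm A) * ((h (nm A / X) : ℝ) : ℂ) * csT f2 J N A‖ ^ 2 ≤ 9 * h2 * X * Q := by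
    have h3 : ‖∑ A ∈ 𝒜, f1 (nm A) * ((h (nm A / X) : ℝ) : ℂ) * csT f2 J N A‖ ≤
        ∑ A ∈ 𝒜, h (nm A / X) * ‖csT f2 J N A‖ := by
      apply norm_sum_le_of_le
      intro A _
      rw [norm_mul, norm_mul, Complex.norm_real, Real.norm_eq_abs, abs_of_nonneg (hh0 _)]
      have h4 := hf1 (nm A)
      have h5 := hh0 (nm A / X)
      have h6 := norm_nonneg (csT f2 J N A)
      calc ‖f1 (nm A)‖ * h (nm A / X) * ‖csT f2 J N A‖ ≤ 1 * h (nm A / X) * ‖csT f2 J N A‖ := by gcongr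
        _ = _ := by ring
    have h4 : (∑ A ∈ 𝒜, h (nm A / X) * ‖csT f2 J N A‖) ^ 2 ≤
        𝒜.card * ∑ A ∈ 𝒜, (h (nm A / X) * ‖csT f2 J N A‖) ^ 2 := sq_sum_le_card_mul_sum_sq
    have h5 : ∑ A ∈ 𝒜, (h (nm A / X) * ‖csT f2 J N A‖) ^ 2 = Q := by
      rw [hQ]
      apply sum_congr rfl
      intro A _
      ring
    have hQ0 : 0 ≤ Q := by
      rw [hQ]
      apply sum_nonneg
      intro A _
      positivity
    calc ‖∑ A ∈ 𝒜, f1 (nm A) * ((h (nm A / X) : ℝ) : ℂ) * csT f2 J N A‖ ^ 2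
        ≤ (∑ A ∈ 𝒜, h (nm A / X) * ‖csT f2 J N A‖) ^ 2 := pow_le_pow_left₀ (norm_nonneg _) h3 2
      _ ≤ 𝒜.card * Q := by rw [← h5]; exact h4
      _ ≤ 9 * (h2 * X) * Q := mul_le_mul_of_nonneg_right hcardA hQ0
      _ = 9 * h2 * X * Q := by ring
  refine h1.trans ?_
  apply mul_le_mul_of_nonneg_left _ (by positivity)
  -- expansion of the squares
  set D : ℂ := ∑ A ∈ 𝒜, ((h (nm A / X) ^ 2 : ℝ) : ℂ) * ∑ B ∈ csB J N A, csF f2 J N A (B, B) with hD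
  set U : ℂ := ∑ A ∈ 𝒜, ((h (nm A / X) ^ 2 : ℝ) : ℂ) * csU f2 J N A with hU
  have h3 : ((Q : ℝ) : ℂ) = D + U + (starRingEnd ℂ) U := by
    rw [hQ, hD, hU, map_sum, ← sum_add_distrib, ← sum_add_distrib]
    push_cast
    apply sum_congr rfl
    intro A _
    have h4 : ((‖csT f2 J N A‖ : ℝ) : ℂ) ^ 2 = csT f2 J N A * (starRingEnd ℂ) (csT f2 J N A) := by
      rw [Complex.mul_conj, Complex.normSq_eq_norm_sq]
      push_cast
      rfl
    rw [h4, csN_TT, map_mul, map_pow, Complex.conj_ofReal]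
    ring
  have hUG : U = ∑ n ∈ Icc 1 N, Gm f2 h J N n x' X := by
    rw [hU]
    have h4 : ∀ A ∈ 𝒜, ((h (nm A / X) ^ 2 : ℝ) : ℂ) * csU f2 J N A =
        ∑ n ∈ Icc 1 N, ((h (nm A / X) ^ 2 : ℝ) : ℂ) * ∑ p ∈ csB J N A ×ˢ csB J N A,
          (if p.1 = p.2 + (((n : ℤ) : G)) * A then csF f2 J N A p else 0) := by
      intro A _
      rw [csN_U, mul_sum]
    rw [sum_congr rfl h4, sum_comm]
    apply sum_congr rfl
    intro n hn
    rw [mem_Icc] at hn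
    exact csN_Gm f2 h h2 hh2 J N hJ hN X hX x' hx' n hn.1
  have hDle : ‖D‖ ≤ 9 * h2 * X * (N + 1) := by
    rw [hD]
    have h4 : ‖∑ A ∈ 𝒜, ((h (nm A / X) ^ 2 : ℝ) : ℂ) * ∑ B ∈ csB J N A, csF f2 J N A (B, B)‖ ≤
        ∑ _A ∈ 𝒜, ((N : ℝ) + 1) := by
      apply norm_sum_le_of_le
      intro A hA
      rw [h𝒜, csN_memA] at hA
      rw [norm_mul, Complex.norm_real, Real.norm_eq_abs, abs_of_nonneg (sq_nonneg _)]
      have h5 : ‖∑ B ∈ csB J N A, csF f2 J N A (B, B)‖ ≤ ∑ _B ∈ csB J N A, (1 : ℝ) := by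
        apply norm_sum_le_of_le
        intro B _
        unfold csF
        rw [norm_mul, norm_mul, Complex.norm_real, RCLike.norm_conj, Real.norm_eq_abs]
        have h6 := hf2 (nm B)
        have h7 := csN_rho_nonneg J N (((dot A B : ℤ) : ℝ) / nm A)
        have h8 := csN_rho_le J N (((dot A B : ℤ) : ℝ) / nm A)
        simp only
        rw [abs_of_nonneg (mul_nonneg h7 h7)]
        calc ‖f2 (nm B)‖ * ‖f2 (nm B)‖ * (rho J N (((dot A B : ℤ) : ℝ) / nm A) *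
              rho J N (((dot A B : ℤ) : ℝ) / nm A)) ≤ 1 * 1 * (1 * 1) := by gcongr
          _ = 1 := by norm_num
      rw [sum_const, nsmul_eq_mul, mul_one] at h5
      have h6 : h (nm A / X) ^ 2 ≤ 1 := by
        have h7 := hh0 (nm A / X)
        have h8 := hh1 (nm A / X)
        nlinarith
      calc h (nm A / X) ^ 2 * ‖∑ B ∈ csB J N A, csF f2 J N A (B, B)‖
          ≤ 1 * ((N : ℝ) + 1) := by
            apply mul_le_mul h6 (h5.trans (csN_card hA.1)) (norm_nonneg _) zero_le_one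
        _ = (N : ℝ) + 1 := one_mul _
    rw [sum_const, nsmul_eq_mul] at h4
    calc _ ≤ (𝒜.card : ℝ) * ((N : ℝ) + 1) := h4
      _ ≤ 9 * (h2 * X) * ((N : ℝ) + 1) := by
        apply mul_le_mul_of_nonneg_right hcardA
        positivity
      _ = _ := by ring
  have h4 : Q = D.re + 2 * U.re := by
    have h5 := congrArg Complex.re h3
    rw [Complex.ofReal_re, Complex.add_re, Complex.add_re, Complex.conj_re] at h5
    linarith
  rw [h4, ← hUG]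
  have h5 := Complex.re_le_norm D
  have h6 := Complex.re_le_norm U
  linarith

end Pool.Agent.LPr
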