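import Pool.Agent.Lib_MP_f1a94e_lp.Defs
import Pool.Agent.Lib_MP_f1a94e_eq.Clu

/-!
# Piece CLUT: sums over clusters, moves of small primes only
-/

set_option autoImplicit false

namespace Pool.Agent.LPr

open Finset Pool.Agent.GaussMR Pool.Agent.OmAll Pool.Agent.OmEq

open Classical in
/-- one step of the induction over the primes -/
theorem cluT_step (n : ℕ) (hn : 0 < n) (E : Finset ℕ) (hE : n.primeFactors ⊆ E) (g : ℕ → ℂ) (Φ : G × G → ℂ)
    (T : ℕ) (hΦ : CmpT n E T g Φ) (x : ℝ) (W : ℝ → ℝ → ℂ) (Q : Finset ℕ) (p : ℕ) (hpQ : p ∉ Q) (hp : p ∈ PE E T) :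
    ∑ e ∈ (EN n x).filter (fun e => ∀ q ∈ ds E T e ∩ Q, ¬ q ∣ nm e.1),
        Φ e * cs g (W (mE e)) (ds E T e ∩ Q) (tE e) =
      ∑ e ∈ (EN n x).filter (fun e => ∀ q ∈ ds E T e ∩ insert p Q, ¬ q ∣ nm e.1),
        Φ e * cs g (W (mE e)) (ds E T e ∩ insert p Q) (tE e) := by
  obtain ⟨hpT, hpp, hp4, hpE⟩ := mem_PE.mp hp
  have hpn : ¬ p ∣ n := fun h => hpE (hE (Nat.mem_primeFactors.mpr ⟨hpp, h, hn.ne'⟩))
  obtain ⟨φ, hbij, hφ⟩ := toggle n hn p hpp hp4 hpn
  -- split the left side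
  have hL : (EN n x).filter (fun e => ∀ q ∈ ds E T e ∩ Q, ¬ q ∣ nm e.1) =
      (EN n x).filter (fun e => ∀ q ∈ ds E T e ∩ insert p Q, ¬ q ∣ nm e.1) ∪
      (EN n x).filter (fun e => (∀ q ∈ ds E T e ∩ Q, ¬ q ∣ nm e.1) ∧ p ∈ ds E T e ∧ p ∣ nm e.1) := by
    ext e
    simp only [mem_filter, mem_union, mem_inter, mem_insert]
    constructor
    · rintro ⟨h1, h2⟩
      by_cases h3 : p ∈ ds E T e ∧ p ∣ nm e.1
      · exact Or.inr ⟨h1, h2, h3⟩
      · refine Or.inl ⟨h1, fun q hq => ?_⟩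
        rcases hq.2 with rfl | h4
        · exact fun h5 => h3 ⟨hq.1, h5⟩
        · exact h2 q ⟨hq.1, h4⟩
    · rintro (⟨h1, h2⟩ | ⟨h1, h2, -⟩)
      · exact ⟨h1, fun q hq => h2 q ⟨hq.1, Or.inr hq.2⟩⟩
      · exact ⟨h1, h2⟩
  have hdisj : Disjoint ((EN n x).filter (fun e => ∀ q ∈ ds E T e ∩ insert p Q, ¬ q ∣ nm e.1))
      ((EN n x).filter (fun e => (∀ q ∈ ds E T e ∩ Q, ¬ q ∣ nm e.1) ∧ p ∈ ds E T e ∧ p ∣ nm e.1)) := by
    rw [Finset.disjoint_left]
    intro e h1 h2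
    rw [mem_filter] at h1 h2
    exact h1.2 p (mem_inter.mpr ⟨h2.2.2.1, mem_insert_self _ _⟩) h2.2.2.2
  rw [hL, Finset.sum_union hdisj]
  -- the right side
  have hR : ∀ e : G × G, Φ e * cs g (W (mE e)) (ds E T e ∩ insert p Q) (tE e) =
      Φ e * cs g (W (mE e)) (ds E T e ∩ Q) (tE e) +
        if p ∈ ds E T e then Φ e * (g p * cs g (W (mE e)) (ds E T e ∩ Q) (tE e - 2 * Real.log p)) else 0 := by
    intro e
    by_cases h : p ∈ ds E T e
    · rw [if_pos h, Finset.inter_insert_of_mem h, cs_insert g _ _ p (fun h1 => hpQ (mem_inter.mp h1).2), mul_add]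
    · rw [if_neg h, Finset.inter_insert_of_notMem h, add_zero]
  rw [Finset.sum_congr rfl (fun e _ => hR e), Finset.sum_add_distrib, ← Finset.sum_filter]
  congr 1
  symm
  refine Finset.sum_nbij φ ?_ ?_ ?_ ?_
  · intro e he
    rw [mem_filter, mem_filter] at he
    obtain ⟨⟨h1, h2⟩, h3⟩ := he
    have h4 : p ∣ nm e.1 * nm e.2 ∧ ¬ p ^ 2 ∣ nm e.1 * nm e.2 := (mem_filter.mp h3).2
    have h5 : ¬ p ∣ nm e.1 := h2 p (mem_inter.mpr ⟨h3, mem_insert_self _ _⟩)
    have h6 : e ∈ Bp n p := ⟨((mem_EN hn).mp h1).1, (hpp.dvd_mul.mp h4.1).resolve_left h5, h4.2⟩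
    have h7 := hbij.mapsTo h6
    obtain ⟨γ, U, V, hγ, h8, h9⟩ := hφ e h6
    have h10 : nm (φ e).1 * nm (φ e).2 = nm e.1 * nm e.2 := by
      rw [h9, h8]
      exact clu_prod γ U V
    have h11 : ds E T (φ e) = ds E T e := clu_ds h10
    have h12 : mE (φ e) = mE e := by
      unfold mE
      rw [h9, h8]
      show ((dot (γ * U) V : ℤ) : ℝ) = ((dot U (star γ * V) : ℤ) : ℝ)
      rw [clu_dot]
    rw [mem_filter, mem_EN hn]
    refine ⟨⟨h7.1, ?_⟩, ?_, ?_, ?_⟩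
    · rw [h12]
      exact ((mem_EN hn).mp h1).2
    · intro q hq
      rw [h11] at hq
      obtain ⟨hq1, hq2⟩ := mem_inter.mp hq
      have hqp : q.Prime := (mem_PE.mp (mem_filter.mp hq1).1).2.1
      have h13 : ¬ q ∣ nm e.1 := h2 q (mem_inter.mpr ⟨hq1, mem_insert_of_mem hq2⟩)
      rw [h9]
      show ¬ q ∣ nm (γ * U)
      rw [nm_mul, hγ]
      intro h14
      rcases hqp.dvd_mul.mp h14 with h15 | h15
      · have h16 : q = p := (Nat.prime_dvd_prime_iff_eq hqp hpp).mp h15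
        exact hpQ (h16 ▸ hq2)
      · rw [h8] at h13
        exact h13 h15
    · rw [h11]
      exact h3
    · exact h7.2.1
  · intro e he e' he' hee
    rw [mem_coe, mem_filter, mem_filter] at he he'
    have key : ∀ e : G × G, ((e ∈ EN n x ∧ ∀ q ∈ ds E T e ∩ insert p Q, ¬ q ∣ nm e.1) ∧ p ∈ ds E T e) → e ∈ Bp n p := by
      rintro e ⟨⟨h1, h2⟩, h3⟩
      have h4 : p ∣ nm e.1 * nm e.2 ∧ ¬ p ^ 2 ∣ nm e.1 * nm e.2 := (mem_filter.mp h3).2
      have h5 : ¬ p ∣ nm e.1 := h2 p (mem_inter.mpr ⟨h3, mem_insert_self _ _⟩)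
      exact ⟨((mem_EN hn).mp h1).1, (hpp.dvd_mul.mp h4.1).resolve_left h5, h4.2⟩
    exact hbij.injOn (key e he) (key e' he') hee
  · intro e' he'
    rw [mem_coe, mem_filter] at he'
    obtain ⟨h1, h2, h3, h3'⟩ := he'
    have h4 : p ∣ nm e'.1 * nm e'.2 ∧ ¬ p ^ 2 ∣ nm e'.1 * nm e'.2 := (mem_filter.mp h3).2
    have h5 : e' ∈ Ap' n p := ⟨((mem_EN hn).mp h1).1, h3', h4.2⟩
    obtain ⟨e, h6, h7⟩ := hbij.surjOn h5
    obtain ⟨γ, U, V, hγ, h8, h9⟩ := hφ e h6
    have h10 : nm (φ e).1 * nm (φ e).2 = nm e.1 * nm e.2 := by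
      rw [h9, h8]
      exact clu_prod γ U V
    have h11 : ds E T (φ e) = ds E T e := clu_ds h10
    have h12 : mE (φ e) = mE e := by
      unfold mE
      rw [h9, h8]
      show ((dot (γ * U) V : ℤ) : ℝ) = ((dot U (star γ * V) : ℤ) : ℝ)
      rw [clu_dot]
    rw [h7] at h9 h10 h11 h12
    refine ⟨e, ?_, h7⟩
    rw [mem_coe, mem_filter, mem_filter, mem_EN hn]
    refine ⟨⟨⟨h6.1, ?_⟩, ?_⟩, ?_⟩
    · rw [← h12]
      exact ((mem_EN hn).mp h1).2
    · intro q hq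
      rw [← h11] at hq
      obtain ⟨hq1, hq2⟩ := mem_inter.mp hq
      rcases mem_insert.mp hq2 with rfl | hq2
      · intro h13
        refine h6.2.2 ?_
        rw [pow_two]
        exact mul_dvd_mul h13 h6.2.1
      · have h13 : ¬ q ∣ nm e'.1 := h2 q (mem_inter.mpr ⟨hq1, hq2⟩)
        intro h14
        apply h13
        rw [h9]
        show q ∣ nm (γ * U)
        rw [nm_mul]
        rw [h8] at h14
        exact Dvd.dvd.mul_left h14 _
    · rw [← h11]
      exact h3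
  · intro e he
    rw [mem_filter, mem_filter] at he
    obtain ⟨⟨h1, h2⟩, h3⟩ := he
    have h4 : p ∣ nm e.1 * nm e.2 ∧ ¬ p ^ 2 ∣ nm e.1 * nm e.2 := (mem_filter.mp h3).2
    have h5 : ¬ p ∣ nm e.1 := h2 p (mem_inter.mpr ⟨h3, mem_insert_self _ _⟩)
    have h6 : e ∈ Bp n p := ⟨((mem_EN hn).mp h1).1, (hpp.dvd_mul.mp h4.1).resolve_left h5, h4.2⟩
    have h7 := hbij.mapsTo h6
    obtain ⟨γ, U, V, hγ, h8, h9⟩ := hφ e h6
    have h10 : nm (φ e).1 * nm (φ e).2 = nm e.1 * nm e.2 := by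
      rw [h9, h8]
      exact clu_prod γ U V
    have h11 : ds E T (φ e) = ds E T e := clu_ds h10
    have h12 : mE (φ e) = mE e := by
      unfold mE
      rw [h9, h8]
      show ((dot (γ * U) V : ℤ) : ℝ) = ((dot U (star γ * V) : ℤ) : ℝ)
      rw [clu_dot]
    have h13 : tE (φ e) = tE e - 2 * Real.log p := by
      obtain ⟨h14, h15⟩ := clu_nm_ne hn h7.1
      have h16 : nm U ≠ 0 := by
        intro h0
        apply h14
        rw [h9]
        show nm (γ * U) = 0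
        rw [nm_mul, h0, mul_zero]
      have h17 : nm V ≠ 0 := by
        rw [h9] at h15
        exact h15
      have h18 : (p : ℝ) ≠ 0 := by
        exact_mod_cast hpp.ne_zero
      unfold tE
      rw [h9, h8]
      show Real.log (nm V) - Real.log (nm (γ * U)) = Real.log (nm (star γ * V)) - Real.log (nm U) - 2 * Real.log p
      rw [nm_mul, nm_mul, nm_star, hγ]
      push_cast
      rw [Real.log_mul h18 (by exact_mod_cast h16), Real.log_mul h18 (by exact_mod_cast h17)]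
      ring
    have h14 : Φ (φ e) = g p * Φ e := by
      have h15 := hΦ.mv γ U V (by rw [hγ]; exact hpp) (by rw [hγ]; exact hp4) (by rw [hγ]; exact hpT) (by rw [hγ]; exact hpE)
        (by rw [← h9]; exact h7.1) (by
          rw [hγ, clu_prod]
          have h16 := h6.2.2
          rw [h8] at h16
          exact h16)
      rw [h9, h8, h15, hγ]
    rw [h11, h12, h13, h14]
    ring

open Classical in
/-- PROOF. Induction over a subset `Q` of `PE E T`: with `b_Q e := ∀ p ∈ ds E T e ∩ Q, ¬ p ∣ nm e.1`, claim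
`∑_(e ∈ EN n x) Φ e * W (dot e) (tE e) = ∑_(e ∈ EN n x, b_Q e) Φ e * ∑_(a ⊆ ds E T e ∩ Q) (∏_(p ∈ a) g p) * W (dot e) (tE e - 2 lg a)`.
`Q = ∅`: trivial. Step `Q → Q ∪ {p}`: the `e` with `b_Q` are of three kinds: `p ∉ ds e` (unchanged), `p ∈ ds e` and `p ∣ nm e.2` (then `p ∤ nm e.1`), `p ∈ ds e` and
`p ∣ nm e.1`. `toggle` gives a bijection `φ` from the second kind to the third: for `e = (U, star γ W)`, `φ e = (γ U, W)`: same `dot`
(`star (γ U) * W = star U * (star γ * W)`, `star_mul_eq`), same product `nm e.1 * nm e.2`, so the same `ds`, membership in `EN` is preserved, the condition `b_Q` too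
(for `q ≠ p`, `q ∣ nm (γ U) = p nm U` iff `q ∣ nm U`), `tE (φ e) = tE e - 2 log p` and `Φ (φ e) = g p * Φ e` (`Cmp.mv`; `p ∉ E`, `p % 4 = 1`). So the sum over the
third kind equals the sum over `e` of the second kind of `Φ e * ∑_(a ⊆ ds e ∩ Q) g p * (∏_(q ∈ a) g q) * W (dot e) (tE e - 2 log p - 2 lg a)`, i.e. the terms
`a ∪ {p}` of the new sum. (`lg (insert p a) = log p + lg a`, `Finset.sum_powerset_insert` or `Finset.prod_add` type lemmas.) At the end `Q = PE E T`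
and `ds E T e ∩ PE E T = ds E T e`. -/
theorem clusterT (n : ℕ) (hn : 0 < n) (E : Finset ℕ) (hE : n.primeFactors ⊆ E) (g : ℕ → ℂ) (Φ : G × G → ℂ)
    (T : ℕ) (hΦ : CmpT n E T g Φ) (x : ℝ) (W : ℝ → ℝ → ℂ) :
    ∑ e ∈ EN n x, Φ e * W (mE e) (tE e) =
      ∑ e ∈ (EN n x).filter (bs E T), Φ e * cs g (W (mE e)) (ds E T e) (tE e) := by
  have key : ∀ Q : Finset ℕ, Q ⊆ PE E T → ∑ e ∈ EN n x, Φ e * W (mE e) (tE e) =
      ∑ e ∈ (EN n x).filter (fun e => ∀ q ∈ ds E T e ∩ Q, ¬ q ∣ nm e.1),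
        Φ e * cs g (W (mE e)) (ds E T e ∩ Q) (tE e) := by
    intro Q
    induction Q using Finset.induction_on with
    | empty =>
      intro _
      have h1 : (EN n x).filter (fun e => ∀ q ∈ ds E T e ∩ (∅ : Finset ℕ), ¬ q ∣ nm e.1) = EN n x := by
        refine Finset.filter_true_of_mem fun e _ q hq => ?_
        rw [Finset.inter_empty] at hq
        exact absurd hq (Finset.notMem_empty q)
      rw [h1]
      refine Finset.sum_congr rfl fun e _ => ?_
      rw [Finset.inter_empty]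
      unfold cs
      rw [Finset.powerset_empty, Finset.sum_singleton, Finset.prod_empty, one_mul]
      unfold lg
      rw [Finset.sum_empty, mul_zero, sub_zero]
    | insert p Q hpQ ih =>
      intro hQ
      rw [ih (fun q hq => hQ (mem_insert_of_mem hq))]
      exact cluT_step n hn E hE g Φ T hΦ x W Q p hpQ (hQ (mem_insert_self _ _))
  rw [key (PE E T) (Finset.Subset.refl _)]
  have h2 : ∀ e : G × G, ds E T e ∩ PE E T = ds E T e := fun e =>
    Finset.inter_eq_left.mpr (Finset.filter_subset _ _)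
  refine Finset.sum_congr ?_ fun e _ => ?_
  · refine Finset.filter_congr fun e _ => ?_
    rw [h2]
    exact Iff.rfl
  · rw [h2]

end Pool.Agent.LPr
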