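import Pool.Agent.Lib_MP_f1a94e_lp.IntM
import Pool.Agent.Lib_MP_f1a94e_mr.VAsymp
import Pool.Agent.Lib_MP_f1a94e_ecc.Defs
import Pool.Agent.Lib_MP_f1a94e_eq.Tog
import Pool.Agent.Lib_MP_f1a94e_mr.Split

/-!
# Piece VMEAN: mean values over the odd primitive Gaussian integers
-/

set_option autoImplicit false

namespace Pool.Agent.LPr

open Finset Pool.Agent.GaussMR Pool.Agent.GaussCM Pool.Agent.OmEq Filter

/-- a prime dividing the norm of an odd primitive Gaussian integer is `1 mod 4` -/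
theorem vm_mod {p : ℕ} (hp : p.Prime) {z : G} (ho : Odd (nm z)) (hz : Prim z) (h : p ∣ nm z) : p % 4 = 1 := by
  have h2 : p ≠ 2 := by
    rintro rfl
    exact (Nat.not_even_iff_odd.2 ho) (even_iff_two_dvd.2 h)
  have h3 : IsSquare (-1 : ZMod (nm z)) := by
    have := ZMod.isSquare_neg_one_of_eq_sq_add_sq_of_isCoprime (nm_eq z) hz
    simpa using this
  have h4 : p % 4 ≠ 3 := by
    have : Fact p.Prime := ⟨hp⟩
    exact ZMod.exists_sq_eq_neg_one_iff.1 (ZMod.isSquare_neg_one_of_dvd h h3)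
  have h5 := hp.eq_two_or_odd
  omega

open Classical in
/-- the sum over the multiples of a split prime -/
theorem vm_mult (ψ : G → ℂ) (hψ : CM ψ) (w : G) (hw : Spl w) (T : ℕ → ℂ) (Y : ℝ) :
    ∑ z ∈ (V Y).filter (fun z => w ∣ z), ψ z * T (nm z / nm w) =
      ψ w * (∑ z ∈ V (Y / nm w), ψ z * T (nm z) -
        ∑ z ∈ (V (Y / nm w)).filter (fun z => star w ∣ z), ψ z * T (nm z)) := by
  have hw0 : w ≠ 0 := ne_zero_of_odd hw.odd
  have hnw : (0 : ℝ) < nm w := by exact_mod_cast nm_pos hw0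
  have h1 : ∑ z ∈ V (Y / nm w), ψ z * T (nm z) -
      ∑ z ∈ (V (Y / nm w)).filter (fun z => star w ∣ z), ψ z * T (nm z) =
      ∑ z ∈ (V (Y / nm w)).filter (fun z => ¬ star w ∣ z), ψ z * T (nm z) := by
    rw [← Finset.sum_filter_add_sum_filter_not (V (Y / nm w)) (fun z => star w ∣ z)]
    ring
  rw [h1, Finset.mul_sum]
  symm
  refine Finset.sum_bij (fun z _ => w * z) ?_ ?_ ?_ ?_
  · intro z hz
    rw [Finset.mem_filter, mem_V] at hz
    obtain ⟨⟨h1, h2, h3⟩, h4⟩ := hz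
    rw [Finset.mem_filter, mem_V]
    rw [le_div_iff₀ hnw] at h1
    refine ⟨⟨?_, odd_nm_mul.mpr ⟨hw.odd, h2⟩, (prim_mul_iff hw h3).mpr h4⟩, dvd_mul_right _ _⟩
    rw [nm_mul]
    push_cast
    linarith
  · intro z _ z' _ h
    exact mul_left_cancel₀ hw0 h
  · intro z' hz'
    rw [Finset.mem_filter, mem_V] at hz'
    obtain ⟨⟨h1, h2, h3⟩, ⟨z, rfl⟩⟩ := hz'
    have hz2 : Prim z := (prim_of_mul h3).2
    refine ⟨z, ?_, rfl⟩
    rw [Finset.mem_filter, mem_V]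
    refine ⟨⟨?_, (odd_nm_mul.mp h2).2, hz2⟩, (prim_mul_iff hw hz2).mp h3⟩
    rw [nm_mul] at h1
    push_cast at h1
    rw [le_div_iff₀ hnw]
    linarith
  · intro z hz
    rw [Finset.mem_filter, mem_V] at hz
    rw [hψ.mul w z hw.odd hz.1.2.1, nm_mul, Nat.mul_div_cancel_left _ (nm_pos hw0)]
    ring

open Classical in
/-- multiples of `w` -/
theorem vm_card (w : G) (hw0 : w ≠ 0) (Y : ℝ) :
    ((V Y).filter (fun z => w ∣ z)).card ≤ (V (Y / nm w)).card := by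
  have hnw : (0 : ℝ) < nm w := by exact_mod_cast nm_pos hw0
  have h : (V Y).filter (fun z => w ∣ z) ⊆ (V (Y / nm w)).image (fun z => w * z) := by
    intro z' hz'
    rw [Finset.mem_filter, mem_V] at hz'
    obtain ⟨⟨h1, h2, h3⟩, ⟨z, rfl⟩⟩ := hz'
    rw [Finset.mem_image]
    refine ⟨z, ?_, rfl⟩
    rw [mem_V]
    refine ⟨?_, (odd_nm_mul.mp h2).2, (prim_of_mul h3).2⟩
    rw [nm_mul] at h1
    push_cast at h1
    rw [le_div_iff₀ hnw]
    linarith
  exact (Finset.card_le_card h).trans Finset.card_image_le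

/-- the sum over the primes above `p` -/
noncomputable def vmG (ψ : G → ℂ) (p : ℕ) : ℂ := ∑ w ∈ PP ((p : ℝ) - 1 / 2) p, (ψ w + ψ (star w))

theorem vmG_zero (ψ : G → ℂ) (p : ℕ) (h : ¬ (p.Prime ∧ p % 4 = 1)) : vmG ψ p = 0 := by
  unfold vmG
  rw [Finset.sum_eq_zero]
  intro w hw
  exfalso
  have h1 := PP_spl hw
  obtain ⟨h2, h3, -⟩ := mem_PP.1 hw
  have h4 : nm w = p := by
    apply le_antisymm
    · exact_mod_cast h3
    · by_contra hcon
      push Not at hcon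
      have h5 : nm w + 1 ≤ p := hcon
      have h6 : (nm w : ℝ) + 1 ≤ p := by exact_mod_cast h5
      linarith
  rw [← h4] at h
  exact h h1

theorem vmG_one {p : ℕ} (hp : p.Prime) (h4 : p % 4 = 1) : ∃ w : G, Spl w ∧ nm w = p ∧
    ∀ ψ : G → ℂ, vmG ψ p = ψ w + ψ (star w) := by
  obtain ⟨w, hw, hn⟩ := PP_exists (P := (p : ℝ) - 1 / 2) (Q := p) hp h4 (by linarith) le_rfl
  refine ⟨w, PP_spl hw, hn, fun ψ => ?_⟩
  unfold vmG
  have h5 : PP ((p : ℝ) - 1 / 2) p = {w} := by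
    rw [Finset.eq_singleton_iff_unique_mem]
    refine ⟨hw, fun w' hw' => ?_⟩
    obtain ⟨h2, h3, -⟩ := mem_PP.1 hw'
    have h4 : nm w' = p := by
      apply le_antisymm
      · exact_mod_cast h3
      · by_contra hcon
        push Not at hcon
        have h5 : nm w' + 1 ≤ p := hcon
        have h6 : (nm w' : ℝ) + 1 ≤ p := by exact_mod_cast h5
        linarith
    exact PP_inj hw' hw (h4.trans hn.symm)
  rw [h5, Finset.sum_singleton]

open Classical in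
/-- the elements with `p ∣ nm z` -/
theorem vm_split {p : ℕ} (hp : p.Prime) {w : G} (hw : Spl w) (hn : nm w = p) (Y : ℝ) (h : G → ℂ) :
    ∑ z ∈ (V Y).filter (fun z => p ∣ nm z), h z =
      ∑ z ∈ (V Y).filter (fun z => w ∣ z), h z + ∑ z ∈ (V Y).filter (fun z => star w ∣ z), h z := by
  rw [← Finset.sum_union]
  · refine Finset.sum_congr ?_ fun _ _ => rfl
    ext z
    rw [Finset.mem_union, Finset.mem_filter, Finset.mem_filter, Finset.mem_filter]
    constructor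
    · rintro ⟨h1, h2⟩
      rcases tog_dvd_exists hp hn h2 with h3 | h3
      · exact Or.inl ⟨h1, h3⟩
      · exact Or.inr ⟨h1, h3⟩
    · rintro (⟨h1, h2⟩ | ⟨h1, h2⟩)
      · refine ⟨h1, ?_⟩
        rw [← hn]
        exact nm_dvd h2
      · refine ⟨h1, ?_⟩
        rw [← hn, ← nm_star w]
        exact nm_dvd h2
  · rw [Finset.disjoint_left]
    intro z h1 h2
    rw [Finset.mem_filter] at h1 h2
    have h3 := tog_both hw.prime hw.not_dvd_star (by rw [tog_mul_star, hn] : w * star w = ((p : ℕ) : G)) h1.2 h2.2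
    exact tog_not_dvd hp (mem_V.1 h1.1).2.2 h3

open Classical in
/-- the sum over the elements with `p ∣ nm z` -/
theorem vm_prime (ψ : G → ℂ) (hψ : CM ψ) (T : ℕ → ℂ) (B : ℝ) (hB : 0 ≤ B) (p : ℕ) (hp : p.Prime) (Y : ℝ)
    (hY : 0 ≤ Y) (hT : ∀ n : ℕ, n ≠ 0 → (n : ℝ) ≤ Y → ‖T n‖ ≤ B) :
    ‖∑ z ∈ (V Y).filter (fun z => p ∣ nm z), ψ z * T (nm z / p) - vmG ψ p * ∑ z ∈ V (Y / p), ψ z * T (nm z)‖ ≤
      18 * B * Y * (1 / (p : ℝ) ^ 2) := by
  have hp0 : (0 : ℝ) < p := by exact_mod_cast hp.pos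
  have hp1 : (1 : ℝ) ≤ p := by exact_mod_cast hp.one_lt.le
  by_cases h4 : p % 4 = 1
  swap
  · rw [vmG_zero ψ p (fun h => h4 h.2), zero_mul, sub_zero]
    have h1 : (V Y).filter (fun z => p ∣ nm z) = ∅ := by
      rw [Finset.filter_eq_empty_iff]
      intro z hz hd
      obtain ⟨-, h2, h3⟩ := mem_V.1 hz
      exact h4 (vm_mod hp h2 h3 hd)
    rw [h1, Finset.sum_empty, norm_zero]
    positivity
  obtain ⟨w, hw, hn, hG⟩ := vmG_one hp h4
  rw [hG, vm_split hp hw hn]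
  have hnR : ((nm w : ℕ) : ℝ) = p := by rw [hn]
  have e1 := vm_mult ψ hψ w hw T Y
  have e2 := vm_mult ψ hψ (star w) hw.conj T Y
  rw [nm_star, star_star] at e2
  rw [hn] at e1 e2
  rw [e1, e2]
  have key : ∀ v : G, Spl v → nm v = p →
      ‖ψ (star v) * ∑ z ∈ (V (Y / p)).filter (fun z => v ∣ z), ψ z * T (nm z)‖ ≤ 9 * B * Y * (1 / (p : ℝ) ^ 2) := by
    intro v hv hvn
    rw [norm_mul]
    have h1 : ‖ψ (star v)‖ ≤ 1 := hψ.bd _ hv.conj.odd
    have h2 : ‖∑ z ∈ (V (Y / p)).filter (fun z => v ∣ z), ψ z * T (nm z)‖ ≤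
        ((V (Y / p)).filter (fun z => v ∣ z)).card * B := by
      rw [← nsmul_eq_mul]
      refine (norm_sum_le _ _).trans ?_
      apply Finset.sum_le_card_nsmul
      intro z hz
      rw [Finset.mem_filter, mem_V] at hz
      obtain ⟨⟨h3, h4, h5⟩, -⟩ := hz
      rw [norm_mul]
      have h6 := hψ.bd z h4
      have h7 : ‖T (nm z)‖ ≤ B := by
        apply hT _ (nm_pos_of_odd h4).ne'
        exact h3.trans (div_le_self hY hp1)
      calc ‖ψ z‖ * ‖T (nm z)‖ ≤ 1 * B := mul_le_mul h6 h7 (norm_nonneg _) zero_le_one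
        _ = B := one_mul B
    have h3 : (((V (Y / p)).filter (fun z => v ∣ z)).card : ℝ) ≤ 9 * (Y / p / p) := by
      have h4 := vm_card v (ne_zero_of_odd hv.odd) (Y / p)
      rw [hvn] at h4
      exact (Nat.cast_le.2 h4).trans (card_V_le _ (by positivity))
    calc ‖ψ (star v)‖ * ‖∑ z ∈ (V (Y / p)).filter (fun z => v ∣ z), ψ z * T (nm z)‖
        ≤ 1 * (9 * (Y / p / p) * B) :=
          mul_le_mul h1 (h2.trans (mul_le_mul_of_nonneg_right h3 hB)) (norm_nonneg _) zero_le_one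
      _ = 9 * B * Y * (1 / (p : ℝ) ^ 2) := by
          field_simp
  have k1 := key w hw hn
  have k2 := key (star w) hw.conj (by rw [nm_star]; exact hn)
  rw [star_star] at k2
  set S := ∑ z ∈ V (Y / p), ψ z * T (nm z)
  set E1 := ∑ z ∈ (V (Y / p)).filter (fun z => w ∣ z), ψ z * T (nm z)
  set E2 := ∑ z ∈ (V (Y / p)).filter (fun z => star w ∣ z), ψ z * T (nm z)
  have e3 : ψ w * (S - E2) + ψ (star w) * (S - E1) - (ψ w + ψ (star w)) * S = -(ψ w * E2) - ψ (star w) * E1 := by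
    ring
  rw [e3]
  calc ‖-(ψ w * E2) - ψ (star w) * E1‖ ≤ ‖-(ψ w * E2)‖ + ‖ψ (star w) * E1‖ := norm_sub_le _ _
    _ = ‖ψ w * E2‖ + ‖ψ (star w) * E1‖ := by rw [norm_neg]
    _ ≤ 18 * B * Y * (1 / (p : ℝ) ^ 2) := by linarith

open Classical in
/-- few elements with `p² ∣ nm z` -/
theorem vm_sq {p : ℕ} (hp : p.Prime) (Y : ℝ) (hY : 0 ≤ Y) :
    (((V Y).filter (fun z => p ^ 2 ∣ nm z)).card : ℝ) ≤ 18 * Y * (1 / (p : ℝ) ^ 2) := by
  have hp0 : (0 : ℝ) < p := by exact_mod_cast hp.pos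
  by_cases h4 : p % 4 = 1
  swap
  · have h1 : (V Y).filter (fun z => p ^ 2 ∣ nm z) = ∅ := by
      rw [Finset.filter_eq_empty_iff]
      intro z hz hd
      obtain ⟨-, h2, h3⟩ := mem_V.1 hz
      exact h4 (vm_mod hp h2 h3 ((dvd_pow_self p two_ne_zero).trans hd))
    rw [h1, Finset.card_empty, Nat.cast_zero]
    positivity
  obtain ⟨w, hw, hn, -⟩ := vmG_one hp h4
  have hpn : ∀ v : G, nm v = p → nm (v * v) = p ^ 2 := by
    intro v hv
    rw [nm_mul, hv]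
    ring
  have hsub : (V Y).filter (fun z => p ^ 2 ∣ nm z) ⊆
      (V Y).filter (fun z => w * w ∣ z) ∪ (V Y).filter (fun z => star w * star w ∣ z) := by
    intro z hz
    rw [Finset.mem_filter] at hz
    obtain ⟨hzV, hd⟩ := hz
    have hzp := (mem_V.1 hzV).2.2
    have key : ∀ v : G, Spl v → nm v = p → v ∣ z → v * v ∣ z := by
      intro v hv hvn hvz
      obtain ⟨y, rfl⟩ := hvz
      have h1 : p ∣ nm y := by
        rw [nm_mul, hvn, pow_two] at hd
        exact (Nat.mul_dvd_mul_iff_left hp.pos).1 hd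
      rcases tog_dvd_exists hp hvn h1 with h2 | h2
      · exact mul_dvd_mul_left v h2
      · exfalso
        exact (prim_mul_iff hv (prim_of_mul hzp).2).1 hzp h2
    rw [Finset.mem_union, Finset.mem_filter, Finset.mem_filter]
    rcases tog_dvd_exists hp hn ((dvd_pow_self p two_ne_zero).trans hd) with h2 | h2
    · exact Or.inl ⟨hzV, key w hw hn h2⟩
    · exact Or.inr ⟨hzV, key (star w) hw.conj (by rw [nm_star]; exact hn) h2⟩
  have hone : ∀ v : G, Spl v → nm v = p → (((V Y).filter (fun z => v * v ∣ z)).card : ℝ) ≤ 9 * (Y / (p : ℝ) ^ 2) := by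
    intro v hv hvn
    have h5 := vm_card (v * v) (mul_ne_zero (ne_zero_of_odd hv.odd) (ne_zero_of_odd hv.odd)) Y
    rw [hpn v hvn] at h5
    push_cast at h5
    exact (Nat.cast_le.2 h5).trans (card_V_le _ (by positivity))
  have h6 := hone w hw hn
  have h7 := hone (star w) hw.conj (by rw [nm_star]; exact hn)
  have h8 := (Finset.card_le_card hsub).trans (Finset.card_union_le _ _)
  have h9 : (((V Y).filter (fun z => p ^ 2 ∣ nm z)).card : ℝ) ≤
      (((V Y).filter (fun z => w * w ∣ z)).card : ℝ) + (((V Y).filter (fun z => star w * star w ∣ z)).card : ℝ) := by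
    exact_mod_cast h8
  have h10 : 18 * Y * (1 / (p : ℝ) ^ 2) = 9 * (Y / (p : ℝ) ^ 2) + 9 * (Y / (p : ℝ) ^ 2) := by ring
  linarith

/-- the tail of the sum of the inverse squares -/
theorem vm_tail (S : Finset ℕ) (P : ℝ) (hP : 0 < P) (hS : ∀ p ∈ S, P < (p : ℝ)) :
    ∑ p ∈ S, 1 / (p : ℝ) ^ 2 ≤ 2 / P := by
  have h1 : S ⊆ Finset.Ioo ⌊P⌋₊ (S.sup id + 1) := by
    intro p hp
    rw [Finset.mem_Ioo]
    refine ⟨(Nat.floor_lt hP.le).2 (hS p hp), ?_⟩
    have : id p ≤ S.sup id := Finset.le_sup hp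
    simp only [id] at this
    omega
  calc ∑ p ∈ S, 1 / (p : ℝ) ^ 2 ≤ ∑ p ∈ Finset.Ioo ⌊P⌋₊ (S.sup id + 1), 1 / (p : ℝ) ^ 2 := by
        apply Finset.sum_le_sum_of_subset_of_nonneg h1
        intro _ _ _
        positivity
    _ = ∑ p ∈ Finset.Ioo ⌊P⌋₊ (S.sup id + 1), ((p : ℝ) ^ 2)⁻¹ := by
        simp only [one_div]
    _ ≤ 2 / ((⌊P⌋₊ : ℝ) + 1) := sum_Ioo_inv_sq_le _ _
    _ ≤ 2 / P := by
        apply div_le_div_of_nonneg_left (by norm_num) hP
        exact (Nat.lt_floor_add_one P).le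

/-- few elements of `V Y` have a norm divisible by the square of a large prime -/
theorem vm_few (P Y : ℝ) (hP : 0 < P) (hY : 0 ≤ Y) (S : Finset G) (hS : ∀ z ∈ S, z ∈ V Y ∧
    ∃ p : ℕ, p.Prime ∧ P < (p : ℝ) ∧ p ^ 2 ∣ nm z) : (S.card : ℝ) ≤ 36 * Y / P := by
  classical
  set R : Finset ℕ := (Finset.range (⌊Y⌋₊ + 1)).filter (fun p => p.Prime ∧ P < (p : ℝ)) with hR
  have h1 : S ⊆ R.biUnion (fun p => (V Y).filter (fun z => p ^ 2 ∣ nm z)) := by
    intro z hz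
    obtain ⟨h1, p, hp, h2, h3⟩ := hS z hz
    rw [Finset.mem_biUnion]
    refine ⟨p, ?_, Finset.mem_filter.2 ⟨h1, h3⟩⟩
    rw [hR, Finset.mem_filter, Finset.mem_range]
    refine ⟨?_, hp, h2⟩
    obtain ⟨h4, h5, -⟩ := mem_V.1 h1
    have h6 : p ^ 2 ≤ nm z := Nat.le_of_dvd (nm_pos_of_odd h5) h3
    have h7 : p ≤ p ^ 2 := Nat.le_self_pow two_ne_zero p
    have h8 : p ≤ ⌊Y⌋₊ := Nat.le_floor (le_trans (by exact_mod_cast h7.trans h6) h4)
    omega
  have h2 : (S.card : ℝ) ≤ ∑ p ∈ R, (((V Y).filter (fun z => p ^ 2 ∣ nm z)).card : ℝ) := by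
    have := (Finset.card_le_card h1).trans Finset.card_biUnion_le
    exact_mod_cast this
  calc (S.card : ℝ) ≤ ∑ p ∈ R, (((V Y).filter (fun z => p ^ 2 ∣ nm z)).card : ℝ) := h2
    _ ≤ ∑ p ∈ R, 18 * Y * (1 / (p : ℝ) ^ 2) := by
        apply Finset.sum_le_sum
        intro p hp
        rw [hR, Finset.mem_filter] at hp
        exact vm_sq hp.2.1 Y hY
    _ = 18 * Y * ∑ p ∈ R, 1 / (p : ℝ) ^ 2 := by rw [Finset.mul_sum]
    _ ≤ 18 * Y * (2 / P) := by
        apply mul_le_mul_of_nonneg_left _ (by positivity)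
        apply vm_tail R P hP
        intro p hp
        rw [hR, Finset.mem_filter] at hp
        exact hp.2.2
    _ = 36 * Y / P := by ring

/-- a positive lower bound for the left ends -/
theorem vm_win (l : List (ℝ × ℝ)) (hl : Win l) : ∃ δ : ℝ, 0 < δ ∧ ∀ w ∈ l, δ ≤ w.1 := by
  induction l with
  | nil => exact ⟨1, one_pos, fun w hw => absurd hw (List.not_mem_nil)⟩
  | cons a l ih =>
    obtain ⟨δ, h1, h2⟩ := ih (fun w hw => hl w (List.mem_cons_of_mem _ hw))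
    refine ⟨min δ a.1, lt_min h1 (hl a List.mem_cons_self).1, fun w hw => ?_⟩
    rcases List.mem_cons.1 hw with rfl | h3
    · exact min_le_right _ _
    · exact (min_le_left _ _).trans (h2 w h3)

/-- the sums over `V Y` -/
noncomputable def vmU (ψ : G → ℂ) (X : ℝ) (l : List (ℝ × ℝ)) (Y : ℝ) : ℂ :=
  ∑ z ∈ V Y, ψ z * (TW X l (nm z) : ℂ)

/-- the recursion -/
theorem vm_rec (ψ : G → ℂ) (hψ : CM ψ) (w : ℝ × ℝ) (l : List (ℝ × ℝ)) (hl : Win (w :: l)) :
    ∃ C' δ : ℝ, 0 < δ ∧ ∀ᶠ X : ℝ in atTop, ∀ Y : ℝ, 0 ≤ Y → Y ≤ X ^ 2 →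
      ‖vmU ψ X (w :: l) Y - ∑ p ∈ PW X w.1 w.2, vmG ψ p * vmU ψ X l (Y / p)‖ ≤ C' * Y * X ^ (-δ) := by
  classical
  obtain ⟨δ, hδ, hδl⟩ := vm_win l (fun w' hw' => hl w' (List.mem_cons_of_mem _ hw'))
  obtain ⟨B, hB, hTB⟩ := tw_bd δ hδ l hδl
  refine ⟨36 * B, w.1, (hl w List.mem_cons_self).1, ?_⟩
  filter_upwards [eventually_ge_atTop (2 : ℝ)] with X hX Y hY hYX
  have hX0 : (0 : ℝ) ≤ X := by linarith
  have hXw : (0 : ℝ) < X ^ w.1 := Real.rpow_pos_of_pos (by linarith) _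
  have h1 : vmU ψ X (w :: l) Y = ∑ p ∈ PW X w.1 w.2,
      ∑ z ∈ (V Y).filter (fun z => p ∣ nm z), ψ z * (TW X l (nm z / p) : ℂ) := by
    unfold vmU
    have h2 : ∀ z ∈ V Y, ψ z * (TW X (w :: l) (nm z) : ℂ) =
        ∑ p ∈ PW X w.1 w.2, if p ∣ nm z then ψ z * (TW X l (nm z / p) : ℂ) else 0 := by
      intro z _
      show ψ z * ((∑ p ∈ (PW X w.1 w.2).filter (fun p => p ∣ nm z), TW X l (nm z / p) : ℝ) : ℂ) = _
      rw [← Finset.sum_filter, Complex.ofReal_sum, Finset.mul_sum]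
    rw [Finset.sum_congr rfl h2, Finset.sum_comm]
    refine Finset.sum_congr rfl fun p _ => ?_
    rw [Finset.sum_filter]
  rw [h1, ← Finset.sum_sub_distrib]
  refine (norm_sum_le _ _).trans ?_
  calc ∑ p ∈ PW X w.1 w.2, ‖∑ z ∈ (V Y).filter (fun z => p ∣ nm z), ψ z * (TW X l (nm z / p) : ℂ) -
        vmG ψ p * vmU ψ X l (Y / p)‖ ≤ ∑ p ∈ PW X w.1 w.2, 18 * B * Y * (1 / (p : ℝ) ^ 2) := by
        apply Finset.sum_le_sum
        intro p hp
        have hpp := ((mem_PW hX0).1 hp).1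
        refine vm_prime ψ hψ (fun n => (TW X l n : ℂ)) B hB p hpp Y hY (fun n hn hnY => ?_)
        obtain ⟨h3, h4⟩ := hTB X hX n hn (hnY.trans hYX)
        rw [Complex.norm_real, Real.norm_eq_abs, abs_of_nonneg h3]
        exact h4
    _ = 18 * B * Y * ∑ p ∈ PW X w.1 w.2, 1 / (p : ℝ) ^ 2 := by rw [Finset.mul_sum]
    _ ≤ 18 * B * Y * (2 / X ^ w.1) := by
        apply mul_le_mul_of_nonneg_left _ (by positivity)
        exact vm_tail _ _ hXw fun p hp => ((mem_PW hX0).1 hp).2.1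
    _ = 36 * B * Y * X ^ (-w.1) := by
        rw [Real.rpow_neg hX0]
        ring

theorem vm_lim (ψ : G → ℂ) (hψ : CM ψ) (ρ : ℂ) (hρ : Tendsto (fun Y : ℝ => (∑ z ∈ V Y, ψ z) / Y) atTop (nhds ρ))
    (hr : ρ = 0 ∨ ∃ P : ℕ, ∀ w : G, Spl w → P ≤ nm w → ψ w = 1) (l : List (ℝ × ℝ)) (hl : Win l) (a : ℝ) (ha : 0 < a) :
    Tendsto (fun X : ℝ => vmU ψ X l (a * X) / X) atTop (nhds (ρ * a * NW l)) := by
  refine abs_mean (fun Y => ∑ z ∈ V Y, ψ z) ρ 9 ?_ ?_ hρ (vmG ψ) _ mert_four ?_ ?_ (vmU ψ) ?_ (vm_rec ψ hψ) l hl a ha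
  · intro Y hY
    apply Finset.sum_eq_zero
    intro z hz
    exfalso
    obtain ⟨h1, h2, -⟩ := mem_V.1 hz
    have h3 : (1 : ℝ) ≤ nm z := by exact_mod_cast nm_pos_of_odd h2
    linarith
  · intro Y hY
    refine (norm_sum_le _ _).trans ?_
    calc ∑ z ∈ V Y, ‖ψ z‖ ≤ ∑ z ∈ V Y, (1 : ℝ) := Finset.sum_le_sum fun z hz => hψ.bd z (mem_V.1 hz).2.1
      _ = (V Y).card := by simp
      _ ≤ 9 * Y := card_V_le Y hY
  · intro p
    by_cases h : p.Prime ∧ p % 4 = 1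
    · obtain ⟨w, hw, -, hG⟩ := vmG_one h.1 h.2
      rw [hG, if_pos h.2]
      refine (norm_add_le _ _).trans ?_
      have h1 := hψ.bd w hw.odd
      have h2 := hψ.bd (star w) hw.conj.odd
      linarith
    · rw [vmG_zero ψ p h, norm_zero]
      split_ifs <;> norm_num
  · rcases hr with h | ⟨P, hP⟩
    · exact Or.inl h
    · right
      refine ⟨P, fun p hp hpp => ?_⟩
      by_cases h : p % 4 = 1
      · obtain ⟨w, hw, hn, hG⟩ := vmG_one hpp h
        rw [hG, if_pos h, hP w hw (by rw [hn]; exact hp), hP (star w) hw.conj (by rw [nm_star, hn]; exact hp)]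
        norm_num
      · rw [vmG_zero ψ p (fun h' => h h'.2), if_neg h]
        simp
  · intro X Y
    unfold vmU
    simp [TW]

/-- `‖gx φ X n‖ = 1` -/
theorem vm_gx (φ : ℝ → ℂ) (h : ∀ t, ‖φ t‖ = 1) (X : ℝ) (n : ℕ) : ‖gx φ X n‖ = 1 := by
  unfold gx
  induction n.primeFactorsList with
  | nil => simp
  | cons p l ih => rw [List.map_cons, List.prod_cons, norm_mul, ih, h, one_mul]

/-- a uniform bound over the lists of length `j` -/
theorem vm_unif {r : ℕ} (u v : Fin r → ℝ) (δ : ℝ) (hδ : 0 < δ) (hδu : ∀ i, δ ≤ u i) (j : ℕ) :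
    ∃ B : ℝ, 0 ≤ B ∧ ∀ l : List (ℝ × ℝ), l.length = j → (∀ w ∈ l, ∃ i, w = (u i, v i)) →
      ∀ X : ℝ, 2 ≤ X → ∀ n : ℕ, n ≠ 0 → (n : ℝ) ≤ X ^ 2 → 0 ≤ TW X l n ∧ TW X l n ≤ B := by
  have h1 : ∀ l : List (ℝ × ℝ), l.length = j ∧ (∀ w ∈ l, ∃ i, w = (u i, v i)) →
      ∃ B : ℝ, 0 ≤ B ∧ ∀ X : ℝ, 2 ≤ X → ∀ n : ℕ, n ≠ 0 → (n : ℝ) ≤ X ^ 2 → 0 ≤ TW X l n ∧ TW X l n ≤ B := by
    rintro l ⟨-, hl⟩
    refine tw_bd δ hδ l ?_
    intro w hw
    obtain ⟨i, rfl⟩ := hl w hw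
    exact hδu i
  have hfin : {l : List (ℝ × ℝ) | l.length = j ∧ ∀ w ∈ l, ∃ i, w = (u i, v i)}.Finite := by
    refine ((List.finite_length_eq (Fin r) j).image (List.map (fun i => (u i, v i)))).subset ?_
    rintro l ⟨h2, h3⟩
    have h4 : l ∈ Set.range (List.map (fun i => (u i, v i))) := by
      rw [Set.range_list_map]
      intro x hx
      obtain ⟨i, hi⟩ := h3 x hx
      exact ⟨i, hi.symm⟩
    obtain ⟨l', rfl⟩ := h4
    refine ⟨l', ?_, rfl⟩
    rw [List.length_map] at h2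
    exact h2
  choose! B hB using h1
  refine ⟨∑ l ∈ hfin.toFinset, B l, ?_, ?_⟩
  · apply Finset.sum_nonneg
    intro l hl
    rw [Set.Finite.mem_toFinset] at hl
    exact (hB l hl).1
  · intro l h2 h3 X hX n hn hnX
    have h4 := (hB l ⟨h2, h3⟩).2 X hX n hn hnX
    refine ⟨h4.1, h4.2.trans ?_⟩
    apply Finset.single_le_sum (f := B)
    · intro l' hl'
      rw [Set.Finite.mem_toFinset] at hl'
      exact (hB l' hl').1
    · rw [Set.Finite.mem_toFinset]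
      exact ⟨h2, h3⟩

/-- the difference in `gx_id` is bounded -/
theorem vm_diff {r : ℕ} (c : Fin r → ℂ) (u v : Fin r → ℝ) (φ : ℝ → ℂ) (h1 : ∀ t, ‖φ t‖ = 1) (δ : ℝ) (hδ : 0 < δ)
    (hδu : ∀ i, δ ≤ u i) (J : ℕ) : ∃ K : ℝ, 0 ≤ K ∧ ∀ X : ℝ, 2 ≤ X → ∀ n : ℕ, n ≠ 0 → (n : ℝ) ≤ X ^ 2 →
      ‖gx φ X n - ∑ j ∈ range (J + 1), (1 / (j.factorial : ℂ)) * expd c u v j (fun l => (TW X l n : ℂ))‖ ≤ K := by
  choose B hB0 hB using vm_unif u v δ hδ hδu
  refine ⟨1 + ∑ j ∈ range (J + 1), (∑ i, ‖c i‖) ^ j * B j, ?_, ?_⟩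
  · have : 0 ≤ ∑ j ∈ range (J + 1), (∑ i, ‖c i‖) ^ j * B j := by
      apply Finset.sum_nonneg
      intro j _
      have := hB0 j
      positivity
    linarith
  · intro X hX n hn hnX
    refine (norm_sub_le _ _).trans ?_
    rw [vm_gx φ h1]
    apply add_le_add le_rfl
    refine (norm_sum_le _ _).trans (Finset.sum_le_sum fun j _ => ?_)
    rw [norm_mul]
    have h2 : ‖(1 / (j.factorial : ℂ))‖ ≤ 1 := by
      rw [norm_div, norm_one, Complex.norm_natCast]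
      apply div_le_one_of_le₀
      · exact_mod_cast Nat.factorial_pos j
      · positivity
    have h3 : ‖expd c u v j (fun l => (TW X l n : ℂ))‖ ≤ (∑ i, ‖c i‖) ^ j * B j := by
      apply expd_bd
      intro l hl1 hl2
      have h4 := hB j l hl1 hl2 X hX n hn hnX
      rw [Complex.norm_real, Real.norm_eq_abs, abs_of_nonneg h4.1]
      exact h4.2
    calc _ ≤ 1 * ((∑ i, ‖c i‖) ^ j * B j) := mul_le_mul h2 h3 (norm_nonneg _) zero_le_one
      _ = _ := one_mul _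

/-- PROOF. `U X l Y = ∑_(z ∈ V Y) ψ z * TW X l (nm z)`, `u0 Y = ∑_(z ∈ V Y) ψ z` (`‖u0 Y‖ ≤ 9 Y` by `card_V_le`, `= 0` for `Y < 1`), `g p = 2` if `p % 4 = 1`, else `0` (`mert_four`), `G p = ∑_(w ∈ PP (p - 1/2) p) (ψ w + ψ (star w))` (one term if `p` is a prime `1 mod 4`, none otherwise: `one Gaussian prime of PP above each
prime p = 1 mod 4`), so `‖G p‖ ≤ g p`, and `G p = g p` for large `p` if `ψ = 1` at the primes of large norm. Recursion: `U X (w :: l) Y = ∑_(p ∈ PW) ∑_(z ∈ V Y, p ∣ nm z) ψ z TW X l (nm z / p)`; `nm z` is odd and `z` primitive so `p = 1 mod 4`, `p = nm π`, `π ∈ PP`, and exactly one of `π`, `star π` divides `z`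
(both would give `p ∣ z`). `z = π z'`: `z'` odd primitive, `nm z' ≤ Y / p`, `ψ z = ψ π ψ z'`, and conversely `π z'` is primitive iff `star π ∤ z'` (see `arcdec_prim` in ecm/ArcDec.lean or `exists_of_not_prim`). The same for `star π`. So `∑_(p ∣ nm z) = (ψ π + ψ (star π)) U X l (Y / p) - (error)` with the error bounded by
`2 ∑_(z' ∈ V (Y/p), star π ∣ z' or π ∣ z') |TW X l (nm z')| ≤ 2 · 2 · 9 (Y / p²) B` (`tw_bd` with `δ` = the least left end of `w :: l`, `nm z' ≤ Y ≤ X²`), and `∑_(p > X^δ) Y / p² ≤ 2 Y X^(-δ)`. So `abs_mean` gives `U X l (a X) / X → ρ a NW l`.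
Then as in `int_mean`: `gx_id` for the `z ∈ V (a X)` with `nm z` not divisible by `p²`, `p > X^δ` (`a X ≤ X²` for large `X`); the other `z` are few: `nm z = 0 mod p²`, `z` primitive, implies `π² ∣ z` or `(star π)² ∣ z`, at most `2 · 9 a X / p²` elements. `expd_lim`, `mu_eq`. -/
theorem vmean (ψ : G → ℂ) (hψ : CM ψ) (ρ : ℂ) (hρ : Tendsto (fun Y : ℝ => (∑ z ∈ V Y, ψ z) / Y) atTop (nhds ρ))
    (hr : ρ = 0 ∨ ∃ P : ℕ, ∀ w : G, Spl w → P ≤ nm w → ψ w = 1) (φ : ℝ → ℂ) (hφ : StepF φ) (a : ℝ) (ha : 0 < a) :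
    Tendsto (fun X : ℝ => (∑ z ∈ V (a * X), ψ z * gx φ X (nm z)) / X) atTop (nhds (ρ * a * mu φ)) := by
  classical
  obtain ⟨r, c, u, v, hw, hφe⟩ := hφ.ex
  obtain ⟨δ, hδ, hδu⟩ : ∃ δ : ℝ, 0 < δ ∧ ∀ i, δ ≤ u i := by
    rcases Nat.eq_zero_or_pos r with h0 | h0
    · subst h0
      exact ⟨1, one_pos, fun i => i.elim0⟩
    · have : Nonempty (Fin r) := ⟨⟨0, h0⟩⟩
      obtain ⟨i0, hi0⟩ := Finite.exists_min u
      exact ⟨u i0, (hw i0).1, hi0⟩
  obtain ⟨J, hJ⟩ : ∃ J : ℕ, 2 < ((J : ℝ) + 1) * δ := by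
    obtain ⟨J, hJ⟩ := exists_nat_gt (2 / δ)
    refine ⟨J, ?_⟩
    rw [div_lt_iff₀ hδ] at hJ
    nlinarith
  rw [mu_eq c u v hw φ hφ.un hφe δ hδ hδu J hJ]
  obtain ⟨K, hK0, hK⟩ := vm_diff c u v φ hφ.un δ hδ hδu J
  have hM : Tendsto (fun X : ℝ => (∑ j ∈ range (J + 1), (1 / (j.factorial : ℂ)) *
      expd c u v j (fun l => vmU ψ X l (a * X))) / X) atTop (nhds (ρ * a * EV c u v J)) := by
    have h1 : ∀ X : ℝ, (∑ j ∈ range (J + 1), (1 / (j.factorial : ℂ)) *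
        expd c u v j (fun l => vmU ψ X l (a * X))) / X =
        ∑ j ∈ range (J + 1), (1 / (j.factorial : ℂ)) * expd c u v j (fun l => vmU ψ X l (a * X) / X) := by
      intro X
      have h2 : ∀ j, expd c u v j (fun l => vmU ψ X l (a * X) / X) =
          (1 / (X : ℂ)) * expd c u v j (fun l => vmU ψ X l (a * X)) := by
        intro j
        rw [← expd_smul]
        congr 1
        ext l
        ring
      simp only [h2]
      rw [Finset.sum_div]
      refine Finset.sum_congr rfl fun j _ => ?_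
      ring
    simp only [h1]
    have h3 : ρ * a * EV c u v J =
        ∑ j ∈ range (J + 1), (1 / (j.factorial : ℂ)) * expd c u v j (fun l => ρ * a * (NW l : ℂ)) := by
      unfold EV
      rw [Finset.mul_sum]
      refine Finset.sum_congr rfl fun j _ => ?_
      rw [expd_smul]
      ring
    rw [h3]
    exact tendsto_finsetSum _ fun j _ =>
      (expd_lim c u v hw j _ _ (fun l hl => vm_lim ψ hψ ρ hρ hr l hl a ha)).const_mul _
  have hE : ∀ᶠ X : ℝ in atTop, ‖(∑ z ∈ V (a * X), ψ z * gx φ X (nm z)) / X - (∑ j ∈ range (J + 1),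
      (1 / (j.factorial : ℂ)) * expd c u v j (fun l => vmU ψ X l (a * X))) / X‖ ≤ 36 * a * K * X ^ (-δ) := by
    filter_upwards [eventually_ge_atTop (2 : ℝ), eventually_ge_atTop a] with X hX hXa
    have hX0 : (0 : ℝ) < X := by linarith
    have haX : a * X ≤ X ^ 2 := by nlinarith
    have haX0 : 0 ≤ a * X := by positivity
    rw [← sub_div, norm_div, Complex.norm_real, Real.norm_eq_abs, abs_of_pos hX0, div_le_iff₀ hX0]
    have h1 : (∑ j ∈ range (J + 1), (1 / (j.factorial : ℂ)) * expd c u v j (fun l => vmU ψ X l (a * X))) =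
        ∑ z ∈ V (a * X), ψ z * ∑ j ∈ range (J + 1), (1 / (j.factorial : ℂ)) *
          expd c u v j (fun l => (TW X l (nm z) : ℂ)) := by
      have h2 : ∀ j, expd c u v j (fun l => vmU ψ X l (a * X)) =
          ∑ z ∈ V (a * X), ψ z * expd c u v j (fun l => (TW X l (nm z) : ℂ)) := by
        intro j
        exact expd_sum c u v j (V (a * X)) ψ (fun z l => (TW X l (nm z) : ℂ))
      simp only [h2, Finset.mul_sum]
      rw [Finset.sum_comm]
      refine Finset.sum_congr rfl fun z _ => Finset.sum_congr rfl fun j _ => ?_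
      ring
    rw [h1, ← Finset.sum_sub_distrib]
    set Bd : Finset G := (V (a * X)).filter (fun z => ∃ p : ℕ, p.Prime ∧ X ^ δ < (p : ℝ) ∧ p ^ 2 ∣ nm z) with hBd
    have h3 : ∑ z ∈ V (a * X), (ψ z * gx φ X (nm z) - ψ z * ∑ j ∈ range (J + 1), (1 / (j.factorial : ℂ)) *
        expd c u v j (fun l => (TW X l (nm z) : ℂ))) = ∑ z ∈ Bd, (ψ z * gx φ X (nm z) - ψ z * ∑ j ∈ range (J + 1),
          (1 / (j.factorial : ℂ)) * expd c u v j (fun l => (TW X l (nm z) : ℂ))) := by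
      symm
      apply Finset.sum_subset (Finset.filter_subset _ _)
      intro z hz hzB
      obtain ⟨h4, h5, h6⟩ := mem_V.1 hz
      have h7 : ∀ p : ℕ, p.Prime → X ^ δ < (p : ℝ) → ¬ p ^ 2 ∣ nm z := by
        intro p hp hpX hd
        exact hzB (Finset.mem_filter.2 ⟨hz, p, hp, hpX, hd⟩)
      rw [gx_id c u v φ hφe δ hδ hδu J hJ X hX (nm z) (nm_pos_of_odd h5).ne' (h4.trans haX) h7, sub_self]
    rw [h3]
    have h4 : (Bd.card : ℝ) ≤ 36 * (a * X) / X ^ δ := by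
      apply vm_few (X ^ δ) (a * X) (Real.rpow_pos_of_pos hX0 δ) haX0 Bd
      intro z hz
      rw [hBd, Finset.mem_filter] at hz
      exact hz
    calc ‖∑ z ∈ Bd, (ψ z * gx φ X (nm z) - ψ z * ∑ j ∈ range (J + 1),
          (1 / (j.factorial : ℂ)) * expd c u v j (fun l => (TW X l (nm z) : ℂ)))‖
        ≤ ∑ z ∈ Bd, ‖ψ z * gx φ X (nm z) - ψ z * ∑ j ∈ range (J + 1),
          (1 / (j.factorial : ℂ)) * expd c u v j (fun l => (TW X l (nm z) : ℂ))‖ := norm_sum_le _ _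
      _ ≤ ∑ z ∈ Bd, K := by
          apply Finset.sum_le_sum
          intro z hz
          rw [hBd, Finset.mem_filter] at hz
          obtain ⟨h5, h6, h7⟩ := mem_V.1 hz.1
          rw [← mul_sub, norm_mul]
          calc _ ≤ 1 * K := mul_le_mul (hψ.bd z h6) (hK X hX (nm z) (nm_pos_of_odd h6).ne' (h5.trans haX))
                (norm_nonneg _) zero_le_one
            _ = K := one_mul K
      _ = Bd.card * K := by rw [Finset.sum_const, nsmul_eq_mul]
      _ ≤ 36 * (a * X) / X ^ δ * K := mul_le_mul_of_nonneg_right h4 hK0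
      _ = 36 * a * K * X ^ (-δ) * X := by
          rw [Real.rpow_neg hX0.le]
          ring
  have hE2 : Tendsto (fun X : ℝ => 36 * a * K * X ^ (-δ)) atTop (nhds 0) := by
    have := (tendsto_rpow_neg_atTop hδ).const_mul (36 * a * K)
    rwa [mul_zero] at this
  have hD : Tendsto (fun X : ℝ => (∑ z ∈ V (a * X), ψ z * gx φ X (nm z)) / X - (∑ j ∈ range (J + 1),
      (1 / (j.factorial : ℂ)) * expd c u v j (fun l => vmU ψ X l (a * X))) / X) atTop (nhds 0) := by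
    apply squeeze_zero_norm' hE hE2
  have := hD.add hM
  simpa using this

end Pool.Agent.LPr
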