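import Pool.Agent.Lib_MP_f1a94e_lp.Fx
import Pool.Agent.Lib_MP_f1a94e_lp.VMean
import Pool.Agent.Lib_MP_f1a94e_lp.BaseC
import Pool.Agent.Lib_MP_f1a94e_lp.ArcDecG
import Pool.Agent.Lib_MP_f1a94e_lp.FewBG

/-!
# Piece CSX: sums over residue classes
-/

set_option autoImplicit false

namespace Pool.Agent.LPr

open Finset Pool.Agent.GaussMR Pool.Agent.GaussCM Pool.Agent.OmAll Pool.Agent.OmEq Pool.Agent.ECM Filter

private theorem csx_fc0 (F : G → ℂ) (X : ℝ) : fcC F X 0 = ∑ z ∈ V X, F z := by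
  unfold fcC
  refine Finset.sum_congr rfl fun z _ => ?_
  simp [xi]

private theorem csx_fz_le (R : ℕ) (hR : 0 < R) (w : ℂ) (hw : w = 1 ∨ w = -1) (n : ℕ) :
    ‖fz R w n‖ ≤ 1 := by
  have h : ‖w‖ = 1 := by rcases hw with h | h <;> simp [h]
  exact (fz_UF R hR w h).bd n

private theorem csx_chi (R : ℕ) (hR : 0 < R) (D : ℕ) (χ : G → ℂ) (hχ : Chi D χ) :
    Chi (D * R) (fun z => fz R 1 (nm z) * χ z) := by
  have hU := fz_UF R hR (1 : ℂ) (by simp)
  refine ⟨?_, ?_, ?_, ?_, ?_⟩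
  · have h1 : nm (1 : G) = 1 := by
      have : (nm (1 : G) : ℤ) = 1 := by rw [nm_eq]; simp
      exact_mod_cast this
    simp only [h1, hU.one, hχ.one, mul_one]
  · intro z w
    simp only [nm_mul, hU.mul, hχ.mul]
    ring
  · intro z w hzw
    have hcD : cg D z w := by
      refine ⟨?_, ?_⟩
      · exact (Dvd.intro (R : ℤ) (by push_cast; rfl)).trans hzw.1
      · exact (Dvd.intro (R : ℤ) (by push_cast; rfl)).trans hzw.2
    have hcR : cg R z w := by
      refine ⟨?_, ?_⟩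
      · exact (Dvd.intro_left (D : ℤ) (by push_cast; rfl)).trans hzw.1
      · exact (Dvd.intro_left (D : ℤ) (by push_cast; rfl)).trans hzw.2
    have hper := hχ.per z w hcD
    show fz R 1 (nm z) * χ z = fz R 1 (nm w) * χ w
    rw [hper]
    by_cases hw0 : χ w = 0
    · rw [hw0, mul_zero, mul_zero]
    have hz1 : nm z ≠ 0 := by
      intro h0
      apply hw0
      rw [← hper]
      exact hχ.even z (by rw [h0]; decide)
    have hw1 : nm w ≠ 0 := by
      intro h0
      apply hw0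
      exact hχ.even w (by rw [h0]; decide)
    congr 1
    have hmod : (R : ℤ) ∣ (nm z : ℤ) - nm w := by
      rw [nm_eq, nm_eq]
      have e : z.re ^ 2 + z.im ^ 2 - (w.re ^ 2 + w.im ^ 2) =
          (z.re - w.re) * (z.re + w.re) + (z.im - w.im) * (z.im + w.im) := by ring
      rw [e]
      exact dvd_add (hcR.1.mul_right _) (hcR.2.mul_right _)
    have hme : nm w ≡ nm z [MOD R] := (Nat.modEq_iff_dvd).2 hmod
    have hco : (nm z).Coprime R ↔ (nm w).Coprime R := by
      unfold Nat.Coprime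
      rw [hme.gcd_eq]
    unfold fz
    simp only [hz1, hw1, false_or, one_pow, hco]
  · intro z hz
    simp only [hχ.even z hz, mul_zero]
  · intro z
    rw [norm_mul]
    exact mul_le_one₀ (hU.bd _) (norm_nonneg _) (hχ.le z)

/-- PROOF. `ψ z = fz R w (nm z) * χ z`. `w = 1`: `ψ` is a `Chi (D * R)` (values of `fz R 1` are `0`, `1`, the value at `nm z` depends on `z` modulo `R` for `z ≠ 0`, and `χ` vanishes on the even elements, in particular at `0`), so `base_chi` gives `ρ`, and either `ρ = 0` or `ψ = 1` at the primes of large norm.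
`w = -1`: `ψ = FL χ'`, `χ' z = fz R 1 (nm z) * χ z`, `Chi (D * R) χ'`; `zero_freq` gives `∑_(V Y) ψ z / Y → 0` (`fcC F Y 0 = ∑_(V Y) F z`, as `xi (-0) z = 1`). -/
theorem csx_base (R : ℕ) (hR : 0 < R) (w : ℂ) (hw : w = 1 ∨ w = -1) (D : ℕ) (hD : 0 < D) (χ : G → ℂ) (hχ : Chi D χ) :
    CM (fun z => fz R w (nm z) * χ z) ∧ ∃ ρ : ℂ, Tendsto (fun Y : ℝ => (∑ z ∈ V Y, fz R w (nm z) * χ z) / Y) atTop (nhds ρ) ∧
      (ρ = 0 ∨ ∃ P : ℕ, ∀ w' : G, Spl w' → P ≤ nm w' → fz R w (nm w') * χ w' = 1) ∧ (w = -1 → ρ = 0) := by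
  have hw1 : ‖w‖ = 1 := by rcases hw with h | h <;> simp [h]
  have hU := fz_UF R hR w hw1
  refine ⟨cm_FG D χ hχ (fz R w) hU.mul hU.bd, ?_⟩
  have hχ' := csx_chi R hR D χ hχ
  rcases hw with h | h
  · subst h
    obtain ⟨ρ, h1, h2⟩ := base_chi (D * R) (Nat.mul_pos hD hR) _ hχ'
    refine ⟨ρ, h1, ?_, ?_⟩
    · rcases h2 with h2 | h2
      · exact Or.inl h2
      · refine Or.inr ⟨(D * R) ^ 2 + 1, fun w' hw' hP => ?_⟩
        refine h2 w' hw'.prime ?_
        have h3 : (((D * R) ^ 2 + 1 : ℕ) : ℝ) ≤ (nm w' : ℝ) := by exact_mod_cast hP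
        push_cast at h3 ⊢
        linarith
    · intro h3
      norm_num at h3
  · subst h
    refine ⟨0, ?_, Or.inl rfl, fun _ => rfl⟩
    have hFL : ∀ z : G, fz R (-1) (nm z) * χ z = FL (fun z => fz R 1 (nm z) * χ z) z := by
      intro z
      show fz R (-1) (nm z) * χ z =
        (-1 : ℂ) ^ ArithmeticFunction.cardFactors (nm z) * (fz R 1 (nm z) * χ z)
      unfold fz
      by_cases h0 : nm z = 0 ∨ ¬ (nm z).Coprime R
      · rw [if_pos h0, if_pos h0, zero_mul, mul_zero]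
      · rw [if_neg h0, if_neg h0, one_pow, one_mul]
    rw [Metric.tendsto_atTop]
    intro ε hε
    obtain ⟨X0, hX0⟩ := zero_freq (D * R) (Nat.mul_pos hD hR) _ hχ' (ε / 2) (half_pos hε)
    refine ⟨max X0 1, fun X hX => ?_⟩
    have hXp : 0 < X := lt_of_lt_of_le one_pos ((le_max_right _ _).trans hX)
    have h1 := hX0 X ((le_max_left _ _).trans hX)
    rw [csx_fc0] at h1
    rw [dist_zero_right, norm_div, Complex.norm_real, Real.norm_eq_abs, abs_of_pos hXp]
    have h2 : (∑ z ∈ V X, fz R (-1) (nm z) * χ z) =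
        ∑ z ∈ V X, FL (fun z => fz R 1 (nm z) * χ z) z := Finset.sum_congr rfl fun z _ => hFL z
    rw [h2, div_lt_iff₀ hXp]
    nlinarith

/-- PROOF. `arc_decG D hD b` (second identity) for `f = fx R w φ (a X)` and for `f = fz R w`: with `ψ_i z = fz R w (nm z) χ_i z`, `clS (fx R w φ (a X)) D b X = fx R w φ (a X) m * ∑_i c_i ∑_(z ∈ V (X / m)) ψ_i z gx φ (a X) (nm z)` (`fx_eq`; `fcC F Y 0 = ∑_(V Y) F z`). With `X' = a X`, `X / m = (1 / (a m)) X'`:
`vmean` gives `∑_(z ∈ V (X/m)) ψ_i z gx φ (a X) (nm z) / X → a * (ρ_i / (a m)) mu φ = (ρ_i / m) mu φ`, and `∑_(z ∈ V (X/m)) ψ_i z / X → ρ_i / m`; `fx R w φ (a X) m = fz R w m` for large `X` (`gx_small`). So `clS (fx R w φ (a X)) D b X / X - mu φ * clS (fz R w) D b X / X → 0`. If `w = 1`, `mm w φ = mu φ`. If `w = -1`: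
all `ρ_i = 0`, so both quotients tend to `0`, and `mm w φ = 0`. -/
theorem csx (R : ℕ) (hR : 0 < R) (w : ℂ) (hw : w = 1 ∨ w = -1) (φ : ℝ → ℂ) (hφ : StepF φ) :
    CSX (fun X n => (fx R w φ X n - mm w φ * fz R w n) / 2) := by
  classical
  intro D hD b a ha
  have hw1 : ‖w‖ = 1 := by rcases hw with h | h <;> simp [h]
  have hU := fz_UF R hR w hw1
  obtain ⟨D', n, χ, c, m, φ0, hD', hm, hχ, hc, hdec⟩ := arc_decG D hD b
  have h0 := fun i => csx_base R hR w hw D' hD' (χ i) (hχ i)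
  choose ρ hρ hr hz using fun i => (h0 i).2
  have hmR : (0 : ℝ) < m := by exact_mod_cast hm
  have hmC : (m : ℂ) ≠ 0 := by exact_mod_cast hm.ne'
  have hfx : ∀ X : ℝ, clS (fx R w φ (a * X)) D b X = fx R w φ (a * X) m *
      ∑ i, c i * ∑ z ∈ V (X / m), fz R w (nm z) * χ i z * gx φ (a * X) (nm z) := by
    intro X
    rw [(hdec (fx R w φ (a * X)) (fx_mul R w φ (a * X))).2 X]
    congr 1
    refine Finset.sum_congr rfl fun i _ => ?_
    rw [csx_fc0]
    congr 1
    refine Finset.sum_congr rfl fun z _ => ?_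
    unfold FG
    rw [fx_eq]
    ring
  have hfz : ∀ X : ℝ, clS (fz R w) D b X = fz R w m *
      ∑ i, c i * ∑ z ∈ V (X / m), fz R w (nm z) * χ i z := by
    intro X
    rw [(hdec (fz R w) hU.mul).2 X]
    congr 1
    refine Finset.sum_congr rfl fun i _ => ?_
    rw [csx_fc0]
    rfl
  have T1 : ∀ i, Tendsto (fun X : ℝ => (∑ z ∈ V (X / m), fz R w (nm z) * χ i z) / X) atTop
      (nhds (ρ i / m)) := by
    intro i
    have h1 := ((hρ i).comp (tendsto_id.atTop_div_const hmR)).div_const (m : ℂ)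
    refine h1.congr fun X => ?_
    simp only [Function.comp, id]
    push_cast
    field_simp
  have T2 : ∀ i, Tendsto (fun X : ℝ => (∑ z ∈ V (X / m), fz R w (nm z) * χ i z *
      gx φ (a * X) (nm z)) / X) atTop (nhds (ρ i / m * mu φ)) := by
    intro i
    have h1 := vmean _ (h0 i).1 (ρ i) (hρ i) (hr i) φ hφ (1 / (a * m)) (by positivity)
    have h2 := (h1.comp (tendsto_id.const_mul_atTop ha)).const_mul (a : ℂ)
    have haC : (a : ℂ) ≠ 0 := by exact_mod_cast ha.ne'
    have e : (a : ℂ) * (ρ i * ((1 / (a * m) : ℝ) : ℂ) * mu φ) = ρ i / m * mu φ := by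
      push_cast
      field_simp
    rw [e] at h2
    refine h2.congr fun X => ?_
    simp only [Function.comp, id]
    have e2 : 1 / (a * m) * (a * X) = X / m := by field_simp
    rw [e2]
    push_cast
    rw [← mul_div_assoc, mul_div_mul_left _ _ haC]
  have hev : ∀ᶠ X : ℝ in atTop, fx R w φ (a * X) m = fz R w m := by
    filter_upwards [(tendsto_id.const_mul_atTop ha).eventually (gx_small φ hφ m)] with X hX
    rw [fx_eq]
    have := hX m le_rfl
    simp only [id] at this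
    rw [this, mul_one]
  have L1 : Tendsto (fun X : ℝ => clS (fz R w) D b X / X) atTop
      (nhds (fz R w m * ∑ i, c i * (ρ i / m))) := by
    have h1 : Tendsto (fun X : ℝ => fz R w m * ∑ i, c i *
        ((∑ z ∈ V (X / m), fz R w (nm z) * χ i z) / X)) atTop
        (nhds (fz R w m * ∑ i, c i * (ρ i / m))) :=
      (tendsto_finsetSum _ fun i _ => (T1 i).const_mul (c i)).const_mul _
    refine h1.congr fun X => ?_
    rw [hfz, mul_div_assoc, Finset.sum_div]
    simp only [mul_div_assoc]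
  have L2 : Tendsto (fun X : ℝ => clS (fx R w φ (a * X)) D b X / X) atTop
      (nhds (fz R w m * ∑ i, c i * (ρ i / m * mu φ))) := by
    have h1 : Tendsto (fun X : ℝ => fz R w m * ∑ i, c i *
        ((∑ z ∈ V (X / m), fz R w (nm z) * χ i z * gx φ (a * X) (nm z)) / X)) atTop
        (nhds (fz R w m * ∑ i, c i * (ρ i / m * mu φ))) :=
      (tendsto_finsetSum _ fun i _ => (T2 i).const_mul (c i)).const_mul _
    refine h1.congr' ?_
    filter_upwards [hev] with X hX
    rw [hfx, hX, mul_div_assoc, Finset.sum_div]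
    simp only [mul_div_assoc]
  have hlin : ∀ X : ℝ, clS (fun k => (fx R w φ (a * X) k - mm w φ * fz R w k) / 2) D b X / X =
      (clS (fx R w φ (a * X)) D b X / X - mm w φ * (clS (fz R w) D b X / X)) / 2 := by
    intro X
    unfold clS
    rw [← Finset.sum_div, Finset.sum_sub_distrib, ← Finset.mul_sum]
    ring
  have L3 := (L2.sub (L1.const_mul (mm w φ))).div_const 2
  have e3 : (fz R w m * ∑ i, c i * (ρ i / m * mu φ) -
      mm w φ * (fz R w m * ∑ i, c i * (ρ i / m))) / 2 = 0 := by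
    rcases hw with h | h
    · have h4 : mm w φ = mu φ := by unfold mm; rw [if_pos h]
      have h5 : ∑ i, c i * (ρ i / m * mu φ) = mu φ * ∑ i, c i * (ρ i / m) := by
        rw [Finset.mul_sum]
        refine Finset.sum_congr rfl fun i _ => ?_
        ring
      rw [h4, h5]
      ring
    · have h4 : ∀ i, ρ i = 0 := fun i => hz i h
      simp [h4]
  rw [e3] at L3
  refine L3.congr fun X => ?_
  exact (hlin X).symm

end Pool.Agent.LPr
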