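import Pool.Agent.Lib_MP_f1a94e_lp.CluT
import Pool.Agent.Lib_MP_f1a94e_eq.Ctw

/-!
# Piece CTWT: the twisted cluster theorem for families
-/

set_option autoImplicit false

namespace Pool.Agent.LPr

open Finset Pool.Agent.GaussMR Pool.Agent.OmAll Pool.Agent.OmEq MeasureTheory Filter

/-- PROOF. Let `T` be given. `cluster` with `fun y t => W (y / X) t` (X > 0) gives for the sum `∑_(EN n (b X), bs) Φ e * cs g (W (mE e / X)) (ds E T e) (tE e)`, so its norm
is at most `∑_(EN n (b X), bs) Ψ (ds E T e) (mE e / X) (tE e)` with `Ψ D y t = ‖cs g (W y) D t‖` (`Cmp.bd`). `Ψ D` is continuous with compact support (a finite sum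
of translates in `t` of `W`), zero for `y ≤ 0` and `b ≤ y`. `tr` gives the limit `κ * ∑_D Pr D * ∫ y, ∫ t, Ψ D y t = κ * ∫ y, IT E g T (W y)` (finite sum and integral:
`y ↦ ∫ t, Ψ D y t` is integrable, e.g. `Integrable.integral_prod_left` or continuous with compact support). Hence for every `T`,
`limsup_X ‖sum‖ / X ≤ κ * ∫ y, IT E g T (W y)`. For `T → ∞` the right side tends to `0` by dominated convergence: `0 ≤ IT E g T (W y) ≤ ∫ t, ‖W y t‖` (`IT_le`), which is
integrable in `y`, and `IT E g T (W y) → 0` for every `y` by `an` (`W y` is continuous with compact support). -/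
theorem ctwT (n : ℕ) (hn : 0 < n) (E : Finset ℕ) (hE : n.primeFactors ⊆ E) (g : ℕ → ℂ)
    (hg1 : ∀ p : ℕ, p.Prime → p % 4 = 1 → p ∉ E → ‖g p‖ = 1) (R : ℝ) (hR0 : 0 ≤ R) (hR1 : R ≤ 1) (hNP : NP E g R)
    (Φ : ℝ → G × G → ℂ) (hΦ : ∀ T : ℕ, ∀ᶠ X : ℝ in atTop, CmpT n E T g (Φ X)) (b : ℝ) (W : ℝ → ℝ → ℂ) (hW : TF b W)
    (h0 : R < 1 ∨ ∀ y, (∫ t, W y t) = 0) :
    Tendsto (fun X : ℝ => (∑ e ∈ EN n (b * X), Φ X e * W (mE e / X) (tE e)) / X) atTop (nhds 0) := by
  classical
  obtain ⟨κ, hκ, htr⟩ := tr n hn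
  -- integrability
  have hPi : ∀ D : Finset ℕ, Integrable (Function.uncurry fun y t => ‖cs g (W y) D t‖)
      (volume.prod volume) := fun D => by
    have h1 := (ctw_psi_cont hW g D).integrable_of_hasCompactSupport (ctw_psi_supp hW g D)
      (μ := (volume : Measure (ℝ × ℝ)))
    rwa [Measure.volume_eq_prod] at h1
  have hP1 : ∀ D : Finset ℕ, Integrable (fun y => ∫ t, ‖cs g (W y) D t‖) := fun D =>
    (hPi D).integral_prod_left
  have hWi : Integrable (fun y => ∫ t, ‖W y t‖) := by
    have h1 := (hW.cont.integrable_of_hasCompactSupport hW.supp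
      (μ := (volume : Measure (ℝ × ℝ)))).norm
    rw [Measure.volume_eq_prod] at h1
    exact h1.integral_prod_left
  -- the limit in `X`
  have hIT : ∀ T : ℕ, ∑ D ∈ (PE E T).powerset, Pr E T D * ∫ y, ∫ t, ‖cs g (W y) D t‖ =
      ∫ y, IT E g T (W y) := by
    intro T
    unfold IT
    rw [integral_finsetSum]
    · refine sum_congr rfl fun D _ => ?_
      rw [integral_const_mul]
    · intro D _
      exact (hP1 D).const_mul _
  have hITi : ∀ T : ℕ, Integrable (fun y => IT E g T (W y)) := by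
    intro T
    unfold IT
    exact integrable_finsetSum _ fun D _ => (hP1 D).const_mul _
  -- dominated convergence
  have hlim : Tendsto (fun T : ℕ => ∫ y, IT E g T (W y)) atTop (nhds 0) := by
    have h1 := tendsto_integral_of_dominated_convergence (F := fun T y => IT E g T (W y))
      (f := fun _ => (0 : ℝ)) (fun y => ∫ t, ‖W y t‖) (fun T => (hITi T).aestronglyMeasurable)
      hWi ?_ ?_
    · rwa [integral_zero] at h1
    · intro T
      refine Filter.Eventually.of_forall fun y => ?_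
      rw [Real.norm_eq_abs, abs_of_nonneg (AnP.IT_nonneg E g T (W y))]
      exact IT_le E g hg1 T (W y)
        ((ctw_cont_right hW y).integrable_of_hasCompactSupport (ctw_supp_right hW y))
    · refine Filter.Eventually.of_forall fun y => ?_
      exact an E g hg1 R hR0 hR1 hNP (W y) (ctw_cont_right hW y) (ctw_supp_right hW y)
        (h0.imp id fun h => h y)
  rw [Metric.tendsto_atTop]
  intro ε hε
  have hlim' := hlim.const_mul κ
  rw [mul_zero] at hlim'
  obtain ⟨T, hT⟩ := (hlim'.eventually (gt_mem_nhds hε)).exists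
  have ht := htr E hE T (fun D y t => ‖cs g (W y) D t‖) (ctw_psi_cont hW g) (ctw_psi_supp hW g)
    (fun D y u hy => by
      show ‖cs g (W y) D u‖ = 0
      unfold cs
      rw [sum_eq_zero, norm_zero]
      intro a _
      rw [hW.lo y _ hy, mul_zero]) b
    (fun D y u hy => by
      show ‖cs g (W y) D u‖ = 0
      unfold cs
      rw [sum_eq_zero, norm_zero]
      intro a _
      rw [hW.hi y _ hy, mul_zero])
  rw [hIT T] at ht
  obtain ⟨X0, hX0⟩ := eventually_atTop.1 ((ht.eventually (gt_mem_nhds hT)).and (hΦ T))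
  refine ⟨max X0 1, fun X hX => ?_⟩
  have hX1 : X0 ≤ X := (le_max_left _ _).trans hX
  have hX2 : 0 < X := lt_of_lt_of_le one_pos ((le_max_right _ _).trans hX)
  obtain ⟨h3, hΦX⟩ := hX0 X hX1
  rw [dist_zero_right, norm_div, Complex.norm_real, Real.norm_eq_abs, abs_of_pos hX2]
  refine lt_of_le_of_lt ?_ h3
  refine div_le_div_of_nonneg_right ?_ hX2.le
  have h4 := clusterT n hn E hE g (Φ X) T hΦX (b * X) (fun y t => W (y / X) t)
  rw [h4]
  refine (norm_sum_le _ _).trans (sum_le_sum fun e _ => ?_)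
  rw [norm_mul]
  have h5 : ‖Φ X e‖ * ‖cs g (fun t => W (mE e / X) t) (ds E T e) (tE e)‖ ≤
      1 * ‖cs g (fun t => W (mE e / X) t) (ds E T e) (tE e)‖ :=
    mul_le_mul_of_nonneg_right (hΦX.bd e) (norm_nonneg _)
  rw [one_mul] at h5
  exact h5

end Pool.Agent.LPr
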