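import Pool.Agent.Lib_MP_f1a94e_lp.Defs
import Pool.Agent.Lib_MP_f1a94e_eq.DSum

/-!
# Piece DSUMX: the factor `n / φ(n)`, for families
-/

set_option autoImplicit false

namespace Pool.Agent.LPr

open Finset Pool.Agent.GaussMR Pool.Agent.OmAll Pool.Agent.OmEq MeasureTheory Filter

theorem dsumX_Qs (h : ℝ → ℝ) (h1 h2 : ℝ) (hh : HF h h1 h2) :
    ∃ C : ℝ, 0 < C ∧ ∀ f : ℕ → ℂ, (∀ n, ‖f n‖ ≤ 1) → ∀ n : ℕ, 0 < n → ∀ Y : ℝ, (n : ℝ) ≤ h2 * Y →
      ‖Qs f n (h2 * Y) (fun y t => ((h y ^ 2 * ps0 t : ℝ) : ℂ)) Y‖ ≤ C * (h2 * Y) := by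
  classical
  obtain ⟨C, hC, hcnt⟩ := cnt 1
  refine ⟨C, hC, fun f hf n hn Y hY => ?_⟩
  refine le_trans ?_ (hcnt n hn (h2 * Y) hY)
  unfold Qs
  have hterm : ∀ e : G × G, ‖f (nm e.1) * (starRingEnd ℂ) (f (nm e.2)) *
      ((h (mE e / Y) ^ 2 * ps0 (tE e) : ℝ) : ℂ)‖ ≤ if |tE e| ≤ 1 then 1 else 0 := by
    intro e
    rw [norm_mul, norm_mul, RCLike.norm_conj, Complex.norm_real, Real.norm_eq_abs]
    have a1 := hf (nm e.1)
    have a2 := hf (nm e.2)
    have a3 := hh.nn (mE e / Y)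
    have a4 := hh.le (mE e / Y)
    have a5 : ‖f (nm e.1)‖ * ‖f (nm e.2)‖ ≤ 1 := mul_le_one₀ a1 (norm_nonneg _) a2
    by_cases ht : |tE e| ≤ 1
    · rw [if_pos ht]
      have a6 : 0 ≤ ps0 (tE e) := le_max_left _ _
      have a7 : ps0 (tE e) ≤ 1 := max_le zero_le_one (by linarith [abs_nonneg (tE e)])
      have a8 : h (mE e / Y) ^ 2 ≤ 1 := pow_le_one₀ a3 a4
      have a9 : h (mE e / Y) ^ 2 * ps0 (tE e) ≤ 1 := mul_le_one₀ a8 a6 a7
      rw [abs_of_nonneg (by positivity)]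
      exact mul_le_one₀ a5 (by positivity) a9
    · rw [if_neg ht]
      have a6 : ps0 (tE e) = 0 := by
        unfold ps0
        rw [max_eq_left]
        push Not at ht
        linarith
      rw [a6, mul_zero, abs_zero, mul_zero]
  calc ‖∑ e ∈ (EN n (h2 * Y)).filter (hc n), f (nm e.1) * (starRingEnd ℂ) (f (nm e.2)) *
        ((h (mE e / Y) ^ 2 * ps0 (tE e) : ℝ) : ℂ)‖
      ≤ ∑ e ∈ (EN n (h2 * Y)).filter (hc n), (if |tE e| ≤ 1 then (1 : ℝ) else 0) :=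
        norm_sum_le_of_le _ (fun e _ => hterm e)
    _ ≤ ∑ e ∈ EN n (h2 * Y), (if |tE e| ≤ 1 then (1 : ℝ) else 0) := by
        refine Finset.sum_le_sum_of_subset_of_nonneg (Finset.filter_subset _ _) (fun e _ _ => ?_)
        split_ifs <;> norm_num
    _ = (((EN n (h2 * Y)).filter (fun e => |tE e| ≤ 1)).card : ℝ) := by
        rw [← Finset.sum_filter, Finset.sum_const, nsmul_eq_mul, mul_one]

/-- PROOF. The proof of `dsum` (DSum.lean) with `f` replaced by `f (a * Y)`; `dsum_Qs` with the constant `C` of `cnt 1` independent of `f` (restate it with `∃ C, 0 < C ∧ ∀ f, (∀ n, ‖f n‖ ≤ 1) → ..`, same proof).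
`dsumC`, `dsum_eq`, `dsumC_summable`, `dsum_kap` can be used as they are. -/
theorem dsumX (f : ℝ → ℕ → ℂ) (hf : ∀ X n, ‖f X n‖ ≤ 1) (hQ : QdSmallX f) : QSmallX f := by
  classical
  intro h h1 h2 hh ε hε
  obtain ⟨C, hC, hCQ⟩ := dsumX_Qs h h1 h2 hh
  have h2one : (1 : ℝ) ≤ h2 := hh.one
  have h2pos : 0 < h2 := by linarith
  obtain ⟨-, hw0, hw1, -⟩ := ww_props
  -- the tail
  have hε' : 0 < ε / (4 * C * h2) := by positivity
  obtain ⟨s, hs⟩ := summable_iff_vanishing_norm.mp dsumC_summable _ hε'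
  set K : ℕ := s.sup id with hK
  have htail : ∀ N : ℕ, ∑ d ∈ (Icc 1 N).filter (fun d => K < d), dsumC d / d ≤ ε / (4 * C * h2) := by
    intro N
    have hd : Disjoint ((Icc 1 N).filter (fun d => K < d)) s := by
      rw [Finset.disjoint_left]
      intro d hd hds
      have h3 := (mem_filter.mp hd).2
      have h4 : d ≤ K := Finset.le_sup (f := id) hds
      omega
    exact (le_abs_self _).trans (hs _ hd).le
  set SK : ℝ := ∑ d ∈ Icc 1 K, dsumC d with hSK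
  have hSK0 : 0 ≤ SK := Finset.sum_nonneg (fun d _ => dsumC_nonneg d)
  set ε2 : ℝ := ε / (2 * (SK + 1)) with hε2
  have hε2pos : 0 < ε2 := by positivity
  have hex : ∀ d : ℕ, ∃ N0 : ℕ, 1 ≤ d → ∀ N : ℕ, N0 ≤ N → ∀ a : ℝ, 0 < a →
    ∀ᶠ Y : ℝ in atTop, ‖∑ n ∈ (Icc 1 N).filter (fun n => d ∣ n), ((kap n * ww ((n : ℝ) / N) : ℝ) : ℂ) *
      Qs (f (a * Y)) n (h2 * Y) (fun y t => ((h y ^ 2 * ps0 t : ℝ) : ℂ)) Y‖ ≤ ε2 * N * Y := by
    intro d
    by_cases hd : 1 ≤ d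
    · obtain ⟨N0, hN0⟩ := hQ d hd h h1 h2 hh ε2 hε2pos
      exact ⟨N0, fun _ => hN0⟩
    · exact ⟨0, fun h => absurd h hd⟩
  choose N0 hN0 using hex
  refine ⟨(Icc 1 K).sup N0, fun N hN a ha => ?_⟩
  have hsmall : ∀ᶠ Y : ℝ in atTop, ∀ d ∈ Icc 1 K, ‖∑ n ∈ (Icc 1 N).filter (fun n => d ∣ n), ((kap n * ww ((n : ℝ) / N) : ℝ) : ℂ) *
      Qs (f (a * Y)) n (h2 * Y) (fun y t => ((h y ^ 2 * ps0 t : ℝ) : ℂ)) Y‖ ≤ ε2 * N * Y := by
    rw [Filter.eventually_all_finset]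
    intro d hd
    exact hN0 d (mem_Icc.mp hd).1 N (le_trans (Finset.le_sup hd) hN) a ha
  filter_upwards [hsmall, eventually_ge_atTop (N : ℝ), eventually_gt_atTop (0 : ℝ)] with Y hY hYN hY0
  set Q : ℕ → ℂ := fun n => Qs (f (a * Y)) n (h2 * Y) (fun y t => ((h y ^ 2 * ps0 t : ℝ) : ℂ)) Y with hQdef
  set Z : ℕ → ℂ := fun d => ∑ n ∈ (Icc 1 N).filter (fun n => d ∣ n), ((kap n * ww ((n : ℝ) / N) : ℝ) : ℂ) * Q n
    with hZ
  have hQb : ∀ n ∈ Icc 1 N, ‖Q n‖ ≤ C * (h2 * Y) := by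
    intro n hn
    obtain ⟨hn1, hn2⟩ := mem_Icc.mp hn
    refine hCQ (f (a * Y)) (hf (a * Y)) n hn1 Y ?_
    have e1 : (n : ℝ) ≤ N := by exact_mod_cast hn2
    nlinarith
  have hZb : ∀ d ∈ Icc 1 N, ‖Z d‖ ≤ (N / d : ℝ) * (2 * (C * (h2 * Y))) := by
    intro d hd
    have hd1 := (mem_Icc.mp hd).1
    have hcard : (((Icc 1 N).filter (fun n => d ∣ n)).card : ℝ) ≤ (N / d : ℝ) := by
      have e1 : Icc 1 N = Ioc 0 N := by
        ext x
        rw [mem_Icc, mem_Ioc]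
        omega
      rw [e1, Nat.Ioc_filter_dvd_card_eq_div]
      exact Nat.cast_div_le
    calc ‖Z d‖ ≤ ∑ n ∈ (Icc 1 N).filter (fun n => d ∣ n), (2 * (C * (h2 * Y))) := by
          refine norm_sum_le_of_le _ (fun n hn => ?_)
          rw [norm_mul, Complex.norm_real, Real.norm_eq_abs]
          have k1 := dsum_kap n
          have k2 := hw0 ((n : ℝ) / N)
          have k3 := hw1 ((n : ℝ) / N)
          rw [abs_of_nonneg (mul_nonneg k1.1 k2)]
          have k4 : kap n * ww ((n : ℝ) / N) ≤ 2 := by nlinarith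
          exact mul_le_mul k4 (hQb n (mem_filter.mp hn).1) (norm_nonneg _) (by norm_num)
      _ = (((Icc 1 N).filter (fun n => d ∣ n)).card : ℝ) * (2 * (C * (h2 * Y))) := by
          rw [Finset.sum_const, nsmul_eq_mul]
      _ ≤ _ := mul_le_mul_of_nonneg_right hcard (by positivity)
  have hexch : ∑ n ∈ Icc 1 N, ((kap n * (n / n.totient) * ww ((n : ℝ) / N) : ℝ) : ℂ) * Q n =
      ∑ d ∈ Icc 1 N, (dsumC d : ℂ) * Z d := by
    have e1 : ∀ n ∈ Icc 1 N, ((kap n * (n / n.totient) * ww ((n : ℝ) / N) : ℝ) : ℂ) * Q n =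
        ∑ d ∈ Icc 1 N, (if d ∣ n then (dsumC d : ℂ) * (((kap n * ww ((n : ℝ) / N) : ℝ) : ℂ) * Q n) else 0) := by
      intro n hn
      obtain ⟨hn1, hn2⟩ := mem_Icc.mp hn
      have e2 : n.divisors = (Icc 1 N).filter (fun d => d ∣ n) := by
        ext d
        rw [Nat.mem_divisors, mem_filter, mem_Icc]
        constructor
        · rintro ⟨h3, h4⟩
          have h5 := Nat.le_of_dvd hn1 h3
          have h6 := Nat.pos_of_dvd_of_pos h3 hn1
          exact ⟨⟨h6, by omega⟩, h3⟩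
        · rintro ⟨_, h3⟩
          exact ⟨h3, by omega⟩
      rw [dsum_eq n hn1, ← Finset.sum_filter, ← e2, ← Finset.sum_mul]
      push_cast
      ring
    rw [Finset.sum_congr rfl e1, Finset.sum_comm]
    refine Finset.sum_congr rfl (fun d _ => ?_)
    rw [← Finset.sum_filter, ← Finset.mul_sum]
  rw [hexch]
  have hsplit : ∑ d ∈ Icc 1 N, dsumC d * ‖Z d‖ =
      ∑ d ∈ (Icc 1 N).filter (fun d => d ≤ K), dsumC d * ‖Z d‖ +
      ∑ d ∈ (Icc 1 N).filter (fun d => K < d), dsumC d * ‖Z d‖ := by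
    rw [← Finset.sum_filter_add_sum_filter_not (Icc 1 N) (fun d => d ≤ K)]
    congr 1
    refine Finset.sum_congr ?_ (fun _ _ => rfl)
    refine Finset.filter_congr (fun d _ => ?_)
    omega
  have hpart1 : ∑ d ∈ (Icc 1 N).filter (fun d => d ≤ K), dsumC d * ‖Z d‖ ≤ ε / 2 * N * Y := by
    calc ∑ d ∈ (Icc 1 N).filter (fun d => d ≤ K), dsumC d * ‖Z d‖
        ≤ ∑ d ∈ (Icc 1 N).filter (fun d => d ≤ K), dsumC d * (ε2 * N * Y) := by
          refine Finset.sum_le_sum (fun d hd => ?_)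
          obtain ⟨hd1, hd2⟩ := mem_filter.mp hd
          exact mul_le_mul_of_nonneg_left (hY d (mem_Icc.mpr ⟨(mem_Icc.mp hd1).1, hd2⟩)) (dsumC_nonneg d)
      _ ≤ ∑ d ∈ Icc 1 K, dsumC d * (ε2 * N * Y) := by
          refine Finset.sum_le_sum_of_subset_of_nonneg ?_ (fun d _ _ => ?_)
          · intro d hd
            obtain ⟨hd1, hd2⟩ := mem_filter.mp hd
            exact mem_Icc.mpr ⟨(mem_Icc.mp hd1).1, hd2⟩
          · have := dsumC_nonneg d
            positivity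
      _ = SK * (ε2 * N * Y) := by rw [← Finset.sum_mul]
      _ ≤ (SK + 1) * (ε2 * N * Y) := mul_le_mul_of_nonneg_right (by linarith) (by positivity)
      _ = ε / 2 * N * Y := by
          rw [hε2]
          field_simp
  have hpart2 : ∑ d ∈ (Icc 1 N).filter (fun d => K < d), dsumC d * ‖Z d‖ ≤ ε / 2 * N * Y := by
    calc ∑ d ∈ (Icc 1 N).filter (fun d => K < d), dsumC d * ‖Z d‖
        ≤ ∑ d ∈ (Icc 1 N).filter (fun d => K < d), (dsumC d / d) * (2 * C * h2 * N * Y) := by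
          refine Finset.sum_le_sum (fun d hd => ?_)
          have h3 := hZb d (mem_filter.mp hd).1
          calc dsumC d * ‖Z d‖ ≤ dsumC d * ((N / d : ℝ) * (2 * (C * (h2 * Y)))) :=
                mul_le_mul_of_nonneg_left h3 (dsumC_nonneg d)
            _ = (dsumC d / d) * (2 * C * h2 * N * Y) := by ring
      _ = (∑ d ∈ (Icc 1 N).filter (fun d => K < d), dsumC d / d) * (2 * C * h2 * N * Y) := by
          rw [← Finset.sum_mul]
      _ ≤ (ε / (4 * C * h2)) * (2 * C * h2 * N * Y) :=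
          mul_le_mul_of_nonneg_right (htail N) (by positivity)
      _ = ε / 2 * N * Y := by
          field_simp
          ring
  calc ‖∑ d ∈ Icc 1 N, (dsumC d : ℂ) * Z d‖ ≤ ∑ d ∈ Icc 1 N, dsumC d * ‖Z d‖ := by
        refine norm_sum_le_of_le _ (fun d _ => ?_)
        rw [norm_mul, Complex.norm_real, Real.norm_eq_abs, abs_of_nonneg (dsumC_nonneg d)]
    _ ≤ ε * N * Y := by
        rw [hsplit]
        linarith

end Pool.Agent.LPr
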