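import Pool.Agent.Lib_MP_f1a94e_mr.Defs

/-!
# MP_f1a94e_nt, joint law of the large prime factors: bounded completely multiplicative functions
-/

set_option autoImplicit false

namespace Pool.Agent.LPr

open Pool.Agent.GaussMR

/-- completely multiplicative functions bounded by one, of modulus one at the primes larger than `P0` -/
structure UF (P0 : ℕ) (f : ℕ → ℂ) : Prop where
  mul : ∀ m n, f (m * n) = f m * f n
  one : f 1 = 1
  bd : ∀ n, ‖f n‖ ≤ 1
  un : ∀ p : ℕ, p.Prime → P0 < p → ‖f p‖ = 1

/-- a function of the norm times a character -/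
noncomputable def FG (f : ℕ → ℂ) (χ : G → ℂ) (z : G) : ℂ := f (nm z) * χ z

end Pool.Agent.LPr
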