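import Mathlib

/-!
# MP_f1a94e_nt, joint law of the large prime factors: elementary definitions
-/

set_option autoImplicit false

namespace Pool.Agent.LPr

open Finset Filter

/-- product of `φ (log p / log X)` over the prime factors of `n` with multiplicity -/
noncomputable def gx (φ : ℝ → ℂ) (X : ℝ) (n : ℕ) : ℂ :=
  (n.primeFactorsList.map (fun p : ℕ => φ (Real.log p / Real.log X))).prod

/-- step functions of modulus one, equal to one outside finitely many intervals `(u, v]`, `0 < u` -/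
structure StepF (φ : ℝ → ℂ) : Prop where
  un : ∀ t, ‖φ t‖ = 1
  ex : ∃ (r : ℕ) (c : Fin r → ℂ) (u v : Fin r → ℝ), (∀ i, 0 < u i ∧ u i ≤ v i) ∧
    ∀ t, φ t = 1 + ∑ i, if u i < t ∧ t ≤ v i then c i else 0

/-- the mean value over the integers -/
noncomputable def mu (φ : ℝ → ℂ) : ℂ := limUnder atTop (fun X : ℝ => (∑ n ∈ Icc 1 ⌊X⌋₊, gx φ X n) / X)

open Classical in
/-- the mean value of `w ^ Ω(n) gx φ X n` -/
noncomputable def mm (w : ℂ) (φ : ℝ → ℂ) : ℂ := if w = 1 then mu φ else 0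

/-! ### Windows -/

open Classical in
/-- the primes in `(X^u, X^v]` -/
noncomputable def PW (X u v : ℝ) : Finset ℕ := (Icc 1 ⌊X ^ v⌋₊).filter (fun p => p.Prime ∧ X ^ u < (p : ℝ))

/-- `∑ g p / p` over the primes of `(X^u, X^v]` tends to `log (v / u)` -/
structure Mert (g : ℕ → ℝ) : Prop where
  nn : ∀ p, 0 ≤ g p
  lim : ∀ u v : ℝ, 0 < u → u ≤ v →
    Tendsto (fun X : ℝ => ∑ p ∈ PW X u v, g p / p) atTop (nhds (Real.log (v / u)))

/-- lists of windows -/
def Win (l : List (ℝ × ℝ)) : Prop := ∀ w ∈ l, 0 < w.1 ∧ w.1 ≤ w.2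

/-- sum of `∏ g(p_i)/p_i` over the tuples of primes, `p_i` in the `i`-th window, with product at most `X^s` -/
noncomputable def SW (g : ℕ → ℝ) (X : ℝ) : List (ℝ × ℝ) → ℝ → ℝ
  | [], s => if 0 ≤ s then 1 else 0
  | w :: l, s => ∑ p ∈ PW X w.1 w.2, g p / p * SW g X l (s - Real.log p / Real.log X)

/-- the number of tuples of primes, `p_i` in the `i`-th window, with product dividing `n` -/
noncomputable def TW (X : ℝ) : List (ℝ × ℝ) → ℕ → ℝ
  | [], _ => 1
  | w :: l, n => ∑ p ∈ (PW X w.1 w.2).filter (fun p => p ∣ n), TW X l (n / p)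

/-- the limit of `SW` at `s = 1` -/
noncomputable def NW (l : List (ℝ × ℝ)) : ℝ := limUnder atTop (fun X : ℝ => SW (fun _ => 1) X l 1)

/-- expansion of `(∑_i c_i W_i)^j` applied to a functional of lists of windows -/
noncomputable def expd {r : ℕ} (c : Fin r → ℂ) (u v : Fin r → ℝ) : ℕ → (List (ℝ × ℝ) → ℂ) → ℂ
  | 0, Λ => Λ []
  | j + 1, Λ => ∑ i, c i * expd c u v j (fun l => Λ ((u i, v i) :: l))

/-- the mean value in terms of the limits `NW` -/
noncomputable def EV {r : ℕ} (c : Fin r → ℂ) (u v : Fin r → ℝ) (J : ℕ) : ℂ :=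
  ∑ j ∈ range (J + 1), (1 / (j.factorial : ℂ)) * expd c u v j (fun l => (NW l : ℂ))

open Classical in
/-- the number of prime factors of `n` in `(x^u, x^v]`, with multiplicity -/
noncomputable def wc (x u v : ℝ) (n : ℕ) : ℕ :=
  (n.primeFactorsList.filter (fun p : ℕ => x ^ u < (p : ℝ) ∧ (p : ℝ) ≤ x ^ v)).length

theorem mem_PW {X u v : ℝ} (hX : 0 ≤ X) {p : ℕ} : p ∈ PW X u v ↔ p.Prime ∧ X ^ u < (p : ℝ) ∧ (p : ℝ) ≤ X ^ v := by
  classical
  unfold PW
  rw [mem_filter, mem_Icc]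
  constructor
  · rintro ⟨⟨-, h1⟩, h2, h3⟩
    exact ⟨h2, h3, (Nat.le_floor_iff (Real.rpow_nonneg hX v)).1 h1⟩
  · rintro ⟨h1, h2, h3⟩
    exact ⟨⟨h1.one_lt.le, Nat.le_floor h3⟩, h1, h2⟩

end Pool.Agent.LPr
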