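import Pool.Agent.Lib_MP_f1a94e_eq.BDefs
import Pool.Agent.Lib_MP_f1a94e_lp.VDefs
import Pool.Agent.Lib_MP_f1a94e_lp.UDefs

/-!
# MP_f1a94e_nt, joint law of the large prime factors: definitions

Families `f X` of completely multiplicative functions (the scale `X` tends to infinity). The geometric scale is always
called `X` (or `Y`), the index of the family is `a * X` with a fixed `a > 0`.
-/

set_option autoImplicit false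

namespace Pool.Agent.LPr

open Finset Pool.Agent.GaussMR Pool.Agent.OmAll Pool.Agent.OmEq MeasureTheory Filter

/-- families of completely multiplicative functions bounded by one which at every fixed prime `1 mod 4` outside `E`
are eventually equal to `ω` -/
structure FX (f : ℝ → ℕ → ℂ) (E : Finset ℕ) (ω : ℂ) : Prop where
  mul : ∀ X m n, f X (m * n) = f X m * f X n
  bd : ∀ X n, ‖f X n‖ ≤ 1
  pr : ∀ T : ℕ, ∀ᶠ X : ℝ in atTop, ∀ p : ℕ, p ≤ T → p.Prime → p % 4 = 1 → p ∉ E → f X p = ω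

/-- functions on pairs that are multiplied by `g p` when a prime `γ` of norm `p ≤ T`, `p ∉ E`, moves from `V'` to `V` -/
structure CmpT (n : ℕ) (E : Finset ℕ) (T : ℕ) (g : ℕ → ℂ) (Φ : G × G → ℂ) : Prop where
  bd : ∀ e, ‖Φ e‖ ≤ 1
  mv : ∀ γ U W : G, (nm γ).Prime → nm γ % 4 = 1 → nm γ ≤ T → nm γ ∉ E → En n (γ * U, W) →
    ¬ (nm γ) ^ 2 ∣ nm (γ * U) * nm W → Φ (γ * U, W) = g (nm γ) * Φ (U, star γ * W)

open Classical in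
/-- `Qs` for two functions -/
noncomputable def Qs2 (f1 f2 : ℕ → ℂ) (n : ℕ) (x : ℝ) (W : ℝ → ℝ → ℂ) (X : ℝ) : ℂ :=
  ∑ e ∈ (EN n x).filter (hc n), f1 (nm e.1) * (starRingEnd ℂ) (f2 (nm e.2)) * W (mE e / X) (tE e)

open Classical in
/-- the sum over the pairs congruent modulo the determinant -/
noncomputable def Cg2 (f1 f2 : ℕ → ℂ) (n : ℕ) (x : ℝ) (W : ℝ → ℝ → ℂ) (X : ℝ) : ℂ :=
  ∑ e ∈ (EN n x).filter (fun e => cg n e.2 e.1), f1 (nm e.1) * (starRingEnd ℂ) (f2 (nm e.2)) * W (mE e / X) (tE e)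

/-- the sum over edges for two functions -/
noncomputable def Sx2 (f1 f2 : ℕ → ℂ) (x : ℝ) (W : ℝ → ℝ → ℂ) (X : ℝ) : ℂ :=
  ∑ e ∈ EN 1 x, f1 (nm e.1) * f2 (nm e.2) * W (mE e / X) (tE e)

/-- one class is asymptotically its share of almost all classes -/
def GBX (f : ℝ → ℕ → ℂ) : Prop :=
  ∀ n : ℕ, 0 < n → ∀ (b : ℝ) (W : ℝ → ℝ → ℂ), TF b W → ∀ a : ℝ, 0 < a →
    Tendsto (fun X : ℝ => (Cg2 (f (a * X)) (f (a * X)) n (b * X) W X -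
      ((kap n / n.totient : ℝ) : ℂ) * Qs (f (a * X)) n (b * X) W X) / X) atTop (nhds 0)

/-- test functions of mean zero in `t` give nothing (almost all classes) -/
def TVX (f : ℝ → ℕ → ℂ) : Prop :=
  ∀ n : ℕ, 0 < n → ∀ (b : ℝ) (W : ℝ → ℝ → ℂ), TF b W → (∀ y, (∫ t, W y t) = 0) → ∀ a : ℝ, 0 < a →
    Tendsto (fun X : ℝ => Qs (f (a * X)) n (b * X) W X / X) atTop (nhds 0)

/-- the sums over one class are small -/
def GAX (f : ℝ → ℕ → ℂ) : Prop :=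
  ∀ n : ℕ, 0 < n → ∀ (b : ℝ) (W : ℝ → ℝ → ℂ), TF b W → ∀ a : ℝ, 0 < a →
    Tendsto (fun X : ℝ => Cg2 (f (a * X)) (f (a * X)) n (b * X) W X / X) atTop (nhds 0)

/-- test functions of mean zero in `t` give nothing (edges, two functions) -/
def PTX (f1 f2 : ℝ → ℕ → ℂ) : Prop :=
  ∀ (b : ℝ) (W : ℝ → ℝ → ℂ), TF b W → (∀ y, (∫ t, W y t) = 0) → ∀ a : ℝ, 0 < a →
    Tendsto (fun X : ℝ => Sx2 (f1 (a * X)) (f2 (a * X)) (b * X) W X / X) atTop (nhds 0)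

/-- the correlations are small on average -/
def GmSmallX (f : ℝ → ℕ → ℂ) : Prop :=
  ∀ (h : ℝ → ℝ) (h1 h2 : ℝ), HF h h1 h2 → ∀ ε : ℝ, 0 < ε → ∃ N0 : ℕ, ∀ N : ℕ, N0 ≤ N → ∃ J0 : ℕ, ∀ J : ℕ, J0 ≤ J →
    ∀ a : ℝ, 0 < a → ∀ᶠ X : ℝ in atTop,
      ‖∑ n ∈ Icc 1 N, Gm (f (a * X)) h J N n (((J + N) ^ 2 * h2 + 1) * X) X‖ ≤ ε * N ^ 2 * X

/-- weighted sums of the correlations -/
def QSmallX (f : ℝ → ℕ → ℂ) : Prop :=
  ∀ (h : ℝ → ℝ) (h1 h2 : ℝ), HF h h1 h2 → ∀ ε : ℝ, 0 < ε → ∃ N0 : ℕ, ∀ N : ℕ, N0 ≤ N → ∀ a : ℝ, 0 < a →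
    ∀ᶠ Y : ℝ in atTop,
    ‖∑ n ∈ Icc 1 N, ((kap n * (n / n.totient) * ww ((n : ℝ) / N) : ℝ) : ℂ) *
      Qs (f (a * Y)) n (h2 * Y) (fun y t => ((h y ^ 2 * ps0 t : ℝ) : ℂ)) Y‖ ≤ ε * N * Y

/-- the same over the multiples of `d`, without the factor `n / φ(n)` -/
def QdSmallX (f : ℝ → ℕ → ℂ) : Prop :=
  ∀ d : ℕ, 1 ≤ d → ∀ (h : ℝ → ℝ) (h1 h2 : ℝ), HF h h1 h2 → ∀ ε : ℝ, 0 < ε → ∃ N0 : ℕ, ∀ N : ℕ, N0 ≤ N →
    ∀ a : ℝ, 0 < a → ∀ᶠ Y : ℝ in atTop,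
    ‖∑ n ∈ (Icc 1 N).filter (fun n => d ∣ n), ((kap n * ww ((n : ℝ) / N) : ℝ) : ℂ) *
      Qs (f (a * Y)) n (h2 * Y) (fun y t => ((h y ^ 2 * ps0 t : ℝ) : ℂ)) Y‖ ≤ ε * N * Y

/-- Matomaki-Radziwill in arcs, odd primitive numbers -/
def MROX (f : ℝ → ℕ → ℂ) : Prop :=
  ∀ D : ℕ, 0 < D → ∀ b : G, ∀ ε : ℝ, 0 < ε → ∃ H0 : ℝ, 0 < H0 ∧ ∀ H : ℝ, H0 ≤ H → ∀ a : ℝ, 0 < a →
    ∀ᶠ X : ℝ in atTop, ∫ θ in (0 : ℝ)..(2 * Real.pi), ‖So (f (a * X)) D b X (H / X) θ‖ ^ 2 ≤ ε * H ^ 2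

/-- Matomaki-Radziwill in arcs, primitive numbers -/
def MRPX (f : ℝ → ℕ → ℂ) : Prop :=
  ∀ D : ℕ, 0 < D → ∀ b : G, ∀ ε : ℝ, 0 < ε → ∃ H0 : ℝ, 0 < H0 ∧ ∀ H : ℝ, H0 ≤ H → ∀ a : ℝ, 0 < a →
    ∀ᶠ X : ℝ in atTop, ∫ θ in (0 : ℝ)..(2 * Real.pi), ‖Sp (f (a * X)) D b X (H / X) θ‖ ^ 2 ≤ ε * H ^ 2

open Classical in
/-- the sums over a residue class -/
noncomputable def clS (f : ℕ → ℂ) (D : ℕ) (b : G) (X : ℝ) : ℂ := ∑ z ∈ (V X).filter (fun z => cg D z b), f (nm z)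

/-- the sums over the residue classes are small -/
def CSX (f : ℝ → ℕ → ℂ) : Prop :=
  ∀ D : ℕ, 0 < D → ∀ b : G, ∀ a : ℝ, 0 < a → Tendsto (fun X : ℝ => clS (f (a * X)) D b X / X) atTop (nhds 0)

/-! ### The family -/

/-- `w ^ Ω(n)` times `gx` on the numbers coprime to `R`, zero otherwise -/
noncomputable def fx (R : ℕ) (w : ℂ) (φ : ℝ → ℂ) (X : ℝ) (n : ℕ) : ℂ :=
  if n = 0 ∨ ¬ n.Coprime R then 0 else w ^ ArithmeticFunction.cardFactors n * gx φ X n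

/-! ### Simple facts -/

theorem FX.conj {f : ℝ → ℕ → ℂ} {E : Finset ℕ} {ω : ℂ} (h : FX f E ω) :
    FX (fun X n => (starRingEnd ℂ) (f X n)) E ((starRingEnd ℂ) ω) := by
  refine ⟨fun X m n => ?_, fun X n => ?_, fun T => ?_⟩
  · rw [h.mul, map_mul]
  · rw [RCLike.norm_conj]
    exact h.bd X n
  · filter_upwards [h.pr T] with X hX p h1 h2 h3 h4
    rw [hX p h1 h2 h3 h4]

theorem FX.dil {f : ℝ → ℕ → ℂ} {E : Finset ℕ} {ω : ℂ} (h : FX f E ω) {a : ℝ} (ha : 0 < a) :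
    FX (fun X => f (a * X)) E ω :=
  ⟨fun X => h.mul (a * X), fun X => h.bd (a * X),
    fun T => (tendsto_id.const_mul_atTop ha).eventually (h.pr T)⟩

end Pool.Agent.LPr
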