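import Pool.Agent.Lib_MP_f1a94e_lp.PosX

/-!
# Piece POSG: positivity of the constants for profiles
-/

set_option autoImplicit false

namespace Pool.Agent.LPr

open Finset Filter

private lemma posg_sw (g : ℕ → ℝ) (X : ℝ) (hX : 1 < X) (l : List (ℝ × ℝ)) :
    ∀ s : ℝ, (l.map (fun w => w.2)).sum ≤ s →
      SW g X l s = (l.map (fun w => ∑ p ∈ PW X w.1 w.2, g p / p)).prod := by
  have hlX : 0 < Real.log X := Real.log_pos hX
  induction l with
  | nil =>
    intro s hs
    have h0 : (0 : ℝ) ≤ s := by simpa using hs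
    simp [SW, h0]
  | cons w l ih =>
    intro s hs
    rw [List.map_cons, List.sum_cons] at hs
    rw [SW, List.map_cons, List.prod_cons, Finset.sum_mul]
    refine Finset.sum_congr rfl (fun p hp => ?_)
    have hp' := (mem_PW (by linarith : (0 : ℝ) ≤ X)).1 hp
    have hp0 : (0 : ℝ) < p := by exact_mod_cast hp'.1.pos
    have h1 : Real.log p ≤ w.2 * Real.log X := by
      have h2 := Real.log_le_log hp0 hp'.2.2
      rwa [Real.log_rpow (by linarith)] at h2
    have h3 : Real.log p / Real.log X ≤ w.2 := by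
      rw [div_le_iff₀ hlX]
      exact h1
    rw [ih _ (by linarith)]

/-- PROOF. As `nw_replicate` (PosX.lean): for `X > 1` and `s ≥` the sum of the second components of `l`, `SW g X l s = ∏_(w ∈ l) ∑_(p ∈ PW X w.1 w.2) g p / p` (induction on `l`, `log p / log X ≤ w.2`); at `s = 1`; limit of the product by `mert_all`
(induction on `l` or `tendsto_list_prod`). -/
theorem nw_prod (l : List (ℝ × ℝ)) (hl : Win l) (hs : (l.map (fun w => w.2)).sum ≤ 1) :
    NW l = (l.map (fun w => Real.log (w.2 / w.1))).prod := by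
  unfold NW
  apply Tendsto.limUnder_eq
  have h1 : ∀ l : List (ℝ × ℝ), Win l →
      Tendsto (fun X : ℝ => (l.map (fun w => ∑ p ∈ PW X w.1 w.2, (fun _ : ℕ => (1 : ℝ)) p / (p : ℝ))).prod) atTop
        (nhds (l.map (fun w => Real.log (w.2 / w.1))).prod) := by
    intro l
    induction l with
    | nil => intro _; simp
    | cons w l ih =>
      intro h
      have h2 := h w List.mem_cons_self
      simp only [List.map_cons, List.prod_cons]
      exact (mert_all.lim w.1 w.2 h2.1 h2.2).mul (ih (fun w' hw' => h w' (List.mem_cons_of_mem _ hw')))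
  refine (h1 l hl).congr' ?_
  filter_upwards [eventually_gt_atTop (1 : ℝ)] with X hX
  exact (posg_sw (fun _ => 1) X hX l 1 hs).symm

private lemma posg_wc_mul (x u v : ℝ) {m n : ℕ} (hm : m ≠ 0) (hn : n ≠ 0) :
    wc x u v (m * n) = wc x u v m + wc x u v n := by
  unfold wc
  rw [((Nat.perm_primeFactorsList_mul hm hn).filter _).length_eq, List.filter_append,
    List.length_append]

private lemma posg_wc_one (x u v : ℝ) {p : ℕ} (hp : p.Prime) (h1 : x ^ u < (p : ℝ)) (h2 : (p : ℝ) ≤ x ^ v) :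
    wc x u v p = 1 := by
  unfold wc
  rw [Nat.primeFactorsList_prime hp, List.filter_cons_of_pos (by simp [h1, h2])]
  simp

private lemma posg_wc_zero (x u v : ℝ) {p : ℕ} (hp : p.Prime) (h : (p : ℝ) ≤ x ^ u ∨ x ^ v < (p : ℝ)) :
    wc x u v p = 0 := by
  unfold wc
  rw [Nat.primeFactorsList_prime hp, List.filter_cons_of_neg, List.filter_nil, List.length_nil]
  simp only [decide_eq_true_eq, not_and, not_le]
  intro h1
  rcases h with h | h
  · exact absurd h (not_le.2 h1)
  · exact h

private lemma posg_wc_small (x u v : ℝ) {s : ℕ} (hs : (s : ℝ) ≤ x ^ u) :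
    wc x u v s = 0 := by
  unfold wc
  rw [List.length_eq_zero_iff, List.filter_eq_nil_iff]
  intro p hp
  simp only [decide_eq_true_eq, not_and, not_le]
  intro h1
  have h2 : p ≤ s := Nat.le_of_mem_primeFactorsList hp
  have h3 : (p : ℝ) ≤ s := by exact_mod_cast h2
  exact absurd (h3.trans hs) (not_le.2 h1)

open Classical in
private lemma posg_tw_ne (X : ℝ) (hX : 1 ≤ X) (l : List (ℝ × ℝ)) :
    ∀ n : ℕ, n ≠ 0 → TW X l n ≠ 0 → ∃ s : ℕ, s ≠ 0 ∧ (s : ℝ) * X ^ (l.map (fun w => w.1)).sum ≤ n ∧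
      ∀ u v : ℝ, (∀ w ∈ l, (u ≤ w.1 ∧ w.2 ≤ v) ∨ w.2 ≤ u ∨ v ≤ w.1) →
        wc X u v n = l.countP (fun w => u ≤ w.1 ∧ w.2 ≤ v) + wc X u v s := by
  have hX0 : (0 : ℝ) < X := by linarith
  induction l with
  | nil =>
    intro n hn _
    exact ⟨n, hn, by simp, fun u v _ => by simp⟩
  | cons w l ih =>
    intro n hn h
    rw [TW] at h
    obtain ⟨p, hp, hpn⟩ := Finset.exists_ne_zero_of_sum_ne_zero h
    rw [mem_filter, mem_PW hX0.le] at hp
    obtain ⟨⟨hpp, h1, h2⟩, hd⟩ := hp
    obtain ⟨m, rfl⟩ := hd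
    have hm : m ≠ 0 := by
      rintro rfl
      exact hn (by simp)
    rw [Nat.mul_div_cancel_left m hpp.pos] at hpn
    obtain ⟨s, hs0, hsm, hs⟩ := ih m hm hpn
    refine ⟨s, hs0, ?_, ?_⟩
    · rw [List.map_cons, List.sum_cons, Real.rpow_add hX0]
      have h3 : 0 < X ^ w.1 := Real.rpow_pos_of_pos hX0 _
      have h4 : (0 : ℝ) ≤ m := Nat.cast_nonneg m
      push_cast
      calc (s : ℝ) * (X ^ w.1 * X ^ (l.map (fun w => w.1)).sum)
          = X ^ w.1 * ((s : ℝ) * X ^ (l.map (fun w => w.1)).sum) := by ring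
        _ ≤ X ^ w.1 * m := mul_le_mul_of_nonneg_left hsm h3.le
        _ ≤ p * m := mul_le_mul_of_nonneg_right h1.le h4
    · intro u v huv
      have h3 := hs u v (fun w' hw' => huv w' (List.mem_cons_of_mem _ hw'))
      rw [posg_wc_mul X u v hpp.ne_zero hm, h3, List.countP_cons]
      by_cases hw : u ≤ w.1 ∧ w.2 ≤ v
      · have h4 : wc X u v p = 1 := posg_wc_one X u v hpp
          (lt_of_le_of_lt (Real.rpow_le_rpow_of_exponent_le hX hw.1) h1)
          (h2.trans (Real.rpow_le_rpow_of_exponent_le hX hw.2))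
        rw [h4, if_pos (by simpa using hw)]
        ring
      · have h4 : wc X u v p = 0 := by
          apply posg_wc_zero X u v hpp
          rcases huv w List.mem_cons_self with h5 | h5 | h5
          · exact absurd h5 hw
          · exact Or.inl (h2.trans (Real.rpow_le_rpow_of_exponent_le hX h5))
          · exact Or.inr (lt_of_le_of_lt (Real.rpow_le_rpow_of_exponent_le hX h5) h1)
        rw [h4, if_neg (by simpa using hw)]
        ring

/-- PROOF. `ρ = 1 - ∑ t i > 0`, `M ≥ 1` natural with `w := ρ / M ≤ ε / 2`, `l = [(t_i - δ, t_i), i < k] ++ replicate M (w - δ, w)`, `δ ≤ δ0` where `δ0 < w`, `(k + M) δ0 ≤ ε`, `t_i - δ0 ≥ ε`, and `δ0 < |t_i - t_j|` for `i ≠ j`, `δ0 ≤ 1`... (`t_i ≤ 1 ≤ 2`).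
Let `2 ≤ X`, `1 ≤ n ≤ X` and `TW X l n ≠ 0`. Then (induction on `l` as in `posx_tw_ne`) `n = (∏ p_i) (∏ r_j) s` with primes `X^(t_i - δ) < p_i ≤ X^(t_i)` and `X^(w - δ) < r_j ≤ X^w`. `n ≤ X` gives `s ≤ X^(1 - ∑ (t_i - δ) - M (w - δ)) = X^((k + M) δ) ≤ X^ε`, `r_j ≤ X^w ≤ X^ε`, `p_i > X^(t_i - δ) ≥ X^ε`.
`wc X u v` is additive on products of nonzero numbers, `wc X u v p` is `1` or `0` for a prime `p` in or not in the window (`posx_wc_mul`, `posx_wc_prime`; they are private in PosX.lean, copy them), and `wc X ε 2 m = 0` if all primes of `m` are `≤ X^ε`. So `wc X ε 2 n = k` (`X^ε < p_i ≤ X^(t_i) ≤ X^2`) and `wc X (t_i - δ) t_i n = 1`: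
`p_i` is in the window, `p_j`, `j ≠ i`, is not (`t_j ≤ t_i - δ` or `t_j - δ ≥ t_i`), and the primes `≤ X^ε ≤ X^(t_i - δ)` are not.
So `TW X l n ≤ B` times the indicator of the event (`tw_bd` with a lower bound of all left ends, `n ≤ X ≤ X²`), and as in `pos_law`: `NW l ≤ B c`, `NW l = ∏ log (t_i / (t_i - δ)) (log (w / (w - δ)))^M > 0` by `nw_prod` (the sum of the second components is `∑ t_i + ρ = 1`). -/
theorem pos_prof (k : ℕ) (t : Fin k → ℝ) (hinj : Function.Injective t) (ε : ℝ) (hε : 0 < ε) (ht : ∀ i, ε < t i)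
    (hsum : ∑ i, t i < 1) :
    ∃ δ0 : ℝ, 0 < δ0 ∧ ∀ δ : ℝ, 0 < δ → δ ≤ δ0 → ∀ c : ℝ,
      Tendsto (fun x : ℝ => (Set.ncard {n : ℕ | 1 ≤ n ∧ (n : ℝ) ≤ x ∧ (∀ i, wc x (t i - δ) (t i) n = 1) ∧
        wc x ε 2 n = k} : ℝ) / x) atTop (nhds c) → 0 < c := by
  classical
  obtain ⟨ρ, hρ⟩ : ∃ ρ : ℝ, ρ = 1 - ∑ i, t i := ⟨_, rfl⟩
  have hρ0 : 0 < ρ := by linarith
  obtain ⟨M, hM⟩ := exists_nat_gt (2 * ρ / ε)
  have hM0 : (0 : ℝ) < M := lt_trans (by positivity) hM
  obtain ⟨w, hw⟩ : ∃ w : ℝ, w = ρ / M := ⟨_, rfl⟩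
  have hw0 : 0 < w := by rw [hw]; positivity
  have hMw : (M : ℝ) * w = ρ := by rw [hw]; field_simp
  have hwε : w ≤ ε / 2 := by
    rw [hw, div_le_iff₀ hM0]
    rw [div_lt_iff₀ hε] at hM
    linarith
  have hti : ∀ i, t i < 1 := by
    intro i
    refine lt_of_le_of_lt ?_ hsum
    exact Finset.single_le_sum (fun j _ => (hε.trans (ht j)).le) (Finset.mem_univ i)
  have hle : ∀ a : ℝ, 0 < a → ∀ᶠ δ in nhdsWithin (0 : ℝ) (Set.Ioi 0), δ < a := fun a ha =>
    (eventually_lt_nhds ha).filter_mono nhdsWithin_le_nhds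
  have hev : ∀ᶠ δ in nhdsWithin (0 : ℝ) (Set.Ioi 0), δ < w ∧ ((k : ℝ) + M) * δ ≤ ε ∧ (∀ i, δ ≤ t i - ε) ∧
      ∀ i j, i ≠ j → δ ≤ |t i - t j| := by
    refine (hle w hw0).and (Filter.Eventually.and ?_ (Filter.Eventually.and ?_ ?_))
    · have hkM : (0 : ℝ) < (k : ℝ) + M := by positivity
      filter_upwards [hle (ε / ((k : ℝ) + M)) (by positivity)] with δ hδ
      rw [lt_div_iff₀ hkM] at hδ
      linarith
    · refine Filter.eventually_all.2 (fun i => ?_)
      filter_upwards [hle (t i - ε) (by linarith [ht i])] with δ hδ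
      exact hδ.le
    · refine Filter.eventually_all.2 (fun i => Filter.eventually_all.2 (fun j => ?_))
      by_cases hij : i = j
      · exact Filter.Eventually.of_forall (fun _ h => absurd hij h)
      · have h1 : 0 < |t i - t j| := abs_pos.2 (sub_ne_zero.2 (fun h => hij (hinj h)))
        filter_upwards [hle _ h1] with δ hδ _
        exact hδ.le
  obtain ⟨δ1, hδ1, hδ2⟩ := (nhdsGT_basis (0 : ℝ)).eventually_iff.1 hev
  refine ⟨δ1 / 2, by linarith, fun δ hδ hδδ c hc => ?_⟩
  obtain ⟨hc1, hc2, hc3, hc4⟩ := hδ2 ⟨hδ, by linarith⟩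
  set l : List (ℝ × ℝ) := (List.finRange k).map (fun i => (t i - δ, t i)) ++ List.replicate M (w - δ, w) with hl
  have hmem : ∀ a ∈ l, (∃ i, a = (t i - δ, t i)) ∨ a = (w - δ, w) := by
    intro a ha
    rw [hl, List.mem_append, List.mem_map] at ha
    rcases ha with ⟨i, -, hi⟩ | ha
    · exact Or.inl ⟨i, hi.symm⟩
    · exact Or.inr (List.eq_of_mem_replicate ha)
  have hpos : ∀ a ∈ l, 0 < a.1 ∧ a.1 < a.2 := by
    intro a ha
    rcases hmem a ha with ⟨i, rfl⟩ | rfl
    · exact ⟨by simp only; linarith [hc3 i], by simp only; linarith⟩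
    · exact ⟨by simp only; linarith, by simp only; linarith⟩
  have hwin : Win l := fun a ha => ⟨(hpos a ha).1, (hpos a ha).2.le⟩
  have hs2 : (l.map (fun w => w.2)).sum = 1 := by
    rw [hl, List.map_append, List.sum_append, List.map_map, List.map_replicate, List.sum_replicate]
    have h1 : (List.map ((fun w : ℝ × ℝ => w.2) ∘ fun i => (t i - δ, t i)) (List.finRange k)).sum = ∑ i, t i :=
      (Fin.sum_univ_def _).symm
    rw [h1, nsmul_eq_mul, hMw]
    linarith
  have hs1 : (l.map (fun w => w.1)).sum = 1 - ((k : ℝ) + M) * δ := by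
    rw [hl, List.map_append, List.sum_append, List.map_map, List.map_replicate, List.sum_replicate]
    have h1 : (List.map ((fun w : ℝ × ℝ => w.1) ∘ fun i => (t i - δ, t i)) (List.finRange k)).sum =
        ∑ i, (t i - δ) := (Fin.sum_univ_def _).symm
    rw [h1, nsmul_eq_mul, Finset.sum_sub_distrib, Finset.sum_const, Finset.card_univ, Fintype.card_fin,
      nsmul_eq_mul]
    linear_combination hMw + hρ
  -- the structure of `n` with `TW ≠ 0`
  have key : ∀ X : ℝ, 2 ≤ X → ∀ n : ℕ, n ≠ 0 → (n : ℝ) ≤ X → TW X l n ≠ 0 →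
      (∀ i, wc X (t i - δ) (t i) n = 1) ∧ wc X ε 2 n = k := by
    intro X hX n hn hnX hT
    have hX0 : 0 < X := by linarith
    have hX1 : 1 ≤ X := by linarith
    obtain ⟨s, hs0, hsn, hs⟩ := posg_tw_ne X hX1 l n hn hT
    have hsε : (s : ℝ) ≤ X ^ ε := by
      have h1 : (s : ℝ) ≤ X ^ (((k : ℝ) + M) * δ) := by
        have h2 : 0 < X ^ (1 - ((k : ℝ) + M) * δ) := Real.rpow_pos_of_pos hX0 _
        have h3 : X ^ (((k : ℝ) + M) * δ) * X ^ (1 - ((k : ℝ) + M) * δ) = X := by
          rw [← Real.rpow_add hX0]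
          rw [show ((k : ℝ) + M) * δ + (1 - ((k : ℝ) + M) * δ) = 1 by ring, Real.rpow_one]
        rw [hs1] at hsn
        exact le_of_mul_le_mul_right (by rw [h3]; linarith) h2
      exact h1.trans (Real.rpow_le_rpow_of_exponent_le hX1 hc2)
    constructor
    · intro i
      rw [hs (t i - δ) (t i) ?_, posg_wc_small X (t i - δ) (t i)
        (hsε.trans (Real.rpow_le_rpow_of_exponent_le hX1 (by linarith [hc3 i]))), add_zero, hl,
        List.countP_append, List.countP_map]
      · have h1 : List.countP ((fun w : ℝ × ℝ => decide (t i - δ ≤ w.1 ∧ w.2 ≤ t i)) ∘ fun j => (t j - δ, t j))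
            (List.finRange k) = List.count i (List.finRange k) := by
          rw [List.count]
          refine List.countP_congr (fun j _ => ?_)
          simp only [Function.comp_apply, decide_eq_true_eq, beq_iff_eq]
          constructor
          · rintro ⟨h2, h3⟩
            exact hinj (by linarith)
          · rintro rfl
            exact ⟨le_refl _, le_refl _⟩
        have h2 : List.countP (fun w : ℝ × ℝ => decide (t i - δ ≤ w.1 ∧ w.2 ≤ t i))
            (List.replicate M (w - δ, w)) = 0 := by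
          rw [List.countP_replicate, if_neg]
          simp only [decide_eq_true_eq, not_and, not_le]
          intro h3
          linarith [ht i]
        rw [h1, h2, List.count_eq_one_of_mem (List.nodup_finRange k) (List.mem_finRange i)]
      · intro a ha
        rcases hmem a ha with ⟨j, rfl⟩ | rfl
        · by_cases hij : i = j
          · subst hij
            exact Or.inl ⟨le_refl _, le_refl _⟩
          · right
            simp only
            rcases le_abs.1 (hc4 i j hij) with h1 | h1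
            · left; linarith
            · right; linarith
        · right; left
          simp only
          linarith [hc3 i]
    · rw [hs ε 2 ?_, posg_wc_small X ε 2 hsε, add_zero, hl, List.countP_append, List.countP_map]
      · have h1 : List.countP ((fun w : ℝ × ℝ => decide (ε ≤ w.1 ∧ w.2 ≤ 2)) ∘ fun j => (t j - δ, t j))
            (List.finRange k) = k := by
          have h3 : List.countP ((fun w : ℝ × ℝ => decide (ε ≤ w.1 ∧ w.2 ≤ 2)) ∘ fun j => (t j - δ, t j))
              (List.finRange k) = (List.finRange k).length := by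
            rw [List.countP_eq_length]
            intro j _
            simp only [Function.comp_apply, decide_eq_true_eq]
            exact ⟨by linarith [hc3 j], by linarith [hti j]⟩
          rw [h3, List.length_finRange]
        have h2 : List.countP (fun w : ℝ × ℝ => decide (ε ≤ w.1 ∧ w.2 ≤ 2))
            (List.replicate M (w - δ, w)) = 0 := by
          rw [List.countP_replicate, if_neg]
          simp only [decide_eq_true_eq, not_and, not_le]
          intro h3
          linarith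
        rw [h1, h2, add_zero]
      · intro a ha
        rcases hmem a ha with ⟨j, rfl⟩ | rfl
        · left
          simp only
          exact ⟨by linarith [hc3 j], by linarith [hti j]⟩
        · right; left
          simp only
          linarith
  -- the bound
  obtain ⟨d, hd0, hd⟩ : ∃ d : ℝ, 0 < d ∧ ∀ a ∈ l, d ≤ a.1 := by
    refine ⟨min ε (w - δ), lt_min hε (by linarith), fun a ha => ?_⟩
    rcases hmem a ha with ⟨i, rfl⟩ | rfl
    · exact (min_le_left _ _).trans (by simp only; linarith [hc3 i])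
    · exact min_le_right _ _
  obtain ⟨B, hB0, hB⟩ := tw_bd d hd0 l hd
  have h1 := tw_mean l hwin
  have h2 : NW l ≤ B * c := by
    refine le_of_tendsto_of_tendsto h1 (hc.const_mul B) ?_
    filter_upwards [eventually_ge_atTop (2 : ℝ)] with x hx
    have hset : {n : ℕ | 1 ≤ n ∧ (n : ℝ) ≤ x ∧ (∀ i, wc x (t i - δ) (t i) n = 1) ∧ wc x ε 2 n = k} =
        (((Icc 1 ⌊x⌋₊).filter (fun n => (∀ i, wc x (t i - δ) (t i) n = 1) ∧ wc x ε 2 n = k) : Finset ℕ) :
          Set ℕ) := by
      ext n
      simp only [Set.mem_setOf_eq, coe_filter, mem_Icc]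
      constructor
      · rintro ⟨h3, h4, h5⟩
        exact ⟨⟨h3, Nat.le_floor h4⟩, h5⟩
      · rintro ⟨⟨h3, h4⟩, h5⟩
        exact ⟨h3, (Nat.le_floor_iff (by linarith)).1 h4, h5⟩
    rw [hset, Set.ncard_coe_finset, ← mul_div_assoc]
    apply div_le_div_of_nonneg_right _ (by linarith : (0 : ℝ) ≤ x)
    calc ∑ n ∈ Icc 1 ⌊x⌋₊, TW x l n
        ≤ ∑ n ∈ Icc 1 ⌊x⌋₊, (if (∀ i, wc x (t i - δ) (t i) n = 1) ∧ wc x ε 2 n = k then B else 0) := by
          refine Finset.sum_le_sum (fun n hn => ?_)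
          rw [mem_Icc] at hn
          have hn0 : n ≠ 0 := by omega
          have hnx : (n : ℝ) ≤ x := (Nat.le_floor_iff (by linarith)).1 hn.2
          have hnx2 : (n : ℝ) ≤ x ^ 2 := by nlinarith
          split_ifs with h
          · exact (hB x hx n hn0 hnx2).2
          · by_contra hcon
            push Not at hcon
            exact h (key x hx n hn0 hnx hcon.ne')
      _ = B * (((Icc 1 ⌊x⌋₊).filter (fun n => (∀ i, wc x (t i - δ) (t i) n = 1) ∧ wc x ε 2 n = k)).card : ℝ) := by
          rw [← Finset.sum_filter, Finset.sum_const, nsmul_eq_mul, mul_comm]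
  rw [nw_prod l hwin hs2.le] at h2
  have h3 : 0 < (l.map (fun w => Real.log (w.2 / w.1))).prod := by
    apply List.prod_pos
    intro a ha
    rw [List.mem_map] at ha
    obtain ⟨b, hb, rfl⟩ := ha
    have h4 := hpos b hb
    exact Real.log_pos ((one_lt_div h4.1).2 h4.2)
  by_contra hcon
  push Not at hcon
  nlinarith [mul_nonneg hB0 (neg_nonneg.2 hcon)]

end Pool.Agent.LPr
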