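import Pool.Agent.Lib_MP_f1a94e_lp.PairLawG
import Pool.Agent.Lib_MP_f1a94e_eq.ResA

/-!
# The joint law over factorisations, arbitrary windows
-/

set_option autoImplicit false

namespace Pool.Agent.LPr

open Finset Pool.Agent.GaussMR Pool.Agent.OmAll Pool.Agent.OmEq MeasureTheory Filter

/-- the condition on the numbers of prime factors in the windows and on `Ω` -/
def PJG (q R : ℕ) (a b : ℤ) (u v u' v' : ℕ → ℝ) (r s : ℕ) (k l : ℕ → ℕ) (x : ℝ) (p : ℕ × ℕ) : Prop :=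
  (p.1 * p.2).Coprime R ∧ (ArithmeticFunction.cardFactors p.1 : ℤ) ≡ a [ZMOD q] ∧
    (ArithmeticFunction.cardFactors p.2 : ℤ) ≡ b [ZMOD q] ∧
    (∀ i < r, wc x (u i) (v i) p.1 = k i) ∧ (∀ i < s, wc x (u' i) (v' i) p.2 = l i)

/-- a common lower bound -/
theorem exists_u0 (u : ℕ → ℝ) (r : ℕ) (h : ∀ i < r, 0 < u i) : ∃ u0 : ℝ, 0 < u0 ∧ ∀ i < r, u0 ≤ u i := by
  induction r with
  | zero => exact ⟨1, one_pos, fun i hi => absurd hi (Nat.not_lt_zero _)⟩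
  | succ r ih =>
    obtain ⟨u0, h0, h1⟩ := ih (fun i hi => h i (by omega))
    refine ⟨min u0 (u r), lt_min h0 (h r (by omega)), fun i hi => ?_⟩
    rcases Nat.lt_succ_iff_lt_or_eq.1 hi with h2 | h2
    · exact (min_le_left _ _).trans (h1 i h2)
    · rw [h2]
      exact min_le_right _ _

/-- the joint law -/
theorem fac_lawG (R : ℕ) (hR : 0 < R) : ∃ κ : ℝ, 0 < κ ∧
    ∀ (q : ℕ) (a b : ℤ) (α β : ℝ) (u v u' v' : ℕ → ℝ) (r s : ℕ) (k l : ℕ → ℕ), 0 < q → 0 < α → α ≤ β →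
      (∀ i < r, 0 < u i ∧ u i ≤ v i) → (∀ i < s, 0 < u' i ∧ u' i ≤ v' i) → ∃ c c' : ℝ,
      Tendsto (fun x : ℝ => (Set.ncard {n : ℕ | 1 ≤ n ∧ (n : ℝ) ≤ x ∧ ∀ i < r, wc x (u i) (v i) n = k i} : ℝ) / x)
        atTop (nhds c) ∧
      Tendsto (fun x : ℝ => (Set.ncard {n : ℕ | 1 ≤ n ∧ (n : ℝ) ≤ x ∧ ∀ i < s, wc x (u' i) (v' i) n = l i} : ℝ) / x)
        atTop (nhds c') ∧
      Tendsto (fun x : ℝ => ((FS α β x (PJG q R a b u v u' v' r s k l x)).ncard : ℝ) / x) atTop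
        (nhds (κ * Real.log (β / α) * c * c' / q ^ 2)) := by
  classical
  obtain ⟨κ, hκ, -, h⟩ := edge_lawG R hR
  refine ⟨κ / 4, by positivity, ?_⟩
  intro q a b α β u v u' v' r s k l hq hα hαβ hu hu'
  have hβ : 0 < β := hα.trans_le hαβ
  obtain ⟨u1, hu1, hu1'⟩ := exists_u0 u r (fun i hi => (hu i hi).1)
  obtain ⟨u2, hu2, hu2'⟩ := exists_u0 u' s (fun i hi => (hu' i hi).1)
  set u0 : ℝ := min u1 u2 with hu0def
  have hu0 : 0 < u0 := lt_min hu1 hu2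
  have hur : ∀ i < r, u0 ≤ u i ∧ u i ≤ v i := fun i hi => ⟨(min_le_left _ _).trans (hu1' i hi), (hu i hi).2⟩
  have hus : ∀ i < s, u0 ≤ u' i ∧ u' i ≤ v' i := fun i hi => ⟨(min_le_right _ _).trans (hu2' i hi), (hu' i hi).2⟩
  obtain ⟨K, hK, hk, hl⟩ : ∃ K : ℕ, 3 < K * u0 ∧ (∀ i < r, k i < K) ∧ (∀ i < s, l i < K) := by
    have key : ∀ (w : ℝ), 0 < w → ∀ K : ℕ, ⌊3 / w⌋₊ < K → 3 < K * w := by
      intro w hw K hK
      have h1 : 3 / w < ⌊3 / w⌋₊ + 1 := Nat.lt_floor_add_one _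
      have h2 : ((⌊3 / w⌋₊ + 1 : ℕ) : ℝ) ≤ K := by exact_mod_cast hK
      push_cast at h2
      have h3 : 3 / w < K := lt_of_lt_of_le h1 h2
      rwa [div_lt_iff₀ hw] at h3
    refine ⟨⌊3 / u0⌋₊ + ∑ i ∈ range r, k i + ∑ i ∈ range s, l i + 1, ?_, ?_, ?_⟩
    · exact key u0 hu0 _ (by omega)
    · intro i hi
      have := single_le_sum (f := fun i => k i) (fun _ _ => Nat.zero_le _) (mem_range.2 hi)
      omega
    · intro i hi
      have := single_le_sum (f := fun i => l i) (fun _ _ => Nat.zero_le _) (mem_range.2 hi)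
      omega
  obtain ⟨c, hc, hc1⟩ := int_lawG K u0 hu0 u v r hur hK k hk
  obtain ⟨c', hc', hc1'⟩ := int_lawG K u0 hu0 u' v' s hus hK l hl
  refine ⟨c, c', hc1, hc1', ?_⟩
  obtain ⟨a', -, ha⟩ := exists_nat_cl q hq a
  obtain ⟨b', -, hb⟩ := exists_nat_cl q hq b
  have h1 := (h q K u0 u v u' v' r s k l c c' hq hu0 hur hus hK hk hl hc hc' a' b' (Real.log α) (Real.log β)
    (Real.log_le_log hα hαβ)).div_const 4
  rw [log_div' hα hβ]
  have h2 : κ * (Real.log β - Real.log α) * c * c' / q ^ 2 / 4 =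
      κ / 4 * (Real.log β - Real.log α) * c * c' / q ^ 2 := by ring
  rw [← h2]
  refine h1.congr (fun X => ?_)
  have h3 := card_conv α β hα hβ X (PJG q R a b u v u' v' r s k l X)
  have h4 : ((EN 1 X).filter (fun e => (Real.log α ≤ tE e ∧ tE e ≤ Real.log β) ∧ ((nm e.1 * nm e.2).Coprime R ∧
        ArithmeticFunction.cardFactors (nm e.1) ≡ a' [MOD q] ∧ ArithmeticFunction.cardFactors (nm e.2) ≡ b' [MOD q] ∧
        (∀ i < r, wc X (u i) (v i) (nm e.1) = k i) ∧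
        (∀ i < s, wc X (u' i) (v' i) (nm e.2) = l i)))).card =
      4 * (FS α β X (PJG q R a b u v u' v' r s k l X)).ncard := by
    rw [← h3]
    congr 1
    ext e
    simp only [mem_filter, ha, hb, PJG]
  rw [h4]
  push_cast
  ring

end Pool.Agent.LPr
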