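import Pool.Agent.Lib_MP_f1a94e_lp.FewBG

/-!
# Piece FEWCG: few frequencies carry little, uniformly in `f`
-/

set_option autoImplicit false

namespace Pool.Agent.LPr

open Finset Pool.Agent.GaussMR Pool.Agent.GaussCM Pool.Agent.OmAll Pool.Agent.ECM

/-- values of `FG f χ` are bounded by one -/
private theorem fewcG_norm {D : ℕ} {χ : G → ℂ} (hχ : Chi D χ) {f : ℕ → ℂ} (hb : ∀ n, ‖f n‖ ≤ 1) (z : G) :
    ‖FG f χ z‖ ≤ 1 := by
  unfold FG
  rw [norm_mul]
  have h1 := hb (nm z)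
  have h2 := hχ.le z
  have h3 := norm_nonneg (f (nm z))
  have h4 := norm_nonneg (χ z)
  nlinarith

/-- the starting bound -/
private theorem fewcG_start : ∃ δ M0 X0 : ℝ, 0 < δ ∧ 0 < M0 ∧ ∀ X : ℝ, X0 ≤ X → ∀ F : G → ℂ, (∀ z, ‖F z‖ ≤ 1) →
    ∀ S : Finset ℤ, (∀ k ∈ S, |(k : ℝ)| ≤ X) → (S.card : ℝ) ≤ X ^ δ → ∀ Z : ℝ, X ^ (1 / 2 : ℝ) ≤ Z →
    ∑ k ∈ S, ‖fcC F Z k‖ ^ 2 ≤ M0 ^ 2 * Z ^ 2 := by
  obtain ⟨δ, C, X0, hδ, hC, h⟩ := orth
  refine ⟨δ, 3 * Real.sqrt C, max X0 0, hδ, by positivity, ?_⟩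
  intro X hX F hF S hS hcard Z hZ
  have hX0 : X0 ≤ X := (le_max_left _ _).trans hX
  have hXn : 0 ≤ X := (le_max_right _ _).trans hX
  have hZ0 : 0 ≤ Z := (Real.rpow_nonneg hXn _).trans hZ
  have h1 := h X Z hX0 hZ S hS hcard F
  have h2 : ∑ z ∈ V Z, ‖F z‖ ^ 2 ≤ 9 * Z := by
    calc ∑ z ∈ V Z, ‖F z‖ ^ 2 ≤ ∑ _z ∈ V Z, (1 : ℝ) := by
          apply sum_le_sum
          intro z _
          have h3 := hF z
          have h4 := norm_nonneg (F z)
          nlinarith
      _ = ((V Z).card : ℝ) := by simp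
      _ ≤ 9 * Z := card_V_le Z hZ0
  calc ∑ k ∈ S, ‖fcC F Z k‖ ^ 2 ≤ C * Z * ∑ z ∈ V Z, ‖F z‖ ^ 2 := h1
    _ ≤ C * Z * (9 * Z) := mul_le_mul_of_nonneg_left h2 (by positivity)
    _ = (3 * Real.sqrt C) ^ 2 * Z ^ 2 := by
      rw [mul_pow, Real.sq_sqrt hC.le]
      ring

/-- PROOF. Copy of `few_main` (ecm/FewC.lean; copy its private lemmas too) with `FL χ` replaced by `FG f χ`, `few_step` by `few_stepG`, `cm_FL` by `cm_FG`; `fewc_start` only uses `‖F z‖ ≤ 1`. All constants are independent of `f`. -/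
theorem few_mainG (hdr : DRange) (D : ℕ) (hD : 0 < D) (P0 : ℕ) (ε : ℝ) (hε : 0 < ε) : ∃ δ X0 : ℝ, 0 < δ ∧ ∀ X : ℝ, X0 ≤ X →
    ∀ f : ℕ → ℂ, UF P0 f → ∀ χ : G → ℂ, Chi D χ →
    ∀ S : Finset ℤ, (∀ k ∈ S, |(k : ℝ)| ≤ X ∧ k ≠ 0) → (S.card : ℝ) ≤ X ^ δ →
    ∑ k ∈ S, ‖fcC (FG f χ) X k‖ ^ 2 ≤ ε * X ^ 2 := by
  classical
  obtain ⟨c, C, L0, δ0, hc0, hc1, hC, hL0, hδ0, hstep⟩ := few_stepG hdr
  obtain ⟨δ1, M0, X1, hδ1, hM0, hstart⟩ := fewcG_start
  -- the parameters
  set lam : ℝ := 1 - c / 2 with hlam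
  have hlam0 : 0 < lam := by rw [hlam]; linarith
  have hlam1 : lam < 1 := by rw [hlam]; linarith
  have hratio : 1 < lam / (1 - c) := by
    rw [lt_div_iff₀ (by linarith), hlam]
    linarith
  set ρ : ℝ := min 1 (min (Real.log (lam / (1 - c))) (c ^ 2 * ε / (32 * C ^ 2))) with hρ
  have hρ0 : 0 < ρ := by
    rw [hρ]
    refine lt_min one_pos (lt_min (Real.log_pos hratio) (by positivity))
  have hρ1 : ρ ≤ 1 := min_le_left _ _
  have hρ2 : ρ ≤ Real.log (lam / (1 - c)) := (min_le_right _ _).trans (min_le_left _ _)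
  have hρ3 : ρ ≤ c ^ 2 * ε / (32 * C ^ 2) := (min_le_right _ _).trans (min_le_right _ _)
  have hexp : (1 - c) * Real.exp ρ ≤ lam := by
    have h1 : Real.exp ρ ≤ lam / (1 - c) := by
      rw [← Real.exp_log (by linarith : 0 < lam / (1 - c))]
      exact Real.exp_le_exp.2 hρ2
    rw [le_div_iff₀ (by linarith)] at h1
    linarith
  set K : ℝ := C * Real.sqrt (2 * ρ) with hK
  have hK0 : 0 ≤ K := by positivity
  have hK1 : K * (2 / c) ≤ Real.sqrt ε / 2 := by
    have h1 : Real.sqrt (2 * ρ) ≤ c * Real.sqrt ε / (4 * C) := by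
      rw [Real.sqrt_le_left (by positivity)]
      have h2 : (c * Real.sqrt ε / (4 * C)) ^ 2 = c ^ 2 * ε / (16 * C ^ 2) := by
        rw [div_pow, mul_pow, Real.sq_sqrt hε.le]
        ring
      rw [h2]
      have h3 : c ^ 2 * ε / (16 * C ^ 2) = 2 * (c ^ 2 * ε / (32 * C ^ 2)) := by
        field_simp
        norm_num
      rw [h3]
      linarith
    have h2 : K * (2 / c) ≤ C * (c * Real.sqrt ε / (4 * C)) * (2 / c) := by
      rw [hK]
      gcongr
    have h3 : C * (c * Real.sqrt ε / (4 * C)) * (2 / c) = Real.sqrt ε / 2 := by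
      field_simp
      norm_num
    linarith
  obtain ⟨r0, hr0⟩ := exists_pow_lt_of_lt_one (show 0 < Real.sqrt ε / (2 * M0) by positivity) hlam1
  set r : ℕ := r0 + 1 with hr
  have hrpow : lam ^ r * M0 ≤ Real.sqrt ε / 2 := by
    have h1 : lam ^ r ≤ lam ^ r0 := pow_le_pow_of_le_one hlam0.le hlam1.le (by omega)
    have h2 : lam ^ r ≤ Real.sqrt ε / (2 * M0) := h1.trans hr0.le
    rw [le_div_iff₀ (by positivity)] at h2
    linarith
  have hr1 : (1 : ℝ) ≤ r := by
    rw [hr]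
    push_cast
    linarith [Nat.cast_nonneg (α := ℝ) r0]
  set e : ℝ := 1 / (40 * r) with he
  have he0 : 0 < e := by positivity
  have he1 : e ≤ 1 / 40 := by
    rw [he]
    apply one_div_le_one_div_of_le (by norm_num)
    linarith
  set T : ℝ := max L0 (1 / ρ) with hT
  have hT1 : L0 ≤ T := le_max_left _ _
  have hT2 : 1 / ρ ≤ T := le_max_right _ _
  have hT0 : 0 < T := lt_of_lt_of_le hL0 hT1
  set e' : ℝ := e * Real.exp (-T) with he'
  have he'0 : 0 < e' := by positivity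
  have hlog : Real.log (e / e') = T := by
    rw [he']
    have h1 : e / (e * Real.exp (-T)) = Real.exp T := by
      rw [Real.exp_neg]
      field_simp
    rw [h1, Real.log_exp]
  have he'e : e' < e := by
    rw [he']
    have h1 : Real.exp (-T) < 1 := by
      rw [Real.exp_lt_one_iff]
      linarith
    nlinarith
  obtain ⟨X2, hX2⟩ := hstep D e' e hD he'0 he'e he1 (by rw [hlog]; exact hT1) P0
  have hev : ∀ᶠ X : ℝ in Filter.atTop, X ^ (-(1 / 8 : ℝ)) < ρ :=
    (tendsto_rpow_neg_atTop (by norm_num : (0 : ℝ) < 1 / 8)).eventually (gt_mem_nhds hρ0)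
  obtain ⟨X3, hX3⟩ := Filter.eventually_atTop.1 hev
  refine ⟨min δ0 (min e' δ1), max (max X1 X2) (max X3 1), ?_, ?_⟩
  · exact lt_min hδ0 (lt_min he'0 hδ1)
  intro X hX f hf χ hχ S hS hcard
  have hXX1 : X1 ≤ X := ((le_max_left _ _).trans (le_max_left _ _)).trans hX
  have hXX2 : X2 ≤ X := ((le_max_right _ _).trans (le_max_left _ _)).trans hX
  have hXX3 : X3 ≤ X := ((le_max_left _ _).trans (le_max_right _ _)).trans hX
  have hXone : 1 ≤ X := ((le_max_right _ _).trans (le_max_right _ _)).trans hX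
  have hXpos : 0 < X := by linarith
  have hρX : X ^ (-(1 / 8 : ℝ)) ≤ ρ := (hX3 X hXX3).le
  -- the restricted set
  set S' : Finset ℤ := S.filter (fun k => FG f χ ii * xi (-k) ii = 1) with hS'
  have hsub : S' ⊆ S := filter_subset _ _
  have hsum : ∑ k ∈ S, ‖fcC (FG f χ) X k‖ ^ 2 = ∑ k ∈ S', ‖fcC (FG f χ) X k‖ ^ 2 := by
    symm
    apply sum_subset hsub
    intro k hk hk'
    have h1 : FG f χ ii * xi (-k) ii ≠ 1 := by
      intro h
      exact hk' (mem_filter.2 ⟨hk, h⟩)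
    rw [fc_unit (FG f χ) (cm_FG D χ hχ f hf.mul hf.bd) X k h1]
    simp
  have hcard' : ∀ d : ℝ, min δ0 (min e' δ1) ≤ d → (S'.card : ℝ) ≤ X ^ d := by
    intro d hd
    calc (S'.card : ℝ) ≤ S.card := by exact_mod_cast card_le_card hsub
      _ ≤ X ^ (min δ0 (min e' δ1)) := hcard
      _ ≤ X ^ d := Real.rpow_le_rpow_of_exponent_le hXone hd
  have hc2 := hcard' δ0 (min_le_left _ _)
  have hc3 := hcard' e' ((min_le_right _ _).trans (min_le_left _ _))
  have hc4 := hcard' δ1 ((min_le_right _ _).trans (min_le_right _ _))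
  have hmem : ∀ k ∈ S', |(k : ℝ)| ≤ X ∧ k ≠ 0 ∧ FG f χ ii * xi (-k) ii = 1 := by
    intro k hk
    rw [hS', mem_filter] at hk
    exact ⟨(hS k hk.1).1, (hS k hk.1).2, hk.2⟩
  -- induction
  have hind : ∀ j : ℕ, ∀ Z : ℝ, X ^ (1 / 2 + j * e) ≤ Z → Z ≤ X →
      ∑ k ∈ S', ‖fcC (FG f χ) Z k‖ ^ 2 ≤ (lam ^ j * M0 + K * (2 / c)) ^ 2 * Z ^ 2 := by
    intro j
    induction j with
    | zero =>
      intro Z hZ _
      have h1 := hstart X hXX1 (FG f χ) (fewcG_norm hχ hf.bd) S' (fun k hk => (hmem k hk).1) hc4 Z (by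
        rw [Nat.cast_zero, zero_mul, add_zero] at hZ
        exact hZ)
      refine h1.trans ?_
      apply mul_le_mul_of_nonneg_right _ (sq_nonneg Z)
      apply pow_le_pow_left₀ hM0.le
      rw [pow_zero, one_mul]
      have : 0 ≤ K * (2 / c) := by positivity
      linarith
    | succ j ih =>
      intro Z hZ hZX
      have hZ0 : 0 < Z := lt_of_lt_of_le (Real.rpow_pos_of_pos hXpos _) hZ
      have h1 := hX2 X hXX2 f hf χ hχ ρ hρ0 hρ1 hρX S' hmem hc2 hc3 Z (lam ^ j * M0 + K * (2 / c)) (by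
        refine le_trans ?_ hZ
        apply Real.rpow_le_rpow_of_exponent_le hXone
        push_cast
        have : 0 ≤ (j : ℝ) * e := by positivity
        linarith) hZX (by positivity) (by
        intro Z' hZ1 hZ2
        apply ih Z' _ (hZ2.trans hZX)
        refine le_trans ?_ hZ1
        calc X ^ (1 / 2 + (j : ℝ) * e) = X ^ (1 / 2 + ((j + 1 : ℕ) : ℝ) * e) * X ^ (-e) := by
              rw [← Real.rpow_add hXpos]
              congr 1
              push_cast
              ring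
          _ ≤ Z * X ^ (-e) := mul_le_mul_of_nonneg_right hZ (Real.rpow_nonneg hXpos.le _))
      refine h1.trans ?_
      apply mul_le_mul_of_nonneg_right _ (sq_nonneg Z)
      apply pow_le_pow_left₀
      · have : 0 ≤ 1 - c := by linarith
        positivity
      · rw [hlog]
        have h2 : (1 - c) * Real.exp ρ * (lam ^ j * M0 + K * (2 / c)) ≤
            lam * (lam ^ j * M0 + K * (2 / c)) :=
          mul_le_mul_of_nonneg_right hexp (by positivity)
        have h3 : C * Real.sqrt (1 / T + ρ) ≤ K := by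
          rw [hK]
          apply mul_le_mul_of_nonneg_left _ hC.le
          apply Real.sqrt_le_sqrt
          have h4 : 1 / T ≤ ρ := by
            rw [div_le_iff₀ hT0]
            rw [div_le_iff₀ hρ0] at hT2
            linarith
          linarith
        have h4 : lam * (lam ^ j * M0 + K * (2 / c)) + K = lam ^ (j + 1) * M0 + K * (2 / c) := by
          rw [pow_succ, hlam]
          field_simp
          ring
        linarith
  have hfin := hind r X (by
    have h1 : X ^ (1 / 2 + (r : ℝ) * e) ≤ X ^ (1 : ℝ) := by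
      apply Real.rpow_le_rpow_of_exponent_le hXone
      have h2 : (r : ℝ) * e = 1 / 40 := by
        rw [he]
        field_simp
      rw [h2]
      norm_num
    rwa [Real.rpow_one] at h1) (le_refl _)
  rw [hsum]
  refine hfin.trans ?_
  apply mul_le_mul_of_nonneg_right _ (sq_nonneg X)
  have h1 : lam ^ r * M0 + K * (2 / c) ≤ Real.sqrt ε := by linarith
  calc (lam ^ r * M0 + K * (2 / c)) ^ 2 ≤ (Real.sqrt ε) ^ 2 := by
        apply pow_le_pow_left₀ (by positivity) h1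
    _ = ε := Real.sq_sqrt hε.le

end Pool.Agent.LPr
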