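import Pool.Agent.Lib_MP_f1a94e_lp.ApxA
import Pool.Agent.Lib_MP_f1a94e_eq.RedB

/-!
# Piece GMX: the correlations on average, for families
-/

set_option autoImplicit false

namespace Pool.Agent.LPr

open Finset Pool.Agent.GaussMR Pool.Agent.OmAll Pool.Agent.OmEq MeasureTheory Filter

/-- PROOF. `apxN_abs` (ApxA.lean): `‖Gm f ... - Cg2 f f ... (WN h J N n)‖ ≤ ∑_(EN n (b X)) ‖wN - WN‖` for every `f` bounded by 1, and this is `o(X)`. -/
theorem gm_cg (f : ℝ → ℕ → ℂ) (hf : ∀ X n, ‖f X n‖ ≤ 1) (h : ℝ → ℝ) (h1 h2 : ℝ) (hh : HF h h1 h2) (J N n : ℕ)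
    (hJ : 1 ≤ J) (hN : 1 ≤ N) (hn : 1 ≤ n) (b : ℝ) (hb : 0 < b) :
    Tendsto (fun X : ℝ => (Gm (f X) h J N n (b * X) X - Cg2 (f X) (f X) n (b * X) (WN h J N n) X) / X)
      atTop (nhds 0) := by
  classical
  refine squeeze_zero_norm' ?_ (apxN_abs h h1 h2 hh J N n hJ hN hn b hb)
  filter_upwards [eventually_gt_atTop (0 : ℝ)] with X hX
  rw [norm_div, Complex.norm_real, Real.norm_eq_abs, abs_of_pos hX]
  refine div_le_div_of_nonneg_right ?_ hX.le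
  unfold Gm Cg2
  rw [← sum_sub_distrib]
  refine (norm_sum_le _ _).trans ?_
  refine (sum_le_sum (g := fun e => ‖((wN h J N n X e : ℝ) : ℂ) - WN h J N n (mE e / X) (tE e)‖)
    fun e _ => ?_).trans ?_
  · rw [← mul_sub, norm_mul, norm_mul, RCLike.norm_conj]
    have h4 : ‖f X (nm e.1)‖ * ‖f X (nm e.2)‖ ≤ 1 :=
      mul_le_one₀ (hf X (nm e.1)) (norm_nonneg _) (hf X (nm e.2))
    calc ‖f X (nm e.1)‖ * ‖f X (nm e.2)‖ * _ ≤ 1 * _ := mul_le_mul_of_nonneg_right h4 (norm_nonneg _)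
      _ ≤ _ := by rw [one_mul]
  · exact sum_le_sum_of_subset_of_nonneg (filter_subset _ _) fun e _ _ => norm_nonneg _

/-- PROOF. As `gm_small_of_ne` (GmA.lean): `N0 = J0 = 1`, `gm_cg` for the family `fun X => f (a * X)` and `GAX` for `WN h J N n` (`WN_tf`); finite sum over `n`. -/
theorem gmA_X (f : ℝ → ℕ → ℂ) (hf : ∀ X n, ‖f X n‖ ≤ 1) (hG : GAX f) : GmSmallX f := by
  classical
  intro h' h1 h2 hh ε hε
  refine ⟨1, fun N hN => ⟨1, fun J hJ a ha => ?_⟩⟩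
  set b : ℝ := ((J : ℝ) + N) ^ 2 * h2 + 1 with hb
  have h2one : (1 : ℝ) ≤ h2 := hh.one
  have hb0 : 0 < b := by
    have : 0 ≤ ((J : ℝ) + N) ^ 2 * h2 := by positivity
    linarith
  have hlim : ∀ n ∈ Icc 1 N, Tendsto (fun X : ℝ => Gm (f (a * X)) h' J N n (b * X) X / X) atTop (nhds 0) := by
    intro n hn
    have hn1 : 1 ≤ n := (mem_Icc.mp hn).1
    have e1 := gm_cg (fun X => f (a * X)) (fun X n => hf (a * X) n) h' h1 h2 hh J N n hJ hN hn1 b hb0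
    have e2 := hG n hn1 b (WN h' J N n) (WN_tf h' h1 h2 hh J N n hJ hN hn1 b (by linarith)) a ha
    have e3 := e1.add e2
    rw [add_zero] at e3
    refine e3.congr (fun X => ?_)
    ring
  have hsum := tendsto_finsetSum (Icc 1 N) hlim
  rw [Finset.sum_const_zero] at hsum
  have hev := (Metric.tendsto_nhds.mp hsum) ε hε
  filter_upwards [hev, eventually_gt_atTop (0 : ℝ)] with X hX hX0
  rw [dist_zero_right, ← Finset.sum_div, norm_div, Complex.norm_real, Real.norm_eq_abs, abs_of_pos hX0,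
    div_lt_iff₀ hX0] at hX
  have hN1 : (1 : ℝ) ≤ N := by exact_mod_cast hN
  have hN2 : (1 : ℝ) ≤ (N : ℝ) ^ 2 := one_le_pow₀ hN1
  calc ‖∑ n ∈ Icc 1 N, Gm (f (a * X)) h' J N n (b * X) X‖ ≤ ε * X := hX.le
    _ ≤ ε * N ^ 2 * X := by
      have : ε * 1 * X ≤ ε * (N : ℝ) ^ 2 * X := by gcongr
      linarith

/-- one determinant: the limit statement -/
private theorem gmx_one (f : ℝ → ℕ → ℂ) (hf : ∀ X n, ‖f X n‖ ≤ 1) (hG : GBX f) (hT : TVX f) (a : ℝ) (ha : 0 < a)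
    (h' : ℝ → ℝ) (h1 h2 : ℝ) (hh : HF h' h1 h2) (J N n : ℕ) (hJ : 1 ≤ J) (hN : 1 ≤ N) (hn : 1 ≤ n) (b : ℝ)
    (hb : ((J : ℝ) + N) ^ 2 * h2 ≤ b) (hb0 : 0 < b) :
    Tendsto (fun X : ℝ => (Gm (f (a * X)) h' J N n (b * X) X - ((kap n / n.totient : ℝ) : ℂ) *
      Qs (f (a * X)) n (b * X) (fun y t => (∫ s, WN h' J N n y s) * ((ps0 t : ℝ) : ℂ)) X) / X) atTop (nhds 0) := by
  have hTF := WN_tf h' h1 h2 hh J N n hJ hN hn b hb
  have e1 := gm_cg (fun X => f (a * X)) (fun X n => hf (a * X) n) h' h1 h2 hh J N n hJ hN hn b hb0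
  have e2 := hG n hn b (WN h' J N n) hTF a ha
  have e3 := (hT n hn b _ (redb_tf hTF) (redb_zero hTF) a ha).const_mul ((kap n / n.totient : ℝ) : ℂ)
  rw [mul_zero] at e3
  have e4 := (e1.add e2).add e3
  rw [add_zero, add_zero] at e4
  refine e4.congr (fun X => ?_)
  have e5 : Qs (f (a * X)) n (b * X) (fun y t => WN h' J N n y t - (∫ s, WN h' J N n y s) * ((ps0 t : ℝ) : ℂ)) X =
      Qs (f (a * X)) n (b * X) (WN h' J N n) X -
        Qs (f (a * X)) n (b * X) (fun y t => (∫ s, WN h' J N n y s) * ((ps0 t : ℝ) : ℂ)) X := by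
    unfold Qs
    rw [← Finset.sum_sub_distrib]
    refine Finset.sum_congr rfl (fun e _ => ?_)
    ring
  rw [e5]
  ring

/-- PROOF. As `redB` (RedB.lean; `redb_scale`, `redb_cmp` and all facts on `ps0`, `redb_tf`, `redb_zero` can be used as they are, they hold for every single `f`): in `redb_one` replace `apxN` by `gm_cg`, `gramB` by `GBX`,
`tvfB` by `TVX`, all for the family `fun X => f (a * X)`. In the final step `Y = J^2 X`: `QSmallX` is used with `a / J^2` (`a / J^2 * (J^2 * X) = a * X`). -/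
theorem redB_X (f : ℝ → ℕ → ℂ) (hf : ∀ X n, ‖f X n‖ ≤ 1) (hG : GBX f) (hT : TVX f) (hQ : QSmallX f) : GmSmallX f := by
  classical
  intro h' h1 h2 hh ε hε
  have h2one : (1 : ℝ) ≤ h2 := hh.one
  have h2pos : 0 < h2 := by linarith
  obtain ⟨C, hC, hcnt⟩ := cnt 1
  obtain ⟨N0, hN0⟩ := hQ h' h1 h2 hh (ε / 4) (by positivity)
  refine ⟨max N0 1, fun N hN => ?_⟩
  have hN1 : 1 ≤ N := le_trans (le_max_right _ _) hN
  have hNN0 : N0 ≤ N := le_trans (le_max_left _ _) hN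
  have hNr : (1 : ℝ) ≤ N := by exact_mod_cast hN1
  have hNpos : (0 : ℝ) < N := by linarith
  set η : ℝ := ε / (40 * C * h2 * N) with hη
  have hηpos : 0 < η := by positivity
  obtain ⟨J0, hJ01, hcn⟩ := cnB h' h1 h2 hh N hN1 η hηpos
  refine ⟨max J0 N, fun J hJ a ha => ?_⟩
  have hJ0 : J0 ≤ J := le_trans (le_max_left _ _) hJ
  have hJN : N ≤ J := le_trans (le_max_right _ _) hJ
  have hJ1 : 1 ≤ J := le_trans hN1 hJN
  have hJNr : (N : ℝ) ≤ J := by exact_mod_cast hJN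
  have hJr : (1 : ℝ) ≤ J := by linarith
  have hJpos : (0 : ℝ) < J := by linarith
  set b : ℝ := ((J : ℝ) + N) ^ 2 * h2 + 1 with hb
  have hbpos : 0 < b := by positivity
  have hb5 : b ≤ 5 * (J : ℝ) ^ 2 * h2 := by
    have e1 : ((J : ℝ) + N) ^ 2 ≤ 4 * (J : ℝ) ^ 2 := by nlinarith
    have e2 : (1 : ℝ) ≤ (J : ℝ) ^ 2 * h2 := by nlinarith
    nlinarith
  have hbJ : (J : ℝ) ^ 2 * h2 ≤ b := by
    have e1 : (J : ℝ) ^ 2 ≤ ((J : ℝ) + N) ^ 2 := by nlinarith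
    nlinarith
  -- the limit part
  have hlim : Tendsto (fun X : ℝ => ∑ n ∈ Icc 1 N, (Gm (f (a * X)) h' J N n (b * X) X -
      ((kap n / n.totient : ℝ) : ℂ) *
      Qs (f (a * X)) n (b * X) (fun y t => (∫ s, WN h' J N n y s) * ((ps0 t : ℝ) : ℂ)) X) / X)
      atTop (nhds 0) := by
    have := tendsto_finsetSum (Icc 1 N) (fun n hn => gmx_one f hf hG hT a ha h' h1 h2 hh J N n hJ1 hN1
      (mem_Icc.mp hn).1 b (by linarith) hbpos)
    rw [Finset.sum_const_zero] at this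
    exact this
  have hev := (Metric.tendsto_nhds.mp hlim) (ε / 4) (by positivity)
  have hQev := (tendsto_id.const_mul_atTop (r := (J : ℝ) ^ 2) (by positivity)).eventually
    (hN0 N hNN0 (a / (J : ℝ) ^ 2) (by positivity))
  filter_upwards [hev, hQev, eventually_gt_atTop (0 : ℝ), eventually_ge_atTop (N : ℝ)] with X hX hXQ hX0 hXN
  rw [dist_zero_right, ← Finset.sum_div, norm_div, Complex.norm_real, Real.norm_eq_abs, abs_of_pos hX0,
    div_lt_iff₀ hX0] at hX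
  have hfa : a / (J : ℝ) ^ 2 * ((J : ℝ) ^ 2 * X) = a * X := by
    field_simp
  simp only [id] at hXQ
  rw [hfa] at hXQ
  set Y : ℝ := (J : ℝ) ^ 2 * X with hY
  obtain ⟨F, hF⟩ : ∃ F : ℕ → ℂ, F = f (a * X) := ⟨_, rfl⟩
  have hFb : ∀ n, ‖F n‖ ≤ 1 := by
    intro n
    rw [hF]
    exact hf (a * X) n
  rw [← hF] at hX hXQ ⊢
  -- notation
  set q : ℕ → ℂ := fun n => Qs F n (h2 * Y) (fun y t => ((h' y ^ 2 * ps0 t : ℝ) : ℂ)) Y with hq
  set c : ℕ → ℂ := fun n => Qs F n (b * X) (fun y t => (∫ s, WN h' J N n y s) * ((ps0 t : ℝ) : ℂ)) X with hc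
  set d : ℕ → ℂ := fun n => Qs F n (b * X) (fun y t =>
    (((2 * n * N / (J : ℝ) ^ 2 * h' (y / (J : ℝ) ^ 2) ^ 2 * ww ((n : ℝ) / N) : ℝ)) : ℂ) * ((ps0 t : ℝ) : ℂ)) X with hd
  have hdq : ∀ n ∈ Icc 1 N, d n = ((2 * n * N / (J : ℝ) ^ 2 * ww ((n : ℝ) / N) : ℝ) : ℂ) * q n := by
    intro n hn
    have hn1 := (mem_Icc.mp hn).1
    have e1 := redb_scale F h' h1 h2 hh n hn1 (2 * n * N / (J : ℝ) ^ 2 * ww ((n : ℝ) / N)) b X J hJ1 hX0 hbJ
    rw [hq]
    simp only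
    rw [hY, ← e1, hd]
    simp only
    congr 1
    funext y t
    congr 2
    ring
  have hcd : ∀ n ∈ Icc 1 N, ‖c n - d n‖ ≤ 5 * η * n * N * C * h2 * X := by
    intro n hn
    obtain ⟨hn1, hn2⟩ := mem_Icc.mp hn
    have hnr : (1 : ℝ) ≤ n := by exact_mod_cast hn1
    have hnN : (n : ℝ) ≤ N := by exact_mod_cast hn2
    have hbX : (n : ℝ) ≤ b * X := by
      have : (1 : ℝ) ≤ b := by
        have : 0 ≤ ((J : ℝ) + N) ^ 2 * h2 := by positivity
        linarith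
      nlinarith
    have e1 := redb_cmp F hFb C hcnt n hn1 (fun y => ∫ s, WN h' J N n y s)
      (fun y => (((2 * n * N / (J : ℝ) ^ 2 * h' (y / (J : ℝ) ^ 2) ^ 2 * ww ((n : ℝ) / N) : ℝ)) : ℂ))
      (η * (n * N / (J : ℝ) ^ 2)) (by positivity) (fun y => hcn J hJ0 n hn1 hn2 y) (b * X) X hbX
    refine e1.trans ?_
    calc η * (n * N / (J : ℝ) ^ 2) * (C * (b * X)) ≤ η * (n * N / (J : ℝ) ^ 2) * (C * ((5 * (J : ℝ) ^ 2 * h2) * X)) := by
          gcongr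
      _ = 5 * η * n * N * C * h2 * X := by
          field_simp
  -- the decomposition
  have hdec : ∑ n ∈ Icc 1 N, Gm F h' J N n (b * X) X =
      ∑ n ∈ Icc 1 N, (Gm F h' J N n (b * X) X - ((kap n / n.totient : ℝ) : ℂ) * c n) +
      ∑ n ∈ Icc 1 N, ((kap n / n.totient : ℝ) : ℂ) * (c n - d n) +
      ((2 * N / (J : ℝ) ^ 2 : ℝ) : ℂ) *
        ∑ n ∈ Icc 1 N, ((kap n * (n / n.totient) * ww ((n : ℝ) / N) : ℝ) : ℂ) * q n := by
    rw [Finset.mul_sum, ← Finset.sum_add_distrib, ← Finset.sum_add_distrib]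
    refine Finset.sum_congr rfl (fun n hn => ?_)
    rw [hdq n hn]
    push_cast
    ring
  have hp1 : ‖∑ n ∈ Icc 1 N, (Gm F h' J N n (b * X) X - ((kap n / n.totient : ℝ) : ℂ) * c n)‖ ≤
      ε / 4 * N ^ 2 * X := by
    refine hX.le.trans ?_
    have : (1 : ℝ) ≤ (N : ℝ) ^ 2 := one_le_pow₀ hNr
    have h3 : ε / 4 * X * 1 ≤ ε / 4 * X * (N : ℝ) ^ 2 := mul_le_mul_of_nonneg_left this (by positivity)
    linarith
  have hp2 : ‖∑ n ∈ Icc 1 N, ((kap n / n.totient : ℝ) : ℂ) * (c n - d n)‖ ≤ ε / 4 * N ^ 2 * X := by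
    calc ‖∑ n ∈ Icc 1 N, ((kap n / n.totient : ℝ) : ℂ) * (c n - d n)‖
        ≤ ∑ n ∈ Icc 1 N, (2 * (5 * η * N * N * C * h2 * X)) := by
          refine norm_sum_le_of_le _ (fun n hn => ?_)
          obtain ⟨hn1, hn2⟩ := mem_Icc.mp hn
          have hnN : (n : ℝ) ≤ N := by exact_mod_cast hn2
          have hφ : (1 : ℝ) ≤ n.totient := by exact_mod_cast Nat.totient_pos.mpr hn1
          have k1 : 0 ≤ kap n ∧ kap n ≤ 2 := by
            unfold kap
            split_ifs <;> norm_num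
          have k2 : kap n / n.totient ≤ 2 := by
            rw [div_le_iff₀ (by linarith)]
            nlinarith
          rw [norm_mul, Complex.norm_real, Real.norm_eq_abs, abs_of_nonneg (div_nonneg k1.1 (by linarith))]
          refine mul_le_mul k2 ((hcd n hn).trans ?_) (norm_nonneg _) (by norm_num)
          gcongr
      _ = N * (2 * (5 * η * N * N * C * h2 * X)) := by
          rw [Finset.sum_const, nsmul_eq_mul, Nat.card_Icc, Nat.add_sub_cancel]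
      _ = ε / 4 * N ^ 2 * X := by
          rw [hη]
          field_simp
          ring
  have hp3 : ‖((2 * N / (J : ℝ) ^ 2 : ℝ) : ℂ) *
        ∑ n ∈ Icc 1 N, ((kap n * (n / n.totient) * ww ((n : ℝ) / N) : ℝ) : ℂ) * q n‖ ≤ ε / 2 * N ^ 2 * X := by
    rw [norm_mul, Complex.norm_real, Real.norm_eq_abs, abs_of_nonneg (by positivity)]
    calc (2 * N / (J : ℝ) ^ 2) * ‖∑ n ∈ Icc 1 N, ((kap n * (n / n.totient) * ww ((n : ℝ) / N) : ℝ) : ℂ) * q n‖
        ≤ (2 * N / (J : ℝ) ^ 2) * (ε / 4 * N * Y) := mul_le_mul_of_nonneg_left hXQ (by positivity)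
      _ = ε / 2 * N ^ 2 * X := by
          rw [hY]
          field_simp
          ring
  rw [hdec]
  refine (norm_add_le _ _).trans ?_
  have := norm_add_le (∑ n ∈ Icc 1 N, (Gm F h' J N n (b * X) X - ((kap n / n.totient : ℝ) : ℂ) * c n))
    (∑ n ∈ Icc 1 N, ((kap n / n.totient : ℝ) : ℂ) * (c n - d n))
  linarith

end Pool.Agent.LPr
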