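import Pool.Agent.Lib_MP_f1a94e_lp.PairT
import Pool.Agent.Lib_MP_f1a94e_eq.GramB

/-!
# Piece GRAMT: correlations of pairs congruent modulo the determinant, for two families
-/

set_option autoImplicit false

namespace Pool.Agent.LPr

open Finset Pool.Agent.GaussMR Pool.Agent.OmAll Pool.Agent.OmEq MeasureTheory Filter

/-- as `gramb_lim` (GramB.lean), for two families -/
theorem gramt_lim (n : ℕ) [NeZero n] (f1 f2 : ℝ → ℕ → ℂ) (E : Finset ℕ) (ω : ℂ) (h1 : FX f1 E ω) (h2 : FX f2 E ω)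
    (hω : ‖ω‖ = 1) (b : ℝ) (W : ℝ → ℝ → ℂ) (hW : TF b W) (G : ZMod n → ℂ)
    (h0 : ω ^ 2 ≠ 1 ∨ ∀ χ : DirichletCharacter ℂ n, grambCo n G χ = 0 ∨
      (∃ a : ℕ, a % 4 = 1 ∧ a.Coprime n ∧ χ ((a : ZMod n)) ≠ 1) ∨ ∀ y, (∫ t, W y t) = 0) :
    Tendsto (fun X : ℝ => (∑ e ∈ EN n (b * X),
      f1 X (nm e.1) * (starRingEnd ℂ) (f2 X (nm e.2)) * G (cl n e) * W (mE e / X) (tE e)) / X) atTop (nhds 0) := by
  classical
  have hn : 0 < n := NeZero.pos n
  have h4 : ∀ χ : DirichletCharacter ℂ n, Tendsto (fun X : ℝ => grambCo n G χ * ((∑ e ∈ EN n (b * X),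
      f1 X (nm e.1) * (starRingEnd ℂ) (f2 X (nm e.2)) * χ (cl n e) * W (mE e / X) (tE e)) / X)) atTop (nhds 0) := by
    intro χ
    have hω' : ‖(starRingEnd ℂ) ω‖ = 1 := by rw [RCLike.norm_conj, hω]
    have key : (ω * (starRingEnd ℂ) ((starRingEnd ℂ) ω) ≠ 1 ∨
        (∃ a : ℕ, a % 4 = 1 ∧ a.Coprime n ∧ χ ((a : ZMod n)) ≠ 1) ∨ ∀ y, (∫ t, W y t) = 0) ∨
        grambCo n G χ = 0 := by
      rcases h0 with h0 | h0
      · left
        left
        rw [Complex.conj_conj, ← sq]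
        exact h0
      · rcases h0 χ with h5 | h5
        · exact Or.inr h5
        · exact Or.inl (Or.inr h5)
    rcases key with key | key
    · have h5 := (pair_limT n χ E f1 (fun X m => (starRingEnd ℂ) (f2 X m)) ω ((starRingEnd ℂ) ω) h1 h2.conj hω hω'
        b W hW key).const_mul (grambCo n G χ)
      rw [mul_zero] at h5
      exact h5
    · rw [key]
      simp only [zero_mul]
      exact tendsto_const_nhds
  have h5 := tendsto_finsetSum (univ : Finset (DirichletCharacter ℂ n)) (fun χ _ => h4 χ)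
  rw [Finset.sum_const_zero] at h5
  refine h5.congr (fun X => ?_)
  have h3 : ∀ e ∈ EN n (b * X), f1 X (nm e.1) * (starRingEnd ℂ) (f2 X (nm e.2)) * G (cl n e) * W (mE e / X) (tE e) =
      ∑ χ : DirichletCharacter ℂ n, grambCo n G χ *
        (f1 X (nm e.1) * (starRingEnd ℂ) (f2 X (nm e.2)) * χ (cl n e) * W (mE e / X) (tE e)) := by
    intro e he
    rw [gramb_fourier n G (cl n e) (cl_unit ((mem_EN hn).mp he).1), Finset.mul_sum, Finset.sum_mul]
    refine Finset.sum_congr rfl (fun χ _ => ?_)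
    ring
  rw [Finset.sum_congr rfl h3, Finset.sum_comm, Finset.sum_div]
  refine Finset.sum_congr rfl (fun χ _ => ?_)
  rw [← Finset.mul_sum, mul_div_assoc]

/-- as `gram`, `ω ^ 2 ≠ 1` -/
theorem gramAT (n : ℕ) (hn : 0 < n) (f1 f2 : ℝ → ℕ → ℂ) (E : Finset ℕ) (ω : ℂ) (h1 : FX f1 E ω) (h2 : FX f2 E ω)
    (hω : ‖ω‖ = 1) (hω2 : ω ^ 2 ≠ 1) (b : ℝ) (W : ℝ → ℝ → ℂ) (hW : TF b W) :
    Tendsto (fun X : ℝ => Cg2 (f1 X) (f2 X) n (b * X) W X / X) atTop (nhds 0) := by
  classical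
  have : NeZero n := ⟨hn.ne'⟩
  refine (gramt_lim n f1 f2 E ω h1 h2 hω b W hW (fun c => if c = 1 then 1 else 0) (Or.inl hω2)).congr (fun X => ?_)
  congr 1
  unfold Cg2
  rw [Finset.sum_filter]
  refine Finset.sum_congr rfl (fun e he => ?_)
  have k1 : cl n e = 1 ↔ cg n e.2 e.1 := cl_one ((mem_EN hn).mp he).1
  by_cases c1 : cl n e = 1
  · rw [if_pos c1, if_pos (k1.1 c1), mul_one]
  · rw [if_neg c1, if_neg (fun h => c1 (k1.2 h)), mul_zero, zero_mul]

/-- the expansion of `gramB` in characters -/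
theorem gramt_co (n : ℕ) [NeZero n] (W : ℝ → ℝ → ℂ) (χ : DirichletCharacter ℂ n) :
    by classical exact grambCo n (fun c => (if c = 1 then 1 else 0) -
      ((kap n / n.totient : ℝ) : ℂ) * (if GrambH n c then 1 else 0)) χ = 0 ∨
      (∃ a : ℕ, a % 4 = 1 ∧ a.Coprime n ∧ χ ((a : ZMod n)) ≠ 1) ∨ ∀ y, (∫ t, W y t) = 0 := by
  classical
  have hn : 0 < n := NeZero.pos n
  have hφ : (n.totient : ℝ) ≠ 0 := by
    have := (Nat.totient_pos.mpr hn).ne'
    exact_mod_cast this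
  by_cases hex : ∃ a : ℕ, a % 4 = 1 ∧ a.Coprime n ∧ χ ((a : ZMod n)) ≠ 1
  · exact Or.inr (Or.inl hex)
  · left
    push Not at hex
    unfold grambCo
    have h1 : ∑ u ∈ univ.filter (fun u : ZMod n => IsUnit u), ((if u = 1 then 1 else 0) -
        ((kap n / n.totient : ℝ) : ℂ) * (if GrambH n u then 1 else 0)) * χ u⁻¹ = 0 := by
      have e1 : ∀ u ∈ univ.filter (fun u : ZMod n => IsUnit u), ((if u = 1 then 1 else 0) -
          ((kap n / n.totient : ℝ) : ℂ) * (if GrambH n u then 1 else 0)) * χ u⁻¹ =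
          (if u = 1 then 1 else 0) - (if GrambH n u then ((kap n / n.totient : ℝ) : ℂ) else 0) := by
        intro u hu
        have hu' := (mem_filter.mp hu).2
        rw [sub_mul]
        congr 1
        · by_cases h1 : u = 1
          · have h3 := ZMod.inv_mul_of_unit (1 : ZMod n) isUnit_one
            rw [mul_one] at h3
            rw [if_pos h1, h1, h3, map_one, mul_one]
          · rw [if_neg h1, zero_mul]
        · by_cases h1 : GrambH n u
          · rw [if_pos h1, if_pos h1, mul_one]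
            obtain ⟨a, ha4, hac, hau⟩ := gramb_rep n u hu' h1
            have h2 := hex a ha4 hac
            rw [hau] at h2
            have h3 : u⁻¹ * u = 1 := ZMod.inv_mul_of_unit u hu'
            have h4 : χ u⁻¹ * χ u = 1 := by rw [← map_mul, h3, map_one]
            rw [h2, mul_one] at h4
            rw [h4, mul_one]
          · rw [if_neg h1, if_neg h1, mul_zero, zero_mul]
      rw [Finset.sum_congr rfl e1, Finset.sum_sub_distrib, Finset.sum_ite_eq',
        if_pos (mem_filter.mpr ⟨mem_univ _, isUnit_one⟩), ← Finset.sum_filter, Finset.filter_filter,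
        Finset.sum_const, nsmul_eq_mul]
      have h5 := gramb_card n
      have h6 : ((univ.filter (fun u : ZMod n => IsUnit u ∧ GrambH n u)).card : ℝ) *
          (kap n / n.totient) = 1 := by
        rw [← mul_div_assoc, mul_comm, h5, div_self hφ]
      have h7 : (((univ.filter (fun u : ZMod n => IsUnit u ∧ GrambH n u)).card : ℝ) : ℂ) *
          ((kap n / n.totient : ℝ) : ℂ) = 1 := by
        rw [← Complex.ofReal_mul, h6, Complex.ofReal_one]
      rw [Complex.ofReal_natCast] at h7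
      rw [h7, sub_self]
    rw [h1, mul_zero]

/-- as `gramB` -/
theorem gramBT (n : ℕ) (hn : 0 < n) (f1 f2 : ℝ → ℕ → ℂ) (E : Finset ℕ) (ω : ℂ) (h1 : FX f1 E ω) (h2 : FX f2 E ω)
    (hω : ‖ω‖ = 1) (b : ℝ) (W : ℝ → ℝ → ℂ) (hW : TF b W) :
    Tendsto (fun X : ℝ => (Cg2 (f1 X) (f2 X) n (b * X) W X -
      ((kap n / n.totient : ℝ) : ℂ) * Qs2 (f1 X) (f2 X) n (b * X) W X) / X) atTop (nhds 0) := by
  classical
  have : NeZero n := ⟨hn.ne'⟩
  refine (gramt_lim n f1 f2 E ω h1 h2 hω b W hW _ (Or.inr fun χ => gramt_co n W χ)).congr (fun X => ?_)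
  congr 1
  unfold Qs2 Cg2
  rw [Finset.mul_sum, Finset.sum_filter, Finset.sum_filter, ← Finset.sum_sub_distrib]
  refine Finset.sum_congr rfl (fun e he => ?_)
  have he' := ((mem_EN hn).mp he).1
  have k1 : cg n e.2 e.1 ↔ cl n e = 1 := (cl_one he').symm
  have k2 := gramb_hc he'
  simp only [k1, k2]
  by_cases c1 : cl n e = 1
  · by_cases c2 : GrambH n (cl n e)
    · simp only [c1, if_true] at c2 ⊢
      simp only [c2, if_true]
      ring
    · simp only [c1, if_true] at c2 ⊢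
      simp only [c2, if_false]
      ring
  · by_cases c2 : GrambH n (cl n e)
    · simp only [c1, if_false, c2, if_true]
      ring
    · simp only [c1, if_false, c2]
      ring

/-- as `tvfB` -/
theorem tvfBT (n : ℕ) (hn : 0 < n) (f1 f2 : ℝ → ℕ → ℂ) (E : Finset ℕ) (ω : ℂ) (h1 : FX f1 E ω) (h2 : FX f2 E ω)
    (hω : ‖ω‖ = 1) (b : ℝ) (W : ℝ → ℝ → ℂ) (hW : TF b W) (h0 : ∀ y, (∫ t, W y t) = 0) :
    Tendsto (fun X : ℝ => Qs2 (f1 X) (f2 X) n (b * X) W X / X) atTop (nhds 0) := by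
  classical
  have : NeZero n := ⟨hn.ne'⟩
  refine (gramt_lim n f1 f2 E ω h1 h2 hω b W hW (fun c => if GrambH n c then 1 else 0)
    (Or.inr fun χ => Or.inr (Or.inr h0))).congr (fun X => ?_)
  congr 1
  unfold Qs2
  rw [Finset.sum_filter]
  refine Finset.sum_congr rfl (fun e he => ?_)
  have k2 := gramb_hc ((mem_EN hn).mp he).1
  by_cases c2 : GrambH n (cl n e)
  · rw [if_pos c2, if_pos (k2.mpr c2), mul_one]
  · rw [if_neg c2, if_neg (fun hh => c2 (k2.mp hh)), mul_zero, zero_mul]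

end Pool.Agent.LPr
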