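import Pool.Agent.Lib_MP_f1a94e_lp.VDefs

/-!
# Piece GXID: `gx` in terms of tuples of primes
-/

set_option autoImplicit false

namespace Pool.Agent.LPr

open Finset Filter

/-- the large primes of `n` -/
private noncomputable def LQ (X δ : ℝ) (n : ℕ) : Finset ℕ :=
  open Classical in n.primeFactors.filter (fun p => X ^ δ < (p : ℝ))

private theorem mem_LQ {X δ : ℝ} {n p : ℕ} (hn : n ≠ 0) :
    p ∈ LQ X δ n ↔ p.Prime ∧ p ∣ n ∧ X ^ δ < (p : ℝ) := by
  classical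
  unfold LQ
  rw [mem_filter, Nat.mem_primeFactors]
  tauto

private theorem card_LQ {X δ : ℝ} (hX : 2 ≤ X) {n : ℕ} (hn : n ≠ 0) (hnX : (n : ℝ) ≤ X ^ 2) :
    δ * ((LQ X δ n).card : ℝ) ≤ 2 := by
  classical
  have hX0 : (0 : ℝ) ≤ X := by linarith
  have hX1 : (1 : ℝ) < X := by linarith
  have h1 : (∏ p ∈ LQ X δ n, p) ∣ n :=
    (Finset.prod_dvd_prod_of_subset _ _ _ (filter_subset _ _)).trans (Nat.prod_primeFactors_dvd n)
  have h2 : ((∏ p ∈ LQ X δ n, p : ℕ) : ℝ) ≤ X ^ 2 := by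
    refine le_trans ?_ hnX
    exact_mod_cast Nat.le_of_dvd (Nat.pos_of_ne_zero hn) h1
  have h3 : (X ^ δ) ^ (LQ X δ n).card ≤ ((∏ p ∈ LQ X δ n, p : ℕ) : ℝ) := by
    rw [Nat.cast_prod, ← Finset.prod_const]
    refine Finset.prod_le_prod (fun p _ => Real.rpow_nonneg hX0 δ) (fun p hp => ?_)
    exact ((mem_LQ hn).1 hp).2.2.le
  have h4 : X ^ (δ * ((LQ X δ n).card : ℝ)) ≤ X ^ (2 : ℝ) := by
    rw [Real.rpow_mul hX0, Real.rpow_natCast, Real.rpow_two]
    exact h3.trans h2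
  exact (Real.rpow_le_rpow_left_iff hX1).1 h4

private theorem div_ok {X : ℝ} {n p : ℕ} (hn : n ≠ 0) (hnX : (n : ℝ) ≤ X ^ 2) (hp : p ∣ n) :
    n / p ≠ 0 ∧ ((n / p : ℕ) : ℝ) ≤ X ^ 2 := by
  constructor
  · exact (Nat.div_pos (Nat.le_of_dvd (Nat.pos_of_ne_zero hn) hp) (Nat.pos_of_dvd_of_pos hp (Nat.pos_of_ne_zero hn))).ne'
  · refine le_trans ?_ hnX
    exact_mod_cast Nat.div_le_self n p

/-- bound for the number of tuples of large primes with product dividing `n` -/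
theorem tw_bd (δ : ℝ) (hδ : 0 < δ) (l : List (ℝ × ℝ)) (hl : ∀ w ∈ l, δ ≤ w.1) :
    ∃ B : ℝ, 0 ≤ B ∧ ∀ X : ℝ, 2 ≤ X → ∀ n : ℕ, n ≠ 0 → (n : ℝ) ≤ X ^ 2 → 0 ≤ TW X l n ∧ TW X l n ≤ B := by
  induction l with
  | nil => exact ⟨1, zero_le_one, fun X _ n _ _ => by simp [TW]⟩
  | cons w l ih =>
    obtain ⟨B, hB, h⟩ := ih (fun w' hw' => hl w' (List.mem_cons_of_mem _ hw'))
    refine ⟨2 / δ * B, by positivity, fun X hX n hn hnX => ?_⟩
    have hX0 : (0 : ℝ) ≤ X := by linarith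
    have key : ∀ p ∈ (PW X w.1 w.2).filter (fun p => p ∣ n), 0 ≤ TW X l (n / p) ∧ TW X l (n / p) ≤ B := by
      intro p hp
      have hd := div_ok hn hnX (mem_filter.1 hp).2
      exact h X hX _ hd.1 hd.2
    have hsub : (PW X w.1 w.2).filter (fun p => p ∣ n) ⊆ LQ X δ n := by
      intro p hp
      obtain ⟨hp1, hp2⟩ := mem_filter.1 hp
      obtain ⟨h1, h2, -⟩ := (mem_PW hX0).1 hp1
      refine (mem_LQ hn).2 ⟨h1, hp2, lt_of_le_of_lt ?_ h2⟩
      exact Real.rpow_le_rpow_of_exponent_le (by linarith) (hl w (List.mem_cons_self))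
    have hcard : ((((PW X w.1 w.2).filter (fun p => p ∣ n)).card : ℕ) : ℝ) ≤ 2 / δ := by
      rw [le_div_iff₀ hδ, mul_comm]
      refine le_trans ?_ (card_LQ (δ := δ) hX hn hnX)
      gcongr
    rw [TW]
    refine ⟨Finset.sum_nonneg (fun p hp => (key p hp).1), ?_⟩
    calc ∑ p ∈ (PW X w.1 w.2).filter (fun p => p ∣ n), TW X l (n / p)
        ≤ ((PW X w.1 w.2).filter (fun p => p ∣ n)).card • B := Finset.sum_le_card_nsmul _ _ _ (fun p hp => (key p hp).2)
      _ = (((PW X w.1 w.2).filter (fun p => p ∣ n)).card : ℝ) * B := by rw [nsmul_eq_mul]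
      _ ≤ 2 / δ * B := by gcongr

private theorem expd_sum {r : ℕ} (c : Fin r → ℂ) (u v : Fin r → ℝ) (s : Finset ℕ) (j : ℕ) :
    ∀ Λ : ℕ → List (ℝ × ℝ) → ℂ, expd c u v j (fun l => ∑ p ∈ s, Λ p l) = ∑ p ∈ s, expd c u v j (Λ p) := by
  induction j with
  | zero => intro Λ; simp [expd]
  | succ j ih =>
    intro Λ
    simp only [expd]
    rw [Finset.sum_comm]
    refine Finset.sum_congr rfl (fun i _ => ?_)
    rw [ih (fun p l => Λ p ((u i, v i) :: l)), Finset.mul_sum]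

private theorem esum (y : ℕ → ℂ) (L : Finset ℕ) (j : ℕ) :
    ∑ p ∈ L, y p * ∑ S ∈ powersetCard j (L.erase p), ∏ q ∈ S, y q
      = ((j : ℂ) + 1) * ∑ S ∈ powersetCard (j + 1) L, ∏ q ∈ S, y q := by
  have h1 : ((j : ℂ) + 1) * ∑ S ∈ powersetCard (j + 1) L, ∏ q ∈ S, y q
      = ∑ S ∈ powersetCard (j + 1) L, ∑ p ∈ S, ∏ q ∈ S, y q := by
    rw [Finset.mul_sum]
    refine Finset.sum_congr rfl (fun S hS => ?_)
    rw [Finset.sum_const, (mem_powersetCard.1 hS).2, nsmul_eq_mul]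
    push_cast
    ring
  rw [h1]
  simp only [Finset.mul_sum]
  rw [Finset.sum_sigma', Finset.sum_sigma']
  refine Finset.sum_bij' (fun a _ => ⟨insert a.1 a.2, a.1⟩) (fun a _ => ⟨a.2, a.1.erase a.2⟩) ?_ ?_ ?_ ?_ ?_
  · rintro ⟨p, S⟩ h
    obtain ⟨hp, hS⟩ := mem_sigma.1 h
    obtain ⟨hS1, hS2⟩ := mem_powersetCard.1 hS
    have hpS : p ∉ S := fun hh => (mem_erase.1 (hS1 hh)).1 rfl
    refine mem_sigma.2 ⟨mem_powersetCard.2 ⟨?_, ?_⟩, mem_insert_self _ _⟩
    · exact insert_subset hp (hS1.trans (erase_subset _ _))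
    · simp only [card_insert_of_notMem hpS, hS2]
  · rintro ⟨T, p⟩ h
    obtain ⟨hT, hp⟩ := mem_sigma.1 h
    obtain ⟨hT1, hT2⟩ := mem_powersetCard.1 hT
    refine mem_sigma.2 ⟨hT1 hp, mem_powersetCard.2 ⟨erase_subset_erase _ hT1, ?_⟩⟩
    simp only at hp hT2 ⊢
    rw [card_erase_of_mem hp, hT2]
    rfl
  · rintro ⟨p, S⟩ h
    obtain ⟨hp, hS⟩ := mem_sigma.1 h
    obtain ⟨hS1, hS2⟩ := mem_powersetCard.1 hS
    have hpS : p ∉ S := fun hh => (mem_erase.1 (hS1 hh)).1 rfl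
    simp only [erase_insert hpS]
  · rintro ⟨T, p⟩ h
    obtain ⟨hT, hp⟩ := mem_sigma.1 h
    simp only at hp ⊢
    simp only [insert_erase hp]
  · rintro ⟨p, S⟩ h
    obtain ⟨hp, hS⟩ := mem_sigma.1 h
    obtain ⟨hS1, hS2⟩ := mem_powersetCard.1 hS
    have hpS : p ∉ S := fun hh => (mem_erase.1 (hS1 hh)).1 rfl
    simp only [prod_insert hpS]

private theorem win_iff {X : ℝ} (hX : 2 ≤ X) {p : ℕ} (hp : p.Prime) (a b : ℝ) :
    (X ^ a < (p : ℝ) ∧ (p : ℝ) ≤ X ^ b) ↔ (a < Real.log p / Real.log X ∧ Real.log p / Real.log X ≤ b) := by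
  have hX0 : (0 : ℝ) < X := by linarith
  have hlX : 0 < Real.log X := Real.log_pos (by linarith)
  have hp0 : (0 : ℝ) < p := by exact_mod_cast hp.pos
  rw [lt_div_iff₀ hlX, div_le_iff₀ hlX, ← Real.log_rpow hX0, ← Real.log_rpow hX0,
    Real.log_lt_log_iff (Real.rpow_pos_of_pos hX0 a) hp0, Real.log_le_log_iff hp0 (Real.rpow_pos_of_pos hX0 b)]

private theorem expd_TW {r : ℕ} (c : Fin r → ℂ) (u v : Fin r → ℝ) (δ : ℝ) (hδu : ∀ i, δ ≤ u i)
    (X : ℝ) (hX : 2 ≤ X) (n : ℕ) (hn : n ≠ 0)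
    (hsq : ∀ p : ℕ, p.Prime → X ^ δ < (p : ℝ) → ¬ p ^ 2 ∣ n) (j : ℕ) :
    ∀ m : ℕ, m ∣ n → expd c u v j (fun l => (TW X l m : ℂ)) = (j.factorial : ℂ) *
      ∑ S ∈ powersetCard j (LQ X δ m), ∏ q ∈ S,
        ∑ i, if u i < Real.log q / Real.log X ∧ Real.log q / Real.log X ≤ v i then c i else 0 := by
  classical
  have hX0 : (0 : ℝ) ≤ X := by linarith
  set y : ℕ → ℂ := fun q => ∑ i, if u i < Real.log q / Real.log X ∧ Real.log q / Real.log X ≤ v i then c i else 0 with hy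
  induction j with
  | zero =>
    intro m _
    simp [expd, TW]
  | succ j ih =>
    intro m hm
    have hm0 : m ≠ 0 := fun h => hn (by rw [h] at hm; exact Nat.eq_zero_of_zero_dvd hm)
    have hset : ∀ i, (PW X (u i) (v i)).filter (fun p => p ∣ m) =
        (LQ X δ m).filter (fun p : ℕ => u i < Real.log (p : ℝ) / Real.log X ∧ Real.log (p : ℝ) / Real.log X ≤ v i) := by
      intro i
      ext p
      rw [mem_filter, mem_filter, mem_PW hX0, mem_LQ hm0]
      constructor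
      · rintro ⟨⟨h1, h2⟩, h3⟩
        refine ⟨⟨h1, h3, lt_of_le_of_lt ?_ h2.1⟩, (win_iff hX h1 _ _).1 h2⟩
        exact Real.rpow_le_rpow_of_exponent_le (by linarith) (hδu i)
      · rintro ⟨⟨h1, h3, -⟩, h2⟩
        exact ⟨⟨h1, (win_iff hX h1 _ _).2 h2⟩, h3⟩
    have hstep : expd c u v (j + 1) (fun l => (TW X l m : ℂ)) =
        ∑ p ∈ LQ X δ m, y p * expd c u v j (fun l => (TW X l (m / p) : ℂ)) := by
      rw [expd]
      have h1 : ∀ i, expd c u v j (fun l => ((TW X ((u i, v i) :: l) m : ℝ) : ℂ)) =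
          ∑ p ∈ (PW X (u i) (v i)).filter (fun p => p ∣ m), expd c u v j (fun l => (TW X l (m / p) : ℂ)) := by
        intro i
        rw [← expd_sum c u v _ j (fun p l => (TW X l (m / p) : ℂ))]
        congr 1
        funext l
        rw [TW]
        push_cast
        rfl
      simp only [h1, hset]
      simp only [Finset.sum_filter, Finset.mul_sum, hy, Finset.sum_mul]
      rw [Finset.sum_comm]
      refine Finset.sum_congr rfl (fun p _ => Finset.sum_congr rfl (fun i _ => ?_))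
      split_ifs <;> ring
    rw [hstep]
    have h2 : ∀ p ∈ LQ X δ m, y p * expd c u v j (fun l => (TW X l (m / p) : ℂ)) =
        (j.factorial : ℂ) * (y p * ∑ S ∈ powersetCard j ((LQ X δ m).erase p), ∏ q ∈ S, y q) := by
      intro p hp
      obtain ⟨hp1, hp2, hp3⟩ := (mem_LQ hm0).1 hp
      have hd0 : m / p ≠ 0 := (Nat.div_pos (Nat.le_of_dvd (Nat.pos_of_ne_zero hm0) hp2) hp1.pos).ne'
      have hLe : LQ X δ (m / p) = (LQ X δ m).erase p := by
        ext q
        rw [mem_erase, mem_LQ hd0, mem_LQ hm0]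
        constructor
        · rintro ⟨q1, q2, q3⟩
          refine ⟨?_, q1, q2.trans (Nat.div_dvd_of_dvd hp2), q3⟩
          rintro rfl
          apply hsq q q1 q3
          refine dvd_trans ?_ hm
          rw [pow_two]
          exact (Nat.dvd_div_iff_mul_dvd hp2).1 q2
        · rintro ⟨q0, q1, q2, q3⟩
          refine ⟨q1, ?_, q3⟩
          have : q ∣ p * (m / p) := by rw [Nat.mul_div_cancel' hp2]; exact q2
          rcases (Nat.Prime.dvd_mul q1).1 this with h | h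
          · exact absurd ((Nat.prime_dvd_prime_iff_eq q1 hp1).1 h) q0
          · exact h
      rw [ih (m / p) ((Nat.div_dvd_of_dvd hp2).trans hm), hLe]
      ring
    rw [Finset.sum_congr rfl h2, ← Finset.mul_sum, esum y (LQ X δ m) j, Nat.factorial_succ]
    push_cast
    ring

/-- `gx` in terms of tuples of primes (elementary symmetric polynomials) -/
theorem gx_id {r : ℕ} (c : Fin r → ℂ) (u v : Fin r → ℝ) (φ : ℝ → ℂ)
    (hφ : ∀ t, φ t = 1 + ∑ i, if u i < t ∧ t ≤ v i then c i else 0) (δ : ℝ) (hδ : 0 < δ) (hδu : ∀ i, δ ≤ u i)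
    (J : ℕ) (hJ : 2 < (J + 1) * δ) (X : ℝ) (hX : 2 ≤ X) (n : ℕ) (hn : n ≠ 0) (hnX : (n : ℝ) ≤ X ^ 2)
    (hsq : ∀ p : ℕ, p.Prime → X ^ δ < (p : ℝ) → ¬ p ^ 2 ∣ n) :
    gx φ X n = ∑ j ∈ range (J + 1), (1 / (j.factorial : ℂ)) * expd c u v j (fun l => (TW X l n : ℂ)) := by
  classical
  have hX0 : (0 : ℝ) < X := by linarith
  have hlX : 0 < Real.log X := Real.log_pos (by linarith)
  set y : ℕ → ℂ := fun q => ∑ i, if u i < Real.log q / Real.log X ∧ Real.log q / Real.log X ≤ v i then c i else 0 with hy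
  have hφy : ∀ q : ℕ, φ (Real.log q / Real.log X) = 1 + y q := fun q => hφ _
  have hcardJ : (LQ X δ n).card ≤ J := by
    have h1 := card_LQ (δ := δ) hX hn hnX
    by_contra hcon
    push Not at hcon
    have h2 : ((J : ℝ) + 1) ≤ ((LQ X δ n).card : ℝ) := by exact_mod_cast hcon
    nlinarith
  -- the product
  have hprod : gx φ X n = ∏ p ∈ LQ X δ n, (1 + y p) := by
    unfold gx
    rw [Finset.prod_list_map_count]
    have hsub : LQ X δ n ⊆ n.primeFactorsList.toFinset := by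
      intro p hp
      obtain ⟨h1, h2, -⟩ := (mem_LQ hn).1 hp
      rw [List.mem_toFinset, Nat.mem_primeFactorsList hn]
      exact ⟨h1, h2⟩
    rw [← Finset.prod_subset hsub]
    · refine Finset.prod_congr rfl (fun p hp => ?_)
      obtain ⟨h1, h2, h3⟩ := (mem_LQ hn).1 hp
      rw [hφy, Nat.primeFactorsList_count_eq]
      have h4 : n.factorization p = 1 := by
        apply le_antisymm
        · by_contra hcon
          push Not at hcon
          exact hsq p h1 h3 ((h1.pow_dvd_iff_le_factorization hn).2 hcon)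
        · exact (h1.dvd_iff_one_le_factorization hn).1 h2
      rw [h4, pow_one]
    · intro p hp hpL
      rw [List.mem_toFinset, Nat.mem_primeFactorsList hn] at hp
      have hle : (p : ℝ) ≤ X ^ δ := by
        by_contra hcon
        push Not at hcon
        exact hpL ((mem_LQ hn).2 ⟨hp.1, hp.2, hcon⟩)
      have ht : Real.log p / Real.log X ≤ δ := by
        rw [div_le_iff₀ hlX, ← Real.log_rpow hX0]
        exact Real.log_le_log (by exact_mod_cast hp.1.pos) hle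
      have hy0 : y p = 0 := by
        rw [hy]
        refine Finset.sum_eq_zero (fun i _ => ?_)
        rw [if_neg]
        rintro ⟨h1, -⟩
        linarith [hδu i]
      rw [hφy, hy0, add_zero, one_pow]
  rw [hprod, Finset.prod_one_add, Finset.sum_powerset]
  have hterm : ∀ j, (1 / (j.factorial : ℂ)) * expd c u v j (fun l => (TW X l n : ℂ)) =
      ∑ S ∈ powersetCard j (LQ X δ n), ∏ q ∈ S, y q := by
    intro j
    rw [expd_TW c u v δ hδu X hX n hn hsq j n dvd_rfl, ← mul_assoc, one_div,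
      inv_mul_cancel₀ (by exact_mod_cast (Nat.factorial_ne_zero j)), one_mul]
  simp only [hterm]
  refine Finset.sum_subset (range_subset_range.2 (by omega)) (fun j _ hj => ?_)
  rw [mem_range, not_lt] at hj
  rw [powersetCard_eq_empty.2 (by omega), Finset.sum_empty]

end Pool.Agent.LPr
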