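import Pool.Agent.Lib_MP_f1a94e_lp.Fx
import Pool.Agent.Lib_MP_f1a94e_lp.WinG
import Pool.Agent.Lib_MP_f1a94e_eq.ResA

/-!
# Fourier expansion of the indicator, arbitrary windows
-/

set_option autoImplicit false

namespace Pool.Agent.LPr

open Finset Pool.Agent.GaussMR Pool.Agent.OmAll Pool.Agent.OmEq MeasureTheory Filter

open Classical in
/-- expansion of the indicator -/
theorem ind_eqG (q : ℕ) (hq : 0 < q) (R : ℕ) (K : ℕ) (u0 : ℝ) (hu0 : 0 < u0) (hKu : 3 < K * u0) (u v u' v' : ℕ → ℝ)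
    (r s' : ℕ) (hu : ∀ i < r, u0 ≤ u i) (hu' : ∀ i < s', u0 ≤ u' i) (k l : ℕ → ℕ) (hk : ∀ i < r, k i < K)
    (hl : ∀ i < s', l i < K) (a b : ℕ) (X : ℝ) (hX : 2 ≤ X) (e : G × G) (he : e ∈ EN 1 X) :
    (if (nm e.1 * nm e.2).Coprime R ∧ ArithmeticFunction.cardFactors (nm e.1) ≡ a [MOD q] ∧
        ArithmeticFunction.cardFactors (nm e.2) ≡ b [MOD q] ∧ (∀ i < r, wc X (u i) (v i) (nm e.1) = k i) ∧
        (∀ i < s', wc X (u' i) (v' i) (nm e.2) = l i) then (1 : ℂ) else 0) =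
      ∑ i ∈ range q, ∑ i' ∈ range q, ∑ j ∈ Fintype.piFinset (fun _ : Fin r => range K),
        ∑ j' ∈ Fintype.piFinset (fun _ : Fin s' => range K),
        (((zq q ^ (i * a))⁻¹ * (zq q ^ (i' * b))⁻¹ / (q : ℂ) ^ 2) * ((∏ i : Fin r, (zq K ^ (j i * k i))⁻¹) / (K : ℂ) ^ r) *
          ((∏ i : Fin s', (zq K ^ (j' i * l i))⁻¹) / (K : ℂ) ^ s')) *
        (fx R (zq q ^ i) (phg K u v r j) X (nm e.1) * fx R (zq q ^ i') (phg K u' v' s' j') X (nm e.2)) := by
  have hK : 0 < K := by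
    rcases Nat.eq_zero_or_pos K with h | h
    · rw [h, Nat.cast_zero, zero_mul] at hKu
      linarith
    · exact h
  obtain ⟨hn1, hn2⟩ := fine_nm_ne he
  have hX0 : (0 : ℝ) ≤ X := by linarith
  have hX1 : (1 : ℝ) < X := by linarith
  have hprod : (nm e.1 : ℝ) * (nm e.2 : ℝ) ≤ X ^ 3 := by
    have he' := he
    rw [mem_EN one_pos] at he'
    obtain ⟨⟨hdet, hdot, -, -⟩, hle⟩ := he'
    have h2 := dot_sq_add_det_sq e.1 e.2
    rw [hdet] at h2
    have h3 : ((dot e.1 e.2 : ℤ) : ℝ) ^ 2 + 1 = (nm e.1 : ℝ) * (nm e.2 : ℝ) := by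
      have h4 : (((dot e.1 e.2 ^ 2 + ((1 : ℕ) : ℤ) ^ 2 : ℤ)) : ℝ) = (((nm e.1 : ℤ) * nm e.2 : ℤ) : ℝ) := by
        rw [h2]
      push_cast at h4
      linarith
    have h5 : (0 : ℝ) < ((dot e.1 e.2 : ℤ) : ℝ) := by exact_mod_cast hdot
    have h6 : ((dot e.1 e.2 : ℤ) : ℝ) ≤ X := hle
    have h7 : ((dot e.1 e.2 : ℤ) : ℝ) ^ 2 ≤ X ^ 2 := pow_le_pow_left₀ h5.le h6 2
    have h8 : 2 * X ^ 2 ≤ X ^ 3 := by
      have : X ^ 3 = X * X ^ 2 := by ring
      rw [this]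
      exact mul_le_mul_of_nonneg_right hX (sq_nonneg X)
    have h9 : (1 : ℝ) ≤ X ^ 2 := by nlinarith
    linarith
  have hb1 : (1 : ℝ) ≤ (nm e.1 : ℝ) := by exact_mod_cast Nat.one_le_iff_ne_zero.2 hn1
  have hb2 : (1 : ℝ) ≤ (nm e.2 : ℝ) := by exact_mod_cast Nat.one_le_iff_ne_zero.2 hn2
  have hl1 : (nm e.1 : ℝ) ≤ X ^ 3 := by nlinarith
  have hl2 : (nm e.2 : ℝ) ≤ X ^ 3 := by nlinarith
  have hq0 : (q : ℂ) ≠ 0 := by exact_mod_cast hq.ne'
  have hK0 : (K : ℂ) ≠ 0 := by exact_mod_cast hK.ne'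
  by_cases hC : (nm e.1 * nm e.2).Coprime R
  · have hC1 : (nm e.1).Coprime R := Nat.Coprime.coprime_mul_right hC
    have hC2 : (nm e.2).Coprime R := Nat.Coprime.coprime_mul_left hC
    set A : ℕ → ℂ := fun i => (zq q ^ (i * a))⁻¹ * (zq q ^ i) ^ ArithmeticFunction.cardFactors (nm e.1) with hA
    set B : ℕ → ℂ := fun i => (zq q ^ (i * b))⁻¹ * (zq q ^ i) ^ ArithmeticFunction.cardFactors (nm e.2) with hB
    set C : (Fin r → ℕ) → ℂ := fun j => (∏ i : Fin r, (zq K ^ (j i * k i))⁻¹) *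
      ∏ i : Fin r, (zq K ^ (j i)) ^ wc X (u i) (v i) (nm e.1) with hCC
    set D : (Fin s' → ℕ) → ℂ := fun j => (∏ i : Fin s', (zq K ^ (j i * l i))⁻¹) *
      ∏ i : Fin s', (zq K ^ (j i)) ^ wc X (u' i) (v' i) (nm e.2) with hD
    have h2 : ∑ i ∈ range q, ∑ i' ∈ range q, ∑ j ∈ Fintype.piFinset (fun _ : Fin r => range K),
        ∑ j' ∈ Fintype.piFinset (fun _ : Fin s' => range K),
        (((zq q ^ (i * a))⁻¹ * (zq q ^ (i' * b))⁻¹ / (q : ℂ) ^ 2) * ((∏ i : Fin r, (zq K ^ (j i * k i))⁻¹) / (K : ℂ) ^ r) *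
          ((∏ i : Fin s', (zq K ^ (j' i * l i))⁻¹) / (K : ℂ) ^ s')) *
        (fx R (zq q ^ i) (phg K u v r j) X (nm e.1) * fx R (zq q ^ i') (phg K u' v' s' j') X (nm e.2)) =
        (∑ i ∈ range q, A i) * (∑ i' ∈ range q, B i') *
          (∑ j ∈ Fintype.piFinset (fun _ : Fin r => range K), C j) *
          (∑ j' ∈ Fintype.piFinset (fun _ : Fin s' => range K), D j') / ((q : ℂ) ^ 2 * (K : ℂ) ^ r * (K : ℂ) ^ s') := by
      rw [sum_mul_sum, sum_mul, sum_mul, sum_div]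
      apply sum_congr rfl
      intro i _
      rw [sum_mul, sum_mul, sum_div]
      apply sum_congr rfl
      intro i' _
      rw [mul_assoc (A i * B i'), sum_mul_sum, mul_sum, sum_div]
      apply sum_congr rfl
      intro j _
      rw [mul_sum, sum_div]
      apply sum_congr rfl
      intro j' _
      unfold fx
      rw [if_neg (by tauto), if_neg (by tauto), gx_phg K u v r j X hX1, gx_phg K u' v' s' j' X hX1]
      simp only [hA, hB, hCC, hD]
      generalize (∏ i : Fin r, (zq K ^ (j i * k i))⁻¹) = c1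
      generalize (∏ i : Fin r, (zq K ^ (j i)) ^ wc X (u i) (v i) (nm e.1)) = c2
      generalize (∏ i : Fin s', (zq K ^ (j' i * l i))⁻¹) = d1
      generalize (∏ i : Fin s', (zq K ^ (j' i)) ^ wc X (u' i) (v' i) (nm e.2)) = d2
      generalize (zq q ^ (i * a))⁻¹ = a1
      generalize (zq q ^ i) ^ ArithmeticFunction.cardFactors (nm e.1) = a2
      generalize (zq q ^ (i' * b))⁻¹ = b1
      generalize (zq q ^ i') ^ ArithmeticFunction.cardFactors (nm e.2) = b2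
      ring
    rw [h2]
    simp only [hA, hB, hCC, hD]
    rw [fine_orth hq, fine_orth hq]
    rw [win_inv K hK r (fun i => k i) (fun i => wc X (u i) (v i) (nm e.1)) (fun i => hk i i.2)
      (fun i => wc_lt K u0 hu0 hKu X hX (nm e.1) hn1 hl1 _ _ (hu i i.2))]
    rw [win_inv K hK s' (fun i => l i) (fun i => wc X (u' i) (v' i) (nm e.2)) (fun i => hl i i.2)
      (fun i => wc_lt K u0 hu0 hKu X hX (nm e.2) hn2 hl2 _ _ (hu' i i.2))]
    have e1 : (∀ i < r, wc X (u i) (v i) (nm e.1) = k i) ↔ ∀ i : Fin r, wc X (u i) (v i) (nm e.1) = k i :=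
      ⟨fun h i => h i i.2, fun h i hi => h ⟨i, hi⟩⟩
    have e2 : (∀ i < s', wc X (u' i) (v' i) (nm e.2) = l i) ↔ ∀ i : Fin s', wc X (u' i) (v' i) (nm e.2) = l i :=
      ⟨fun h i => h i i.2, fun h i hi => h ⟨i, hi⟩⟩
    by_cases c1 : ArithmeticFunction.cardFactors (nm e.1) ≡ a [MOD q]
    · by_cases c2 : ArithmeticFunction.cardFactors (nm e.2) ≡ b [MOD q]
      · by_cases c3 : ∀ i : Fin r, wc X (u i) (v i) (nm e.1) = k i
        · by_cases c4 : ∀ i : Fin s', wc X (u' i) (v' i) (nm e.2) = l i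
          · rw [if_pos ⟨hC, c1, c2, e1.2 c3, e2.2 c4⟩, if_pos c1, if_pos c2, if_pos c3, if_pos c4]
            field_simp
          · rw [if_neg (fun h => c4 (e2.1 h.2.2.2.2)), if_neg c4, mul_zero, zero_div]
        · rw [if_neg (fun h => c3 (e1.1 h.2.2.2.1)), if_neg c3, mul_zero, zero_mul, zero_div]
      · rw [if_neg (fun h => c2 h.2.2.1), if_neg c2, mul_zero, zero_mul, zero_mul, zero_div]
    · rw [if_neg (fun h => c1 h.2.1), if_neg c1, zero_mul, zero_mul, zero_mul, zero_div]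
  · rw [if_neg (fun h => hC h.1)]
    symm
    apply sum_eq_zero
    intro i _
    apply sum_eq_zero
    intro i' _
    apply sum_eq_zero
    intro j _
    apply sum_eq_zero
    intro j' _
    have h2 : ¬ (nm e.1).Coprime R ∨ ¬ (nm e.2).Coprime R := by
      by_contra h
      push Not at h
      exact hC (Nat.Coprime.mul_left h.1 h.2)
    unfold fx
    rcases h2 with h2 | h2
    · rw [if_pos (Or.inr h2)]
      ring
    · rw [if_pos (c := nm e.2 = 0 ∨ ¬ (nm e.2).Coprime R) (Or.inr h2)]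
      ring

end Pool.Agent.LPr
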