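import Pool.Agent.Lib_MP_f1a94e_lp.TwM

/-!
# Piece INTM: mean values over the integers
-/

set_option autoImplicit false

namespace Pool.Agent.LPr

open Finset Filter

private theorem norm_list (φ : ℝ → ℂ) (hφ1 : ∀ t, ‖φ t‖ = 1) (X : ℝ) (L : List ℕ) :
    ‖(L.map (fun p : ℕ => φ (Real.log p / Real.log X))).prod‖ = 1 := by
  induction L with
  | nil => simp
  | cons a L ih =>
    rw [List.map_cons, List.prod_cons, norm_mul, ih, hφ1, one_mul]

private theorem norm_gx (φ : ℝ → ℂ) (hφ1 : ∀ t, ‖φ t‖ = 1) (X : ℝ) (n : ℕ) : ‖gx φ X n‖ = 1 :=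
  norm_list φ hφ1 X _

/-- the integers `n ≤ Y` divisible by the square of a prime larger than `P ≥ 1` are few: at most `Y ∑_(m > P) 1 / m² ≤ 2 Y / P` (`∑_(m > P, m natural) 1/m² ≤ 2 / P`) -/
theorem sq_few (P Y : ℝ) (hP : 1 ≤ P) (hY : 0 ≤ Y) (S : Finset ℕ) (hS : ∀ n ∈ S, 1 ≤ n ∧ (n : ℝ) ≤ Y ∧
    ∃ p : ℕ, P < (p : ℝ) ∧ p ^ 2 ∣ n) : (S.card : ℝ) ≤ 2 * Y / P := by
  classical
  set k : ℕ := ⌊P⌋₊ with hk
  set M : ℕ := ⌊Y⌋₊ with hM
  have hk1 : 1 ≤ k := Nat.le_floor (by exact_mod_cast hP)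
  have hkP : (k : ℝ) ≤ P := Nat.floor_le (zero_le_one.trans hP)
  have hPk : P < k + 1 := Nat.lt_floor_add_one P
  have hsub : S ⊆ (Ioc k M).biUnion (fun m => (Ioc 0 M).filter (fun n => m ^ 2 ∣ n)) := by
    intro n hn
    obtain ⟨h1, h2, p, h3, h4⟩ := hS n hn
    have hnM : n ≤ M := Nat.le_floor h2
    have hp0 : k < p := by
      have : (k : ℝ) < p := lt_of_le_of_lt hkP h3
      exact_mod_cast this
    have hpn : p ≤ n := by
      have h5 : p ^ 2 ≤ n := Nat.le_of_dvd h1 h4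
      nlinarith
    rw [mem_biUnion]
    refine ⟨p, mem_Ioc.2 ⟨hp0, hpn.trans hnM⟩, ?_⟩
    rw [mem_filter, mem_Ioc]
    exact ⟨⟨h1, hnM⟩, h4⟩
  have h1 : S.card ≤ ∑ m ∈ Ioc k M, M / m ^ 2 := by
    refine (card_le_card hsub).trans (card_biUnion_le.trans (le_of_eq ?_))
    refine sum_congr rfl fun m _ => ?_
    exact Nat.Ioc_filter_dvd_card_eq_div M (m ^ 2)
  have h2 : (S.card : ℝ) ≤ ∑ m ∈ Ioc k M, Y * ((m : ℝ) ^ 2)⁻¹ := by
    have h3 : (S.card : ℝ) ≤ ((∑ m ∈ Ioc k M, M / m ^ 2 : ℕ) : ℝ) := by exact_mod_cast h1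
    refine h3.trans ?_
    rw [Nat.cast_sum]
    refine sum_le_sum fun m _ => ?_
    refine Nat.cast_div_le.trans ?_
    rw [Nat.cast_pow, div_eq_mul_inv]
    exact mul_le_mul_of_nonneg_right (Nat.floor_le hY) (by positivity)
  rcases le_or_gt k M with hkM | hkM
  · rw [← mul_sum] at h2
    have h3 := sum_Ioc_inv_sq_le_sub (α := ℝ) (Nat.one_le_iff_ne_zero.1 hk1) hkM
    have h4 : (0 : ℝ) ≤ (M : ℝ)⁻¹ := by positivity
    have hk0 : (0 : ℝ) < k := by exact_mod_cast hk1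
    have h5 : ((k : ℝ))⁻¹ ≤ 2 / P := by
      rw [inv_eq_one_div, div_le_div_iff₀ hk0 (one_pos.trans_le hP)]
      have : (1 : ℝ) ≤ k := by exact_mod_cast hk1
      linarith
    calc (S.card : ℝ) ≤ Y * ∑ m ∈ Ioc k M, ((m : ℝ) ^ 2)⁻¹ := h2
      _ ≤ Y * (2 / P) := mul_le_mul_of_nonneg_left (h3.trans (by linarith)) hY
      _ = 2 * Y / P := by ring
  · rw [Ioc_eq_empty (by omega), sum_empty] at h2
    exact h2.trans (by positivity)

/-- PROOF. By `gx_id` for `X` large, `∑_(n ≤ X) gx φ X n = ∑_(j ≤ J) (1/j!) expd c u v j (∑_(n ≤ X) TW X · n) + error` (`expd_sum`); the error comes from the `n ≤ X` divisible by `p²`, `p > X ^ δ`: at most `2 X^(1-δ)` numbers (`sq_few`), each contributes at most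
`1 + ∑_j (1/j!) (∑ ‖c i‖)^j B_j` by `expd_bd`, `tw_bd` (`‖gx φ X n‖ = 1` as `|φ| = 1`; `B_j` the maximum over the finitely many lists, or the bound of `tw_bd` applied for each list and summed: the lists of length `j` with entries among the `r` windows are finitely many). Divide by `X`: `expd_smul`, `tw_mean`, `expd_lim`. -/
theorem int_mean {r : ℕ} (c : Fin r → ℂ) (u v : Fin r → ℝ) (hw : ∀ i, 0 < u i ∧ u i ≤ v i) (φ : ℝ → ℂ) (hφ1 : ∀ t, ‖φ t‖ = 1)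
    (hφ : ∀ t, φ t = 1 + ∑ i, if u i < t ∧ t ≤ v i then c i else 0) (δ : ℝ) (hδ : 0 < δ) (hδu : ∀ i, δ ≤ u i)
    (J : ℕ) (hJ : 2 < (J + 1) * δ) :
    Tendsto (fun X : ℝ => (∑ n ∈ Icc 1 ⌊X⌋₊, gx φ X n) / X) atTop (nhds (EV c u v J)) := by
  classical
  choose! Bt hBt0 hBt using fun (l : List (ℝ × ℝ)) (hl : ∀ w ∈ l, δ ≤ w.1) => tw_bd δ hδ l hl
  -- uniform bound
  have hD : ∃ D : ℝ, 0 ≤ D ∧ ∀ X : ℝ, 2 ≤ X → ∀ n : ℕ, n ≠ 0 → (n : ℝ) ≤ X ^ 2 →
      ‖∑ j ∈ range (J + 1), (1 / (j.factorial : ℂ)) * expd c u v j (fun l => (TW X l n : ℂ))‖ ≤ D := by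
    have hlist : ∀ (j : ℕ) (f : Fin j → Fin r), ∀ w ∈ List.ofFn (fun i => (u (f i), v (f i))), δ ≤ w.1 := by
      intro j f w hw
      rw [List.mem_ofFn] at hw
      obtain ⟨i, rfl⟩ := hw
      exact hδu _
    refine ⟨∑ j ∈ range (J + 1), (1 / (j.factorial : ℝ)) * ((∑ i, ‖c i‖) ^ j *
      ∑ f : Fin j → Fin r, Bt (List.ofFn (fun i => (u (f i), v (f i))))), ?_, ?_⟩
    · refine sum_nonneg fun j _ => mul_nonneg (by positivity) (mul_nonneg (by positivity) ?_)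
      exact sum_nonneg fun f _ => hBt0 _ (hlist j f)
    · intro X hX n hn hnX
      refine (norm_sum_le _ _).trans (sum_le_sum fun j _ => ?_)
      rw [norm_mul]
      refine mul_le_mul (le_of_eq ?_) ?_ (norm_nonneg _) (by positivity)
      · rw [norm_div, norm_one, Complex.norm_natCast]
      · refine expd_bd c u v j _ _ fun l hlj hl => ?_
        have hch : ∀ i : Fin j, ∃ k : Fin r, l.get (Fin.cast hlj.symm i) = (u k, v k) := fun i =>
          hl _ (List.get_mem _ _)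
        choose f hf using hch
        have hlf : l = List.ofFn (fun i => (u (f i), v (f i))) := by
          apply List.ext_get
          · rw [List.length_ofFn, hlj]
          · intro m h1 h2
            rw [List.get_ofFn]
            exact hf ⟨m, by rw [← hlj]; exact h1⟩
        rw [hlf]
        have h1 := hBt _ (hlist j f) X hX n hn hnX
        rw [Complex.norm_real, Real.norm_of_nonneg h1.1]
        refine h1.2.trans ?_
        exact single_le_sum (f := fun f : Fin j → Fin r => Bt (List.ofFn (fun i => (u (f i), v (f i)))))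
          (fun g _ => hBt0 _ (hlist j g)) (mem_univ f)
  obtain ⟨D, hD0, hD⟩ := hD
  -- the main term
  have hmain : Tendsto (fun X : ℝ => ∑ j ∈ range (J + 1), (1 / (j.factorial : ℂ)) *
      expd c u v j (fun l => ∑ n ∈ Icc 1 ⌊X⌋₊, ((1 / X : ℝ) : ℂ) * (TW X l n : ℂ))) atTop
      (nhds (EV c u v J)) := by
    unfold EV
    refine tendsto_finsetSum _ fun j _ => Tendsto.const_mul _ ?_
    refine expd_lim c u v hw j (fun X l => ∑ n ∈ Icc 1 ⌊X⌋₊, ((1 / X : ℝ) : ℂ) * (TW X l n : ℂ)) _ ?_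
    intro l hl
    have h1 := (Complex.continuous_ofReal.tendsto _).comp (tw_mean l hl)
    refine h1.congr fun X => ?_
    rw [Function.comp_apply, div_eq_mul_inv, mul_comm, ← one_div, mul_sum]
    push_cast
    rfl
  -- the difference
  have hdiff : Tendsto (fun X : ℝ => (∑ n ∈ Icc 1 ⌊X⌋₊, gx φ X n) / X -
      ∑ j ∈ range (J + 1), (1 / (j.factorial : ℂ)) *
        expd c u v j (fun l => ∑ n ∈ Icc 1 ⌊X⌋₊, ((1 / X : ℝ) : ℂ) * (TW X l n : ℂ))) atTop (nhds 0) := by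
    refine squeeze_zero_norm' (a := fun X : ℝ => 2 * (1 + D) * X ^ (-δ)) ?_ ?_
    · filter_upwards [eventually_ge_atTop 2] with X hX
      have hX0 : (0 : ℝ) < X := two_pos.trans_le hX
      have hX1 : (1 : ℝ) ≤ X := one_le_two.trans hX
      set T : ℕ → ℂ := fun n => ∑ j ∈ range (J + 1), (1 / (j.factorial : ℂ)) *
        expd c u v j (fun l => (TW X l n : ℂ)) with hT
      set bad : Finset ℕ := (Icc 1 ⌊X⌋₊).filter (fun n => ∃ p : ℕ, X ^ δ < (p : ℝ) ∧ p ^ 2 ∣ n) with hbad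
      have e1 : ∑ j ∈ range (J + 1), (1 / (j.factorial : ℂ)) *
          expd c u v j (fun l => ∑ n ∈ Icc 1 ⌊X⌋₊, ((1 / X : ℝ) : ℂ) * (TW X l n : ℂ)) =
          ∑ n ∈ Icc 1 ⌊X⌋₊, ((1 / X : ℝ) : ℂ) * T n := by
        rw [hT]
        simp only [mul_sum]
        rw [sum_comm]
        refine sum_congr rfl fun j _ => ?_
        rw [expd_sum c u v j (Icc 1 ⌊X⌋₊) (fun _ => ((1 / X : ℝ) : ℂ)) (fun n l => (TW X l n : ℂ)), mul_sum]
        refine sum_congr rfl fun n _ => ?_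
        ring
      have e2 : (∑ n ∈ Icc 1 ⌊X⌋₊, gx φ X n) / X - ∑ n ∈ Icc 1 ⌊X⌋₊, ((1 / X : ℝ) : ℂ) * T n =
          ∑ n ∈ bad, ((1 / X : ℝ) : ℂ) * (gx φ X n - T n) := by
        have e3 : (∑ n ∈ Icc 1 ⌊X⌋₊, gx φ X n) / X - ∑ n ∈ Icc 1 ⌊X⌋₊, ((1 / X : ℝ) : ℂ) * T n =
            ∑ n ∈ Icc 1 ⌊X⌋₊, ((1 / X : ℝ) : ℂ) * (gx φ X n - T n) := by
          rw [← mul_sum, ← mul_sum, sum_sub_distrib]
          push_cast
          ring
        rw [e3, hbad, sum_filter]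
        refine sum_congr rfl fun n hn => ?_
        split_ifs with hb
        · rfl
        · rw [mem_Icc] at hn
          have hnX : (n : ℝ) ≤ X := (Nat.le_floor_iff hX0.le).1 hn.2
          have hnX2 : (n : ℝ) ≤ X ^ 2 := by nlinarith
          have hg := gx_id c u v φ hφ δ hδ hδu J hJ X hX n (Nat.one_le_iff_ne_zero.1 hn.1) hnX2
            (fun p _ hp1 hp2 => hb ⟨p, hp1, hp2⟩)
          rw [hg]
          simp [hT]
      rw [e1, e2]
      have hcard : (bad.card : ℝ) ≤ 2 * X / X ^ δ := by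
        refine sq_few (X ^ δ) X (Real.one_le_rpow hX1 hδ.le) hX0.le bad fun n hn => ?_
        rw [hbad, mem_filter, mem_Icc] at hn
        exact ⟨hn.1.1, (Nat.le_floor_iff hX0.le).1 hn.1.2, hn.2⟩
      refine (norm_sum_le _ _).trans ?_
      have hterm : ∀ n ∈ bad, ‖((1 / X : ℝ) : ℂ) * (gx φ X n - T n)‖ ≤ 1 / X * (1 + D) := by
        intro n hn
        rw [hbad, mem_filter, mem_Icc] at hn
        have hnX : (n : ℝ) ≤ X := (Nat.le_floor_iff hX0.le).1 hn.1.2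
        have hnX2 : (n : ℝ) ≤ X ^ 2 := by nlinarith
        rw [norm_mul, Complex.norm_real, Real.norm_of_nonneg (by positivity : (0 : ℝ) ≤ 1 / X)]
        refine mul_le_mul_of_nonneg_left ?_ (by positivity)
        refine (norm_sub_le _ _).trans (add_le_add (le_of_eq (norm_gx φ hφ1 X n)) ?_)
        exact hD X hX n (Nat.one_le_iff_ne_zero.1 hn.1.1) hnX2
      refine (sum_le_sum hterm).trans ?_
      rw [sum_const, nsmul_eq_mul]
      have h5 : (0 : ℝ) ≤ 1 / X * (1 + D) := by positivity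
      refine (mul_le_mul_of_nonneg_right hcard h5).trans (le_of_eq ?_)
      rw [Real.rpow_neg hX0.le]
      have h6 : X ^ δ ≠ 0 := (Real.rpow_pos_of_pos hX0 δ).ne'
      field_simp
    · simpa using (tendsto_rpow_neg_atTop hδ).const_mul (2 * (1 + D))
  simpa using hdiff.add hmain

/-- `mu φ = EV c u v J` -/
theorem mu_eq {r : ℕ} (c : Fin r → ℂ) (u v : Fin r → ℝ) (hw : ∀ i, 0 < u i ∧ u i ≤ v i) (φ : ℝ → ℂ) (hφ1 : ∀ t, ‖φ t‖ = 1)
    (hφ : ∀ t, φ t = 1 + ∑ i, if u i < t ∧ t ≤ v i then c i else 0) (δ : ℝ) (hδ : 0 < δ) (hδu : ∀ i, δ ≤ u i)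
    (J : ℕ) (hJ : 2 < (J + 1) * δ) : mu φ = EV c u v J :=
  (int_mean c u v hw φ hφ1 hφ δ hδ hδu J hJ).limUnder_eq

/-- the mean value exists (from `int_mean`: `δ = min u_i`, or `δ = 1` if `r = 0`; `J` large) -/
theorem mu_tendsto (φ : ℝ → ℂ) (hφ : StepF φ) :
    Tendsto (fun X : ℝ => (∑ n ∈ Icc 1 ⌊X⌋₊, gx φ X n) / X) atTop (nhds (mu φ)) := by
  obtain ⟨r, c, u, v, hw, hv⟩ := hφ.ex
  have hδ : ∃ δ : ℝ, 0 < δ ∧ ∀ i, δ ≤ u i := by
    rcases isEmpty_or_nonempty (Fin r) with h | h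
    · exact ⟨1, one_pos, fun i => h.elim i⟩
    · obtain ⟨i0, hi0⟩ := Finite.exists_min u
      exact ⟨u i0, (hw i0).1, hi0⟩
  obtain ⟨δ, hδ, hδu⟩ := hδ
  obtain ⟨J, hJ⟩ := exists_nat_gt (2 / δ)
  have hJ' : 2 < ((J : ℝ) + 1) * δ := by
    rw [div_lt_iff₀ hδ] at hJ
    nlinarith
  rw [mu_eq c u v hw φ hφ.un hv δ hδ hδu J hJ']
  exact int_mean c u v hw φ hφ.un hv δ hδ hδu J hJ'

/-- `‖mu φ‖ ≤ 1` (`mu_tendsto`, `‖gx φ X n‖ = 1`) -/
theorem mu_le (φ : ℝ → ℂ) (hφ : StepF φ) : ‖mu φ‖ ≤ 1 := by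
  refine le_of_tendsto (mu_tendsto φ hφ).norm ?_
  filter_upwards [eventually_gt_atTop 0] with X hX
  rw [norm_div, Complex.norm_real, Real.norm_of_nonneg hX.le, div_le_one hX]
  refine (norm_sum_le _ _).trans ?_
  have h1 : ∑ n ∈ Icc 1 ⌊X⌋₊, ‖gx φ X n‖ = ⌊X⌋₊ := by
    rw [sum_congr rfl fun n _ => norm_gx φ hφ.un X n]
    simp
  rw [h1]
  exact Nat.floor_le hX.le

end Pool.Agent.LPr
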