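import Pool.Agent.Lib_MP_f1a94e_lp.MarcG
import Pool.Agent.Lib_MP_f1a94e_lp.FewCG
import Pool.Agent.Lib_MP_f1a94e_ecm.RangeA

/-!
# Piece MARCFG: variance of the sums over arcs for `FG f χ`, uniformly in `f` and `χ`
-/

set_option autoImplicit false

namespace Pool.Agent.LPr

open Finset Pool.Agent.GaussMR Pool.Agent.GaussCM Pool.Agent.OmAll Pool.Agent.ECM MeasureTheory

/-- PROOF. Copy of `marc_final` (ecm/MarcFin.lean): `few_mainG` for `ε / 4` gives `δ` and `X4`, `chainC (ε / 4) δ` gives `Q0` and `X6` (independent of `F`), `H0` depends on `C`, `Q0`, `ε` only; `marc_nz` instead of `marc`, the low frequencies are now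
`∑_((fr T).erase 0) ≤ ∑_(fr T \ S) + ∑_(S.erase 0) ≤ 2 (ε / 4) X²`; no zero frequency. `CM (FG f χ)` by `cm_FG`. -/
theorem marc_finG (D : ℕ) (hD : 0 < D) (P0 : ℕ) (ε : ℝ) (hε : 0 < ε) : ∃ H0 : ℝ, 0 < H0 ∧ ∀ H : ℝ, H0 ≤ H → ∃ X0 : ℝ, ∀ X : ℝ, X0 ≤ X →
    ∀ f : ℕ → ℂ, UF P0 f → ∀ χ : G → ℂ, Chi D χ →
    ∫ θ in (0 : ℝ)..(2 * Real.pi), ‖arcS (FG f χ) X (H / X) θ - ((H / X / (2 * Real.pi) : ℝ) : ℂ) * fcC (FG f χ) X 0‖ ^ 2 ≤ ε * H ^ 2 := by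
  classical
  obtain ⟨C, hC, hmarc⟩ := marc_nz
  obtain ⟨δ, X4, hδ, hfew⟩ := few_mainG deficit_range D hD P0 (ε / 4) (by positivity)
  obtain ⟨Q0, X6, hQ0, hchain⟩ := chainC (ε / 4) δ (by positivity) hδ
  have hQpos : 0 < Q0 := by linarith
  refine ⟨Real.sqrt (C * (2 * Q0 + (2 * Q0) ^ 2) / (ε / 4)) + 1, by positivity, fun H hH => ?_⟩
  have hH1 : Real.sqrt (C * (2 * Q0 + (2 * Q0) ^ 2) / (ε / 4)) ≤ H := by linarith
  have hHpos : 0 < H := by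
    have := Real.sqrt_nonneg (C * (2 * Q0 + (2 * Q0) ^ 2) / (ε / 4))
    linarith
  have hH2 : C * (2 * Q0 + (2 * Q0) ^ 2) ≤ ε / 4 * H ^ 2 := by
    have h1 := Real.sq_sqrt (show 0 ≤ C * (2 * Q0 + (2 * Q0) ^ 2) / (ε / 4) by positivity)
    have h2 : C * (2 * Q0 + (2 * Q0) ^ 2) / (ε / 4) ≤ H ^ 2 := by
      rw [← h1]
      exact pow_le_pow_left₀ (Real.sqrt_nonneg _) hH1 2
    rw [div_le_iff₀ (by positivity)] at h2
    linarith
  refine ⟨max (max X4 (max X6 1)) (max (2 * Q0) H), fun X hX f hf χ hχ => ?_⟩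
  have hF : CM (FG f χ) := cm_FG D χ hχ f hf.mul hf.bd
  simp only [max_le_iff] at hX
  obtain ⟨⟨hX4, hX6, hX1⟩, hXQ, hXH⟩ := hX
  have hXpos : 0 < X := by linarith
  set F : G → ℂ := FG f χ with hFdef
  set T : ℕ := ⌊X / Q0⌋₊ with hT
  have hTle : (T : ℝ) ≤ X / Q0 := Nat.floor_le (by positivity)
  have hTge : X / (2 * Q0) ≤ T := by
    have h1 : X / Q0 < T + 1 := Nat.lt_floor_add_one _
    have h2 : 1 ≤ X / (2 * Q0) := by
      rw [le_div_iff₀ (by positivity)]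
      linarith
    have h3 : X / Q0 = 2 * (X / (2 * Q0)) := by field_simp
    linarith
  have hT1r : (1 : ℝ) ≤ T := by
    have h2 : 1 ≤ X / (2 * Q0) := by
      rw [le_div_iff₀ (by positivity)]
      linarith
    linarith
  have hT1 : 1 ≤ T := by exact_mod_cast hT1r
  have hTX : (T : ℝ) ≤ X := hTle.trans (div_le_self hXpos.le hQ0)
  obtain ⟨S, hS, hScard, hSsum⟩ := hchain X hX6 F hF T hTle
  have hw2 : H / X ≤ 2 * Real.pi := by
    have h1 : H / X ≤ 1 := by rw [div_le_one hXpos]; exact hXH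
    have := Real.pi_gt_three
    linarith
  have h1 := hmarc F hF X (H / X) T hX1 (by positivity) hw2 hT1
  -- the low frequencies
  have hS0 : ∑ k ∈ S.erase 0, ‖fcC F X k‖ ^ 2 ≤ ε / 4 * X ^ 2 := by
    refine hfew X hX4 f hf χ hχ (S.erase 0) (fun k hk => ⟨?_, Finset.ne_of_mem_erase hk⟩) ?_
    · have h2 := hS (Finset.mem_of_mem_erase hk)
      rw [mem_fr] at h2
      have h3 : |k| ≤ (T : ℤ) := abs_le.mpr ⟨h2.1, h2.2⟩
      have h4 : |(k : ℝ)| ≤ T := by exact_mod_cast h3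
      exact h4.trans hTX
    · refine le_trans ?_ hScard
      exact_mod_cast Finset.card_erase_le
  have hlow : ∑ k ∈ (fr T).erase 0, ‖fcC F X k‖ ^ 2 ≤ 2 * (ε / 4) * X ^ 2 := by
    have h2 : ∑ k ∈ (fr T).erase 0, ‖fcC F X k‖ ^ 2 ≤ ∑ k ∈ (fr T \ S) ∪ S.erase 0, ‖fcC F X k‖ ^ 2 := by
      refine Finset.sum_le_sum_of_subset_of_nonneg ?_ (fun _ _ _ => by positivity)
      intro k hk
      rw [Finset.mem_erase] at hk
      rw [Finset.mem_union, Finset.mem_sdiff, Finset.mem_erase]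
      by_cases h : k ∈ S
      · exact Or.inr ⟨hk.1, h⟩
      · exact Or.inl ⟨hk.2, h⟩
    have h3 : ∑ k ∈ (fr T \ S) ∪ S.erase 0, ‖fcC F X k‖ ^ 2 ≤ ∑ k ∈ fr T \ S, ‖fcC F X k‖ ^ 2 +
        ∑ k ∈ S.erase 0, ‖fcC F X k‖ ^ 2 := by
      rw [← Finset.sum_union_inter]
      have : 0 ≤ ∑ k ∈ (fr T \ S) ∩ S.erase 0, ‖fcC F X k‖ ^ 2 :=
        Finset.sum_nonneg (fun _ _ => by positivity)
      linarith
    linarith
  have hXT : X / T ≤ 2 * Q0 := by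
    rw [div_le_iff₀ (by linarith)]
    rw [div_le_iff₀ (by positivity)] at hTge
    linarith
  have hXT2 : X ^ 2 / (T : ℝ) ^ 2 ≤ (2 * Q0) ^ 2 := by
    rw [← div_pow]
    exact pow_le_pow_left₀ (by positivity) hXT 2
  calc ∫ θ in (0 : ℝ)..(2 * Real.pi), ‖arcS F X (H / X) θ - ((H / X / (2 * Real.pi) : ℝ) : ℂ) * fcC F X 0‖ ^ 2 ≤
      (H / X) ^ 2 * ∑ k ∈ (fr T).erase 0, ‖fcC F X k‖ ^ 2 + C * (X / T + X ^ 2 / T ^ 2) := h1
    _ ≤ (H / X) ^ 2 * (2 * (ε / 4) * X ^ 2) + C * (2 * Q0 + (2 * Q0) ^ 2) := by gcongr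
    _ ≤ (H / X) ^ 2 * (2 * (ε / 4) * X ^ 2) + ε / 4 * H ^ 2 := by linarith
    _ = 3 / 4 * (ε * H ^ 2) := by
        field_simp
        ring
    _ ≤ ε * H ^ 2 := by
        have : 0 < ε * H ^ 2 := by positivity
        linarith

end Pool.Agent.LPr
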