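import Pool.Agent.Lib_MP_f1a94e_lp.UDefs
import Pool.Agent.Lib_MP_f1a94e_ecm.MarcFin

/-!
# Piece MARCG: variance of the sums over arcs
-/

set_option autoImplicit false

namespace Pool.Agent.LPr

open Finset Pool.Agent.GaussMR Pool.Agent.GaussCM Pool.Agent.OmAll Pool.Agent.ECM MeasureTheory

/-- the weight at the zero frequency -/
private theorem marcg_W0 (w : ℝ) : marcW w 0 = ((w / (2 * Real.pi) : ℝ) : ℂ) := by
  unfold marcW
  have h1 : ∫ u in (-w)..0, Complex.exp (-(((0 : ℤ) : ℝ) * u : ℝ) * Complex.I) = (w : ℂ) := by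
    have h2 : (fun u : ℝ => Complex.exp (-(((0 : ℤ) : ℝ) * u : ℝ) * Complex.I)) = fun _ => (1 : ℂ) := by
      funext u
      simp
    rw [h2, intervalIntegral.integral_const]
    simp
  rw [h1, Complex.real_smul]
  push_cast
  ring

private theorem marcg_int (F : G → ℂ) (X w : ℝ) (hw : 0 < w) (hw2 : w ≤ 2 * Real.pi) :
    ∫ θ in (0 : ℝ)..(2 * Real.pi), arcS F X w θ =
      (2 * Real.pi : ℝ) * (((w / (2 * Real.pi) : ℝ) : ℂ) * fcC F X 0) := by
  have hpi := Real.pi_pos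
  have h := marc_coeff F X w hw hw2 0
  rw [fourierCoeffOn_eq_integral, marcg_W0] at h
  rw [← h]
  simp only [neg_zero, fourier_zero, one_smul, sub_zero]
  rw [Complex.real_smul]
  have h2 : ((2 * Real.pi : ℝ) : ℂ) ≠ 0 := by
    rw [Ne, Complex.ofReal_eq_zero]
    positivity
  have h3 : ((1 / (2 * Real.pi) : ℝ) : ℂ) = (((2 * Real.pi : ℝ) : ℂ))⁻¹ := by
    push_cast
    ring
  rw [h3, mul_inv_cancel_left₀ h2]

private theorem marcg_expand (F : G → ℂ) (X w : ℝ) (hw : 0 < w) (hw2 : w ≤ 2 * Real.pi) :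
    ∫ θ in (0 : ℝ)..(2 * Real.pi), ‖arcS F X w θ - ((w / (2 * Real.pi) : ℝ) : ℂ) * fcC F X 0‖ ^ 2 =
      (∫ θ in (0 : ℝ)..(2 * Real.pi), ‖arcS F X w θ‖ ^ 2) -
        2 * Real.pi * ‖((w / (2 * Real.pi) : ℝ) : ℂ) * fcC F X 0‖ ^ 2 := by
  have hpi := Real.pi_pos
  have hI := marcg_int F X w hw hw2
  set c : ℂ := ((w / (2 * Real.pi) : ℝ) : ℂ) * fcC F X 0 with hc
  have hm := marc_memLp F X w
  have hf : IntervalIntegrable (arcS F X w) volume 0 (2 * Real.pi) := by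
    rw [intervalIntegrable_iff_integrableOn_Ioc_of_le (by positivity)]
    exact hm.integrable (by norm_num)
  have hf2 : IntervalIntegrable (fun θ => ‖arcS F X w θ‖ ^ 2) volume 0 (2 * Real.pi) := by
    rw [intervalIntegrable_iff_integrableOn_Ioc_of_le (by positivity)]
    exact hm.integrable_norm_pow (by norm_num)
  have hg : IntervalIntegrable (fun θ => (starRingEnd ℂ) c * arcS F X w θ) volume 0 (2 * Real.pi) :=
    hf.const_mul _
  have hre : IntervalIntegrable (fun θ => Complex.reCLM ((starRingEnd ℂ) c * arcS F X w θ)) volume 0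
      (2 * Real.pi) := by
    rw [intervalIntegrable_iff_integrableOn_Ioc_of_le (by positivity)] at hg ⊢
    exact Complex.reCLM.integrable_comp hg
  have h1 : ∀ θ : ℝ, ‖arcS F X w θ - c‖ ^ 2 =
      ‖arcS F X w θ‖ ^ 2 - 2 * Complex.reCLM ((starRingEnd ℂ) c * arcS F X w θ) + ‖c‖ ^ 2 := by
    intro θ
    rw [← Complex.normSq_eq_norm_sq, ← Complex.normSq_eq_norm_sq, ← Complex.normSq_eq_norm_sq,
      Complex.normSq_apply, Complex.normSq_apply, Complex.normSq_apply, Complex.reCLM_apply,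
      Complex.mul_re, Complex.sub_re, Complex.sub_im, Complex.conj_re, Complex.conj_im]
    ring
  simp only [h1]
  rw [intervalIntegral.integral_add (hf2.sub (hre.const_mul 2)) intervalIntegrable_const,
    intervalIntegral.integral_sub hf2 (hre.const_mul 2), intervalIntegral.integral_const_mul,
    Complex.reCLM.intervalIntegral_comp_comm hg, intervalIntegral.integral_const_mul, hI,
    intervalIntegral.integral_const]
  have h2 : Complex.reCLM ((starRingEnd ℂ) c * (((2 * Real.pi : ℝ) : ℂ) * c)) =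
      2 * Real.pi * ‖c‖ ^ 2 := by
    rw [Complex.reCLM_apply, ← Complex.normSq_eq_norm_sq]
    have h3 : (starRingEnd ℂ) c * (((2 * Real.pi : ℝ) : ℂ) * c) =
        ((2 * Real.pi : ℝ) : ℂ) * ((starRingEnd ℂ) c * c) := by ring
    rw [h3, ← Complex.normSq_eq_conj_mul_self, ← Complex.ofReal_mul, Complex.ofReal_re]
  rw [h2, smul_eq_mul, sub_zero]
  ring

/-- PROOF. As `marc` (ecm/Marc.lean), without the zero frequency. The Fourier coefficients of `θ ↦ arcS F X w θ` are `marcW w k * fcC F X k` (`marc_coeff`, with the normalisation used there), the coefficient at `k = 0` is `(w / 2π) fcC F X 0`,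
so `arcS F X w θ - (w / 2π) fcC F X 0` has the coefficients `marcW w k * fcC F X k` for `k ≠ 0` and `0` for `k = 0`: from `marc_parseval` (a `HasSum` over `ℤ` with the value `(2π)⁻¹ ∫ ‖arcS‖²`),
`∫ ‖arcS - c0‖² = ∫ ‖arcS‖² - 2π ‖c0‖²` (expand the square; `∫ arcS = 2π c0`, which is the statement `marc_coeff` for `k = 0`), `c0 = (w / 2π) fcC F X 0`, hence `(2π)⁻¹ ∫ ‖arcS - c0‖² = ∑_(k ≠ 0) ‖marcW w k fcC F X k‖²`. The rest is the proof of `marc` (dyadic annuli by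
`marc_annulus`, `marc_ls`), with `fr T` replaced by `(fr T).erase 0`. -/
theorem marc_nz : ∃ C : ℝ, 0 < C ∧ ∀ F : G → ℂ, CM F → ∀ (X w : ℝ) (T : ℕ), 1 ≤ X → 0 < w →
    w ≤ 2 * Real.pi → 1 ≤ T →
    ∫ θ in (0 : ℝ)..(2 * Real.pi), ‖arcS F X w θ - ((w / (2 * Real.pi) : ℝ) : ℂ) * fcC F X 0‖ ^ 2 ≤
      w ^ 2 * ∑ k ∈ (fr T).erase 0, ‖fcC F X k‖ ^ 2 + C * (X / T + X ^ 2 / T ^ 2) := by
  classical
  obtain ⟨C, hC, hls⟩ := marc_ls
  refine ⟨2 * Real.pi * (4 * C), by positivity, fun F hF X w T hX hw hw2 hT => ?_⟩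
  have hpi := Real.pi_gt_three
  have hX0 : 0 < X := by linarith
  have hT0 : (0 : ℝ) < T := by exact_mod_cast hT
  have hP := marc_parseval F X w hw hw2
  set a0 : ℝ := ‖((w / (2 * Real.pi) : ℝ) : ℂ) * fcC F X 0‖ ^ 2 with ha0
  set B : ℝ := (w / (2 * Real.pi)) ^ 2 * ∑ k ∈ (fr T).erase 0, ‖fcC F X k‖ ^ 2 +
    4 * C * (X / T + X ^ 2 / T ^ 2) with hB
  have hfr : ∀ J : ℕ, ∑ k ∈ fr (2 ^ J * T), ‖marcW w k * fcC F X k‖ ^ 2 ≤
      a0 + (w / (2 * Real.pi)) ^ 2 * ∑ k ∈ (fr T).erase 0, ‖fcC F X k‖ ^ 2 +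
        ∑ j ∈ Finset.range J, C * (2 * (1 / 2) ^ j * (X / T) + (1 / 2) ^ j * (X ^ 2 / T ^ 2)) := by
    intro J
    induction J with
    | zero =>
      rw [pow_zero, one_mul, Finset.range_zero, Finset.sum_empty, add_zero, Finset.mul_sum]
      have h0 : (0 : ℤ) ∈ fr T := by
        rw [mem_fr]
        constructor
        · simp
        · exact_mod_cast Nat.zero_le T
      rw [← Finset.add_sum_erase _ _ h0, marcg_W0]
      refine add_le_add le_rfl (Finset.sum_le_sum fun k _ => ?_)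
      rw [norm_mul, mul_pow]
      exact mul_le_mul_of_nonneg_right (pow_le_pow_left₀ (norm_nonneg _) (marcW_le w hw k) 2)
        (sq_nonneg _)
    | succ J ih =>
      have hsub : fr (2 ^ J * T) ⊆ fr (2 ^ (J + 1) * T) := by
        intro k hk
        rw [mem_fr] at hk ⊢
        have h1 : ((2 ^ J * T : ℕ) : ℤ) ≤ ((2 ^ (J + 1) * T : ℕ) : ℤ) := by
          have : 2 ^ J * T ≤ 2 ^ (J + 1) * T :=
            Nat.mul_le_mul_right _ (Nat.pow_le_pow_right (by norm_num) (by omega))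
          exact_mod_cast this
        omega
      rw [← Finset.sum_sdiff hsub, Finset.sum_range_succ]
      have := marc_annulus hC hls F hF X w T hX hT J
      linarith
  have hgeo : ∀ J : ℕ, ∑ j ∈ Finset.range J, C * (2 * (1 / 2) ^ j * (X / T) +
      (1 / 2) ^ j * (X ^ 2 / T ^ 2)) ≤ 4 * C * (X / T + X ^ 2 / T ^ 2) := by
    intro J
    have h1 : ∑ j ∈ Finset.range J, ((1 : ℝ) / 2) ^ j ≤ 2 := by
      have := geom_sum_eq (show (1 / 2 : ℝ) ≠ 1 by norm_num) J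
      rw [this]
      have h2 : (0 : ℝ) ≤ (1 / 2) ^ J := by positivity
      have h3 : ((1 / 2 : ℝ) ^ J - 1) / (1 / 2 - 1) = 2 * (1 - (1 / 2) ^ J) := by
        field_simp
        ring
      rw [h3]
      linarith
    have h2 : ∑ j ∈ Finset.range J, C * (2 * (1 / 2) ^ j * (X / T) +
        (1 / 2) ^ j * (X ^ 2 / T ^ 2)) =
        C * (2 * (X / T) + X ^ 2 / T ^ 2) * ∑ j ∈ Finset.range J, ((1 : ℝ) / 2) ^ j := by
      rw [Finset.mul_sum]
      refine Finset.sum_congr rfl fun j _ => ?_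
      ring
    rw [h2]
    have h3 : 0 ≤ C * (2 * (X / T) + X ^ 2 / T ^ 2) := by positivity
    have h4 : 0 ≤ C * (X ^ 2 / T ^ 2) := by positivity
    calc C * (2 * (X / T) + X ^ 2 / T ^ 2) * ∑ j ∈ Finset.range J, ((1 : ℝ) / 2) ^ j ≤
        C * (2 * (X / T) + X ^ 2 / T ^ 2) * 2 := mul_le_mul_of_nonneg_left h1 h3
      _ ≤ 4 * C * (X / T + X ^ 2 / T ^ 2) := by linarith
  have hle : (2 * Real.pi)⁻¹ * ∫ θ in (0 : ℝ)..(2 * Real.pi), ‖arcS F X w θ‖ ^ 2 ≤ a0 + B := by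
    refine hasSum_le_of_sum_le hP fun s => ?_
    obtain ⟨J, hJ⟩ : ∃ J : ℕ, s ⊆ fr (2 ^ J * T) := by
      obtain ⟨J, hJ⟩ : ∃ J : ℕ, ∀ k ∈ s, |k| ≤ J := by
        refine ⟨∑ k ∈ s, k.natAbs, fun k hk => ?_⟩
        have h1 := Finset.single_le_sum (f := fun k : ℤ => k.natAbs) (fun _ _ => Nat.zero_le _) hk
        rw [Int.abs_eq_natAbs]
        exact_mod_cast h1
      refine ⟨J, fun k hk => ?_⟩
      have h1 := abs_le.mp (hJ k hk)
      have h2 : (J : ℤ) ≤ ((2 ^ J * T : ℕ) : ℤ) := by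
        have h3 : J < 2 ^ J := Nat.lt_two_pow_self
        have h4 : 2 ^ J * 1 ≤ 2 ^ J * T := Nat.mul_le_mul_left _ hT
        have : J ≤ 2 ^ J * T := by omega
        exact_mod_cast this
      rw [mem_fr]
      omega
    refine (Finset.sum_le_sum_of_subset_of_nonneg hJ (fun _ _ _ => by positivity)).trans ?_
    exact (hfr J).trans (by rw [hB]; have := hgeo J; linarith)
  rw [inv_mul_le_iff₀ (by positivity)] at hle
  rw [marcg_expand F X w hw hw2, ← ha0]
  have h1 : 2 * Real.pi * ((w / (2 * Real.pi)) ^ 2 * ∑ k ∈ (fr T).erase 0, ‖fcC F X k‖ ^ 2) ≤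
      w ^ 2 * ∑ k ∈ (fr T).erase 0, ‖fcC F X k‖ ^ 2 := by
    rw [← mul_assoc]
    apply mul_le_mul_of_nonneg_right _ (Finset.sum_nonneg fun _ _ => by positivity)
    rw [div_pow]
    have : 2 * Real.pi * (w ^ 2 / (2 * Real.pi) ^ 2) = w ^ 2 / (2 * Real.pi) := by
      field_simp
    rw [this, div_le_iff₀ (by positivity)]
    nlinarith [sq_nonneg w]
  rw [hB] at hle
  linarith

end Pool.Agent.LPr
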