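import Pool.Agent.Lib_MP_f1a94e_lp.VDefs
import Pool.Agent.Lib_MP_f1a94e_mr.MertensA

/-!
# Piece MERTT: Mertens' theorem in windows
-/

set_option autoImplicit false

namespace Pool.Agent.LPr

open Finset Pool.Agent.GaussMR Filter


private theorem mw_split (F : ℕ → ℝ) {X s t : ℝ} (hX : 1 < X) (hst : s ≤ t) :
    ∑ p ∈ PW X s t, F p = ∑ p ∈ (Icc 1 ⌊X ^ t⌋₊).filter (fun p => p.Prime), F p -
      ∑ p ∈ (Icc 1 ⌊X ^ s⌋₊).filter (fun p => p.Prime), F p := by
  classical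
  have hX0 : (0 : ℝ) ≤ X := by linarith
  have hle : X ^ s ≤ X ^ t := Real.rpow_le_rpow_of_exponent_le hX.le hst
  have h1 := Finset.sum_filter_add_sum_filter_not ((Icc 1 ⌊X ^ t⌋₊).filter (fun p => p.Prime))
    (fun p : ℕ => X ^ s < (p : ℝ)) F
  have h2 : ((Icc 1 ⌊X ^ t⌋₊).filter (fun p => p.Prime)).filter (fun p : ℕ => X ^ s < (p : ℝ)) =
      PW X s t := by
    ext p
    rw [mem_PW hX0, mem_filter, mem_filter, mem_Icc]
    constructor
    · rintro ⟨⟨⟨-, a⟩, b⟩, c⟩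
      exact ⟨b, c, (Nat.le_floor_iff (Real.rpow_nonneg hX0 t)).1 a⟩
    · rintro ⟨a, b, c⟩
      exact ⟨⟨⟨a.one_lt.le, Nat.le_floor c⟩, a⟩, b⟩
  have h3 : ((Icc 1 ⌊X ^ t⌋₊).filter (fun p => p.Prime)).filter (fun p : ℕ => ¬ X ^ s < (p : ℝ)) =
      (Icc 1 ⌊X ^ s⌋₊).filter (fun p => p.Prime) := by
    ext p
    rw [mem_filter, mem_filter, mem_filter, mem_Icc, mem_Icc, not_lt]
    constructor
    · rintro ⟨⟨⟨a, -⟩, b⟩, c⟩
      exact ⟨⟨a, Nat.le_floor c⟩, b⟩
    · rintro ⟨⟨a, b⟩, c⟩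
      have d := (Nat.le_floor_iff (Real.rpow_nonneg hX0 s)).1 b
      exact ⟨⟨⟨a, Nat.le_floor (d.trans hle)⟩, c⟩, d⟩
  rw [h2, h3] at h1
  linarith

private theorem mw_add (F : ℕ → ℝ) {X s t w : ℝ} (hX : 1 < X) (hst : s ≤ t) (htw : t ≤ w) :
    ∑ p ∈ PW X s w, F p = ∑ p ∈ PW X s t, F p + ∑ p ∈ PW X t w, F p := by
  rw [mw_split F hX hst, mw_split F hX htw, mw_split F hX (hst.trans htw)]
  ring

private theorem mw_one (g : ℕ → ℝ) (hg : ∀ p, 0 ≤ g p) (C : ℝ)
    (h : ∀ x : ℝ, 2 ≤ x → |∑ p ∈ (Icc 1 ⌊x⌋₊).filter (fun p => p.Prime), g p * Real.log p / p - Real.log x| ≤ C)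
    {X s t : ℝ} (hX : 1 < X) (hs : 0 < s) (hst : s ≤ t) (h2 : 2 ≤ X ^ s) :
    1 - s / t - 2 * C / (s * Real.log X) ≤ ∑ p ∈ PW X s t, g p / p ∧
      ∑ p ∈ PW X s t, g p / p ≤ t / s - 1 + 2 * C / (s * Real.log X) := by
  have hX0 : (0 : ℝ) ≤ X := by linarith
  have hXp : (0 : ℝ) < X := by linarith
  have hL : 0 < Real.log X := Real.log_pos hX
  have ht : 0 < t := hs.trans_le hst
  have hle : X ^ s ≤ X ^ t := Real.rpow_le_rpow_of_exponent_le hX.le hst
  have e1 := h (X ^ s) h2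
  have e2 := h (X ^ t) (h2.trans hle)
  rw [Real.log_rpow hXp] at e1 e2
  have hC : 0 ≤ C := (abs_nonneg _).trans e1
  have e3 := mw_split (fun p => g p * Real.log p / p) hX hst
  have b1 : ∑ p ∈ PW X s t, g p * Real.log p / p ≤ t * Real.log X * ∑ p ∈ PW X s t, g p / p := by
    rw [mul_sum]
    refine sum_le_sum fun p hp => ?_
    obtain ⟨hp1, hp2, hp3⟩ := (mem_PW hX0).1 hp
    have hp0 : (0 : ℝ) < p := by exact_mod_cast hp1.pos
    have k1 : Real.log p ≤ t * Real.log X := by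
      rw [← Real.log_rpow hXp]
      exact Real.log_le_log hp0 hp3
    have k2 : 0 ≤ g p / p := div_nonneg (hg p) hp0.le
    calc g p * Real.log p / p = Real.log p * (g p / p) := by ring
      _ ≤ t * Real.log X * (g p / p) := mul_le_mul_of_nonneg_right k1 k2
  have b2 : s * Real.log X * ∑ p ∈ PW X s t, g p / p ≤ ∑ p ∈ PW X s t, g p * Real.log p / p := by
    rw [mul_sum]
    refine sum_le_sum fun p hp => ?_
    obtain ⟨hp1, hp2, hp3⟩ := (mem_PW hX0).1 hp
    have hp0 : (0 : ℝ) < p := by exact_mod_cast hp1.pos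
    have k1 : s * Real.log X ≤ Real.log p := by
      rw [← Real.log_rpow hXp]
      exact Real.log_le_log (Real.rpow_pos_of_pos hXp s) hp2.le
    have k2 : 0 ≤ g p / p := div_nonneg (hg p) hp0.le
    calc s * Real.log X * (g p / p) ≤ Real.log p * (g p / p) := mul_le_mul_of_nonneg_right k1 k2
      _ = g p * Real.log p / p := by ring
  set S := ∑ p ∈ PW X s t, g p / p with hS
  set B := ∑ p ∈ PW X s t, g p * Real.log p / p with hB
  rw [abs_le] at e1 e2
  have f1 : B ≤ (t - s) * Real.log X + 2 * C := by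
    rw [e3]
    nlinarith [e1.1, e2.2]
  have f2 : (t - s) * Real.log X - 2 * C ≤ B := by
    rw [e3]
    nlinarith [e1.2, e2.1]
  have hsL : 0 < s * Real.log X := mul_pos hs hL
  have htL : 0 < t * Real.log X := mul_pos ht hL
  constructor
  · have g1 : ((t - s) * Real.log X - 2 * C) / (t * Real.log X) ≤ S := by
      rw [div_le_iff₀ htL]
      linarith
    have g2 : ((t - s) * Real.log X - 2 * C) / (t * Real.log X) = 1 - s / t - 2 * C / (t * Real.log X) := by
      field_simp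
    have g3 : 2 * C / (t * Real.log X) ≤ 2 * C / (s * Real.log X) :=
      div_le_div_of_nonneg_left (by linarith) hsL (mul_le_mul_of_nonneg_right hst hL.le)
    linarith
  · have g1 : S ≤ ((t - s) * Real.log X + 2 * C) / (s * Real.log X) := by
      rw [le_div_iff₀ hsL]
      linarith
    have g2 : ((t - s) * Real.log X + 2 * C) / (s * Real.log X) = t / s - 1 + 2 * C / (s * Real.log X) := by
      field_simp
    linarith

private theorem mw_grid (g : ℕ → ℝ) (hg : ∀ p, 0 ≤ g p) (C : ℝ)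
    (h : ∀ x : ℝ, 2 ≤ x → |∑ p ∈ (Icc 1 ⌊x⌋₊).filter (fun p => p.Prime), g p * Real.log p / p - Real.log x| ≤ C)
    {X u κ : ℝ} (hX : 1 < X) (hu : 0 < u) (hκ : 1 ≤ κ) (h2 : 2 ≤ X ^ u) (n : ℕ) :
    n * (1 - 1 / κ) - n * (2 * C / (u * Real.log X)) ≤ ∑ p ∈ PW X u (u * κ ^ n), g p / p ∧
      ∑ p ∈ PW X u (u * κ ^ n), g p / p ≤ n * (κ - 1) + n * (2 * C / (u * Real.log X)) := by
  have hL : 0 < Real.log X := Real.log_pos hX
  have hκ0 : 0 < κ := by linarith
  have hC : 0 ≤ C := (abs_nonneg _).trans (h 2 le_rfl)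
  induction n with
  | zero =>
    have e : ∑ p ∈ PW X u (u * κ ^ 0), g p / p = 0 := by
      rw [pow_zero, mul_one, mw_split _ hX le_rfl, sub_self]
    rw [e]
    simp
  | succ n ih =>
    have hn1 : 1 ≤ κ ^ n := one_le_pow₀ hκ
    have hun : u ≤ u * κ ^ n := by nlinarith
    have hunn : u * κ ^ n ≤ u * κ ^ (n + 1) := by
      rw [pow_succ]
      have : 0 < u * κ ^ n := by positivity
      nlinarith
    have hs : 0 < u * κ ^ n := by positivity
    have h2' : 2 ≤ X ^ (u * κ ^ n) := h2.trans (Real.rpow_le_rpow_of_exponent_le hX.le hun)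
    have k := mw_one g hg C h hX hs hunn h2'
    have r1 : u * κ ^ n / (u * κ ^ (n + 1)) = 1 / κ := by
      rw [pow_succ]
      field_simp
    have r2 : u * κ ^ (n + 1) / (u * κ ^ n) = κ := by
      rw [pow_succ]
      field_simp
    have r3 : 2 * C / (u * κ ^ n * Real.log X) ≤ 2 * C / (u * Real.log X) :=
      div_le_div_of_nonneg_left (by linarith) (mul_pos hu hL) (mul_le_mul_of_nonneg_right hun hL.le)
    rw [r1, r2] at k
    rw [mw_add (fun p => g p / p) hX hun hunn]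
    push_cast
    constructor <;> nlinarith [k.1, k.2, ih.1, ih.2]

/-- PROOF. `A x = ∑_(p ≤ x) g p log p / p = log x + O(C)`. If `u = v` the window is empty and `log 1 = 0`. Otherwise let `N ≥ 1`, `t_i = u (v/u)^(i/N)`, `i = 0..N`. For `X` large the window `PW X u v` is the disjoint union of the `PW X t_i t_(i+1)`, and on the latter
`t_i log X < log p ≤ t_(i+1) log X`, so `∑_(p ∈ PW X t_i t_(i+1)) g p / p` lies between `(A (X^t_(i+1)) - A (X^t_i)) / (t_(i+1) log X)` and `(A (X^t_(i+1)) - A (X^t_i)) / (t_i log X)`, where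
`A (X^t_(i+1)) - A (X^t_i) = (t_(i+1) - t_i) log X + O(2 C)`. With `κ = (v/u)^(1/N)`: `(t_(i+1) - t_i) / t_i = κ - 1`, `(t_(i+1) - t_i) / t_(i+1) = 1 - 1/κ`; so
`N (1 - 1/κ) - 2 C N / (u log X) ≤ ∑_(p ∈ PW X u v) g p / p ≤ N (κ - 1) + 2 C N / (u log X)`. Also `1 - 1/κ ≤ log κ ≤ κ - 1`, `N log κ = log (v/u)`, and `N (κ - 1) - N (1 - 1/κ) = N (κ - 1)² / κ → 0` as `N → ∞` (`κ - 1 ≤ e log κ` for `log κ ≤ 1`, so it is
`≤ e² log(v/u)² / N`). Given `ε` choose `N`, then `X` large. -/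
theorem mert_of_log (g : ℕ → ℝ) (hg : ∀ p, 0 ≤ g p) (C : ℝ)
    (h : ∀ x : ℝ, 2 ≤ x → |∑ p ∈ (Icc 1 ⌊x⌋₊).filter (fun p => p.Prime), g p * Real.log p / p - Real.log x| ≤ C) :
    Mert g := by
  refine ⟨hg, fun u v hu huv => ?_⟩
  have hv : 0 < v := hu.trans_le huv
  have hC : 0 ≤ C := (abs_nonneg _).trans (h 2 le_rfl)
  set r := Real.log (v / u) with hr
  have hr0 : 0 ≤ r := Real.log_nonneg ((one_le_div hu).2 huv)
  rw [Metric.tendsto_nhds]
  intro ε hε
  obtain ⟨N, hN⟩ := exists_nat_gt (max 1 (max r (2 * r ^ 2 / ε)))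
  have hN1 : (1 : ℝ) < N := lt_of_le_of_lt (le_max_left _ _) hN
  have hNr : r < N := lt_of_le_of_lt ((le_max_left _ _).trans (le_max_right _ _)) hN
  have hNe : 2 * r ^ 2 / ε < N := lt_of_le_of_lt ((le_max_right _ _).trans (le_max_right _ _)) hN
  have hN0 : (0 : ℝ) < N := by linarith
  set κ := Real.exp (r / N) with hκd
  have hκ : 1 ≤ κ := Real.one_le_exp (div_nonneg hr0 hN0.le)
  have hκN : u * κ ^ N = v := by
    rw [hκd, ← Real.exp_nat_mul, mul_div_cancel₀ _ hN0.ne', hr, Real.exp_log (div_pos hv hu),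
      mul_div_cancel₀ _ hu.ne']
  have hx1 : |r / N| ≤ 1 := by
    rw [abs_of_nonneg (div_nonneg hr0 hN0.le), div_le_one hN0]
    exact hNr.le
  have q1 := Real.abs_exp_sub_one_sub_id_le hx1
  have q2 := Real.abs_exp_sub_one_sub_id_le (x := -(r / N)) (by rwa [abs_neg])
  rw [← hκd, abs_le] at q1
  rw [Real.exp_neg, ← hκd, abs_le] at q2
  have hsq : N * (r / N) ^ 2 < ε / 2 := by
    have : (N : ℝ) * (r / N) ^ 2 = r ^ 2 / N := by field_simp
    rw [this, div_lt_iff₀ hN0]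
    rw [div_lt_iff₀ hε] at hNe
    linarith
  have u1 : N * (κ - 1) ≤ r + N * (r / N) ^ 2 := by
    have e : (N : ℝ) * (r / N) = r := mul_div_cancel₀ _ hN0.ne'
    have := mul_le_mul_of_nonneg_left q1.2 hN0.le
    nlinarith
  have u2 : r - N * (r / N) ^ 2 ≤ N * (1 - 1 / κ) := by
    have e : (N : ℝ) * (r / N) = r := mul_div_cancel₀ _ hN0.ne'
    have := mul_le_mul_of_nonneg_left q2.2 hN0.le
    rw [one_div]
    nlinarith
  have l1 : ∀ᶠ X : ℝ in atTop, 2 ≤ X ^ u := (tendsto_rpow_atTop hu).eventually_ge_atTop 2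
  have l2 : ∀ᶠ X : ℝ in atTop, 4 * C * N / (u * ε) < Real.log X :=
    Real.tendsto_log_atTop.eventually_gt_atTop _
  filter_upwards [l1, l2, eventually_gt_atTop (1 : ℝ)] with X h1 h2 h3
  have hL : 0 < Real.log X := Real.log_pos h3
  have k := mw_grid g hg C h h3 hu hκ h1 N
  rw [hκN] at k
  have w : N * (2 * C / (u * Real.log X)) < ε / 2 := by
    rw [div_lt_iff₀ (mul_pos hu hε)] at h2
    have e : (N : ℝ) * (2 * C / (u * Real.log X)) = (2 * C * N) / (u * Real.log X) := by ring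
    rw [e, div_lt_iff₀ (mul_pos hu hL)]
    nlinarith
  rw [Real.dist_eq, abs_lt]
  constructor <;> linarith [k.1, k.2]

/-- `mert_one`, `mertensA_powers` (the proper prime powers contribute a bounded amount, `Λ p = log p`), `log ⌊x⌋ = log x + O(1)`, `mert_of_log`. -/
theorem mert_all : Mert (fun _ => 1) := by
  obtain ⟨C1, h1⟩ := mert_one
  obtain ⟨C3, h3⟩ := mertensA_powers
  refine mert_of_log _ (fun _ => zero_le_one) (C1 + C3 + Real.log 2) fun x hx => ?_
  set N := ⌊x⌋₊ with hN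
  have hN1 : 1 ≤ N := by
    rw [hN, Nat.one_le_floor_iff]
    linarith
  have hNpos : (0 : ℝ) < N := by exact_mod_cast hN1
  have k1 := h1 N hN1
  have k3 := h3 N
  have hlog : |Real.log N - Real.log x| ≤ Real.log 2 := by
    have a1 : (N : ℝ) ≤ x := Nat.floor_le (by linarith)
    have a2 : x ≤ 2 * N := by
      have := Nat.lt_floor_add_one x
      rw [← hN] at this
      have : (1 : ℝ) ≤ N := by exact_mod_cast hN1
      linarith
    have b1 := Real.log_le_log hNpos a1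
    have b2 := Real.log_le_log (by linarith) a2
    rw [Real.log_mul (by norm_num) hNpos.ne'] at b2
    rw [abs_le]
    constructor <;> linarith [Real.log_nonneg (by norm_num : (1 : ℝ) ≤ 2)]
  have e1 : ∑ p ∈ (Icc 1 N).filter (fun p => p.Prime), (1 : ℝ) * Real.log p / p =
      ∑ n ∈ Icc 1 N, ArithmeticFunction.vonMangoldt n / (n : ℝ) -
        ∑ n ∈ Icc 1 N, (if n.Prime then 0 else ArithmeticFunction.vonMangoldt n) / (n : ℝ) := by
    rw [← sum_sub_distrib, sum_filter]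
    refine sum_congr rfl fun n _ => ?_
    split_ifs with hp
    · rw [ArithmeticFunction.vonMangoldt_apply_prime hp]
      ring
    · ring
  have e2 : 0 ≤ ∑ n ∈ Icc 1 N, (if n.Prime then 0 else ArithmeticFunction.vonMangoldt n) / (n : ℝ) := by
    refine sum_nonneg fun n _ => ?_
    split_ifs
    · simp
    · exact div_nonneg ArithmeticFunction.vonMangoldt_nonneg n.cast_nonneg
  rw [e1]
  rw [abs_le] at k1 hlog ⊢
  constructor <;> linarith [k1.1, k1.2, hlog.1, hlog.2]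

/-- `mertens_log` (twice) and `mert_of_log`. -/
theorem mert_four : Mert (fun p => if p % 4 = 1 then 2 else 0) := by
  obtain ⟨C, h⟩ := mertens_log
  refine mert_of_log _ (fun p => by split_ifs <;> norm_num) (2 * C) fun x hx => ?_
  have k := h x hx
  have e : ∑ p ∈ (Icc 1 ⌊x⌋₊).filter (fun p => p.Prime),
      (if p % 4 = 1 then (2 : ℝ) else 0) * Real.log p / p =
      2 * ∑ p ∈ (Icc 1 ⌊x⌋₊).filter (fun p => p.Prime ∧ p % 4 = 1), Real.log p / p := by
    rw [mul_sum, ← filter_filter, sum_filter (fun p => p % 4 = 1)]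
    refine sum_congr rfl fun p _ => ?_
    split_ifs
    · ring
    · ring
  rw [e]
  rw [abs_le] at k ⊢
  constructor <;> linarith [k.1, k.2]

end Pool.Agent.LPr
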