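import Pool.Agent.Lib_MP_f1a94e_lp.MarcFG
import Pool.Agent.Lib_MP_f1a94e_lp.ArcDecG

/-!
# Piece MROG: variance over arcs in residue classes, uniformly in `f`
-/

set_option autoImplicit false

namespace Pool.Agent.LPr

open Finset Pool.Agent.GaussMR Pool.Agent.GaussCM Pool.Agent.OmAll Pool.Agent.ECM Pool.Agent.OmEq MeasureTheory

private theorem mrog_arc_per (θ w : ℝ) (z : G) : InArc (θ + 2 * Real.pi) w z ↔ InArc θ w z := by
  unfold InArc
  constructor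
  · rintro ⟨k, h2, h3⟩
    refine ⟨k - 1, ?_, ?_⟩
    · push_cast
      linarith
    · push_cast
      linarith
  · rintro ⟨k, h2, h3⟩
    refine ⟨k + 1, ?_, ?_⟩
    · push_cast
      linarith
    · push_cast
      linarith

private theorem mrog_arc_meas (w : ℝ) (z : G) : MeasurableSet {θ : ℝ | InArc θ w z} := by
  have h : {θ : ℝ | InArc θ w z} = ⋃ j : ℤ, Set.Ioc (Complex.arg (z : ℂ) + 2 * Real.pi * j - w)
      (Complex.arg (z : ℂ) + 2 * Real.pi * j) := by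
    ext θ
    rw [Set.mem_iUnion]
    constructor
    · rintro ⟨k, h2, h3⟩
      exact ⟨k, by linarith, h2⟩
    · rintro ⟨k, h2, h3⟩
      exact ⟨k, h3, by linarith⟩
  rw [h]
  exact MeasurableSet.iUnion (fun k => measurableSet_Ioc)

private theorem mrog_meas (F : G → ℂ) (X w : ℝ) (u : ℂ) : Measurable (fun θ => arcS F X w θ - u) := by
  classical
  refine Measurable.sub_const ?_ u
  unfold arcS
  apply Finset.measurable_fun_sum
  intro z _
  exact Measurable.ite (mrog_arc_meas w z) measurable_const measurable_const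

private theorem mrog_bd (F : G → ℂ) (X w θ : ℝ) (u : ℂ) : ‖arcS F X w θ - u‖ ≤ (∑ z ∈ V X, ‖F z‖) + ‖u‖ := by
  classical
  refine (norm_sub_le _ _).trans (add_le_add ?_ le_rfl)
  unfold arcS
  refine (norm_sum_le _ _).trans (Finset.sum_le_sum fun z _ => ?_)
  split_ifs
  · exact le_rfl
  · rw [norm_zero]
    exact norm_nonneg _

private theorem mrog_int (F : G → ℂ) (X w s a c : ℝ) (u : ℂ) :
    IntervalIntegrable (fun θ => ‖arcS F X w (θ - s) - u‖ ^ 2) MeasureTheory.volume a c := by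
  have h1 : Measurable (fun θ => ‖arcS F X w (θ - s) - u‖ ^ 2) :=
    (((mrog_meas F X w u).comp (measurable_id.sub_const s)).norm).pow_const 2
  refine (intervalIntegrable_const (c := ((∑ z ∈ V X, ‖F z‖) + ‖u‖) ^ 2)).mono_fun
    h1.aestronglyMeasurable ?_
  refine Filter.Eventually.of_forall (fun θ => ?_)
  dsimp only
  rw [Real.norm_of_nonneg (by positivity), Real.norm_of_nonneg (by positivity)]
  exact pow_le_pow_left₀ (norm_nonneg _) (mrog_bd F X w _ u) 2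

private theorem mrog_shift (F : G → ℂ) (X w s : ℝ) (u : ℂ) :
    ∫ θ in (0 : ℝ)..(2 * Real.pi), ‖arcS F X w (θ - s) - u‖ ^ 2 =
      ∫ θ in (0 : ℝ)..(2 * Real.pi), ‖arcS F X w θ - u‖ ^ 2 := by
  have hp : Function.Periodic (fun θ => ‖arcS F X w θ - u‖ ^ 2) (2 * Real.pi) := by
    intro θ
    dsimp only
    have : arcS F X w (θ + 2 * Real.pi) = arcS F X w θ := by
      classical
      unfold arcS
      exact sum_congr rfl (fun z _ => by simp only [mrog_arc_per])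
    rw [this]
  rw [intervalIntegral.integral_comp_sub_right (fun θ => ‖arcS F X w θ - u‖ ^ 2) s]
  have h := hp.intervalIntegral_add_eq (0 - s) 0
  rw [show (0 : ℝ) - s + 2 * Real.pi = 2 * Real.pi - s by ring, zero_add] at h
  exact h

private theorem mrog_pt {n : ℕ} {g c : Fin n → ℂ} {u : ℂ} (hu : ‖u‖ ≤ 1) (hc : ∀ i, ‖c i‖ ≤ 1) :
    ‖u * ∑ i, c i * g i‖ ^ 2 ≤ (n : ℝ) * ∑ i, ‖g i‖ ^ 2 := by
  have h2 : ‖u * ∑ i, c i * g i‖ ≤ ∑ i, ‖g i‖ := by
    rw [norm_mul]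
    have h3 : ‖∑ i, c i * g i‖ ≤ ∑ i, ‖g i‖ := by
      refine (norm_sum_le _ _).trans (Finset.sum_le_sum fun i _ => ?_)
      rw [norm_mul]
      calc ‖c i‖ * ‖g i‖ ≤ 1 * ‖g i‖ := mul_le_mul_of_nonneg_right (hc i) (norm_nonneg _)
        _ = _ := one_mul _
    calc ‖u‖ * ‖∑ i, c i * g i‖ ≤ 1 * ‖∑ i, c i * g i‖ :=
          mul_le_mul_of_nonneg_right hu (norm_nonneg _)
      _ ≤ _ := by rw [one_mul]; exact h3
  refine (pow_le_pow_left₀ (norm_nonneg _) h2 2).trans ?_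
  have h3 := sq_sum_le_card_mul_sum_sq (s := (Finset.univ : Finset (Fin n))) (f := fun i => ‖g i‖)
  rwa [Finset.card_univ, Fintype.card_fin] at h3

/-- PROOF. As `mro` (ecm/Mro.lean; copy its private lemmas): by `arc_decG`, `So f D b X w θ - (w / 2π) clS f D b X = f m ∑_i c_i (arcS (FG f χ_i) (X/m) w (θ - φ) - (w / 2π) fcC (FG f χ_i) (X/m) 0)` with `w = H / X = (H/m) / (X/m)`, `‖f m‖ ≤ 1`, `‖c_i‖ ≤ 1`,
Cauchy-Schwarz `‖∑_i‖² ≤ n ∑_i ‖·‖²`, shift of `θ` (periodic), `marc_finG D' P0 (ε / (n² + 1))` with `H / m`, `X / m`. -/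
theorem mroG (D : ℕ) (hD : 0 < D) (b : G) (P0 : ℕ) (ε : ℝ) (hε : 0 < ε) : ∃ H0 : ℝ, 0 < H0 ∧ ∀ H : ℝ, H0 ≤ H → ∃ X0 : ℝ, ∀ X : ℝ, X0 ≤ X →
    ∀ f : ℕ → ℂ, UF P0 f →
    ∫ θ in (0 : ℝ)..(2 * Real.pi), ‖So f D b X (H / X) θ - ((H / X / (2 * Real.pi) : ℝ) : ℂ) * clS f D b X‖ ^ 2 ≤ ε * H ^ 2 := by
  obtain ⟨D', n, χ, c, m, φ, hD', hm, hχ, hc, hdec⟩ := arc_decG D hD b
  have hε' : 0 < ε / ((n : ℝ) ^ 2 + 1) := by positivity
  have hm0 : (0 : ℝ) < m := by exact_mod_cast hm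
  have hm1 : (1 : ℝ) ≤ m := by exact_mod_cast hm
  obtain ⟨H0, hH0, hX⟩ := marc_finG D' hD' P0 (ε / ((n : ℝ) ^ 2 + 1)) hε'
  refine ⟨H0 * m, by positivity, ?_⟩
  intro H hH
  have hH1 : 0 ≤ H := le_trans (by positivity) hH
  have hHm : H0 ≤ H / m := by rwa [le_div_iff₀ hm0]
  obtain ⟨X0, hX0⟩ := hX (H / m) hHm
  refine ⟨X0 * m, ?_⟩
  intro X hXX f hf
  have hXm : X0 ≤ X / m := by rwa [le_div_iff₀ hm0]
  obtain ⟨u, hu⟩ : ∃ u : Fin n → ℂ, u = fun i =>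
      ((H / X / (2 * Real.pi) : ℝ) : ℂ) * fcC (FG f (χ i)) (X / m) 0 := ⟨_, rfl⟩
  have key : ∀ i, ∫ θ in (0 : ℝ)..(2 * Real.pi),
      ‖arcS (FG f (χ i)) (X / m) (H / X) (θ - φ) - u i‖ ^ 2 ≤
      ε / ((n : ℝ) ^ 2 + 1) * (H / m) ^ 2 := by
    intro i
    rw [mrog_shift, hu]
    have h1 := hX0 (X / m) hXm f hf (χ i) (hχ i)
    rwa [div_div_div_cancel_right₀ hm0.ne'] at h1
  obtain ⟨hdec1, hdec2⟩ := hdec f hf.mul
  have hpt : ∀ θ : ℝ, ‖So f D b X (H / X) θ -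
      ((H / X / (2 * Real.pi) : ℝ) : ℂ) * clS f D b X‖ ^ 2 ≤
      (n : ℝ) * ∑ i, ‖arcS (FG f (χ i)) (X / m) (H / X) (θ - φ) - u i‖ ^ 2 := by
    intro θ
    have h1 : So f D b X (H / X) θ = f m * ∑ i, c i * arcS (FG f (χ i)) (X / m) (H / X) (θ - φ) := by
      rw [← hdec1 X (H / X) θ]
      unfold So
      apply Finset.sum_congr _ (fun _ _ => rfl)
      congr 1
    have h2 : So f D b X (H / X) θ - ((H / X / (2 * Real.pi) : ℝ) : ℂ) * clS f D b X =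
        f m * ∑ i, c i * (arcS (FG f (χ i)) (X / m) (H / X) (θ - φ) - u i) := by
      rw [h1, hdec2, hu]
      simp only [mul_sub, Finset.sum_sub_distrib, Finset.mul_sum]
      congr 1
      exact Finset.sum_congr rfl fun i _ => by ring
    rw [h2]
    exact mrog_pt (hf.bd m) hc
  have hpi : (0 : ℝ) ≤ 2 * Real.pi := by positivity
  have hint : IntervalIntegrable (fun θ => (n : ℝ) *
      ∑ i, ‖arcS (FG f (χ i)) (X / m) (H / X) (θ - φ) - u i‖ ^ 2) MeasureTheory.volume 0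
        (2 * Real.pi) := by
    apply IntervalIntegrable.const_mul
    have h9 := IntervalIntegrable.sum (Finset.univ : Finset (Fin n))
      (fun i _ => mrog_int (FG f (χ i)) (X / m) (H / X) φ 0 (2 * Real.pi) (u i))
    have h10 : (∑ i, fun θ => ‖arcS (FG f (χ i)) (X / m) (H / X) (θ - φ) - u i‖ ^ 2) =
        (fun θ => ∑ i, ‖arcS (FG f (χ i)) (X / m) (H / X) (θ - φ) - u i‖ ^ 2) := by
      funext θ
      rw [Finset.sum_apply]
    rwa [h10] at h9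
  have hle : ∫ θ in (0 : ℝ)..(2 * Real.pi),
        ‖So f D b X (H / X) θ - ((H / X / (2 * Real.pi) : ℝ) : ℂ) * clS f D b X‖ ^ 2 ≤
      ∫ θ in (0 : ℝ)..(2 * Real.pi),
        (n : ℝ) * ∑ i, ‖arcS (FG f (χ i)) (X / m) (H / X) (θ - φ) - u i‖ ^ 2 := by
    rw [intervalIntegral.integral_of_le hpi, intervalIntegral.integral_of_le hpi]
    refine MeasureTheory.integral_mono_of_nonneg
      (Filter.Eventually.of_forall fun θ => by positivity) ?_ (Filter.Eventually.of_forall hpt)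
    exact (intervalIntegrable_iff_integrableOn_Ioc_of_le hpi).1 hint
  refine hle.trans ?_
  rw [intervalIntegral.integral_const_mul, intervalIntegral.integral_finsetSum
    (fun i _ => mrog_int (FG f (χ i)) (X / m) (H / X) φ _ _ (u i))]
  have h4 : ∑ i, ∫ θ in (0 : ℝ)..(2 * Real.pi),
      ‖arcS (FG f (χ i)) (X / m) (H / X) (θ - φ) - u i‖ ^ 2 ≤
      (n : ℝ) * (ε / ((n : ℝ) ^ 2 + 1) * (H / m) ^ 2) := by
    refine (Finset.sum_le_sum fun i _ => key i).trans ?_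
    rw [Finset.sum_const, Finset.card_univ, Fintype.card_fin, nsmul_eq_mul]
  have h5 : (H / m) ^ 2 ≤ H ^ 2 := by
    refine pow_le_pow_left₀ (by positivity) ?_ 2
    exact div_le_self hH1 hm1
  have h6 : (n : ℝ) * ((n : ℝ) * (ε / ((n : ℝ) ^ 2 + 1) * (H / m) ^ 2)) ≤ ε * H ^ 2 := by
    have h7 : (n : ℝ) * ((n : ℝ) * (ε / ((n : ℝ) ^ 2 + 1) * (H / m) ^ 2)) =
        ((n : ℝ) ^ 2 / ((n : ℝ) ^ 2 + 1)) * (ε * (H / m) ^ 2) := by ring
    rw [h7]
    have h8 : (n : ℝ) ^ 2 / ((n : ℝ) ^ 2 + 1) ≤ 1 := by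
      rw [div_le_one (by positivity)]
      linarith
    calc ((n : ℝ) ^ 2 / ((n : ℝ) ^ 2 + 1)) * (ε * (H / m) ^ 2) ≤ 1 * (ε * (H / m) ^ 2) :=
          mul_le_mul_of_nonneg_right h8 (by positivity)
      _ = ε * (H / m) ^ 2 := one_mul _
      _ ≤ ε * H ^ 2 := mul_le_mul_of_nonneg_left h5 hε.le
  exact (mul_le_mul_of_nonneg_left h4 (Nat.cast_nonneg n)).trans h6

end Pool.Agent.LPr
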