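import Pool.Agent.Lib_MP_f1a94e_lp.MroG

/-!
# Piece MROX: Matomaki-Radziwill in arcs for `(f_X - μ f0) / 2`
-/

set_option autoImplicit false

namespace Pool.Agent.LPr

open Finset Pool.Agent.GaussMR Pool.Agent.GaussCM Pool.Agent.OmAll Pool.Agent.ECM Pool.Agent.OmEq MeasureTheory Filter

private theorem mx_arc_meas (w : ℝ) (z : G) : MeasurableSet {θ : ℝ | arcIn θ w z} := by
  have h : {θ : ℝ | arcIn θ w z} = ⋃ j : ℤ, Set.Ioc (Complex.arg (z : ℂ) + 2 * Real.pi * j - w)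
      (Complex.arg (z : ℂ) + 2 * Real.pi * j) := by
    ext θ
    rw [Set.mem_iUnion]
    constructor
    · rintro ⟨k, h2, h3⟩
      exact ⟨k, by linarith, h2⟩
    · rintro ⟨k, h2, h3⟩
      exact ⟨k, h3, by linarith⟩
  rw [h]
  exact MeasurableSet.iUnion (fun k => measurableSet_Ioc)

private theorem mx_meas (f : ℕ → ℂ) (D : ℕ) (b : G) (X w : ℝ) : Measurable (fun θ => So f D b X w θ) := by
  classical
  unfold So
  simp only [sum_filter]
  apply Finset.measurable_fun_sum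
  intro z _
  refine Measurable.ite ?_ measurable_const measurable_const
  by_cases hcg : cg D z b
  · have : {θ : ℝ | cg D z b ∧ arcIn θ w z} = {θ : ℝ | arcIn θ w z} := by
      ext θ
      exact ⟨fun h => h.2, fun h => ⟨hcg, h⟩⟩
    rw [this]
    exact mx_arc_meas w z
  · have : {θ : ℝ | cg D z b ∧ arcIn θ w z} = ∅ := by
      ext θ
      exact ⟨fun h => (hcg h.1).elim, fun h => h.elim⟩
    rw [this]
    exact MeasurableSet.empty

private theorem mx_bd (f : ℕ → ℂ) (D : ℕ) (b : G) (X w θ : ℝ) :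
    ‖So f D b X w θ‖ ≤ ∑ z ∈ V X, ‖f (nm z)‖ := by
  classical
  unfold So
  refine (norm_sum_le _ _).trans ?_
  exact sum_le_sum_of_subset_of_nonneg (filter_subset _ _) (fun _ _ _ => norm_nonneg _)

private theorem mx_int (f : ℕ → ℂ) (D : ℕ) (b : G) (X w : ℝ) (k : ℂ) (a c : ℝ) :
    IntervalIntegrable (fun θ => ‖So f D b X w θ - k‖ ^ 2) MeasureTheory.volume a c := by
  have h1 : Measurable (fun θ => ‖So f D b X w θ - k‖ ^ 2) :=
    (((mx_meas f D b X w).sub_const k).norm).pow_const 2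
  refine (intervalIntegrable_const (c := (∑ z ∈ V X, ‖f (nm z)‖ + ‖k‖) ^ 2)).mono_fun
    h1.aestronglyMeasurable ?_
  refine Filter.Eventually.of_forall (fun θ => ?_)
  dsimp only
  rw [Real.norm_of_nonneg (by positivity), Real.norm_of_nonneg (by positivity)]
  refine pow_le_pow_left₀ (norm_nonneg _) ?_ 2
  refine (norm_sub_le _ _).trans ?_
  have := mx_bd f D b X w θ
  linarith

private theorem mx_So (f f0 : ℕ → ℂ) (μ : ℂ) (D : ℕ) (b : G) (X w θ : ℝ) :
    So (fun n => (f n - μ * f0 n) / 2) D b X w θ = So f D b X w θ / 2 - μ * So f0 D b X w θ / 2 := by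
  classical
  unfold So
  rw [mul_sum, sum_div, sum_div, ← sum_sub_distrib]
  exact sum_congr rfl fun z _ => by ring

private theorem mx_clS (f f0 : ℕ → ℂ) (μ : ℂ) (D : ℕ) (b : G) (X : ℝ) :
    clS (fun n => (f n - μ * f0 n) / 2) D b X = clS f D b X / 2 - μ * clS f0 D b X / 2 := by
  classical
  unfold clS
  rw [mul_sum, sum_div, sum_div, ← sum_sub_distrib]
  exact sum_congr rfl fun z _ => by ring

/-- PROOF. `g_X = (f X - μ f0) / 2`: `So g D b X w θ - (w/2π) clS g D b X = (1/2)(So (f X) .. - (w/2π) clS (f X) ..) - (μ/2)(So f0 .. - (w/2π) clS f0 ..)` (linearity), so with `‖x + y + z‖² ≤ 3 (‖x‖² + ‖y‖² + ‖z‖²)`, `‖μ‖ ≤ 1`: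
`∫ ‖So g‖² ≤ 3 (1/4) (ε') H² + 3 (1/4) ε' H² + 3 · 2π · (H/X/2π)² ‖clS g D b X‖²` by `mroG` twice (for `f (a X)`, `f0`, uniform in `f`), and `‖clS g D b X‖ / X → 0` by the hypothesis `hc`, so the last term is `≤ (ε / 2) H²` for large `X`.
(All integrands are bounded and measurable, see the private lemmas of ecm/Mro.lean.) -/
theorem mroX (P0 : ℕ) (f : ℝ → ℕ → ℂ) (f0 : ℕ → ℂ) (μ : ℂ) (hμ : ‖μ‖ ≤ 1) (hf : ∀ X, UF P0 (f X)) (hf0 : UF P0 f0)
    (hc : CSX (fun X n => (f X n - μ * f0 n) / 2)) : MROX (fun X n => (f X n - μ * f0 n) / 2) := by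
  intro D hD b ε hε
  obtain ⟨H0, hH0, hG⟩ := mroG D hD b P0 (ε / 3) (by positivity)
  refine ⟨H0, hH0, ?_⟩
  intro H hH a ha
  obtain ⟨X0, hX0⟩ := hG H hH
  have hHp : 0 < H := hH0.trans_le hH
  set η : ℝ := min 1 ε with hη
  have hη0 : 0 < η := lt_min one_pos hε
  have hη1 : η ≤ 1 := min_le_left _ _
  have hηε : η ≤ ε := min_le_right _ _
  have hη2 : η ^ 2 ≤ ε := by nlinarith
  have hcl := (hc D hD b a ha).norm
  rw [norm_zero] at hcl
  filter_upwards [hcl.eventually_lt_const hη0, eventually_ge_atTop X0, eventually_gt_atTop 0]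
    with X hX1 hX2 hX3
  rw [norm_div, Complex.norm_real, Real.norm_of_nonneg hX3.le, div_lt_iff₀ hX3] at hX1
  set F := f (a * X) with hF
  set c : ℝ := H / X / (2 * Real.pi) with hcd
  have hpi : 0 < Real.pi := Real.pi_pos
  have hc0 : 0 ≤ c := by positivity
  have hA := hX0 X hX2 F (hf _)
  have hB := hX0 X hX2 f0 hf0
  set g : ℕ → ℂ := fun n => (F n - μ * f0 n) / 2 with hg
  set kA : ℂ := ((c : ℝ) : ℂ) * clS F D b X with hkA
  set kB : ℂ := ((c : ℝ) : ℂ) * clS f0 D b X with hkB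
  have hpt : ∀ θ : ℝ, ‖So g D b X (H / X) θ‖ ^ 2 ≤ 3 / 4 * ‖So F D b X (H / X) θ - kA‖ ^ 2 +
      3 / 4 * ‖So f0 D b X (H / X) θ - kB‖ ^ 2 + 3 * (c * ‖clS g D b X‖) ^ 2 := by
    intro θ
    have e1 : So g D b X (H / X) θ = (So F D b X (H / X) θ - kA) / 2 -
        μ * (So f0 D b X (H / X) θ - kB) / 2 + ((c : ℝ) : ℂ) * clS g D b X := by
      rw [hg, mx_So, mx_clS, hkA, hkB]
      ring
    have e2 : ‖So g D b X (H / X) θ‖ ≤ ‖So F D b X (H / X) θ - kA‖ / 2 +
        ‖So f0 D b X (H / X) θ - kB‖ / 2 + c * ‖clS g D b X‖ := by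
      rw [e1]
      refine (norm_add_le _ _).trans (add_le_add ((norm_sub_le _ _).trans (add_le_add ?_ ?_)) ?_)
      · rw [norm_div]
        norm_num
      · rw [norm_div, norm_mul]
        have h2 : ‖(2 : ℂ)‖ = 2 := by norm_num
        rw [h2]
        have h3 : ‖μ‖ * ‖So f0 D b X (H / X) θ - kB‖ ≤ 1 * ‖So f0 D b X (H / X) θ - kB‖ :=
          mul_le_mul_of_nonneg_right hμ (norm_nonneg _)
        linarith
      · rw [norm_mul, Complex.norm_real, Real.norm_of_nonneg hc0]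
    refine (pow_le_pow_left₀ (norm_nonneg _) e2 2).trans ?_
    set x := ‖So F D b X (H / X) θ - kA‖
    set y := ‖So f0 D b X (H / X) θ - kB‖
    set t := c * ‖clS g D b X‖
    nlinarith [sq_nonneg (x / 2 - y / 2), sq_nonneg (x / 2 - t), sq_nonneg (y / 2 - t)]
  have hpi2 : (0 : ℝ) ≤ 2 * Real.pi := by positivity
  have i1 := (mx_int F D b X (H / X) kA 0 (2 * Real.pi)).const_mul (3 / 4)
  have i2 := (mx_int f0 D b X (H / X) kB 0 (2 * Real.pi)).const_mul (3 / 4)
  have i3 : IntervalIntegrable (fun _ : ℝ => 3 * (c * ‖clS g D b X‖) ^ 2) MeasureTheory.volume 0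
    (2 * Real.pi) := intervalIntegrable_const
  have hle : ∫ θ in (0 : ℝ)..(2 * Real.pi), ‖So g D b X (H / X) θ‖ ^ 2 ≤
      ∫ θ in (0 : ℝ)..(2 * Real.pi), (3 / 4 * ‖So F D b X (H / X) θ - kA‖ ^ 2 +
        3 / 4 * ‖So f0 D b X (H / X) θ - kB‖ ^ 2 + 3 * (c * ‖clS g D b X‖) ^ 2) := by
    rw [intervalIntegral.integral_of_le hpi2, intervalIntegral.integral_of_le hpi2]
    refine MeasureTheory.integral_mono_of_nonneg
      (Filter.Eventually.of_forall fun θ => by positivity) ?_ (Filter.Eventually.of_forall hpt)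
    exact (intervalIntegrable_iff_integrableOn_Ioc_of_le hpi2).1 ((i1.add i2).add i3)
  refine hle.trans ?_
  rw [intervalIntegral.integral_add (i1.add i2) i3, intervalIntegral.integral_add i1 i2,
    intervalIntegral.integral_const_mul, intervalIntegral.integral_const_mul,
    intervalIntegral.integral_const, smul_eq_mul, sub_zero]
  have hlast : 2 * Real.pi * (3 * (c * ‖clS g D b X‖) ^ 2) ≤ ε / 2 * H ^ 2 := by
    have h1 : c * ‖clS g D b X‖ ≤ H / (2 * Real.pi) * η := by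
      have h2 : c * ‖clS g D b X‖ ≤ c * (η * X) := mul_le_mul_of_nonneg_left hX1.le hc0
      have h3 : c * (η * X) = H / (2 * Real.pi) * η := by
        rw [hcd]
        field_simp
      linarith
    have h2 : (c * ‖clS g D b X‖) ^ 2 ≤ (H / (2 * Real.pi) * η) ^ 2 :=
      pow_le_pow_left₀ (by positivity) h1 2
    have h3 : 2 * Real.pi * (3 * (H / (2 * Real.pi) * η) ^ 2) = 3 / (2 * Real.pi) * (η ^ 2 * H ^ 2) := by
      field_simp
    have h4 : 3 / (2 * Real.pi) ≤ 1 / 2 := by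
      rw [div_le_iff₀ (by positivity)]
      linarith [Real.pi_gt_three]
    calc 2 * Real.pi * (3 * (c * ‖clS g D b X‖) ^ 2)
        ≤ 2 * Real.pi * (3 * (H / (2 * Real.pi) * η) ^ 2) :=
          mul_le_mul_of_nonneg_left (by linarith) hpi2
      _ = 3 / (2 * Real.pi) * (η ^ 2 * H ^ 2) := h3
      _ ≤ 1 / 2 * (η ^ 2 * H ^ 2) := mul_le_mul_of_nonneg_right h4 (by positivity)
      _ ≤ 1 / 2 * (ε * H ^ 2) := by
          refine mul_le_mul_of_nonneg_left ?_ (by norm_num)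
          exact mul_le_mul_of_nonneg_right hη2 (sq_nonneg _)
      _ = ε / 2 * H ^ 2 := by ring
  linarith

end Pool.Agent.LPr
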