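import Pool.Agent.Lib_MP_f1a94e_lp.Defs
import Pool.Agent.Lib_MP_f1a94e_eq.MrpO

/-!
# Piece MRPX: from odd primitive to primitive numbers, for families
-/

set_option autoImplicit false

namespace Pool.Agent.LPr

open Finset Pool.Agent.GaussMR Pool.Agent.OmAll Pool.Agent.OmEq MeasureTheory Filter

open Classical in
theorem mrpx_dec (g : ℕ → ℂ) (c : ℂ) (h2 : ∀ n, g (2 * n) = c * g n) {D : ℕ} (hD : 0 < D) (b : G)
    (X δ θ : ℝ) :
    Sp g D b X δ θ = So g D b X δ θ +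
      c * ∑ b1 ∈ (mrpoR D).filter (fun z => cg D (mrpoU * z) b),
        So g D b1 (X / 2) δ (θ - Complex.arg (mrpoU : ℂ)) := by
  unfold Sp
  rw [← sum_filter_add_sum_filter_not _ (fun z => Odd (nm z)), mrpo_even]
  congr 1
  · unfold So
    apply sum_congr _ (fun _ _ => rfl)
    ext z
    simp only [mem_filter, mem_PV, mem_V]
    constructor
    · rintro ⟨⟨⟨h1, h2⟩, h3, h3'⟩, h4⟩
      exact ⟨⟨h1, h4, h2⟩, h3, h3'⟩
    · rintro ⟨⟨h1, h4, h2⟩, h3, h3'⟩
      exact ⟨⟨⟨h1, h2⟩, h3, h3'⟩, h4⟩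
  · have hset : (V (X / 2)).filter (fun w => cg D (mrpoU * w) b ∧ arcIn θ δ (mrpoU * w)) =
        ((V (X / 2)).filter (fun w => arcIn (θ - Complex.arg (mrpoU : ℂ)) δ w)).filter
          (fun w => cg D (mrpoU * w) b) := by
      rw [filter_filter]
      apply filter_congr
      intro w hw
      rw [mem_V] at hw
      rw [mrpo_arc_mul mrpo_U_ne (ne_zero_of_odd hw.2.1), and_comm]
    rw [hset, mrpo_split hD _ (fun w => cg D (mrpoU * w) b) ?_, mul_sum]
    · apply sum_congr rfl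
      intro b1 _
      unfold So
      rw [mul_sum, filter_filter]
      refine sum_congr ?_ ?_
      · ext z
        simp only [mem_filter]
        constructor
        · rintro ⟨h2, h3, h4⟩
          exact ⟨h2, h4, h3⟩
        · rintro ⟨h2, h3, h4⟩
          exact ⟨h2, h4, h3⟩
      · intro z _
        rw [mrpo_nm, h2]
    · intro z w h h2
      refine cg_trans ?_ h2
      obtain ⟨⟨x, hx⟩, ⟨y, hy⟩⟩ := h
      rw [mrpo_mul, mrpo_mul]
      refine ⟨⟨y - x, ?_⟩, ⟨-x - y, ?_⟩⟩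
      · show w.re - w.im - (z.re - z.im) = _
        linear_combination hy - hx
      · show w.re + w.im - (z.re + z.im) = _
        linear_combination - hy - hx

/-- PROOF. As `mrp_of_mro` (MrpO.lean), but simpler (no condition modulo `R`): `PV X` is the disjoint union of `V X` and of the `mrpoU * w`, `w ∈ V (X / 2)` (`mrpo_even`, `mrpo_prim_mul`, `mrpo_prim_H`, `mrpo_nm`: `nm (mrpoU * w) = 2 nm w`).
The condition `cg D (mrpoU * w) b` is a union of classes of `w` modulo `D` (`mrpo_split`), `arcIn θ δ (mrpoU * w)` iff `arcIn (θ - π/4) δ w` (`mrpo_arc_mul`), `f (a X) (2 n) = c f (a X) n` eventually, `H / X = (H / 2) / (X / 2)`.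
So `‖Sp‖² ≤ (1 + D²) (‖So D b X‖² + ∑_(b' mod D) ‖So D b' (X/2) (H/X) (θ - π/4)‖²)`, `MROX` with `ε / (2 (1 + D²)^2)` (for `b` and all `b'`), `H0' = 2 max H0`, index `a X = (2 a) (X / 2)`; `mrpo_shift`, `mrpo_So_int`. -/
theorem mrpX (f : ℝ → ℕ → ℂ) (hf : ∀ X n, ‖f X n‖ ≤ 1) (c : ℂ) (hc : ‖c‖ ≤ 1)
    (h2 : ∀ᶠ X : ℝ in atTop, ∀ n : ℕ, f X (2 * n) = c * f X n) (hM : MROX f) : MRPX f := by
  classical
  intro D hD b ε hε
  have hD' : (1 : ℝ) ≤ D := by exact_mod_cast hD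
  set K : ℝ := (D : ℝ) * D with hK
  have hK1 : 1 ≤ K := by nlinarith
  have hK0 : 0 < K := by linarith
  set ε' : ℝ := ε / (4 * K ^ 2) with hε'
  have hε'0 : 0 < ε' := by positivity
  have key : ∀ᶠ H : ℝ in atTop, ∀ b1 ∈ mrpoR D, ∀ a : ℝ, 0 < a → ∀ᶠ X : ℝ in atTop,
      ∫ θ in (0 : ℝ)..(2 * Real.pi), ‖So (f (a * X)) D b1 X (H / X) θ‖ ^ 2 ≤ ε' * H ^ 2 := by
    rw [eventually_all_finset]
    intro b1 _
    obtain ⟨H0, -, h⟩ := hM D hD b1 ε' hε'0
    filter_upwards [eventually_ge_atTop H0] with H hH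
    exact h H hH
  have key2 := (tendsto_id.atTop_div_const (two_pos (α := ℝ))).eventually key
  obtain ⟨H0, hH0⟩ := eventually_atTop.1 key2
  obtain ⟨H1, hH1, hb⟩ := hM D hD b ε' hε'0
  refine ⟨max H0 H1, lt_max_of_lt_right hH1, fun H hH a ha => ?_⟩
  have k1 := hb H ((le_max_right _ _).trans hH) a ha
  have k2 := hH0 H ((le_max_left _ _).trans hH)
  simp only [id_eq] at k2
  have k2' := (eventually_all_finset _).2 fun b1 hb1 =>
    (tendsto_id.atTop_div_const (two_pos (α := ℝ))).eventually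
      (k2 b1 hb1 (2 * a) (by positivity))
  have k3 := (tendsto_id.const_mul_atTop ha).eventually h2
  filter_upwards [k1, k2', k3, eventually_gt_atTop 0] with X q1 q2 q3 hX1
  have hHX : H / 2 / (X / 2) = H / X := by
    field_simp
  have haX : 2 * a * (X / 2) = a * X := by ring
  simp only [id_eq, hHX, haX] at q2 q3
  set g := f (a * X) with hg
  set δ := H / X with hδ
  set s := Complex.arg (mrpoU : ℂ) with hs
  set T2 := (mrpoR D).filter (fun z => cg D (mrpoU * z) b) with hT2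
  have hcard2 : (T2.card : ℝ) ≤ K := by
    have h1 : T2.card ≤ D * D := (card_le_card (filter_subset _ _)).trans (mrpo_card D)
    rw [hK]
    exact_mod_cast h1
  -- pointwise bound
  have hpt : ∀ θ : ℝ, ‖Sp g D b X δ θ‖ ^ 2 ≤
      2 * ‖So g D b X δ θ‖ ^ 2 + 2 * K * ∑ b1 ∈ T2, ‖So g D b1 (X / 2) δ (θ - s)‖ ^ 2 := by
    intro θ
    have e1 : ‖Sp g D b X δ θ‖ ≤
        ‖So g D b X δ θ‖ + ∑ b1 ∈ T2, ‖So g D b1 (X / 2) δ (θ - s)‖ := by
      rw [mrpx_dec g c q3 hD]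
      refine (norm_add_le _ _).trans (add_le_add le_rfl ?_)
      rw [norm_mul]
      exact (mul_le_of_le_one_left (norm_nonneg _) hc).trans (norm_sum_le _ _)
    have e3 : (∑ b1 ∈ T2, ‖So g D b1 (X / 2) δ (θ - s)‖) ^ 2 ≤
        K * ∑ b1 ∈ T2, ‖So g D b1 (X / 2) δ (θ - s)‖ ^ 2 :=
      (sq_sum_le_card_mul_sum_sq).trans
        (mul_le_mul_of_nonneg_right hcard2 (sum_nonneg fun _ _ => by positivity))
    have e4 := pow_le_pow_left₀ (norm_nonneg _) e1 2
    nlinarith [sq_nonneg (‖So g D b X δ θ‖ - ∑ b1 ∈ T2, ‖So g D b1 (X / 2) δ (θ - s)‖)]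
  have hi1 : IntervalIntegrable (fun θ => ‖So g D b X δ θ‖ ^ 2) volume 0 (2 * Real.pi) := by
    have h := mrpo_So_int g D b X δ 0 0 (2 * Real.pi)
    simpa only [sub_zero] using h
  have hi2 : ∀ b1 ∈ T2, IntervalIntegrable (fun θ => ‖So g D b1 (X / 2) δ (θ - s)‖ ^ 2)
      volume 0 (2 * Real.pi) :=
    fun b1 _ => mrpo_So_int g D b1 (X / 2) δ s 0 (2 * Real.pi)
  have hI2 : IntervalIntegrable (fun θ => ∑ b1 ∈ T2, ‖So g D b1 (X / 2) δ (θ - s)‖ ^ 2)
      volume 0 (2 * Real.pi) := by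
    have := IntervalIntegrable.sum T2 hi2
    have e : (∑ i ∈ T2, fun θ => ‖So g D i (X / 2) δ (θ - s)‖ ^ 2) =
        fun θ => ∑ b1 ∈ T2, ‖So g D b1 (X / 2) δ (θ - s)‖ ^ 2 := by
      funext θ
      rw [Finset.sum_apply]
    rw [e] at this
    exact this
  have hR1 : IntervalIntegrable (fun θ => 2 * ‖So g D b X δ θ‖ ^ 2 +
      2 * K * ∑ b1 ∈ T2, ‖So g D b1 (X / 2) δ (θ - s)‖ ^ 2) volume 0 (2 * Real.pi) :=
    (hi1.const_mul _).add (hI2.const_mul _)
  have hpi : (0 : ℝ) ≤ 2 * Real.pi := by positivity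
  have hmeas : Measurable (fun θ => ‖Sp g D b X δ θ‖ ^ 2) := by
    have h : (fun θ => ‖Sp g D b X δ θ‖ ^ 2) = fun θ => ‖So g D b X δ θ +
      c * ∑ b1 ∈ T2, So g D b1 (X / 2) δ (θ - s)‖ ^ 2 := by
      funext θ
      rw [mrpx_dec g c q3 hD]
    rw [h]
    refine Measurable.pow_const (Measurable.norm ?_) 2
    refine Measurable.add (mrpo_So_meas g D b X δ) ?_
    refine Measurable.const_mul (Finset.measurable_sum _ fun b1 _ => ?_) _
    exact (mrpo_So_meas g D b1 (X / 2) δ).comp (measurable_id.sub_const s)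
  have hint : IntervalIntegrable (fun θ => ‖Sp g D b X δ θ‖ ^ 2) volume 0 (2 * Real.pi) := by
    refine hR1.mono_fun hmeas.aestronglyMeasurable (Eventually.of_forall fun θ => ?_)
    dsimp only
    rw [Real.norm_of_nonneg (by positivity)]
    exact (hpt θ).trans (le_abs_self _)
  have hmono := intervalIntegral.integral_mono_on hpi hint hR1 (fun θ _ => hpt θ)
  refine hmono.trans ?_
  rw [intervalIntegral.integral_add (hi1.const_mul _) (hI2.const_mul _),
    intervalIntegral.integral_const_mul, intervalIntegral.integral_const_mul,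
    intervalIntegral.integral_finsetSum hi2]
  have b2 : ∑ b1 ∈ T2, ∫ θ in (0 : ℝ)..(2 * Real.pi), ‖So g D b1 (X / 2) δ (θ - s)‖ ^ 2 ≤
      K * (ε' * (H / 2) ^ 2) := by
    refine (sum_le_card_nsmul _ _ (ε' * (H / 2) ^ 2) (fun b1 hb1 => ?_)).trans ?_
    · rw [mrpo_shift]
      exact q2 b1 (mem_filter.1 hb1).1
    · rw [nsmul_eq_mul]
      exact mul_le_mul_of_nonneg_right hcard2 (by positivity)
  have hfin : 2 * (ε' * H ^ 2) + 2 * K * (K * (ε' * (H / 2) ^ 2)) ≤ ε * H ^ 2 := by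
    have e1 : 4 * K ^ 2 * ε' = ε := by
      rw [hε']
      field_simp
    have e2 : 2 * K * (K * (ε' * (H / 2) ^ 2)) = (4 * K ^ 2 * ε') * H ^ 2 * (1 / 8) := by ring
    have e3 : 2 * (ε' * H ^ 2) ≤ (4 * K ^ 2 * ε') * H ^ 2 * (1 / 2) := by
      have e5 : 1 ≤ K ^ 2 := one_le_pow₀ hK1
      have e6 : 0 ≤ ε' * H ^ 2 := by positivity
      nlinarith [mul_le_mul_of_nonneg_right e5 e6]
    rw [e2]
    rw [e1] at e3 ⊢
    have e4 : 0 ≤ ε * H ^ 2 := by positivity
    linarith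
  refine le_trans ?_ hfin
  have hK2 : 0 ≤ 2 * K := by positivity
  exact add_le_add (mul_le_mul_of_nonneg_left q1 (by norm_num))
    (mul_le_mul_of_nonneg_left b2 hK2)

end Pool.Agent.LPr
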