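import Pool.Agent.Lib_MP_f1a94e_lp.SxLim
import Pool.Agent.Lib_MP_f1a94e_lp.IndEqG

/-!
# The joint law over edges, arbitrary windows
-/

set_option autoImplicit false

namespace Pool.Agent.LPr

open Finset Pool.Agent.GaussMR Pool.Agent.OmAll Pool.Agent.OmEq MeasureTheory Filter

/-- the edges with a ratio in `[s, t]` -/
noncomputable def EstG (s t X : ℝ) : Finset (G × G) := (EN 1 X).filter (fun e => s ≤ tE e ∧ tE e ≤ t)

/-- the coefficients of the expansion of the indicator -/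
noncomputable def cofG (q K r s' a b : ℕ) (k l : ℕ → ℕ) (i i' : ℕ) (j : Fin r → ℕ) (j' : Fin s' → ℕ) : ℂ :=
  (((zq q ^ (i * a))⁻¹ * (zq q ^ (i' * b))⁻¹ / (q : ℂ) ^ 2) * ((∏ i : Fin r, (zq K ^ (j i * k i))⁻¹) / (K : ℂ) ^ r) *
          ((∏ i : Fin s', (zq K ^ (j' i * l i))⁻¹) / (K : ℂ) ^ s'))

theorem zq_pow_ne_oneG {q : ℕ} (hq : 0 < q) {i : ℕ} (hi : i < q) (h0 : i ≠ 0) : zq q ^ i ≠ 1 := by
  intro h
  have h1 : zq q ^ i = zq q ^ 0 := by rw [h, pow_zero]
  rw [fine_pow_eq hq] at h1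
  unfold Nat.ModEq at h1
  rw [Nat.mod_eq_of_lt hi, Nat.zero_mod] at h1
  exact h0 h1

/-- value of the limit -/
theorem cofG_sum (q : ℕ) (hq : 0 < q) (K : ℕ) (u v u' v' : ℕ → ℝ) (r s' a b : ℕ) (k l : ℕ → ℕ) (T : ℂ) :
    ∑ i ∈ range q, ∑ i' ∈ range q, ∑ j ∈ Fintype.piFinset (fun _ : Fin r => range K),
      ∑ j' ∈ Fintype.piFinset (fun _ : Fin s' => range K), cofG q K r s' a b k l i i' j j' *
        (mm (zq q ^ i) (phg K u v r j) * mm (zq q ^ i') (phg K u' v' s' j') * T) =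
      T * cG K u v r k * cG K u' v' s' l / (q : ℂ) ^ 2 := by
  rw [sum_eq_single 0]
  · rw [sum_eq_single 0]
    · have h1 : ∀ φ : ℝ → ℂ, mm (zq q ^ 0) φ = mu φ := by
        intro φ
        unfold mm
        rw [if_pos (pow_zero _)]
      simp only [h1]
      unfold cG cofG
      simp only [zero_mul, pow_zero, inv_one, mul_one]
      rw [show T * (1 / (K : ℂ) ^ r * ∑ j ∈ Fintype.piFinset (fun _ : Fin r => range K),
          (∏ i : Fin r, (zq K ^ (j i * k i))⁻¹) * mu (phg K u v r j)) *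
          (1 / (K : ℂ) ^ s' * ∑ j ∈ Fintype.piFinset (fun _ : Fin s' => range K),
          (∏ i : Fin s', (zq K ^ (j i * l i))⁻¹) * mu (phg K u' v' s' j)) / (q : ℂ) ^ 2 =
          (T * (1 / (K : ℂ) ^ r) * (1 / (K : ℂ) ^ s') / (q : ℂ) ^ 2) *
          ((∑ j ∈ Fintype.piFinset (fun _ : Fin r => range K),
          (∏ i : Fin r, (zq K ^ (j i * k i))⁻¹) * mu (phg K u v r j)) *
          (∑ j ∈ Fintype.piFinset (fun _ : Fin s' => range K),
          (∏ i : Fin s', (zq K ^ (j i * l i))⁻¹) * mu (phg K u' v' s' j))) by ring, sum_mul_sum, mul_sum]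
      refine sum_congr rfl fun j _ => ?_
      rw [mul_sum]
      refine sum_congr rfl fun j' _ => ?_
      ring
    · intro i' hi' h0
      refine sum_eq_zero fun j _ => sum_eq_zero fun j' _ => ?_
      have h2 : mm (zq q ^ i') (phg K u' v' s' j') = 0 := by
        unfold mm
        rw [if_neg (zq_pow_ne_oneG hq (mem_range.1 hi') h0)]
      rw [h2]
      ring
    · intro h
      exact absurd (mem_range.2 hq) h
  · intro i hi h0
    refine sum_eq_zero fun i' _ => sum_eq_zero fun j _ => sum_eq_zero fun j' _ => ?_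
    have h2 : mm (zq q ^ i) (phg K u v r j) = 0 := by
      unfold mm
      rw [if_neg (zq_pow_ne_oneG hq (mem_range.1 hi) h0)]
    rw [h2]
    ring
  · intro h
    exact absurd (mem_range.2 hq) h

open Classical in
/-- the joint law over edges -/
theorem edge_lawG (R : ℕ) (hR : 0 < R) : ∃ κ : ℝ, 0 < κ ∧
    (∀ s t : ℝ, s ≤ t → Tendsto (fun X : ℝ => (((EN 1 X).filter (fun e => (s ≤ tE e ∧ tE e ≤ t) ∧
      (nm e.1 * nm e.2).Coprime R)).card : ℝ) / X) atTop (nhds (κ * (t - s)))) ∧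
    ∀ (q K : ℕ) (u0 : ℝ) (u v u' v' : ℕ → ℝ) (r s' : ℕ) (k l : ℕ → ℕ) (c c' : ℝ), 0 < q → 0 < u0 →
      (∀ i < r, u0 ≤ u i ∧ u i ≤ v i) → (∀ i < s', u0 ≤ u' i ∧ u' i ≤ v' i) →
      3 < K * u0 → (∀ i < r, k i < K) → (∀ i < s', l i < K) → (c : ℂ) = cG K u v r k → (c' : ℂ) = cG K u' v' s' l →
      ∀ (a b : ℕ) (s t : ℝ), s ≤ t →
      Tendsto (fun X : ℝ => (((EN 1 X).filter (fun e => (s ≤ tE e ∧ tE e ≤ t) ∧ ((nm e.1 * nm e.2).Coprime R ∧
        ArithmeticFunction.cardFactors (nm e.1) ≡ a [MOD q] ∧ ArithmeticFunction.cardFactors (nm e.2) ≡ b [MOD q] ∧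
        (∀ i < r, wc X (u i) (v i) (nm e.1) = k i) ∧ (∀ i < s', wc X (u' i) (v' i) (nm e.2) = l i)))).card : ℝ) / X)
          atTop (nhds (κ * (t - s) * c * c' / q ^ 2)) := by
  obtain ⟨κ, hκ, hlim, hS⟩ := shp_lim R hR
  refine ⟨κ, hκ, hlim, ?_⟩
  intro q K u0 u v u' v' r s' k l c c' hq hu0 hu hu' hKu hk hl hc hc' a b s t hst
  have hK : 0 < K := by
    rcases Nat.eq_zero_or_pos K with h | h
    · exfalso
      rw [h, Nat.cast_zero, zero_mul] at hKu
      linarith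
    · exact h
  have hterm : ∀ i ∈ range q, ∀ i' ∈ range q, ∀ j ∈ Fintype.piFinset (fun _ : Fin r => range K),
      ∀ j' ∈ Fintype.piFinset (fun _ : Fin s' => range K),
      Tendsto (fun X : ℝ => cofG q K r s' a b k l i i' j j' * ((∑ e ∈ EstG s t X,
        fx R (zq q ^ i) (phg K u v r j) X (nm e.1) * fx R (zq q ^ i') (phg K u' v' s' j') X (nm e.2)) / X)) atTop
        (nhds (cofG q K r s' a b k l i i' j j' *
          (mm (zq q ^ i) (phg K u v r j) * mm (zq q ^ i') (phg K u' v' s' j') * ((κ * (t - s) : ℝ) : ℂ)))) := by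
    intro i _ i' _ j _ j' _
    exact (hS _ _ (fine_norm q hq i) (fine_norm q hq i') _ _ (phg_step K hK u v r (fun i hi => ⟨hu0.trans_le (hu i hi).1, (hu i hi).2⟩) j)
      (phg_step K hK u' v' s' (fun i hi => ⟨hu0.trans_le (hu' i hi).1, (hu' i hi).2⟩) j') s t hst).const_mul _
  have hsum : Tendsto (fun X : ℝ => ∑ i ∈ range q, ∑ i' ∈ range q, ∑ j ∈ Fintype.piFinset (fun _ : Fin r => range K),
      ∑ j' ∈ Fintype.piFinset (fun _ : Fin s' => range K), cofG q K r s' a b k l i i' j j' * ((∑ e ∈ EstG s t X,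
        fx R (zq q ^ i) (phg K u v r j) X (nm e.1) * fx R (zq q ^ i') (phg K u' v' s' j') X (nm e.2)) / X)) atTop
        (nhds (∑ i ∈ range q, ∑ i' ∈ range q, ∑ j ∈ Fintype.piFinset (fun _ : Fin r => range K),
          ∑ j' ∈ Fintype.piFinset (fun _ : Fin s' => range K), cofG q K r s' a b k l i i' j j' *
          (mm (zq q ^ i) (phg K u v r j) * mm (zq q ^ i') (phg K u' v' s' j') * ((κ * (t - s) : ℝ) : ℂ)))) := by
    apply tendsto_finsetSum
    intro i hi
    apply tendsto_finsetSum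
    intro i' hi'
    apply tendsto_finsetSum
    intro j hj
    apply tendsto_finsetSum
    intro j' hj'
    exact hterm i hi i' hi' j hj j' hj'
  rw [cofG_sum q hq] at hsum
  have hval : ((κ * (t - s) : ℝ) : ℂ) * cG K u v r k * cG K u' v' s' l / (q : ℂ) ^ 2 =
      ((κ * (t - s) * c * c' / q ^ 2 : ℝ) : ℂ) := by
    rw [← hc, ← hc']
    push_cast
    ring
  rw [hval] at hsum
  have hre := (Complex.continuous_re.tendsto _).comp hsum
  rw [Complex.ofReal_re] at hre
  refine hre.congr' ?_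
  filter_upwards [eventually_ge_atTop 2] with X hX
  rw [Function.comp_apply]
  have h1 : (((EN 1 X).filter (fun e => (s ≤ tE e ∧ tE e ≤ t) ∧ ((nm e.1 * nm e.2).Coprime R ∧
        ArithmeticFunction.cardFactors (nm e.1) ≡ a [MOD q] ∧ ArithmeticFunction.cardFactors (nm e.2) ≡ b [MOD q] ∧
        (∀ i < r, wc X (u i) (v i) (nm e.1) = k i) ∧
        (∀ i < s', wc X (u' i) (v' i) (nm e.2) = l i)))).card : ℂ) =
      ∑ e ∈ EstG s t X, (if (nm e.1 * nm e.2).Coprime R ∧
        ArithmeticFunction.cardFactors (nm e.1) ≡ a [MOD q] ∧ ArithmeticFunction.cardFactors (nm e.2) ≡ b [MOD q] ∧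
        (∀ i < r, wc X (u i) (v i) (nm e.1) = k i) ∧
        (∀ i < s', wc X (u' i) (v' i) (nm e.2) = l i) then (1 : ℂ) else 0) := by
    unfold EstG
    rw [← filter_filter, card_filter]
    push_cast
    rfl
  have h2 : ∑ i ∈ range q, ∑ i' ∈ range q, ∑ j ∈ Fintype.piFinset (fun _ : Fin r => range K),
      ∑ j' ∈ Fintype.piFinset (fun _ : Fin s' => range K), cofG q K r s' a b k l i i' j j' * ((∑ e ∈ EstG s t X,
        fx R (zq q ^ i) (phg K u v r j) X (nm e.1) * fx R (zq q ^ i') (phg K u' v' s' j') X (nm e.2)) / X) =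
      (∑ e ∈ EstG s t X, (if (nm e.1 * nm e.2).Coprime R ∧
        ArithmeticFunction.cardFactors (nm e.1) ≡ a [MOD q] ∧ ArithmeticFunction.cardFactors (nm e.2) ≡ b [MOD q] ∧
        (∀ i < r, wc X (u i) (v i) (nm e.1) = k i) ∧
        (∀ i < s', wc X (u' i) (v' i) (nm e.2) = l i) then (1 : ℂ) else 0)) / X := by
    have h3 : ∀ e ∈ EstG s t X, (if (nm e.1 * nm e.2).Coprime R ∧
        ArithmeticFunction.cardFactors (nm e.1) ≡ a [MOD q] ∧ ArithmeticFunction.cardFactors (nm e.2) ≡ b [MOD q] ∧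
        (∀ i < r, wc X (u i) (v i) (nm e.1) = k i) ∧
        (∀ i < s', wc X (u' i) (v' i) (nm e.2) = l i) then (1 : ℂ) else 0) =
        ∑ i ∈ range q, ∑ i' ∈ range q, ∑ j ∈ Fintype.piFinset (fun _ : Fin r => range K),
        ∑ j' ∈ Fintype.piFinset (fun _ : Fin s' => range K), cofG q K r s' a b k l i i' j j' *
        (fx R (zq q ^ i) (phg K u v r j) X (nm e.1) * fx R (zq q ^ i') (phg K u' v' s' j') X (nm e.2)) := by
      intro e he
      exact ind_eqG q hq R K u0 hu0 hKu u v u' v' r s' (fun i hi => (hu i hi).1) (fun i hi => (hu' i hi).1) k l hk hl a b X hX e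
        (mem_filter.1 he).1
    symm
    rw [sum_congr rfl h3, sum_comm, sum_div]
    refine sum_congr rfl fun i _ => ?_
    rw [sum_comm, sum_div]
    refine sum_congr rfl fun i' _ => ?_
    rw [sum_comm, sum_div]
    refine sum_congr rfl fun j _ => ?_
    rw [sum_comm, sum_div]
    refine sum_congr rfl fun j' _ => ?_
    rw [← mul_sum, mul_div_assoc]
  rw [h2, ← h1, ← Complex.ofReal_natCast, ← Complex.ofReal_div, Complex.ofReal_re]

end Pool.Agent.LPr
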