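import Pool.Agent.Lib_MP_f1a94e_lp.CtwT
import Pool.Agent.Lib_MP_f1a94e_eq.Pair

/-!
# Piece PAIRT: sums over pairs with characters, for families
-/

set_option autoImplicit false

namespace Pool.Agent.LPr

open Finset Pool.Agent.GaussMR Pool.Agent.OmAll Pool.Agent.OmEq MeasureTheory Filter

/-- as `cmp_pair`, moves of the primes up to `T` -/
theorem cmp_pairT (n : ℕ) [NeZero n] (χ : DirichletCharacter ℂ n) (E : Finset ℕ) (T : ℕ) (f1 f2 : ℕ → ℂ) (ω1 ω2 : ℂ)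
    (m1 : ∀ m n, f1 (m * n) = f1 m * f1 n) (b1 : ∀ n, ‖f1 n‖ ≤ 1)
    (p1 : ∀ p : ℕ, p ≤ T → p.Prime → p % 4 = 1 → p ∉ E → f1 p = ω1)
    (m2 : ∀ m n, f2 (m * n) = f2 m * f2 n) (b2 : ∀ n, ‖f2 n‖ ≤ 1)
    (p2 : ∀ p : ℕ, p ≤ T → p.Prime → p % 4 = 1 → p ∉ E → f2 p = ω2) (hω2 : ‖ω2‖ = 1) :
    CmpT n (E ∪ n.primeFactors) T (fun p => ω1 * (starRingEnd ℂ) ω2 * χ⁻¹ (p : ZMod n))
      (fun e => f1 (nm e.1) * f2 (nm e.2) * χ (cl n e)) := by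
  classical
  refine ⟨fun e => ?_, ?_⟩
  · rw [norm_mul, norm_mul]
    have k1 := b1 (nm e.1)
    have k2 := b2 (nm e.2)
    have k3 := χ.norm_le_one (cl n e)
    exact mul_le_one₀ (mul_le_one₀ k1 (norm_nonneg _) k2) (norm_nonneg _) k3
  · intro γ U W hp h4 hT hE he _
    have hE1 : nm γ ∉ E := fun h => hE (Finset.mem_union_left _ h)
    have hcop : (nm γ).Coprime n := by
      rw [Nat.Prime.coprime_iff_not_dvd hp]
      intro hd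
      exact hE (Finset.mem_union_right _ (Nat.mem_primeFactors.mpr ⟨hp, hd, NeZero.ne n⟩))
    obtain ⟨_, hcl⟩ := En_move hp hcop he
    have hu : IsUnit ((nm γ : ZMod n)) := (ZMod.isUnit_iff_coprime _ _).mpr hcop
    have e1 : f1 (nm (γ * U)) = ω1 * f1 (nm U) := by
      rw [nm_mul, m1, p1 _ hT hp h4 hE1]
    have e2 : f2 (nm (star γ * W)) = ω2 * f2 (nm W) := by
      rw [nm_mul, nm_star, m2, p2 _ hT hp h4 hE1]
    have e3 : (starRingEnd ℂ) ω2 * ω2 = 1 := by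
      rw [mul_comm, Complex.mul_conj, Complex.normSq_eq_norm_sq, hω2]
      norm_num
    have e4 : χ⁻¹ ((nm γ : ZMod n)) * χ ((nm γ : ZMod n)) = 1 := by
      rw [← MulChar.mul_apply, inv_mul_cancel, MulChar.one_apply hu]
    simp only
    rw [hcl, e1, e2, map_mul]
    calc ω1 * f1 (nm U) * f2 (nm W) * χ (cl n (γ * U, W))
        = ω1 * f1 (nm U) * f2 (nm W) * χ (cl n (γ * U, W)) * ((starRingEnd ℂ) ω2 * ω2) *
          (χ⁻¹ ((nm γ : ZMod n)) * χ ((nm γ : ZMod n))) := by rw [e3, e4, mul_one, mul_one]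
      _ = _ := by ring

/-- as `pair_lim`, for families -/
theorem pair_limT (n : ℕ) [NeZero n] (χ : DirichletCharacter ℂ n) (E : Finset ℕ) (f1 f2 : ℝ → ℕ → ℂ) (ω1 ω2 : ℂ)
    (h1 : FX f1 E ω1) (h2 : FX f2 E ω2) (hω1 : ‖ω1‖ = 1) (hω2 : ‖ω2‖ = 1) (b : ℝ) (W : ℝ → ℝ → ℂ) (hW : TF b W)
    (h0 : ω1 * (starRingEnd ℂ) ω2 ≠ 1 ∨ (∃ a : ℕ, a % 4 = 1 ∧ a.Coprime n ∧ χ ((a : ZMod n)) ≠ 1) ∨
      ∀ y, (∫ t, W y t) = 0) :
    Tendsto (fun X : ℝ => (∑ e ∈ EN n (b * X), f1 X (nm e.1) * f2 X (nm e.2) * χ (cl n e) * W (mE e / X) (tE e)) / X)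
      atTop (nhds 0) := by
  have hn : 0 < n := Nat.pos_of_ne_zero (NeZero.ne n)
  have hω : ‖ω1 * (starRingEnd ℂ) ω2‖ = 1 := by
    rw [norm_mul, Complex.norm_conj, hω1, hω2, one_mul]
  have hg1 : ∀ p : ℕ, p.Prime → p % 4 = 1 → p ∉ E ∪ n.primeFactors →
      ‖ω1 * (starRingEnd ℂ) ω2 * χ⁻¹ (p : ZMod n)‖ = 1 := by
    intro p hp _ hpE
    have hpn : ¬ p ∣ n := fun h => hpE (mem_union_right _ (Nat.mem_primeFactors.2 ⟨hp, h, hn.ne'⟩))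
    have hcop : p.Coprime n := (Nat.Prime.coprime_iff_not_dvd hp).2 hpn
    rw [norm_mul, hω, one_mul]
    have h3 := DirichletCharacter.unit_norm_eq_one χ⁻¹ (ZMod.unitOfCoprime p hcop)
    rwa [ZMod.coe_unitOfCoprime] at h3
  have hC : ∀ T : ℕ, ∀ᶠ X : ℝ in atTop, CmpT n (E ∪ n.primeFactors) T
      (fun p => ω1 * (starRingEnd ℂ) ω2 * χ⁻¹ (p : ZMod n))
      ((fun X e => f1 X (nm e.1) * f2 X (nm e.2) * χ (cl n e)) X) := by
    intro T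
    filter_upwards [h1.pr T, h2.pr T] with X hX1 hX2
    exact cmp_pairT n χ E T (f1 X) (f2 X) ω1 ω2 (h1.mul X) (h1.bd X) hX1 (h2.mul X) (h2.bd X) hX2 hω2
  rcases h0 with h | ⟨a, ha4, hac, hχ⟩ | h
  · exact ctwT n hn _ subset_union_right _ hg1 (max 0 (ω1 * (starRingEnd ℂ) ω2).re) (le_max_left _ _)
      (max_le zero_le_one (pair_re_lt hω h).le) (npChi n χ⁻¹ _ hω _) _ hC b W hW
      (Or.inl (max_lt zero_lt_one (pair_re_lt hω h)))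
  · refine ctwT n hn _ subset_union_right _ hg1 0 le_rfl zero_le_one (npZ n χ⁻¹ a ha4 hac ?_ _ hω _) _ hC b W hW
      (Or.inl zero_lt_one)
    intro h3
    apply hχ
    have h4 : (χ⁻¹ * χ) (a : ZMod n) = 1 := by
      rw [inv_mul_cancel, MulChar.one_apply ((ZMod.isUnit_iff_coprime a n).2 hac)]
    rw [MulChar.mul_apply, h3, one_mul] at h4
    exact h4
  · exact ctwT n hn _ subset_union_right _ hg1 (max 0 (ω1 * (starRingEnd ℂ) ω2).re) (le_max_left _ _)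
      (max_le zero_le_one (hω ▸ Complex.re_le_norm _)) (npChi n χ⁻¹ _ hω _) _ hC b W hW (Or.inr h)

/-- edges: different values, or test functions of mean zero -/
theorem edge_limT (E : Finset ℕ) (f1 f2 : ℝ → ℕ → ℂ) (ω1 ω2 : ℂ)
    (h1 : FX f1 E ω1) (h2 : FX f2 E ω2) (hω1 : ‖ω1‖ = 1) (hω2 : ‖ω2‖ = 1) (b : ℝ) (W : ℝ → ℝ → ℂ) (hW : TF b W)
    (h0 : ω1 ≠ ω2 ∨ ∀ y, (∫ t, W y t) = 0) :
    Tendsto (fun X : ℝ => Sx2 (f1 X) (f2 X) (b * X) W X / X) atTop (nhds 0) := by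
  have h0' : ω1 * (starRingEnd ℂ) ω2 ≠ 1 ∨
      (∃ a : ℕ, a % 4 = 1 ∧ a.Coprime 1 ∧ (1 : DirichletCharacter ℂ 1) ((a : ZMod 1)) ≠ 1) ∨
      ∀ y, (∫ t, W y t) = 0 := by
    rcases h0 with h0 | h0
    · left
      intro h
      apply h0
      have h3 : ω2 * (starRingEnd ℂ) ω2 = 1 := by
        rw [Complex.mul_conj, Complex.normSq_eq_norm_sq, hω2]
        simp
      have h4 : (starRingEnd ℂ) ω2 ≠ 0 := by
        intro h5
        rw [h5, mul_zero] at h3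
        exact zero_ne_one h3
      exact mul_right_cancel₀ h4 (h.trans h3.symm)
    · exact Or.inr (Or.inr h0)
  have h := pair_limT 1 1 E f1 f2 ω1 ω2 h1 h2 hω1 hω2 b W hW h0'
  have h3 : ∀ e, (1 : DirichletCharacter ℂ 1) (cl 1 e) = 1 := fun e =>
    MulChar.one_apply (isUnit_of_subsingleton _)
  refine h.congr fun X => ?_
  unfold Sx2
  simp only [h3, mul_one]

/-- the hypothesis `PTX` -/
theorem ptx (E : Finset ℕ) (f1 f2 : ℝ → ℕ → ℂ) (ω1 ω2 : ℂ)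
    (h1 : FX f1 E ω1) (h2 : FX f2 E ω2) (hω1 : ‖ω1‖ = 1) (hω2 : ‖ω2‖ = 1) : PTX f1 f2 := by
  intro b W hW h0 a ha
  exact edge_limT E (fun X => f1 (a * X)) (fun X => f2 (a * X)) ω1 ω2 (h1.dil ha) (h2.dil ha) hω1 hω2 b W hW (Or.inr h0)

end Pool.Agent.LPr
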