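import Pool.Agent.Lib_MP_f1a94e_lp.TwM

/-!
# Piece POSX: positivity of the constants
-/

set_option autoImplicit false

namespace Pool.Agent.LPr

open Finset Filter

/-- the product formula for `SW` over equal windows -/
private lemma posx_sw (g : ℕ → ℝ) (k : ℕ) (hk : 0 < k) (u : ℝ) (X : ℝ) (hX : 1 < X) (j : ℕ) :
    ∀ s : ℝ, (j : ℝ) / k ≤ s →
      SW g X (List.replicate j (u, 1 / (k : ℝ))) s = (∑ p ∈ PW X u (1 / k), g p / p) ^ j := by
  have hk' : (0 : ℝ) < k := by exact_mod_cast hk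
  have hlX : 0 < Real.log X := Real.log_pos hX
  induction j with
  | zero =>
    intro s hs
    have h0 : (0 : ℝ) ≤ s := by simpa using hs
    simp [SW, h0]
  | succ j ih =>
    intro s hs
    rw [List.replicate_succ, SW, pow_succ', Finset.sum_mul]
    refine Finset.sum_congr rfl (fun p hp => ?_)
    have hp' := (mem_PW (by linarith : (0 : ℝ) ≤ X)).1 hp
    have hp0 : (0 : ℝ) < p := by exact_mod_cast hp'.1.pos
    have h1 : Real.log p ≤ 1 / k * Real.log X := by
      have h2 := Real.log_le_log hp0 hp'.2.2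
      rwa [Real.log_rpow (by linarith)] at h2
    have h3 : Real.log p / Real.log X ≤ 1 / k := by
      rw [div_le_iff₀ hlX]
      exact h1
    have h4 : (j : ℝ) / k ≤ s - Real.log p / Real.log X := by
      have h5 : ((j + 1 : ℕ) : ℝ) / k = (j : ℝ) / k + 1 / k := by
        push_cast
        ring
      rw [h5] at hs
      linarith
    rw [ih _ h4]

/-- PROOF. `w = (u, 1/k)`, `l = [w, ..., w]` (`k` times, `List.replicate k w`). For `X > 1` and `s ≥ j / k` we have `SW g X (replicate j w) s = (∑_(p ∈ PW X u (1/k)) g p / p) ^ j` (induction on `j`: `log p / log X ≤ 1/k`, so `s - log p / log X ≥ (j - 1)/k`), so at `s = 1`, `j = k`,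
`SW (fun _ => 1) X l 1 = (∑ 1 / p)^k → (log ((1/k)/u))^k` (`mert_all`), hence `NW l = (log (1/(k u)))^k`. -/
theorem nw_replicate (k : ℕ) (hk : 0 < k) (u : ℝ) (hu : 0 < u) (huk : u ≤ 1 / k) :
    NW (List.replicate k (u, 1 / (k : ℝ))) = Real.log ((1 / k) / u) ^ k := by
  have hk' : (0 : ℝ) < k := by exact_mod_cast hk
  unfold NW
  apply Tendsto.limUnder_eq
  have h1 := (mert_all.lim u (1 / k) hu huk).pow k
  refine h1.congr' ?_
  filter_upwards [eventually_gt_atTop (1 : ℝ)] with X hX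
  exact (posx_sw (fun _ => 1) k hk u X hX k 1 (by rw [div_self hk'.ne'])).symm

private lemma posx_wc_mul (x u v : ℝ) {m n : ℕ} (hm : m ≠ 0) (hn : n ≠ 0) :
    wc x u v (m * n) = wc x u v m + wc x u v n := by
  unfold wc
  rw [((Nat.perm_primeFactorsList_mul hm hn).filter _).length_eq, List.filter_append,
    List.length_append]

private lemma posx_wc_prime (x u v : ℝ) {p : ℕ} (hp : p.Prime) (h1 : x ^ u < (p : ℝ)) (h2 : (p : ℝ) ≤ x ^ v) :
    wc x u v p = 1 := by
  unfold wc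
  rw [Nat.primeFactorsList_prime hp, List.filter_cons_of_pos (by simp [h1, h2])]
  simp

private lemma posx_tw_ne (X u v : ℝ) (hX : 0 ≤ X) (j : ℕ) :
    ∀ n : ℕ, n ≠ 0 → TW X (List.replicate j (u, v)) n ≠ 0 → j ≤ wc X u v n := by
  classical
  induction j with
  | zero =>
    intro n _ _
    exact Nat.zero_le _
  | succ j ih =>
    intro n hn h
    rw [List.replicate_succ, TW] at h
    obtain ⟨p, hp, hpn⟩ := Finset.exists_ne_zero_of_sum_ne_zero h
    rw [mem_filter, mem_PW hX] at hp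
    obtain ⟨⟨hpp, h1, h2⟩, hd⟩ := hp
    obtain ⟨m, rfl⟩ := hd
    have hm : m ≠ 0 := by
      rintro rfl
      exact hn (by simp)
    rw [Nat.mul_div_cancel_left m hpp.pos] at hpn
    have h3 := ih m hm hpn
    rw [posx_wc_mul X u v hpp.ne_zero hm, posx_wc_prime X u v hpp h1 h2]
    omega

private lemma posx_prod_gt (a : ℝ) (ha : 0 < a) :
    ∀ L : List ℕ, (∀ p ∈ L, a < (p : ℝ)) → a ^ L.length ≤ (L.prod : ℝ) ∧ (L ≠ [] → a ^ L.length < (L.prod : ℝ)) := by
  intro L
  induction L with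
  | nil =>
    intro _
    simp
  | cons p L ih =>
    intro h
    have h1 := ih (fun q hq => h q (List.mem_cons_of_mem _ hq))
    have h2 : a < (p : ℝ) := h p List.mem_cons_self
    have h3 : a ^ (p :: L).length < ((p :: L).prod : ℝ) := by
      rw [List.length_cons, List.prod_cons, pow_succ']
      push_cast
      have h4 : 0 < a ^ L.length := by positivity
      calc a * a ^ L.length < p * a ^ L.length := mul_lt_mul_of_pos_right h2 h4
        _ ≤ p * (L.prod : ℝ) := mul_le_mul_of_nonneg_left (by exact_mod_cast h1.1) (by linarith)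
        _ = _ := by push_cast; rfl
    exact ⟨h3.le, fun _ => h3⟩

private lemma posx_wc_le (k : ℕ) (u v : ℝ) (hu : 0 < u) (hu1 : 1 ≤ (k + 1) * u) (X : ℝ) (hX : 2 ≤ X) (n : ℕ)
    (hn : n ≠ 0) (hnX : (n : ℝ) ≤ X) : wc X u v n ≤ k := by
  classical
  by_contra hcon
  push Not at hcon
  set L := n.primeFactorsList.filter (fun p : ℕ => X ^ u < (p : ℝ) ∧ (p : ℝ) ≤ X ^ v) with hL
  have hlen : k + 1 ≤ L.length := hcon
  have hXu : 1 ≤ X ^ u := Real.one_le_rpow (by linarith) hu.le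
  have hmem : ∀ p ∈ L, X ^ u < (p : ℝ) := by
    intro p hp
    rw [hL, List.mem_filter] at hp
    have := hp.2
    simp only [decide_eq_true_eq] at this
    exact this.1
  have hne : L ≠ [] := by
    rintro h
    rw [h] at hlen
    simp at hlen
  have h1 := (posx_prod_gt (X ^ u) (by linarith) L hmem).2 hne
  have h2 : L.prod ∣ n := by
    have h3 : L.prod ∣ n.primeFactorsList.prod := (List.filter_sublist).prod_dvd_prod
    rwa [Nat.prod_primeFactorsList hn] at h3
  have h4 : (L.prod : ℝ) ≤ n := by exact_mod_cast Nat.le_of_dvd (Nat.pos_of_ne_zero hn) h2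
  have h5 : X ≤ (X ^ u) ^ L.length := by
    calc X = X ^ (1 : ℝ) := (Real.rpow_one X).symm
      _ ≤ X ^ (u * ((k + 1 : ℕ) : ℝ)) := by
          apply Real.rpow_le_rpow_of_exponent_le (by linarith)
          push_cast
          linarith
      _ = (X ^ u) ^ (k + 1) := by rw [Real.rpow_mul (by linarith), Real.rpow_natCast]
      _ ≤ (X ^ u) ^ L.length := pow_le_pow_right₀ hXu hlen
  linarith

/-- PROOF. If `TW X (replicate k w) n ≠ 0` then `n` is divisible by a product of `k` primes of the window (nonempty filter at each step), so `wc X u (1/k) n ≥ k`; and if `n ≤ X`, `n ≠ 0` then `wc ≤ k`, since `k + 1` primes of the window (with multiplicity) have a product larger than `X^((k + 1) u) ≥ X`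
(`(k + 1) u ≥ 1`) dividing `n`. And `TW X (replicate k w) n ≤ k^k`... any bound `B` works: `tw_bd` with `δ = u`, `n ≤ X ≤ X²`. -/
theorem tw_le_ind (k : ℕ) (hk : 0 < k) (u : ℝ) (hu : 0 < u) (huk : u < 1 / k) (hu1 : 1 ≤ (k + 1) * u) :
    ∃ B : ℝ, 0 < B ∧ ∀ X : ℝ, 2 ≤ X → ∀ n : ℕ, n ≠ 0 → (n : ℝ) ≤ X →
      TW X (List.replicate k (u, 1 / (k : ℝ))) n ≤ if wc X u (1 / k) n = k then B else 0 := by
  obtain ⟨B, hB0, hB⟩ := tw_bd u hu (List.replicate k (u, 1 / (k : ℝ))) (by
    intro w hw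
    rw [List.eq_of_mem_replicate hw])
  refine ⟨B + 1, by linarith, fun X hX n hn hnX => ?_⟩
  have hnX2 : (n : ℝ) ≤ X ^ 2 := by nlinarith
  split_ifs with h
  · linarith [(hB X hX n hn hnX2).2]
  · by_contra hcon
    push Not at hcon
    have h1 := posx_tw_ne X u (1 / k) (by linarith) k n hn hcon.ne'
    have h2 := posx_wc_le k u (1 / k) hu hu1 X hX n hn hnX
    exact h (le_antisymm h2 h1)

/-- PROOF. `∑_(n ≤ x) TW x l n / x → NW l` (`tw_mean`), `l = replicate k (u, 1/k)`; `∑_(n ≤ x) TW x l n ≤ B #{n ≤ x : wc = k}`, so `NW l ≤ B c`, and `NW l = log (1/(k u))^k > 0`. -/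
theorem pos_law (k : ℕ) (hk : 0 < k) (u : ℝ) (hu : 0 < u) (huk : u < 1 / k) (hu1 : 1 ≤ (k + 1) * u) (c : ℝ)
    (hc : Tendsto (fun x : ℝ => (Set.ncard {n : ℕ | 1 ≤ n ∧ (n : ℝ) ≤ x ∧ wc x u (1 / k) n = k} : ℝ) / x) atTop (nhds c)) :
    0 < c := by
  classical
  have hwin : Win (List.replicate k (u, 1 / (k : ℝ))) := by
    intro w hw
    rw [List.eq_of_mem_replicate hw]
    exact ⟨hu, huk.le⟩
  have h1 := tw_mean _ hwin
  obtain ⟨B, hB0, hB⟩ := tw_le_ind k hk u hu huk hu1
  have h2 : NW (List.replicate k (u, 1 / (k : ℝ))) ≤ B * c := by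
    refine le_of_tendsto_of_tendsto h1 (hc.const_mul B) ?_
    filter_upwards [eventually_ge_atTop (2 : ℝ)] with x hx
    have hset : {n : ℕ | 1 ≤ n ∧ (n : ℝ) ≤ x ∧ wc x u (1 / k) n = k} =
        (((Icc 1 ⌊x⌋₊).filter (fun n => wc x u (1 / k) n = k) : Finset ℕ) : Set ℕ) := by
      ext n
      simp only [Set.mem_setOf_eq, coe_filter, mem_Icc]
      constructor
      · rintro ⟨h3, h4, h5⟩
        exact ⟨⟨h3, Nat.le_floor h4⟩, h5⟩
      · rintro ⟨⟨h3, h4⟩, h5⟩
        exact ⟨h3, (Nat.le_floor_iff (by linarith)).1 h4, h5⟩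
    rw [hset, Set.ncard_coe_finset, ← mul_div_assoc]
    apply div_le_div_of_nonneg_right _ (by linarith : (0 : ℝ) ≤ x)
    calc ∑ n ∈ Icc 1 ⌊x⌋₊, TW x (List.replicate k (u, 1 / (k : ℝ))) n
        ≤ ∑ n ∈ Icc 1 ⌊x⌋₊, (if wc x u (1 / k) n = k then B else 0) := by
          refine Finset.sum_le_sum (fun n hn => ?_)
          rw [mem_Icc] at hn
          exact hB x hx n (by omega) ((Nat.le_floor_iff (by linarith)).1 hn.2)
      _ = B * (((Icc 1 ⌊x⌋₊).filter (fun n => wc x u (1 / k) n = k)).card : ℝ) := by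
          rw [← Finset.sum_filter, Finset.sum_const, nsmul_eq_mul, mul_comm]
  rw [nw_replicate k hk u hu huk.le] at h2
  have h3 : 1 < (1 / (k : ℝ)) / u := by
    rw [lt_div_iff₀ hu]
    linarith
  have h4 : 0 < Real.log ((1 / k) / u) ^ k := pow_pos (Real.log_pos h3) k
  by_contra hcon
  push Not at hcon
  nlinarith [mul_nonneg hB0.le (neg_nonneg.2 hcon)]

end Pool.Agent.LPr
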