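import Pool.Agent.Lib_MP_f1a94e_lp.VDefs

/-!
# Numbers with a given profile of large prime factors: definition
-/

set_option autoImplicit false

namespace Pool.Agent.LPr

open Finset Filter

/-- `n = s p_1 ... p_k` with primes `p_i` between `y^(t i - ε)` and `y^(t i + ε)`, all prime factors of `s` at most `y^ε`
and `s ≤ y^(1 - ∑ t i + ε)` -/
def BigG (k : ℕ) (t : Fin k → ℝ) (ε y : ℝ) (n : ℕ) : Prop :=
  ∃ (s : ℕ) (p : Fin k → ℕ), (∀ i, (p i).Prime ∧ y ^ (t i - ε) ≤ p i ∧ (p i : ℝ) ≤ y ^ (t i + ε)) ∧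
    n = s * ∏ i, p i ∧ (s : ℝ) ≤ y ^ (1 - ∑ i, t i + ε) ∧ ∀ r : ℕ, r.Prime → r ∣ s → (r : ℝ) ≤ y ^ ε

end Pool.Agent.LPr
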