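import Pool.Agent.Lib_MP_f1a94e_lp.ArcX
import Pool.Agent.Lib_MP_f1a94e_eq.QdS

/-!
# Piece QDX: correlations on average from Matomaki-Radziwill, for families
-/

set_option autoImplicit false

namespace Pool.Agent.LPr

open Finset Pool.Agent.GaussMR Pool.Agent.OmAll Pool.Agent.OmEq MeasureTheory Filter

/-- PROOF. The proof of `qds` (QdS.lean, last theorem) with `f` replaced by `f (a * Y)` and `arcpair` by `arcX`; `qds_sum`, `qds_cmp`, `qds_bad`, `qdsK_bd`, `qdsK_per`, ... are for a single function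
(or do not mention `f`) and are used as they are. -/
theorem qdsX (f : ℝ → ℕ → ℂ) (hf : ∀ X n, ‖f X n‖ ≤ 1) (hM : MRPX f) : QdSmallX f := by
  classical
  intro d hd h h1 h2 hh ε hε
  have h1p := hh.pos
  have h2p := hh.one
  by_cases h12 : h1 ≤ h2
  swap
  · -- trivial: `h = 0`
    have hz : ∀ y, h y = 0 := by
      intro y
      rcases le_total y h1 with h3 | h3
      · exact hh.lo y h3
      · exact hh.hi y (by linarith)
    refine ⟨0, fun N _ a _ => ?_⟩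
    filter_upwards [eventually_ge_atTop 0] with Y hY
    have h0 : ∑ n ∈ (Icc 1 N).filter (fun n => d ∣ n), ((kap n * ww ((n : ℝ) / N) : ℝ) : ℂ) *
      Qs (f (a * Y)) n (h2 * Y) (fun y t => ((h y ^ 2 * ps0 t : ℝ) : ℂ)) Y = 0 := by
      apply sum_eq_zero
      intro n _
      have : Qs (f (a * Y)) n (h2 * Y) (fun y t => ((h y ^ 2 * ps0 t : ℝ) : ℂ)) Y = 0 := by
        unfold Qs
        apply sum_eq_zero
        intro e _
        dsimp only
        rw [hz]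
        simp
      rw [this, mul_zero]
    rw [h0, norm_zero]
    positivity
  obtain ⟨C, hC, hcntA⟩ := cntA (h1 / 4) (3 * h2) (2 / h1) (by linarith) (by linarith) (by positivity)
  obtain ⟨C1, hC1, hcnt⟩ := cnt 1
  set K : ℝ := C + 2 * C1 * h2 with hK
  have hKp : 0 < K := by positivity
  set η : ℝ := min 1 (ε / (4 * K)) with hηd
  have hη : 0 < η := lt_min one_pos (by positivity)
  have hη1 : η ≤ 1 := min_le_left _ _
  have hη2 : η * (4 * K) ≤ ε := by
    have := min_le_right 1 (ε / (4 * K))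
    rwa [← hηd, le_div_iff₀ (by positivity)] at this
  obtain ⟨N0, hN0⟩ := arcX f hf hM (4 * d) (by omega) (qdsK d) (qdsK_bd d) (qdsK_per d) (h1 / 2) (3 * h2) (1 / h1)
    (by linarith) (by linarith) (by positivity) (qdsF h η (h1 / 2)) (qdsF_cont hh.cont η (by linarith))
    (qdsF_van hh hη) (ε / 2) (by linarith)
  obtain ⟨δ1, hδ1, hw⟩ := Metric.uniformContinuous_iff.1 (qdsW_uc η hη) (η / 4) (by linarith)
  obtain ⟨δ2, hδ2, hhu⟩ := Metric.uniformContinuous_iff.1 (qds_huc hh) (η / 4) (by linarith)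
  set δ := min δ1 δ2 with hδd
  have hδ : 0 < δ := lt_min hδ1 hδ2
  have hw' : ∀ s s' : ℝ, |s - s'| < δ → |qdsW η s - qdsW η s'| < η / 4 := by
    intro s s' hs
    have := hw (a := s) (b := s') (by rw [Real.dist_eq]; exact hs.trans_le (min_le_left _ _))
    rwa [Real.dist_eq] at this
  have hhu' : ∀ s s' : ℝ, |s - s'| < δ → |h s - h s'| < η / 4 := by
    intro s s' hs
    have := hhu (a := s) (b := s') (by rw [Real.dist_eq]; exact hs.trans_le (min_le_right _ _))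
    rwa [Real.dist_eq] at this
  refine ⟨max N0 1, fun N hN a ha => ?_⟩
  have hN1 : 1 ≤ N := (le_max_right _ _).trans hN
  have hN' : (1 : ℝ) ≤ N := by exact_mod_cast hN1
  have hl1 : Tendsto (fun Y : ℝ => (N : ℝ) / (h1 * Y)) atTop (nhds 0) := by
    have h3 : Tendsto (fun Y : ℝ => ((N : ℝ) / h1) / Y) atTop (nhds 0) := tendsto_const_nhds.div_atTop tendsto_id
    refine h3.congr (fun Y => ?_)
    rw [div_div]
  have hl2 : Tendsto (fun Y : ℝ => 2 * (N : ℝ) / (h1 * Y)) atTop (nhds 0) := by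
    have h3 : Tendsto (fun Y : ℝ => (2 * (N : ℝ) / h1) / Y) atTop (nhds 0) := tendsto_const_nhds.div_atTop tendsto_id
    refine h3.congr (fun Y => ?_)
    rw [div_div]
  have hl3 : Tendsto (fun Y : ℝ => (N : ℝ) / Y) atTop (nhds 0) := tendsto_const_nhds.div_atTop tendsto_id
  filter_upwards [hN0 N ((le_max_left _ _).trans hN) a ha, hcntA N hN1, eventually_gt_atTop 0,
    eventually_ge_atTop (2 * (N : ℝ) / h1), eventually_ge_atTop (2 * (N : ℝ)),
    hl1.eventually_lt_const (by positivity : 0 < Real.pi / 2), hl2.eventually_lt_const hδ,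
    hl3.eventually_lt_const hδ] with Y hA hB hY0 hY1 hY2 hY3 hY4 hY5
  have hY1' : 2 * (N : ℝ) ≤ h1 * Y := by
    rw [div_le_iff₀ h1p] at hY1
    linarith
  rw [qds_sum (f (a * Y)) d hh hY2 hY0]
  set P := PV (3 * h2 * Y) with hP
  rw [← sum_product' P P (fun V V' => qdsK d V V' * (f (a * Y) (nm V) * (starRingEnd ℂ) (f (a * Y) (nm V'))) *
        ((qdsF h η (h1 / 2) (nm V / Y) (nm V' / Y) (Y * ang V V' / N) : ℝ) : ℂ))] at hA
  have hdec : ∑ e ∈ P ×ˢ P, qdsK d e.1 e.2 * (f (a * Y) (nm e.1) * (starRingEnd ℂ) (f (a * Y) (nm e.2))) * ((qdsT h N Y e : ℝ) : ℂ) =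
      ∑ e ∈ P ×ˢ P, qdsK d e.1 e.2 * (f (a * Y) (nm e.1) * (starRingEnd ℂ) (f (a * Y) (nm e.2))) *
        ((qdsF h η (h1 / 2) (nm e.1 / Y) (nm e.2 / Y) (Y * ang e.1 e.2 / N) : ℝ) : ℂ) +
      ∑ e ∈ P ×ˢ P, qdsK d e.1 e.2 * (f (a * Y) (nm e.1) * (starRingEnd ℂ) (f (a * Y) (nm e.2))) *
        ((qdsT h N Y e - qdsF h η (h1 / 2) (nm e.1 / Y) (nm e.2 / Y) (Y * ang e.1 e.2 / N) : ℝ) : ℂ) := by
    rw [← sum_add_distrib]
    apply sum_congr rfl
    intro e _
    rw [Complex.ofReal_sub]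
    ring
  rw [hdec]
  refine (norm_add_le _ _).trans ?_
  have hsec : ‖∑ e ∈ P ×ˢ P, qdsK d e.1 e.2 * (f (a * Y) (nm e.1) * (starRingEnd ℂ) (f (a * Y) (nm e.2))) *
        ((qdsT h N Y e - qdsF h η (h1 / 2) (nm e.1 / Y) (nm e.2 / Y) (Y * ang e.1 e.2 / N) : ℝ) : ℂ)‖ ≤
      ε / 2 * N * Y := by
    have hpt : ∀ e ∈ P ×ˢ P, ‖qdsK d e.1 e.2 * (f (a * Y) (nm e.1) * (starRingEnd ℂ) (f (a * Y) (nm e.2))) *
        ((qdsT h N Y e - qdsF h η (h1 / 2) (nm e.1 / Y) (nm e.2 / Y) (Y * ang e.1 e.2 / N) : ℝ) : ℂ)‖ ≤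
        2 * ((if h1 / 4 * Y ≤ nm e.1 ∧ h1 / 4 * Y ≤ nm e.2 ∧ |ang e.1 e.2| ≤ 2 / h1 * N / Y then η else 0) +
          (if qdsBad h2 η N Y e then 2 else 0)) := by
      intro e he
      rw [mem_product, hP, mem_PV, mem_PV] at he
      have hcm := qds_cmp hh hη hN1 hY0 hY1' hY3 hY4 hY5 hw' hhu' e he.1.2 he.2.2
      set DD := qdsT h N Y e - qdsF h η (h1 / 2) (nm e.1 / Y) (nm e.2 / Y) (Y * ang e.1 e.2 / N) with hDD
      have hKf : ‖qdsK d e.1 e.2 * (f (a * Y) (nm e.1) * (starRingEnd ℂ) (f (a * Y) (nm e.2)))‖ ≤ 2 := by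
        rw [norm_mul, norm_mul, RCLike.norm_conj]
        have q1 := qdsK_bd d e.1 e.2
        have q2 : ‖f (a * Y) (nm e.1)‖ * ‖f (a * Y) (nm e.2)‖ ≤ 1 := mul_le_one₀ (hf _ _) (norm_nonneg _) (hf _ _)
        have q3 : 0 ≤ ‖f (a * Y) (nm e.1)‖ * ‖f (a * Y) (nm e.2)‖ := by positivity
        exact (mul_le_mul q1 q2 q3 zero_le_two).trans (by rw [mul_one])
      rw [norm_mul, Complex.norm_real, Real.norm_eq_abs]
      refine mul_le_mul hKf ?_ (abs_nonneg _) (by norm_num)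
      rcases hcm with ⟨m1, m2⟩ | ⟨m1, m2, m3, m4, m5⟩ | m1
      · rw [if_pos m2]
        have : (0 : ℝ) ≤ if qdsBad h2 η N Y e then 2 else 0 := by split_ifs <;> norm_num
        linarith
      · rw [if_pos ⟨m2, m3, m4⟩, if_pos m5]
        linarith
      · have t1 : (0 : ℝ) ≤ if qdsBad h2 η N Y e then 2 else 0 := by split_ifs <;> norm_num
        have t2 : (0 : ℝ) ≤ if h1 / 4 * Y ≤ nm e.1 ∧ h1 / 4 * Y ≤ nm e.2 ∧ |ang e.1 e.2| ≤ 2 / h1 * N / Y then η
            else 0 := by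
          split_ifs
          · exact hη.le
          · exact le_rfl
        linarith
    refine (norm_sum_le _ _).trans ((sum_le_sum hpt).trans ?_)
    rw [← mul_sum, sum_add_distrib, ← sum_filter, ← sum_filter, sum_const, sum_const, nsmul_eq_mul, nsmul_eq_mul]
    have hb := qds_bad hC1 hη hη1 h2p hcnt (N := N) (Y := Y) (by linarith) (3 * h2 * Y)
    rw [← hP] at hb
    have hb2 : (((P ×ˢ P).filter (fun e : G × G => h1 / 4 * Y ≤ nm e.1 ∧ h1 / 4 * Y ≤ nm e.2 ∧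
        |ang e.1 e.2| ≤ 2 / h1 * N / Y)).card : ℝ) ≤ C * N * Y := by
      refine le_trans (le_of_eq ?_) hB
      congr
    have hb1 : (((P ×ˢ P).filter (fun e : G × G => qdsBad h2 η N Y e)).card : ℝ) ≤ η * N * (C1 * (h2 * Y)) := by
      refine le_trans (le_of_eq ?_) hb
      congr
    have t1 := mul_le_mul_of_nonneg_right hb2 hη.le
    have hNY : 0 ≤ (N : ℝ) * Y := by positivity
    have t3 : 2 * (C * N * Y * η + η * N * (C1 * (h2 * Y)) * 2) = η * (4 * K) / 2 * ((N : ℝ) * Y) := by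
      rw [hK]
      ring
    have t4 : η * (4 * K) / 2 * ((N : ℝ) * Y) ≤ ε / 2 * ((N : ℝ) * Y) :=
      mul_le_mul_of_nonneg_right (by linarith) hNY
    calc _ ≤ 2 * (C * N * Y * η + η * N * (C1 * (h2 * Y)) * 2) := by linarith
      _ = η * (4 * K) / 2 * ((N : ℝ) * Y) := t3
      _ ≤ ε / 2 * ((N : ℝ) * Y) := t4
      _ = ε / 2 * N * Y := by ring
  refine (add_le_add hA hsec).trans (le_of_eq ?_)
  ring

end Pool.Agent.LPr
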