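import Pool.Agent.Lib_MP_f1a94e_lp.VDefs

/-!
# Piece SWB: simple facts on `SW`
-/

set_option autoImplicit false

namespace Pool.Agent.LPr

open Finset Filter

/-- induction on `l` -/
theorem sw_nn (g : ℕ → ℝ) (hg : ∀ p, 0 ≤ g p) (X : ℝ) (l : List (ℝ × ℝ)) (s : ℝ) : 0 ≤ SW g X l s := by
  induction l generalizing s with
  | nil =>
    unfold SW
    split_ifs
    · exact zero_le_one
    · exact le_rfl
  | cons w l ih =>
    unfold SW
    exact Finset.sum_nonneg (fun p _ => mul_nonneg (div_nonneg (hg p) (Nat.cast_nonneg p)) (ih _))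

/-- induction on `l` -/
theorem sw_mono (g : ℕ → ℝ) (hg : ∀ p, 0 ≤ g p) (X : ℝ) (l : List (ℝ × ℝ)) (s t : ℝ) (h : s ≤ t) :
    SW g X l s ≤ SW g X l t := by
  induction l generalizing s t with
  | nil =>
    unfold SW
    split_ifs with h1 h2
    · exact le_rfl
    · exact absurd (h1.trans h) h2
    · exact zero_le_one
    · exact le_rfl
  | cons w l ih =>
    unfold SW
    exact Finset.sum_le_sum (fun p _ => mul_le_mul_of_nonneg_left
      (ih _ _ (sub_le_sub_right h _)) (div_nonneg (hg p) (Nat.cast_nonneg p)))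

/-- the mass of a window is eventually at most its limit plus one -/
private theorem swb_mass (g : ℕ → ℝ) (hg : Mert g) (u v : ℝ) (hu : 0 < u) (huv : u ≤ v) (δ : ℝ)
    (hδ : 0 < δ) :
    ∀ᶠ X : ℝ in atTop, ∑ p ∈ PW X u v, g p / p ≤ Real.log (v / u) + δ :=
  (hg.lim u v hu huv).eventually (Iic_mem_nhds (lt_add_of_pos_right _ hδ))

/-- induction on `l`: `B_(w :: l) = (log (w.2 / w.1) + 1) B_l` -/
theorem sw_bd (g : ℕ → ℝ) (hg : Mert g) (l : List (ℝ × ℝ)) (hl : Win l) :
    ∃ B : ℝ, 0 ≤ B ∧ ∀ᶠ X : ℝ in atTop, ∀ s : ℝ, SW g X l s ≤ B := by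
  induction l with
  | nil =>
    refine ⟨1, zero_le_one, Eventually.of_forall (fun X s => ?_)⟩
    unfold SW
    split_ifs
    · exact le_rfl
    · exact zero_le_one
  | cons w l ih =>
    obtain ⟨B, hB, hB2⟩ := ih (fun w' hw' => hl w' (List.mem_cons_of_mem _ hw'))
    obtain ⟨hw1, hw2⟩ := hl w List.mem_cons_self
    have hlog : 0 ≤ Real.log (w.2 / w.1) := Real.log_nonneg ((one_le_div hw1).mpr hw2)
    refine ⟨(Real.log (w.2 / w.1) + 1) * B, mul_nonneg (by linarith) hB, ?_⟩
    filter_upwards [hB2, swb_mass g hg w.1 w.2 hw1 hw2 1 one_pos] with X h1 h2 s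
    unfold SW
    calc ∑ p ∈ PW X w.1 w.2, g p / p * SW g X l (s - Real.log p / Real.log X)
        ≤ ∑ p ∈ PW X w.1 w.2, g p / p * B :=
          Finset.sum_le_sum (fun p _ => mul_le_mul_of_nonneg_left (h1 _)
            (div_nonneg (hg.nn p) (Nat.cast_nonneg p)))
      _ = (∑ p ∈ PW X w.1 w.2, g p / p) * B := by rw [Finset.sum_mul]
      _ ≤ (Real.log (w.2 / w.1) + 1) * B := mul_le_mul_of_nonneg_right h2 hB

private theorem swb_grid (u ρ : ℝ) (N : ℕ) (x : ℝ) (h1 : u ≤ x) (h2 : x < u * ρ ^ N) :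
    ∃ i : ℕ, i < N ∧ u * ρ ^ i ≤ x ∧ x < u * ρ ^ (i + 1) := by
  induction N with
  | zero =>
    rw [pow_zero, mul_one] at h2
    exact absurd h2 (not_lt.mpr h1)
  | succ n ih =>
    by_cases h3 : x < u * ρ ^ n
    · obtain ⟨i, hi, h4⟩ := ih h3
      exact ⟨i, hi.trans (Nat.lt_succ_self n), h4⟩
    · exact ⟨n, Nat.lt_succ_self n, not_lt.mp h3, h2⟩

open Classical in
/-- small windows have small mass -/
private theorem swb_small (g : ℕ → ℝ) (hg : Mert g) (u v : ℝ) (hu : 0 < u) (huv : u ≤ v) (ε : ℝ)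
    (hε : 0 < ε) :
    ∃ η : ℝ, 0 < η ∧ ∀ᶠ X : ℝ in atTop, ∀ s : ℝ,
      ∑ p ∈ (PW X u v).filter (fun p : ℕ => s < Real.log p / Real.log X ∧
        Real.log p / Real.log X ≤ s + η), g p / p ≤ ε := by
  rcases eq_or_lt_of_le huv with h | h
  · refine ⟨1, one_pos, ?_⟩
    filter_upwards [eventually_ge_atTop (0 : ℝ)] with X hX s
    rw [Finset.sum_eq_zero]
    · exact hε.le
    · intro p hp
      have h1 := (mem_PW hX).mp (Finset.mem_filter.mp hp).1
      rw [h] at h1
      exact absurd h1.2.2 (not_le.mpr h1.2.1)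
  · have hq : 1 < v / u := (one_lt_div hu).mpr h
    have hlog : 0 < Real.log (v / u) := Real.log_pos hq
    obtain ⟨N, hN⟩ := exists_nat_gt (4 * Real.log (v / u) / ε)
    have hN0 : (0 : ℝ) < N := lt_of_le_of_lt (by positivity) hN
    have hN1 : N ≠ 0 := by
      rintro rfl
      simp at hN0
    obtain ⟨ρ, hρdef⟩ : ∃ ρ : ℝ, ρ = Real.exp (Real.log (v / u) / N) := ⟨_, rfl⟩
    have hρ1 : 1 < ρ := by
      rw [hρdef]
      exact Real.one_lt_exp_iff.mpr (div_pos hlog hN0)
    have hρ0 : 0 < ρ := lt_trans one_pos hρ1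
    have hρN : u * ρ ^ N = v := by
      rw [hρdef, ← Real.exp_nat_mul, mul_div_cancel₀ _ hN0.ne', Real.exp_log (lt_trans one_pos hq)]
      field_simp
    have hlρ : Real.log ρ = Real.log (v / u) / N := by
      rw [hρdef, Real.log_exp]
    refine ⟨u * (ρ - 1), mul_pos hu (by linarith), ?_⟩
    have hev : ∀ᶠ X : ℝ in atTop, ∀ i ∈ Finset.range N,
        ∑ p ∈ PW X (u * ρ ^ i) (u * ρ ^ (i + 2)), g p / p ≤ ε := by
      rw [Filter.eventually_all_finset]
      intro i _
      have h1 := swb_mass g hg (u * ρ ^ i) (u * ρ ^ (i + 2)) (by positivity)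
        (mul_le_mul_of_nonneg_left (pow_le_pow_right₀ hρ1.le (by omega)) hu.le) (ε / 2)
        (by linarith)
      filter_upwards [h1] with X hX
      refine hX.trans ?_
      have h2 : u * ρ ^ (i + 2) / (u * ρ ^ i) = ρ ^ 2 := by
        rw [mul_div_mul_left _ _ hu.ne', pow_add]
        field_simp
      rw [h2, Real.log_pow, hlρ]
      have h3 : 4 * Real.log (v / u) < N * ε := (div_lt_iff₀ hε).mp hN
      have h4 : Real.log (v / u) / N < ε / 4 := by
        rw [div_lt_div_iff₀ hN0 (by norm_num)]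
        linarith
      push_cast
      linarith
    filter_upwards [hev, eventually_gt_atTop (1 : ℝ)] with X hX hX1 s
    have hlX : 0 < Real.log X := Real.log_pos hX1
    have hX0 : (0 : ℝ) < X := lt_trans one_pos hX1
    -- position of a prime
    have hpos : ∀ p ∈ PW X u v, u < Real.log p / Real.log X ∧ Real.log p / Real.log X ≤ v := by
      intro p hp
      obtain ⟨hp1, hp2, hp3⟩ := (mem_PW hX0.le).mp hp
      have hp0 : (0 : ℝ) < p := by exact_mod_cast hp1.pos
      constructor
      · rw [lt_div_iff₀ hlX, ← Real.log_rpow hX0]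
        exact Real.log_lt_log (Real.rpow_pos_of_pos hX0 u) hp2
      · rw [div_le_iff₀ hlX, ← Real.log_rpow hX0]
        exact Real.log_le_log hp0 hp3
    by_cases hs : max s u < v
    · rw [← hρN] at hs
      obtain ⟨i, hi, hi1, hi2⟩ := swb_grid u ρ N (max s u) (le_max_right _ _) hs
      refine le_trans ?_ (hX i (Finset.mem_range.mpr hi))
      refine Finset.sum_le_sum_of_subset_of_nonneg ?_
        (fun p _ _ => div_nonneg (hg.nn p) (Nat.cast_nonneg p))
      intro p hp
      obtain ⟨hp1, hp2, hp3⟩ := Finset.mem_filter.mp hp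
      obtain ⟨hq1, hq2⟩ := hpos p hp1
      obtain ⟨hr1, hr2, hr3⟩ := (mem_PW hX0.le).mp hp1
      have hp0 : (0 : ℝ) < p := by exact_mod_cast hr1.pos
      have h5 : max s u < Real.log p / Real.log X := max_lt hp2 hq1
      have h6 : Real.log p / Real.log X ≤ u * ρ ^ (i + 2) := by
        have h7 : s ≤ max s u := le_max_left _ _
        have h8 : u * (ρ - 1) ≤ u * ρ ^ (i + 1) * (ρ - 1) := by
          have h9 : (1 : ℝ) ≤ ρ ^ (i + 1) := one_le_pow₀ hρ1.le
          have h10 : 0 ≤ u * (ρ - 1) := mul_nonneg hu.le (by linarith)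
          nlinarith
        have h11 : u * ρ ^ (i + 2) = u * ρ ^ (i + 1) + u * ρ ^ (i + 1) * (ρ - 1) := by ring
        linarith
      have h12 : u * ρ ^ i < Real.log p / Real.log X := lt_of_le_of_lt hi1 h5
      have hpe : (p : ℝ) = X ^ (Real.log p / Real.log X) := by
        rw [Real.rpow_def_of_pos hX0, mul_div_cancel₀ _ hlX.ne', Real.exp_log hp0]
      rw [mem_PW hX0.le]
      refine ⟨hr1, ?_, ?_⟩
      · rw [hpe]
        exact Real.rpow_lt_rpow_of_exponent_lt hX1 h12
      · conv_lhs => rw [hpe]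
        exact Real.rpow_le_rpow_of_exponent_le hX1.le h6
    · rw [Finset.sum_eq_zero]
      · exact hε.le
      · intro p hp
        obtain ⟨hp1, hp2, hp3⟩ := Finset.mem_filter.mp hp
        obtain ⟨hq1, hq2⟩ := hpos p hp1
        exact absurd (lt_of_lt_of_le (max_lt hp2 hq1) hq2) hs

/-- PROOF. Small windows have small mass, uniformly: for `ε > 0` and `0 < u ≤ v` there is `η > 0` such that for `X` large and ALL real `s`, the sum of `g p / p` over the `p ∈ PW X u v` with `s < log p / log X ≤ s + η` is at most `ε`: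
take the grid `u = t_0 < ... < t_N = v`, `t_i = u (v/u)^(i/N)` with `log (v/u) / N ≤ ε / 4`, `η = min_i (t_(i+1) - t_i)`; an interval `(s, s + η]` meets at most two of the windows `(t_i, t_(i+1)]`, and each of these finitely many windows has mass `≤ ε / 2` for `X` large (`Mert.lim`).
(If `u = v` the window is empty.) Then induction on `l`: for `l = [w]`, `SW [w] (s + η) - SW [w] s = ∑_(p, s < log p / log X ≤ s + η) g p / p ≤ ε`. For `l = w :: l'`, `l' ≠ []`:
`SW l (s + η) - SW l s = ∑_p g p / p (SW l' (s + η - log p / log X) - SW l' (s - log p / log X)) ≤ ε' ∑_p g p / p ≤ ε' (log (w.2 / w.1) + 1)`. -/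
theorem sw_equi (g : ℕ → ℝ) (hg : Mert g) (l : List (ℝ × ℝ)) (hl : Win l) (hne : l ≠ []) (ε : ℝ) (hε : 0 < ε) :
    ∃ η : ℝ, 0 < η ∧ ∀ᶠ X : ℝ in atTop, ∀ s : ℝ, SW g X l (s + η) - SW g X l s ≤ ε := by
  classical
  induction l generalizing ε with
  | nil => exact absurd rfl hne
  | cons w l ih =>
    obtain ⟨hw1, hw2⟩ := hl w List.mem_cons_self
    have hl' : Win l := fun w' hw' => hl w' (List.mem_cons_of_mem _ hw')
    by_cases hln : l = []
    · subst hln
      obtain ⟨η, hη, hη2⟩ := swb_small g hg w.1 w.2 hw1 hw2 ε hε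
      refine ⟨η, hη, ?_⟩
      filter_upwards [hη2] with X hX s
      refine le_trans (le_of_eq ?_) (hX s)
      unfold SW
      rw [← Finset.sum_sub_distrib, Finset.sum_filter]
      refine Finset.sum_congr rfl (fun p _ => ?_)
      unfold SW
      rw [← mul_sub]
      by_cases h1 : s < Real.log p / Real.log X
      · rw [if_neg (c := 0 ≤ s - Real.log p / Real.log X) (by linarith), sub_zero]
        by_cases h2 : Real.log p / Real.log X ≤ s + η
        · rw [if_pos (by linarith), if_pos ⟨h1, h2⟩, mul_one]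
        · rw [if_neg (by linarith), if_neg (fun h => h2 h.2), mul_zero]
      · rw [if_pos (c := 0 ≤ s - Real.log p / Real.log X) (by linarith),
          if_pos (by linarith), if_neg (fun h => h1 h.1), sub_self, mul_zero]
    · have hlog : 0 ≤ Real.log (w.2 / w.1) := Real.log_nonneg ((one_le_div hw1).mpr hw2)
      obtain ⟨η, hη, hη2⟩ := ih hl' hln (ε / (Real.log (w.2 / w.1) + 1)) (by positivity)
      refine ⟨η, hη, ?_⟩
      filter_upwards [hη2, swb_mass g hg w.1 w.2 hw1 hw2 1 one_pos] with X h1 h2 s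
      have e1 : SW g X (w :: l) (s + η) - SW g X (w :: l) s = ∑ p ∈ PW X w.1 w.2, g p / p *
          (SW g X l ((s - Real.log p / Real.log X) + η) -
            SW g X l (s - Real.log p / Real.log X)) := by
        show (∑ p ∈ PW X w.1 w.2, g p / p * SW g X l (s + η - Real.log p / Real.log X)) -
          (∑ p ∈ PW X w.1 w.2, g p / p * SW g X l (s - Real.log p / Real.log X)) = _
        rw [← Finset.sum_sub_distrib]
        refine Finset.sum_congr rfl (fun p _ => ?_)
        rw [← mul_sub, show s + η - Real.log p / Real.log X =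
          (s - Real.log p / Real.log X) + η by ring]
      rw [e1]
      calc _ ≤ ∑ p ∈ PW X w.1 w.2, g p / p * (ε / (Real.log (w.2 / w.1) + 1)) :=
            Finset.sum_le_sum (fun p _ => mul_le_mul_of_nonneg_left (h1 _)
              (div_nonneg (hg.nn p) (Nat.cast_nonneg p)))
        _ = (∑ p ∈ PW X w.1 w.2, g p / p) * (ε / (Real.log (w.2 / w.1) + 1)) := by
            rw [Finset.sum_mul]
        _ ≤ (Real.log (w.2 / w.1) + 1) * (ε / (Real.log (w.2 / w.1) + 1)) :=
            mul_le_mul_of_nonneg_right h2 (by positivity)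
        _ = ε := by field_simp

end Pool.Agent.LPr
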