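import Pool.Agent.Lib_MP_f1a94e_lp.SWb
import Pool.Agent.Lib_MP_f1a94e_lp.MertT

/-!
# Piece SWLIM: limits of `SW`, independent of the weight
-/

set_option autoImplicit false

namespace Pool.Agent.LPr

open Finset Filter

private lemma swl_split {X u m v : ℝ} (hX : 1 ≤ X) (h1 : u ≤ m) (h2 : m ≤ v) (f : ℕ → ℝ) :
    ∑ p ∈ PW X u v, f p = ∑ p ∈ PW X u m, f p + ∑ p ∈ PW X m v, f p := by
  classical
  have hX0 : 0 ≤ X := by linarith
  have e1 := Real.rpow_le_rpow_of_exponent_le hX h1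
  have e2 := Real.rpow_le_rpow_of_exponent_le hX h2
  rw [← sum_union]
  · congr 1
    ext p
    rw [mem_union, mem_PW hX0, mem_PW hX0, mem_PW hX0]
    constructor
    · rintro ⟨a, b, c⟩
      by_cases h : (p : ℝ) ≤ X ^ m
      · exact Or.inl ⟨a, b, h⟩
      · exact Or.inr ⟨a, not_le.1 h, c⟩
    · rintro (⟨a, b, c⟩ | ⟨a, b, c⟩)
      · exact ⟨a, b, c.trans e2⟩
      · exact ⟨a, e1.trans_lt b, c⟩
  · rw [disjoint_left]
    intro p hp hq
    rw [mem_PW hX0] at hp hq
    linarith [hp.2.2, hq.2.1]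

private lemma swl_grid {X : ℝ} (hX : 1 ≤ X) (t : ℕ → ℝ) (ht : Monotone t) (f : ℕ → ℝ) (n : ℕ) :
    ∑ p ∈ PW X (t 0) (t n), f p = ∑ i ∈ range n, ∑ p ∈ PW X (t i) (t (i + 1)), f p := by
  induction n with
  | zero =>
    have : PW X (t 0) (t 0) = ∅ := by
      rw [eq_empty_iff_forall_notMem]
      intro p hp
      rw [mem_PW (by linarith)] at hp
      linarith [hp.2.1, hp.2.2]
    rw [this]
    simp
  | succ n ih => rw [sum_range_succ, ← ih, swl_split hX (ht (Nat.zero_le n)) (ht (Nat.le_succ n))]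

private lemma swl_log {X a b : ℝ} (hX : 1 < X) {p : ℕ} (hp : p ∈ PW X a b) :
    a < Real.log p / Real.log X ∧ Real.log p / Real.log X ≤ b := by
  have hX0 : 0 < X := by linarith
  rw [mem_PW hX0.le] at hp
  obtain ⟨h1, h2, h3⟩ := hp
  have hl : 0 < Real.log X := Real.log_pos hX
  have hp0 : (0 : ℝ) < p := by exact_mod_cast h1.pos
  constructor
  · rw [lt_div_iff₀ hl, ← Real.log_rpow hX0]
    exact Real.log_lt_log (Real.rpow_pos_of_pos hX0 _) h2
  · rw [div_le_iff₀ hl, ← Real.log_rpow hX0]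
    exact Real.log_le_log hp0 h3

private lemma swl_step (N : ℝ → ℝ) (l : List (ℝ × ℝ)) (u v : ℝ) (hu : 0 < u) (huv : u ≤ v)
    (hN : ∀ s, ∀ g : ℕ → ℝ, Mert g → Tendsto (fun X : ℝ => SW g X l s) atTop (nhds (N s))) (s : ℝ) :
    ∃ L : ℝ, ∀ g : ℕ → ℝ, Mert g → Tendsto (fun X : ℝ => SW g X ((u, v) :: l) s) atTop (nhds L) := by
  set c := Real.log (v / u) with hc
  have hc0 : 0 ≤ c := Real.log_nonneg (by rw [le_div_iff₀ hu]; linarith)
  obtain ⟨t, ht⟩ : ∃ t : ℕ → ℕ → ℝ, ∀ n i, t n i = u * Real.exp (c * i / n) := ⟨_, fun _ _ => rfl⟩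
  have hpos : ∀ n i, 0 < t n i := fun n i => by rw [ht]; positivity
  have htm : ∀ n, Monotone (t n) := by
    intro n i j hij
    rw [ht, ht]
    have : (i : ℝ) ≤ j := by exact_mod_cast hij
    gcongr
  have ht0 : ∀ n, t n 0 = u := by
    intro n
    rw [ht]
    simp
  have htn : ∀ n, 0 < n → t n n = v := by
    intro n hn
    have hn' : (n : ℝ) ≠ 0 := by positivity
    rw [ht, mul_div_cancel_right₀ _ hn', hc, Real.exp_log (div_pos (hu.trans_le huv) hu)]
    field_simp
  have hlog : ∀ n i, 0 < n → Real.log (t n (i + 1) / t n i) = c / n := by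
    intro n i hn
    have hn' : (n : ℝ) ≠ 0 := by positivity
    rw [ht, ht, mul_div_mul_left _ _ hu.ne', ← Real.exp_sub, Real.log_exp]
    push_cast
    field_simp
    ring
  obtain ⟨a, ha⟩ : ∃ a : ℕ → ℝ, ∀ n, a n = ∑ i ∈ range n, c / n * N (s - t n (i + 1)) := ⟨_, fun _ => rfl⟩
  obtain ⟨b, hb⟩ : ∃ b : ℕ → ℝ, ∀ n, b n = ∑ i ∈ range n, c / n * N (s - t n i) := ⟨_, fun _ => rfl⟩
  have hmass : ∀ g : ℕ → ℝ, Mert g → ∀ n, 0 < n → ∀ i, Tendsto (fun X : ℝ => ∑ p ∈ PW X (t n i) (t n (i + 1)), g p / p)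
      atTop (nhds (c / n)) := by
    intro g hg n hn i
    rw [← hlog n i hn]
    exact hg.lim _ _ (hpos n i) (htm n (Nat.le_succ i))
  have hexp : ∀ g : ℕ → ℝ, ∀ n, 0 < n → ∀ X : ℝ, 1 < X → SW g X ((u, v) :: l) s =
      ∑ i ∈ range n, ∑ p ∈ PW X (t n i) (t n (i + 1)), g p / p * SW g X l (s - Real.log p / Real.log X) := by
    intro g n hn X hX
    rw [← swl_grid hX.le (t n) (htm n), ht0, htn n hn]
    rfl
  have hlow : ∀ g : ℕ → ℝ, Mert g → ∀ n, 0 < n → ∀ X : ℝ, 1 < X →
      ∑ i ∈ range n, (∑ p ∈ PW X (t n i) (t n (i + 1)), g p / p) * SW g X l (s - t n (i + 1)) ≤ SW g X ((u, v) :: l) s := by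
    intro g hg n hn X hX
    rw [hexp g n hn X hX]
    refine sum_le_sum fun i _ => ?_
    rw [sum_mul]
    refine sum_le_sum fun p hp => ?_
    refine mul_le_mul_of_nonneg_left ?_ (div_nonneg (hg.nn p) (Nat.cast_nonneg p))
    exact sw_mono g hg.nn X l _ _ (by linarith [(swl_log hX hp).2])
  have hup : ∀ g : ℕ → ℝ, Mert g → ∀ n, 0 < n → ∀ X : ℝ, 1 < X → SW g X ((u, v) :: l) s ≤
      ∑ i ∈ range n, (∑ p ∈ PW X (t n i) (t n (i + 1)), g p / p) * SW g X l (s - t n i) := by
    intro g hg n hn X hX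
    rw [hexp g n hn X hX]
    refine sum_le_sum fun i _ => ?_
    rw [sum_mul]
    refine sum_le_sum fun p hp => ?_
    refine mul_le_mul_of_nonneg_left ?_ (div_nonneg (hg.nn p) (Nat.cast_nonneg p))
    exact sw_mono g hg.nn X l _ _ (by linarith [(swl_log hX hp).1])
  have hlowl : ∀ g : ℕ → ℝ, Mert g → ∀ n, 0 < n → Tendsto (fun X : ℝ =>
      ∑ i ∈ range n, (∑ p ∈ PW X (t n i) (t n (i + 1)), g p / p) * SW g X l (s - t n (i + 1))) atTop (nhds (a n)) := by
    intro g hg n hn
    rw [ha]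
    exact tendsto_finsetSum _ fun i _ => (hmass g hg n hn i).mul (hN _ g hg)
  have hupl : ∀ g : ℕ → ℝ, Mert g → ∀ n, 0 < n → Tendsto (fun X : ℝ =>
      ∑ i ∈ range n, (∑ p ∈ PW X (t n i) (t n (i + 1)), g p / p) * SW g X l (s - t n i)) atTop (nhds (b n)) := by
    intro g hg n hn
    rw [hb]
    exact tendsto_finsetSum _ fun i _ => (hmass g hg n hn i).mul (hN _ g hg)
  have hab : ∀ m n, 0 < m → 0 < n → a m ≤ b n := by
    intro m n hm hn
    refine le_of_tendsto_of_tendsto (hlowl _ mert_all m hm) (hupl _ mert_all n hn) ?_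
    filter_upwards [eventually_gt_atTop (1 : ℝ)] with X hX
    exact (hlow _ mert_all m hm X hX).trans (hup _ mert_all n hn X hX)
  have hdiff : ∀ n, 0 < n → b n - a n = c * (N (s - u) - N (s - v)) / n := by
    intro n hn
    rw [ha, hb, ← sum_sub_distrib]
    have : ∀ i, c / n * N (s - t n i) - c / n * N (s - t n (i + 1)) =
        c / n * (N (s - t n i) - N (s - t n (i + 1))) := fun i => by ring
    simp only [this]
    rw [← mul_sum, sum_range_sub' (fun i => N (s - t n i)), ht0, htn n hn]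
    ring
  have hbdd : BddAbove (Set.range fun n : ℕ => a (n + 1)) := by
    refine ⟨b 1, ?_⟩
    rintro _ ⟨n, rfl⟩
    exact hab _ _ (Nat.succ_pos n) one_pos
  refine ⟨⨆ n : ℕ, a (n + 1), fun g hg => ?_⟩
  have hL1 : ∀ n : ℕ, a (n + 1) ≤ ⨆ n : ℕ, a (n + 1) := fun n => le_ciSup hbdd n
  have hL2 : ∀ n : ℕ, (⨆ n : ℕ, a (n + 1)) ≤ b (n + 1) := fun n =>
    ciSup_le fun m => hab _ _ (Nat.succ_pos m) (Nat.succ_pos n)
  rw [tendsto_order]
  have hd0 : Tendsto (fun n : ℕ => b (n + 1) - a (n + 1)) atTop (nhds 0) := by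
    have h1 : Tendsto (fun n : ℕ => c * (N (s - u) - N (s - v)) / (n : ℝ)) atTop (nhds 0) :=
      tendsto_const_div_atTop_nhds_zero_nat _
    have h2 := h1.comp (tendsto_add_atTop_nat 1)
    refine h2.congr fun n => ?_
    rw [hdiff (n + 1) (Nat.succ_pos n)]
    rfl
  constructor
  · intro x hx
    obtain ⟨n, hn⟩ := (hd0.eventually (gt_mem_nhds (sub_pos.2 hx))).exists
    have h1 : x < a (n + 1) := by
      have := hL2 n
      linarith
    filter_upwards [(hlowl g hg (n + 1) (Nat.succ_pos n)).eventually (lt_mem_nhds h1), eventually_gt_atTop (1 : ℝ)]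
      with X h2 hX
    exact h2.trans_le (hlow g hg (n + 1) (Nat.succ_pos n) X hX)
  · intro x hx
    obtain ⟨n, hn⟩ := (hd0.eventually (gt_mem_nhds (sub_pos.2 hx))).exists
    have h1 : b (n + 1) < x := by
      have := hL1 n
      linarith
    filter_upwards [(hupl g hg (n + 1) (Nat.succ_pos n)).eventually (gt_mem_nhds h1), eventually_gt_atTop (1 : ℝ)]
      with X h2 hX
    exact (hup g hg (n + 1) (Nat.succ_pos n) X hX).trans_lt h2

/-- PROOF. Induction on `l`, for all `s`: there is `N_l : ℝ → ℝ` with `SW g X l s → N_l s` for all `g` with `Mert g` (choose); `N_l` is monotone (`sw_mono`, limits; use `mert_all`). `l = []`: constant. `l = w :: l'`, `w = (u, v)`: if `u = v` the window is empty, `N = 0`.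
If `u < v`: grid `t_i = u (v/u)^(i/n)`, `i ≤ n`; for `p ∈ PW X t_i t_(i+1)`, `t_i < log p / log X ≤ t_(i+1)`, so by monotonicity `∑_i m_i(X) SW g X l' (s - t_(i+1)) ≤ SW g X l s ≤ ∑_i m_i(X) SW g X l' (s - t_i)` with `m_i(X) = ∑_(p ∈ PW X t_i t_(i+1)) g p / p → log (v/u) / n`.
The two bounds tend to `a_n = (log (v/u) / n) ∑_i N_l' (s - t_(i+1))` and `b_n = (log (v/u) / n) ∑_i N_l' (s - t_i)`, which do not depend on `g`, and `b_n - a_n = (log (v/u) / n) (N_l' (s - u) - N_l' (s - v)) → 0`.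
So `a_m ≤ b_n` for all `m, n` (compare for one `g`, `mert_all`), `L = sup_m a_m` satisfies `a_n ≤ L ≤ b_n`, and for every `g` and `ε`, eventually `a_n - ε ≤ SW g X l s ≤ b_n + ε`, hence `SW g X l s → L`. -/
theorem sw_lim (l : List (ℝ × ℝ)) (hl : Win l) (s : ℝ) :
    ∃ L : ℝ, ∀ g : ℕ → ℝ, Mert g → Tendsto (fun X : ℝ => SW g X l s) atTop (nhds L) := by
  induction l generalizing s with
  | nil => exact ⟨if 0 ≤ s then 1 else 0, fun g _ => tendsto_const_nhds⟩
  | cons w l ih =>
    have hl' : Win l := fun x hx => hl x (List.mem_cons_of_mem _ hx)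
    have hw := hl w List.mem_cons_self
    choose N hN using fun s => ih hl' s
    exact swl_step N l w.1 w.2 hw.1 hw.2 hN s

/-- PROOF. `SW g X l 1 → NW l` by `sw_lim` (`NW l` is the limit for `g = 1`, `mert_all`, `Tendsto.limUnder_eq`; the limit is the same for all `g`). `log (a X) / log X = 1 + log a / log X → 1`. For `l = []` both sides are `1` for `X` large
(`log (a X) / log X ≥ 0`). For `l ≠ []`: given `ε`, take `η` of `sw_equi`; for `X` large `|log (a X) / log X - 1| ≤ η / 2`, so by `sw_mono` both `SW g X l (log (a X) / log X)` and `SW g X l 1` lie in the interval `[SW (1 - η/2), SW (1 + η/2)]` of length at most `ε`. -/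
theorem sw_at (g : ℕ → ℝ) (hg : Mert g) (l : List (ℝ × ℝ)) (hl : Win l) (a : ℝ) (ha : 0 < a) :
    Tendsto (fun X : ℝ => SW g X l (Real.log (a * X) / Real.log X)) atTop (nhds (NW l)) := by
  obtain ⟨L, hL⟩ := sw_lim l hl 1
  have hNW : NW l = L := (hL _ mert_all).limUnder_eq
  rw [hNW]
  have hs : Tendsto (fun X : ℝ => Real.log (a * X) / Real.log X) atTop (nhds 1) := by
    have h1 : Tendsto (fun X : ℝ => Real.log a / Real.log X + 1) atTop (nhds (0 + 1)) :=
      (Real.tendsto_log_atTop.const_div_atTop _).add_const 1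
    rw [zero_add] at h1
    refine h1.congr' ?_
    filter_upwards [eventually_gt_atTop (1 : ℝ)] with X hX
    have hl0 : Real.log X ≠ 0 := (Real.log_pos hX).ne'
    rw [Real.log_mul ha.ne' (by linarith), add_div, div_self hl0]
  by_cases hne : l = []
  · subst hne
    have hL1 : L = 1 := by
      have h1 := hL _ hg
      simp only [SW, zero_le_one, if_true] at h1
      exact tendsto_nhds_unique h1 tendsto_const_nhds |>.symm ▸ rfl
    rw [hL1]
    refine (tendsto_const_nhds (x := (1 : ℝ))).congr' ?_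
    filter_upwards [hs.eventually (lt_mem_nhds (zero_lt_one))] with X hX
    simp only [SW]
    rw [if_pos hX.le]
  · have hdiff : Tendsto (fun X : ℝ => SW g X l (Real.log (a * X) / Real.log X) - SW g X l 1) atTop (nhds 0) := by
      rw [Metric.tendsto_nhds]
      intro ε hε
      obtain ⟨η, hη, hev⟩ := sw_equi g hg l hl hne (ε / 2) (half_pos hε)
      have h1 : ∀ᶠ X : ℝ in atTop, |Real.log (a * X) / Real.log X - 1| < η / 2 := by
        have := (Metric.tendsto_nhds.1 hs) (η / 2) (half_pos hη)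
        simpa [Real.dist_eq] using this
      filter_upwards [hev, h1] with X hX h2
      rw [abs_lt] at h2
      rw [Real.dist_eq, sub_zero]
      have h3 := hX (1 - η / 2)
      have e1 := sw_mono g hg.nn X l (1 - η / 2) (Real.log (a * X) / Real.log X) (by linarith [h2.1])
      have e2 := sw_mono g hg.nn X l (Real.log (a * X) / Real.log X) (1 - η / 2 + η) (by linarith [h2.2])
      have e3 := sw_mono g hg.nn X l (1 - η / 2) 1 (by linarith)
      have e4 := sw_mono g hg.nn X l 1 (1 - η / 2 + η) (by linarith)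
      rw [abs_lt]
      constructor <;> linarith
    have := hdiff.add (hL g hg)
    simp only [sub_add_cancel, zero_add] at this
    exact this

end Pool.Agent.LPr
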