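import Pool.Agent.Lib_MP_f1a94e_lp.Defs
import Pool.Agent.Lib_MP_f1a94e_eq.Sharp

/-!
# Piece SHARPX: from test functions to sharp conditions, for families
-/

set_option autoImplicit false

namespace Pool.Agent.LPr

open Finset Pool.Agent.GaussMR Pool.Agent.OmAll Pool.Agent.OmEq MeasureTheory Filter

/-- PROOF. The proof of `sharp` (eq/Sharp.lean, last theorem) verbatim with `Φ X` for `Φ` (`sharp_diff (Φ X) ..` is a statement for a single `X`). -/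
theorem sharpX (Φ : ℝ → G × G → ℂ) (hΦ : ∀ X e, ‖Φ X e‖ ≤ 1)
    (H : ∀ (b : ℝ) (W : ℝ → ℝ → ℂ), TF b W →
      Tendsto (fun X : ℝ => (∑ e ∈ EN 1 (b * X), Φ X e * W (mE e / X) (tE e)) / X) atTop (nhds 0))
    (s t : ℝ) (hst : s ≤ t) :
    Tendsto (fun X : ℝ => (∑ e ∈ (EN 1 X).filter (fun e => s ≤ tE e ∧ tE e ≤ t), Φ X e) / X) atTop (nhds 0) := by
  obtain ⟨κ, hκ0, hκ⟩ := en_lim
  rw [Metric.tendsto_nhds]
  intro ε hε
  -- choice of `δ`
  obtain ⟨δ, hδ, hδ1, hδε⟩ : ∃ δ : ℝ, 0 < δ ∧ δ ≤ 1 ∧ κ * δ * (2 * (t - s) + 12) < ε / 2 := by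
    refine ⟨min 1 (ε / (4 * (κ * (2 * (t - s) + 12) + 1))), ?_, min_le_left _ _, ?_⟩
    · apply lt_min one_pos
      have : 0 ≤ κ * (2 * (t - s) + 12) := mul_nonneg hκ0 (by linarith)
      positivity
    · have h0 : 0 ≤ κ * (2 * (t - s) + 12) := mul_nonneg hκ0 (by linarith)
      have h1 : min 1 (ε / (4 * (κ * (2 * (t - s) + 12) + 1))) ≤ ε / (4 * (κ * (2 * (t - s) + 12) + 1)) :=
        min_le_right _ _
      have h2 : κ * (2 * (t - s) + 12) * min 1 (ε / (4 * (κ * (2 * (t - s) + 12) + 1))) ≤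
          κ * (2 * (t - s) + 12) * (ε / (4 * (κ * (2 * (t - s) + 12) + 1))) :=
        mul_le_mul_of_nonneg_left h1 h0
      have h3 : κ * (2 * (t - s) + 12) * (ε / (4 * (κ * (2 * (t - s) + 12) + 1))) ≤ ε / 4 := by
        rw [mul_div_assoc', div_le_div_iff₀ (by positivity) (by norm_num)]
        nlinarith
      nlinarith
  have h1 := H (1 + δ) (sharp_W s t δ) (sharp_TF s t δ hδ)
  have h2 : Tendsto (fun X : ℝ => sharp_N (s - δ) (t + 2 * δ) (δ * X) / X +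
      (sharp_N (s - δ) (t + 2 * δ) ((1 + δ) * X) / X - sharp_N (s - δ) (t + 2 * δ) (1 * X) / X) +
      sharp_N (s - δ) s ((1 + δ) * X) / X + sharp_N t (t + 2 * δ) ((1 + δ) * X) / X) atTop
      (nhds (δ * (κ * (t + 2 * δ - (s - δ))) + ((1 + δ) * (κ * (t + 2 * δ - (s - δ))) -
        1 * (κ * (t + 2 * δ - (s - δ)))) + (1 + δ) * (κ * (s - (s - δ))) + (1 + δ) * (κ * (t + 2 * δ - t)))) :=
    ((((sharp_N_lim hκ _ _ _ (by linarith) hδ).add
      ((sharp_N_lim hκ _ _ _ (by linarith) (by linarith)).sub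
        (sharp_N_lim hκ _ _ _ (by linarith) one_pos))).add
      (sharp_N_lim hκ _ _ _ (by linarith) (by linarith))).add
      (sharp_N_lim hκ _ _ _ (by linarith) (by linarith)))
  have h3 : δ * (κ * (t + 2 * δ - (s - δ))) + ((1 + δ) * (κ * (t + 2 * δ - (s - δ))) -
        1 * (κ * (t + 2 * δ - (s - δ)))) + (1 + δ) * (κ * (s - (s - δ))) + (1 + δ) * (κ * (t + 2 * δ - t)) <
        ε / 2 := by
    have h4 : δ * (κ * (t + 2 * δ - (s - δ))) + ((1 + δ) * (κ * (t + 2 * δ - (s - δ))) -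
        1 * (κ * (t + 2 * δ - (s - δ)))) + (1 + δ) * (κ * (s - (s - δ))) + (1 + δ) * (κ * (t + 2 * δ - t)) =
        κ * δ * (2 * (t - s) + 3 + 9 * δ) := by ring
    rw [h4]
    refine lt_of_le_of_lt ?_ hδε
    exact mul_le_mul_of_nonneg_left (by linarith) (mul_nonneg hκ0 hδ.le)
  have h5 := (tendsto_order.1 h2).2 _ h3
  have h6 := (Metric.tendsto_nhds.1 h1) (ε / 2) (by linarith)
  filter_upwards [h5, h6, eventually_gt_atTop 0] with X g1 g2 hX
  rw [dist_zero_right] at g2 ⊢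
  have g3 := sharp_diff (Φ X) (hΦ X) s t δ X hδ hX
  rw [one_mul] at g1
  set F := ∑ e ∈ (EN 1 X).filter (fun e => s ≤ tE e ∧ tE e ≤ t), Φ X e with hF
  set K := ∑ e ∈ EN 1 ((1 + δ) * X), Φ X e * sharp_W s t δ (mE e / X) (tE e) with hK
  have g4 : F / X = (F - K) / X + K / X := by ring
  rw [g4]
  have g5 : ‖(F - K) / (X : ℂ)‖ < ε / 2 := by
    rw [norm_div, Complex.norm_real, Real.norm_eq_abs, abs_of_pos hX]
    refine lt_of_le_of_lt (div_le_div_of_nonneg_right g3 hX.le) ?_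
    refine lt_of_eq_of_lt ?_ g1
    ring
  calc ‖(F - K) / (X : ℂ) + K / X‖ ≤ ‖(F - K) / (X : ℂ)‖ + ‖K / (X : ℂ)‖ := norm_add_le _ _
    _ < ε / 2 + ε / 2 := add_lt_add g5 g2
    _ = ε := by ring

end Pool.Agent.LPr
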