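import Pool.Agent.Lib_MP_f1a94e_eq.FinE
import Pool.Agent.Lib_MP_f1a94e_lp.PairT
import Pool.Agent.Lib_MP_f1a94e_lp.Bil
import Pool.Agent.Lib_MP_f1a94e_lp.GmX
import Pool.Agent.Lib_MP_f1a94e_lp.LimX
import Pool.Agent.Lib_MP_f1a94e_lp.DSumX
import Pool.Agent.Lib_MP_f1a94e_lp.QdX
import Pool.Agent.Lib_MP_f1a94e_lp.MrpX
import Pool.Agent.Lib_MP_f1a94e_lp.MroX
import Pool.Agent.Lib_MP_f1a94e_lp.CsX
import Pool.Agent.Lib_MP_f1a94e_lp.SharpX
import Pool.Agent.Lib_MP_f1a94e_lp.Fx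

/-!
# Limits of the sums over edges
-/

set_option autoImplicit false

namespace Pool.Agent.LPr

open Finset Pool.Agent.GaussMR Pool.Agent.OmAll Pool.Agent.OmEq MeasureTheory Filter

theorem mm_le (w : ℂ) (φ : ℝ → ℂ) (hφ : StepF φ) : ‖mm w φ‖ ≤ 1 := by
  unfold mm
  split_ifs
  · exact mu_le φ hφ
  · simp

theorem norm_comb (a b μ : ℂ) (ha : ‖a‖ ≤ 1) (hb : ‖b‖ ≤ 1) (hμ : ‖μ‖ ≤ 1) : ‖(a - μ * b) / 2‖ ≤ 1 := by
  rw [norm_div]
  have h1 : ‖a - μ * b‖ ≤ 1 + 1 * 1 := by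
    refine (norm_sub_le _ _).trans (add_le_add ha ?_)
    rw [norm_mul]
    exact mul_le_mul hμ hb (norm_nonneg _) zero_le_one
  have h2 : ‖(2 : ℂ)‖ = 2 := by simp
  rw [h2, div_le_one (by norm_num)]
  linarith

/-- `w = 1, -1`: the difference to a multiple of the base function is small on average -/
theorem gm_pm (R : ℕ) (hR : 0 < R) (w : ℂ) (hw : w = 1 ∨ w = -1) (φ : ℝ → ℂ) (hφ : StepF φ) :
    GmSmallX (fun X n => (fx R w φ X n - mm w φ * fz R w n) / 2) := by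
  have hw1 : ‖w‖ = 1 := by rcases hw with h | h <;> simp [h]
  have h1 := fx_FX R hR w hw1 φ hφ
  have h0 := fz_FX R hR w hw1
  have hbd : ∀ (X : ℝ) (n : ℕ), ‖(fx R w φ X n - mm w φ * fz R w n) / 2‖ ≤ 1 := fun X n =>
    norm_comb _ _ _ (h1.bd X n) (h0.bd X n) (mm_le w φ hφ)
  have hM : MROX (fun X n => (fx R w φ X n - mm w φ * fz R w n) / 2) :=
    mroX R (fx R w φ) (fz R w) (mm w φ) (mm_le w φ hφ) (fun X => fx_UF R hR w hw1 φ hφ.un X) (fz_UF R hR w hw1)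
      (csx R hR w hw φ hφ)
  have h2 : ∀ᶠ X : ℝ in atTop, ∀ n : ℕ, (fx R w φ X (2 * n) - mm w φ * fz R w (2 * n)) / 2 =
      (if 2 ∣ R then 0 else w) * ((fx R w φ X n - mm w φ * fz R w n) / 2) := by
    filter_upwards [fx_two R hR w φ hφ] with X hX n
    rw [hX, fz_two R hR]
    ring
  have hc : ‖(if 2 ∣ R then 0 else w : ℂ)‖ ≤ 1 := by
    split_ifs
    · simp
    · exact hw1.le
  have hMP := mrpX _ hbd _ hc h2 hM
  exact redB_X _ hbd (comb_GBX _ w hw1 _ _ h1 h0 _) (comb_TVX _ w hw1 _ _ h1 h0 _) (dsumX _ hbd (qdsX _ hbd hMP))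

theorem sx2_comb (f1 f f0 : ℕ → ℂ) (μ : ℂ) (x : ℝ) (W : ℝ → ℝ → ℂ) (X : ℝ) :
    Sx2 f1 (fun n => (f n - μ * f0 n) / 2) x W X = (Sx2 f1 f x W X - μ * Sx2 f1 f0 x W X) / 2 := by
  unfold Sx2
  rw [mul_sum, ← sum_sub_distrib, sum_div]
  refine sum_congr rfl fun e _ => ?_
  ring

/-- replace the second function by its multiple of the base function -/
theorem sx_second (R : ℕ) (hR : 0 < R) (w : ℂ) (hw : w = 1 ∨ w = -1) (φ : ℝ → ℂ) (hφ : StepF φ) (f1 : ℝ → ℕ → ℂ)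
    (h1 : FX f1 R.primeFactors w) (b : ℝ) (W : ℝ → ℝ → ℂ) (hW : TF b W) :
    Tendsto (fun X : ℝ => (Sx2 (f1 X) (fx R w φ X) (b * X) W X - mm w φ * Sx2 (f1 X) (fz R w) (b * X) W X) / X)
      atTop (nhds 0) := by
  have hw1 : ‖w‖ = 1 := by rcases hw with h | h <;> simp [h]
  have h2 := fx_FX R hR w hw1 φ hφ
  have h0 := fz_FX R hR w hw1
  have hbd : ∀ (X : ℝ) (n : ℕ), ‖(fx R w φ X n - mm w φ * fz R w n) / 2‖ ≤ 1 := fun X n =>
    norm_comb _ _ _ (h2.bd X n) (h0.bd X n) (mm_le w φ hφ)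
  have h := smX f1 _ h1.bd hbd (comb_PTX _ w hw1 _ _ _ h1 h2 h0 (mm w φ)) (gm_pm R hR w hw φ hφ) b W hW 1 one_pos
  have h' := h.const_mul 2
  rw [mul_zero] at h'
  refine h'.congr fun X => ?_
  rw [one_mul, sx2_comb]
  ring

/-- exchange of the two vectors -/
theorem sx2_swap (f1 f2 : ℕ → ℂ) (x : ℝ) (W : ℝ → ℝ → ℂ) (X : ℝ) :
    Sx2 f1 f2 x W X = Sx2 f2 f1 x (fun y t => W y (-t)) X := by
  have hEn : ∀ e : G × G, En 1 e → En 1 (star e.2, star e.1) := by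
    rintro ⟨U, W'⟩ ⟨h1, h2, h3, h4⟩
    have hdet : det (star W') (star U) = det U W' := by
      simp [det]
      ring
    have hdot : dot (star W') (star U) = dot U W' := by
      simp [dot]
      ring
    refine ⟨?_, ?_, ?_, 0, ?_, ?_⟩
    · show det (star W') (star U) = ((1 : ℕ) : ℤ)
      rw [hdet]
      exact h1
    · show 0 < dot (star W') (star U)
      rw [hdot]
      exact h2
    · show IsCoprime (star W').re (star W').im
      have h5 : U.re * W'.im - U.im * W'.re = 1 := by simpa [det] using h1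
      refine ⟨-U.im, -U.re, ?_⟩
      simp
      linarith
    · rw [Nat.cast_one]
      exact isCoprime_one_right
    · constructor
      · rw [Nat.cast_one]
        exact one_dvd _
      · rw [Nat.cast_one]
        exact one_dvd _
  have hmE : ∀ e : G × G, mE (star e.2, star e.1) = mE e := by
    intro e
    unfold mE
    have : dot (star e.2) (star e.1) = dot e.1 e.2 := by
      simp [dot]
      ring
    simp only [this]
  have htE : ∀ e : G × G, tE (star e.2, star e.1) = -tE e := by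
    intro e
    unfold tE
    simp only [nm_star]
    ring
  unfold Sx2
  refine sum_bij (fun e _ => (star e.2, star e.1)) ?_ ?_ ?_ ?_
  · intro e he
    rw [mem_EN one_pos] at he ⊢
    exact ⟨hEn e he.1, by rw [hmE]; exact he.2⟩
  · rintro ⟨a, b⟩ _ ⟨c, d⟩ _ h
    simp only [Prod.mk.injEq] at h
    exact Prod.ext (star_injective h.2) (star_injective h.1)
  · intro e he
    refine ⟨(star e.2, star e.1), ?_, ?_⟩
    · rw [mem_EN one_pos] at he ⊢
      exact ⟨hEn e he.1, by rw [hmE]; exact he.2⟩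
    · simp
  · intro e _
    simp only [hmE, htE, neg_neg, nm_star]
    ring

theorem tf_neg {b : ℝ} {W : ℝ → ℝ → ℂ} (hW : TF b W) : TF b (fun y t => W y (-t)) := by
  refine ⟨?_, ?_, fun y t h => hW.lo y (-t) h, fun y t h => hW.hi y (-t) h⟩
  · exact hW.cont.comp (continuous_fst.prodMk continuous_snd.neg)
  · exact hW.supp.comp_homeomorph ((Homeomorph.refl ℝ).prodCongr (Homeomorph.neg ℝ))

/-- the same `w` at both places -/
theorem sx_self (R : ℕ) (hR : 0 < R) (w : ℂ) (hw1 : ‖w‖ = 1) (φ1 φ2 : ℝ → ℂ) (hφ1 : StepF φ1) (hφ2 : StepF φ2)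
    (b : ℝ) (W : ℝ → ℝ → ℂ) (hW : TF b W) :
    Tendsto (fun X : ℝ => (Sx2 (fx R w φ1 X) (fx R w φ2 X) (b * X) W X -
      mm w φ1 * mm w φ2 * Sx2 (fz R w) (fz R w) (b * X) W X) / X) atTop (nhds 0) := by
  have h1 := fx_FX R hR w hw1 φ1 hφ1
  have h2 := fx_FX R hR w hw1 φ2 hφ2
  have h0 := fz_FX R hR w hw1
  by_cases hw2 : w ^ 2 = 1
  · have hw : w = 1 ∨ w = -1 := by
      have h4 : (w - 1) * (w + 1) = 0 := by linear_combination hw2
      rcases mul_eq_zero.1 h4 with h5 | h5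
      · exact Or.inl (sub_eq_zero.1 h5)
      · exact Or.inr (eq_neg_of_add_eq_zero_left h5)
    have t1 := sx_second R hR w hw φ2 hφ2 (fx R w φ1) h1 b W hW
    have t2 := sx_second R hR w hw φ1 hφ1 (fun _ => fz R w) h0 b (fun y t => W y (-t)) (tf_neg hW)
    have t := t1.add (t2.const_mul (mm w φ2))
    rw [mul_zero, add_zero] at t
    refine t.congr fun X => ?_
    rw [sx2_swap (fx R w φ1 X) (fz R w), sx2_swap (fz R w) (fz R w) (b * X) W]
    ring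
  · have hmm : mm w φ1 = 0 := by
      unfold mm
      rw [if_neg]
      rintro rfl
      exact hw2 (one_pow 2)
    have hP : PTX (fx R w φ1) (fx R w φ2) := ptx _ _ _ w w h1 h2 hw1 hw1
    have h := smX _ _ h1.bd h2.bd hP (gmA_X _ h2.bd (gax _ w hw1 hw2 _ h2)) b W hW 1 one_pos
    refine h.congr fun X => ?_
    rw [one_mul, hmm, zero_mul, zero_mul, sub_zero]

/-- general case -/
theorem sx_lim (R : ℕ) (hR : 0 < R) (w1 w2 : ℂ) (hw1 : ‖w1‖ = 1) (hw2 : ‖w2‖ = 1) (φ1 φ2 : ℝ → ℂ) (hφ1 : StepF φ1)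
    (hφ2 : StepF φ2) (b : ℝ) (W : ℝ → ℝ → ℂ) (hW : TF b W) :
    Tendsto (fun X : ℝ => (Sx2 (fx R w1 φ1 X) (fx R w2 φ2 X) (b * X) W X -
      mm w1 φ1 * mm w2 φ2 * Sx2 (fz R 1) (fz R 1) (b * X) W X) / X) atTop (nhds 0) := by
  by_cases h : w1 = w2
  · subst h
    have t := sx_self R hR w1 hw1 φ1 φ2 hφ1 hφ2 b W hW
    by_cases hw : w1 = 1
    · subst hw
      exact t
    · have hmm : mm w1 φ1 = 0 := by
        unfold mm
        rw [if_neg hw]
      rw [hmm] at t ⊢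
      simpa using t
  · have hmm : mm w1 φ1 * mm w2 φ2 = 0 := by
      unfold mm
      by_cases hw : w1 = 1
      · have h' : w2 ≠ 1 := fun h' => h (hw.trans h'.symm)
        rw [if_neg h', mul_zero]
      · rw [if_neg hw, zero_mul]
    have t := edge_limT _ _ _ w1 w2 (fx_FX R hR w1 hw1 φ1 hφ1) (fx_FX R hR w2 hw2 φ2 hφ2) hw1 hw2 b W hW (Or.inl h)
    refine t.congr fun X => ?_
    rw [hmm, zero_mul, sub_zero]

/-- sharp conditions -/
theorem shp_lim (R : ℕ) (hR : 0 < R) : ∃ κ : ℝ, 0 < κ ∧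
    (∀ s t : ℝ, s ≤ t → Tendsto (fun X : ℝ => (((EN 1 X).filter (fun e => (s ≤ tE e ∧ tE e ≤ t) ∧
      (nm e.1 * nm e.2).Coprime R)).card : ℝ) / X) atTop (nhds (κ * (t - s)))) ∧
    ∀ w1 w2 : ℂ, ‖w1‖ = 1 → ‖w2‖ = 1 → ∀ φ1 φ2 : ℝ → ℂ, StepF φ1 → StepF φ2 → ∀ s t : ℝ, s ≤ t →
      Tendsto (fun X : ℝ => (∑ e ∈ (EN 1 X).filter (fun e => s ≤ tE e ∧ tE e ≤ t),
        fx R w1 φ1 X (nm e.1) * fx R w2 φ2 X (nm e.2)) / X) atTop
          (nhds (mm w1 φ1 * mm w2 φ2 * ((κ * (t - s) : ℝ) : ℂ))) := by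
  obtain ⟨κ, hκ, hlim⟩ := totR R hR
  refine ⟨κ, hκ, hlim, fun w1 w2 hw1 hw2 φ1 φ2 hφ1 hφ2 s t hst => ?_⟩
  set ν : ℂ := mm w1 φ1 * mm w2 φ2 with hν
  have h1 := fx_FX R hR w1 hw1 φ1 hφ1
  have h2 := fx_FX R hR w2 hw2 φ2 hφ2
  have h0 := fz_FX R hR 1 (by simp)
  have hνn : ‖ν‖ ≤ 1 := by
    rw [hν, norm_mul]
    exact mul_le_one₀ (mm_le w1 φ1 hφ1) (norm_nonneg _) (mm_le w2 φ2 hφ2)
  have hsh := sharpX (fun X e => (fx R w1 φ1 X (nm e.1) * fx R w2 φ2 X (nm e.2) -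
      ν * (fz R 1 (nm e.1) * fz R 1 (nm e.2))) / 2) (fun X e => by
        refine norm_comb _ _ _ ?_ ?_ hνn
        · rw [norm_mul]
          exact mul_le_one₀ (h1.bd X _) (norm_nonneg _) (h2.bd X _)
        · rw [norm_mul]
          exact mul_le_one₀ (h0.bd X _) (norm_nonneg _) (h0.bd X _)) (fun b W hW => by
        have h := (sx_lim R hR w1 w2 hw1 hw2 φ1 φ2 hφ1 hφ2 b W hW).div_const 2
        rw [zero_div] at h
        refine h.congr fun X => ?_
        unfold Sx2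
        rw [mul_sum, ← sum_sub_distrib, div_right_comm, sum_div]
        congr 1
        refine sum_congr rfl fun e _ => ?_
        ring) s t hst
  have hc := (Complex.continuous_ofReal.tendsto (κ * (t - s))).comp (hlim s t hst)
  have h3 := (hsh.const_mul 2).add (hc.const_mul ν)
  rw [mul_zero, zero_add] at h3
  refine h3.congr fun X => ?_
  have h4 : ∑ e ∈ (EN 1 X).filter (fun e => s ≤ tE e ∧ tE e ≤ t), fz R 1 (nm e.1) * fz R 1 (nm e.2) =
      ((((EN 1 X).filter (fun e => (s ≤ tE e ∧ tE e ≤ t) ∧ (nm e.1 * nm e.2).Coprime R)).card : ℕ) : ℂ) := by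
    have h5 := fine_zero 1 R s t X
    unfold fineS at h5
    rw [pow_zero] at h5
    exact h5
  rw [Function.comp_apply]
  push_cast
  rw [← h4, ← sum_div, sum_sub_distrib, ← mul_sum]
  ring

end Pool.Agent.LPr
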