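import Pool.Agent.Lib_MP_f1a94e_lp.AbsM
import Pool.Agent.Lib_MP_f1a94e_lp.GxId

/-!
# Piece TWM: mean values of `TW` over the integers
-/

set_option autoImplicit false

namespace Pool.Agent.LPr

open Finset Filter

private lemma twm_dvd (F : ℕ → ℂ) (K p : ℕ) (hp : 0 < p) :
    ∑ n ∈ (Icc 1 K).filter (fun n => p ∣ n), F (n / p) = ∑ m ∈ Icc 1 (K / p), F m := by
  refine sum_nbij' (fun n => n / p) (fun m => m * p) ?_ ?_ ?_ ?_ ?_
  · intro n hn
    rw [mem_filter, mem_Icc] at hn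
    obtain ⟨⟨h1, h2⟩, k, rfl⟩ := hn
    rw [mem_Icc, Nat.mul_div_cancel_left _ hp]
    refine ⟨Nat.pos_of_mul_pos_left h1 |> fun h => h, ?_⟩
    rw [Nat.le_div_iff_mul_le hp, mul_comm]
    exact h2
  · intro m hm
    rw [mem_Icc] at hm
    rw [mem_filter, mem_Icc]
    exact ⟨⟨Nat.mul_pos hm.1 hp, (Nat.le_div_iff_mul_le hp).1 hm.2⟩, Dvd.intro_left m rfl⟩
  · intro n hn
    rw [mem_filter] at hn
    exact Nat.div_mul_cancel hn.2
  · intro m _
    exact Nat.mul_div_cancel m hp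
  · intro n _
    rfl

/-- PROOF. `U X l Y = ∑_(1 ≤ n ≤ Y) TW X l n` (as a complex number), `u0 Y = ⌊Y⌋₊`, `ρ = 1`, `C = 1`, `G = g = 1` (`mert_all`): `U X (w :: l) Y = ∑_(p ∈ PW) ∑_(n ≤ Y, p ∣ n) TW X l (n / p) = ∑_(p ∈ PW) U X l (Y / p)` exactly for `Y ≥ 0`
(`n = p m`, `⌊Y / p⌋₊ = ⌊Y⌋₊ / p`, `Nat.floor_div_natCast`), so `hrec` holds with `C' = 0`, `δ = 1`. `abs_mean` with `a = 1`; real parts. -/
theorem tw_mean (l : List (ℝ × ℝ)) (hl : Win l) :
    Tendsto (fun X : ℝ => (∑ n ∈ Icc 1 ⌊X⌋₊, TW X l n) / X) atTop (nhds (NW l)) := by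
  have key := abs_mean (fun Y => ((⌊Y⌋₊ : ℝ) : ℂ)) 1 1 ?_ ?_ ?_ (fun _ => 1) (fun _ => 1) mert_all (fun _ => by simp)
    (Or.inr ⟨0, fun p _ _ => by simp⟩) (fun X l Y => ∑ n ∈ Icc 1 ⌊Y⌋₊, ((TW X l n : ℝ) : ℂ)) ?_ ?_ l hl 1 one_pos
  · have h1 := (Complex.continuous_re.tendsto _).comp key
    simp only [Complex.ofReal_one, one_mul, Complex.ofReal_re] at h1
    refine h1.congr fun X => ?_
    simp only [Function.comp_apply]
    rw [← Complex.ofReal_sum, ← Complex.ofReal_div, Complex.ofReal_re]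
  · intro Y hY
    have : ⌊Y⌋₊ = 0 := Nat.floor_eq_zero.2 hY
    simp [this]
  · intro Y hY
    rw [one_mul, Complex.norm_real, Real.norm_of_nonneg (Nat.cast_nonneg _)]
    exact Nat.floor_le hY
  · have h1 := tendsto_nat_floor_div_atTop (R := ℝ)
    have h2 := (Complex.continuous_ofReal.tendsto _).comp h1
    rw [Complex.ofReal_one] at h2
    refine h2.congr fun X => ?_
    simp only [Function.comp_apply]
    rw [Complex.ofReal_div]
  · intro X Y
    simp [TW]
  · intro w l hwl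
    refine ⟨0, 1, one_pos, ?_⟩
    filter_upwards [eventually_gt_atTop (0 : ℝ)] with X hX Y hY _
    have : ∑ n ∈ Icc 1 ⌊Y⌋₊, ((TW X (w :: l) n : ℝ) : ℂ) -
        ∑ p ∈ PW X w.1 w.2, 1 * ∑ n ∈ Icc 1 ⌊Y / p⌋₊, ((TW X l n : ℝ) : ℂ) = 0 := by
      rw [sub_eq_zero]
      have e1 : ∀ n, ((TW X (w :: l) n : ℝ) : ℂ) =
          ∑ p ∈ PW X w.1 w.2, if p ∣ n then ((TW X l (n / p) : ℝ) : ℂ) else 0 := by
        intro n
        rw [← sum_filter]
        simp only [TW]
        rw [Complex.ofReal_sum]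
      simp only [e1]
      rw [sum_comm]
      refine sum_congr rfl fun p hp => ?_
      rw [mem_PW hX.le] at hp
      rw [one_mul, ← sum_filter, twm_dvd (fun n => ((TW X l n : ℝ) : ℂ)) _ _ hp.1.pos, Nat.floor_div_natCast]
    rw [this]
    simp

/-- `expd` commutes with limits (induction on `j`; the lists that occur have all their windows among the `(u i, v i)`, so they satisfy `Win`). -/
theorem expd_lim {r : ℕ} (c : Fin r → ℂ) (u v : Fin r → ℝ) (hw : ∀ i, 0 < u i ∧ u i ≤ v i) (j : ℕ)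
    (Λ : ℝ → List (ℝ × ℝ) → ℂ) (Λ' : List (ℝ × ℝ) → ℂ)
    (h : ∀ l, Win l → Tendsto (fun X : ℝ => Λ X l) atTop (nhds (Λ' l))) :
    Tendsto (fun X : ℝ => expd c u v j (Λ X)) atTop (nhds (expd c u v j Λ')) := by
  induction j generalizing Λ Λ' with
  | zero => exact h [] (by intro w hw; simp at hw)
  | succ j ih =>
    simp only [expd]
    refine tendsto_finsetSum _ fun i _ => (ih (fun X l => Λ X ((u i, v i) :: l)) (fun l => Λ' ((u i, v i) :: l)) ?_).const_mul (c i)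
    intro l hl
    refine h _ fun w hwl => ?_
    rw [List.mem_cons] at hwl
    rcases hwl with rfl | hwl
    · exact hw i
    · exact hl w hwl

/-- `expd` is linear: it commutes with finite sums -/
theorem expd_sum {r : ℕ} (c : Fin r → ℂ) (u v : Fin r → ℝ) (j : ℕ) {ι : Type*} (s : Finset ι) (a : ι → ℂ)
    (Λ : ι → List (ℝ × ℝ) → ℂ) :
    expd c u v j (fun l => ∑ n ∈ s, a n * Λ n l) = ∑ n ∈ s, a n * expd c u v j (Λ n) := by
  induction j generalizing Λ with
  | zero => rfl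
  | succ j ih =>
    simp only [expd]
    have e1 : ∀ i, expd c u v j (fun l => ∑ n ∈ s, a n * Λ n ((u i, v i) :: l)) =
        ∑ n ∈ s, a n * expd c u v j (fun l => Λ n ((u i, v i) :: l)) := fun i => ih _
    simp only [e1, mul_sum]
    rw [sum_comm]
    refine sum_congr rfl fun n _ => sum_congr rfl fun i _ => ?_
    ring

/-- `expd` is homogeneous -/
theorem expd_smul {r : ℕ} (c : Fin r → ℂ) (u v : Fin r → ℝ) (j : ℕ) (a : ℂ) (Λ : List (ℝ × ℝ) → ℂ) :
    expd c u v j (fun l => a * Λ l) = a * expd c u v j Λ := by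
  induction j generalizing Λ with
  | zero => rfl
  | succ j ih =>
    simp only [expd]
    have e1 : ∀ i, expd c u v j (fun l => a * Λ ((u i, v i) :: l)) =
        a * expd c u v j (fun l => Λ ((u i, v i) :: l)) := fun i => ih _
    simp only [e1, mul_sum]
    refine sum_congr rfl fun i _ => ?_
    ring

/-- `‖expd c u v j Λ‖ ≤ (∑ ‖c i‖)^j B` if `‖Λ l‖ ≤ B` for all lists `l` of length `j` with windows among the `(u i, v i)` (in particular `Win l` and `δ ≤ w.1` for all `w ∈ l` if `δ ≤ u i` for all `i`) -/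
theorem expd_bd {r : ℕ} (c : Fin r → ℂ) (u v : Fin r → ℝ) (j : ℕ) (Λ : List (ℝ × ℝ) → ℂ) (B : ℝ)
    (h : ∀ l : List (ℝ × ℝ), l.length = j → (∀ w ∈ l, ∃ i, w = (u i, v i)) → ‖Λ l‖ ≤ B) :
    ‖expd c u v j Λ‖ ≤ (∑ i, ‖c i‖) ^ j * B := by
  induction j generalizing Λ with
  | zero =>
    simp only [expd, pow_zero, one_mul]
    exact h [] rfl (by simp)
  | succ j ih =>
    simp only [expd]
    have e1 : ∀ i, ‖expd c u v j (fun l => Λ ((u i, v i) :: l))‖ ≤ (∑ i, ‖c i‖) ^ j * B := by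
      intro i
      refine ih _ fun l hl hw => h _ (by simp [hl]) fun w hwl => ?_
      rw [List.mem_cons] at hwl
      rcases hwl with rfl | hwl
      · exact ⟨i, rfl⟩
      · exact hw w hwl
    calc ‖∑ i, c i * expd c u v j (fun l => Λ ((u i, v i) :: l))‖
        ≤ ∑ i, ‖c i * expd c u v j (fun l => Λ ((u i, v i) :: l))‖ := norm_sum_le _ _
      _ ≤ ∑ i, ‖c i‖ * ((∑ i, ‖c i‖) ^ j * B) := by
          refine sum_le_sum fun i _ => ?_
          rw [norm_mul]
          exact mul_le_mul_of_nonneg_left (e1 i) (norm_nonneg _)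
      _ = (∑ i, ‖c i‖) ^ (j + 1) * B := by
          rw [← sum_mul, pow_succ]
          ring

end Pool.Agent.LPr
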