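import Pool.Agent.Lib_MP_f1a94e_lp.Fx
import Pool.Agent.Lib_MP_f1a94e_lp.IntM

/-!
# Piece WINF: Fourier inversion for the numbers of prime factors in windows
-/

set_option autoImplicit false

namespace Pool.Agent.LPr

open Finset Pool.Agent.GaussMR Pool.Agent.OmAll Pool.Agent.OmEq Filter

/-- the step function with values `ζ^(j i)` on the windows `(u i, u (i + 1)]`, `i < r` -/
noncomputable def phj (K : ℕ) (u : ℕ → ℝ) (r : ℕ) (j : Fin r → ℕ) (t : ℝ) : ℂ :=
  1 + ∑ i : Fin r, if u i < t ∧ t ≤ u (i + 1) then zq K ^ (j i) - 1 else 0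

private theorem phj_prod (K : ℕ) (u : ℕ → ℝ) (hu : Monotone u) (r : ℕ) (j : Fin r → ℕ) (t : ℝ) :
    phj K u r j t = ∏ i : Fin r, if u i < t ∧ t ≤ u (i + 1) then zq K ^ (j i) else 1 := by
  unfold phj
  by_cases h : ∃ i : Fin r, u i < t ∧ t ≤ u (i + 1)
  · obtain ⟨i₀, h0⟩ := h
    have hne : ∀ i : Fin r, i ≠ i₀ → ¬ (u i < t ∧ t ≤ u (i + 1)) := by
      rintro i hi ⟨h1, h2⟩
      rcases lt_or_gt_of_ne (fun h => hi (Fin.ext h) : (i : ℕ) ≠ i₀) with hlt | hgt
      · have : u (i + 1) ≤ u i₀ := hu (by omega)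
        linarith [h0.1]
      · have : u (i₀ + 1) ≤ u i := hu (by omega)
        linarith [h0.2]
    rw [Finset.sum_eq_single i₀ (fun i _ hi => if_neg (hne i hi)) (fun h => absurd (mem_univ _) h),
      Finset.prod_eq_single i₀ (fun i _ hi => if_neg (hne i hi)) (fun h => absurd (mem_univ _) h),
      if_pos h0, if_pos h0]
    ring
  · push Not at h
    have hne : ∀ i : Fin r, ¬ (u i < t ∧ t ≤ u (i + 1)) := by
      rintro i ⟨h1, h2⟩
      exact absurd (h i h1) (not_lt.2 h2)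
    rw [Finset.sum_eq_zero (fun i _ => if_neg (hne i)), Finset.prod_eq_one (fun i _ => if_neg (hne i)),
      add_zero]

/-- the windows are disjoint (`u` monotone), so `phj` takes the values `ζ^(j i)` (norm one, `fine_norm`) or `1` -/
theorem phj_step (K : ℕ) (hK : 0 < K) (u : ℕ → ℝ) (hu0 : 0 < u 0) (hu : Monotone u) (r : ℕ) (j : Fin r → ℕ) :
    StepF (phj K u r j) := by
  refine ⟨fun t => ?_, r, fun i => zq K ^ (j i) - 1, fun i => u i, fun i => u (i + 1), fun i => ?_,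
    fun t => rfl⟩
  · rw [phj_prod K u hu r j t, norm_prod]
    apply Finset.prod_eq_one
    intro i _
    split_ifs
    · exact fine_norm K hK (j i)
    · exact norm_one
  · exact ⟨hu0.trans_le (hu (Nat.zero_le _)), hu (Nat.le_succ _)⟩

private theorem list_prod_windows {r : ℕ} (P : Fin r → ℕ → Bool) (y : Fin r → ℂ) (L : List ℕ) :
    (L.map (fun p => ∏ i : Fin r, if P i p = true then y i else 1)).prod =
      ∏ i : Fin r, y i ^ (L.filter (P i)).length := by
  induction L with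
  | nil => simp
  | cons p L ih =>
    rw [List.map_cons, List.prod_cons, ih, ← Finset.prod_mul_distrib]
    apply Finset.prod_congr rfl
    intro i _
    rw [List.filter_cons]
    by_cases h : P i p = true
    · rw [if_pos h, if_pos h, List.length_cons, pow_succ]
      ring
    · rw [if_neg h, if_neg h, one_mul]

/-- PROOF. For a prime `p` and `X > 1`, `u i < log p / log X ≤ u (i + 1)` iff `X^(u i) < p ≤ X^(u (i + 1))`. So `gx (phj ..) X n = ∏_(p ∈ primeFactorsList n) ∏_i (if p in window i then ζ^(j i) else 1)` (at most one window contains `p`), exchange the products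
(`List.prod_map_mul` / induction on the list): `∏_(p ∈ L) (if p in window i then y else 1) = y ^ (L.filter ..).length`. -/
theorem gx_phj (K : ℕ) (hK : 0 < K) (u : ℕ → ℝ) (hu : Monotone u) (r : ℕ) (j : Fin r → ℕ) (X : ℝ) (hX : 1 < X) (n : ℕ) :
    gx (phj K u r j) X n = ∏ i : Fin r, (zq K ^ (j i)) ^ wc X (u i) (u (i + 1)) n := by
  classical
  have hX0 : 0 < X := by linarith
  have hlX : 0 < Real.log X := Real.log_pos hX
  unfold gx
  have h1 : n.primeFactorsList.map (fun p : ℕ => phj K u r j (Real.log p / Real.log X)) =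
      n.primeFactorsList.map (fun p : ℕ => ∏ i : Fin r,
        if (decide (X ^ (u i) < (p : ℝ) ∧ (p : ℝ) ≤ X ^ (u (i + 1)))) = true then zq K ^ (j i) else 1) := by
    apply List.map_congr_left
    intro p hp
    have hp0 : (0 : ℝ) < p := by exact_mod_cast (Nat.prime_of_mem_primeFactorsList hp).pos
    rw [phj_prod K u hu r j]
    apply Finset.prod_congr rfl
    intro i _
    have ha : u i < Real.log p / Real.log X ↔ X ^ (u i) < (p : ℝ) := by
      rw [lt_div_iff₀ hlX, ← Real.log_rpow hX0, Real.log_lt_log_iff (Real.rpow_pos_of_pos hX0 _) hp0]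
    have hb : Real.log p / Real.log X ≤ u (i + 1) ↔ (p : ℝ) ≤ X ^ (u (i + 1)) := by
      rw [div_le_iff₀ hlX, ← Real.log_rpow hX0, Real.log_le_log_iff hp0 (Real.rpow_pos_of_pos hX0 _)]
    simp only [ha, hb, decide_eq_true_eq]
  rw [h1, list_prod_windows (fun (i : Fin r) (p : ℕ) =>
    decide (X ^ (u i) < (p : ℝ) ∧ (p : ℝ) ≤ X ^ (u (i + 1))))]
  apply Finset.prod_congr rfl
  intro i _
  unfold wc
  congr 3

/-- PROOF. `∑_(j ∈ piFinset) ∏_i F i (j i) = ∏_i ∑_(j < K) F i j` (`Finset.prod_univ_sum`), `fine_orth`, and `N i ≡ k i mod K` iff `N i = k i` for numbers below `K`. -/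
theorem win_inv (K : ℕ) (hK : 0 < K) (r : ℕ) (k N : Fin r → ℕ) (hk : ∀ i, k i < K) (hN : ∀ i, N i < K)
    [Decidable (∀ i, N i = k i)] :
    ∑ j ∈ Fintype.piFinset (fun _ : Fin r => range K),
      (∏ i, (zq K ^ (j i * k i))⁻¹) * ∏ i, (zq K ^ (j i)) ^ (N i) = if ∀ i, N i = k i then (K : ℂ) ^ r else 0 := by
  have h1 : ∀ j : Fin r → ℕ, (∏ i, (zq K ^ (j i * k i))⁻¹) * ∏ i, (zq K ^ (j i)) ^ (N i) =
      ∏ i, (zq K ^ (j i * k i))⁻¹ * (zq K ^ (j i)) ^ (N i) := fun j => Finset.prod_mul_distrib.symm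
  simp only [h1]
  rw [← Finset.prod_univ_sum (fun _ : Fin r => range K)
    (fun i a => (zq K ^ (a * k i))⁻¹ * (zq K ^ a) ^ (N i))]
  simp only [fine_orth hK]
  have h2 : ∀ i, (if N i ≡ k i [MOD K] then (K : ℂ) else 0) = if N i = k i then (K : ℂ) else 0 := by
    intro i
    by_cases h : N i = k i
    · rw [if_pos h, if_pos (by rw [h])]
    · rw [if_neg h, if_neg (fun h' => h (Nat.ModEq.eq_of_lt_of_lt h' (hN i) (hk i)))]
  simp only [h2]
  by_cases h : ∀ i, N i = k i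
  · rw [if_pos h]
    simp [h]
  · rw [if_neg h]
    push Not at h
    obtain ⟨i, hi⟩ := h
    exact Finset.prod_eq_zero (mem_univ i) (if_neg hi)

private theorem list_prod_lower (c : ℝ) (hc : 0 ≤ c) (L : List ℕ) (h : ∀ p ∈ L, c < (p : ℝ)) :
    c ^ L.length ≤ ((L.prod : ℕ) : ℝ) := by
  induction L with
  | nil => simp
  | cons p L ih =>
    rw [List.length_cons, List.prod_cons, pow_succ', Nat.cast_mul]
    exact mul_le_mul (h p (by simp)).le (ih fun q hq => h q (by simp [hq])) (pow_nonneg hc _)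
      (Nat.cast_nonneg _)

/-- `X ^ (u wc) ≤ n ≤ X ^ 3` (the product of the prime factors in the window divides `n`; `u ≤` the left end of the window), so `wc * u ≤ 3 < K u`. -/
theorem wc_lt (K : ℕ) (u0 : ℝ) (hu0 : 0 < u0) (hK : 3 < K * u0) (X : ℝ) (hX : 2 ≤ X) (n : ℕ) (hn : n ≠ 0)
    (hnX : (n : ℝ) ≤ X ^ 3) (u v : ℝ) (hu : u0 ≤ u) : wc X u v n < K := by
  classical
  by_contra hcon
  rw [not_lt] at hcon
  have hX0 : 0 < X := by linarith
  have hX1 : 1 < X := by linarith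
  unfold wc at hcon
  set L := n.primeFactorsList.filter (fun p : ℕ => X ^ u < (p : ℝ) ∧ (p : ℝ) ≤ X ^ v) with hL
  have h1 : ∀ p ∈ L, X ^ u < (p : ℝ) := by
    intro p hp
    rw [hL, List.mem_filter] at hp
    have := hp.2
    simp only [decide_eq_true_eq] at this
    exact this.1
  have h2 := list_prod_lower (X ^ u) (Real.rpow_nonneg hX0.le _) L h1
  have h3 : L.prod ∣ n := by
    have : L.prod ∣ n.primeFactorsList.prod := List.Sublist.prod_dvd_prod List.filter_sublist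
    rwa [Nat.prod_primeFactorsList hn] at this
  have h4 : ((L.prod : ℕ) : ℝ) ≤ n := by exact_mod_cast Nat.le_of_dvd (Nat.pos_of_ne_zero hn) h3
  have h5 : X ^ (3 : ℝ) < (X ^ u) ^ L.length := by
    rw [← Real.rpow_natCast, ← Real.rpow_mul hX0.le]
    apply Real.rpow_lt_rpow_of_exponent_lt hX1
    have h6 : (K : ℝ) ≤ L.length := by exact_mod_cast hcon
    calc (3 : ℝ) < K * u0 := hK
      _ ≤ L.length * u := mul_le_mul h6 hu hu0.le (Nat.cast_nonneg _)
      _ = u * L.length := mul_comm _ _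
  have h7 : X ^ (3 : ℝ) = X ^ (3 : ℕ) := by
    rw [← Real.rpow_natCast]
    norm_num
  rw [h7] at h5
  linarith

/-- the coefficient sum -/
noncomputable def cK (K : ℕ) (u : ℕ → ℝ) (r : ℕ) (k : ℕ → ℕ) : ℂ :=
  (1 / (K : ℂ) ^ r) * ∑ j ∈ Fintype.piFinset (fun _ : Fin r => range K),
    (∏ i : Fin r, (zq K ^ (j i * k i))⁻¹) * mu (phj K u r j)

private theorem win_count (K : ℕ) (u : ℕ → ℝ) (hu0 : 0 < u 0) (hu : Monotone u) (hK : 3 < K * u 0) (r : ℕ)
    (k : ℕ → ℕ) (hk : ∀ i < r, k i < K) (x : ℝ) (hx : 2 ≤ x) :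
    ((Set.ncard {n : ℕ | 1 ≤ n ∧ (n : ℝ) ≤ x ∧ ∀ i < r, wc x (u i) (u (i + 1)) n = k i} : ℝ) : ℂ) =
      (1 / (K : ℂ) ^ r) * ∑ j ∈ Fintype.piFinset (fun _ : Fin r => range K),
        (∏ i : Fin r, (zq K ^ (j i * k i))⁻¹) * ∑ n ∈ Icc 1 ⌊x⌋₊, gx (phj K u r j) x n := by
  classical
  have hx0 : 0 ≤ x := by linarith
  have hK0 : 0 < K := by
    rcases Nat.eq_zero_or_pos K with h | h
    · subst h
      simp at hK
      linarith
    · exact h
  have hKc : (K : ℂ) ^ r ≠ 0 := pow_ne_zero _ (by exact_mod_cast hK0.ne')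
  have hset : {n : ℕ | 1 ≤ n ∧ (n : ℝ) ≤ x ∧ ∀ i < r, wc x (u i) (u (i + 1)) n = k i} =
      (((Icc 1 ⌊x⌋₊).filter (fun n => ∀ i : Fin r, wc x (u i) (u (i + 1)) n = k i) : Finset ℕ) : Set ℕ) := by
    ext n
    simp only [Set.mem_ofPred_eq, coe_filter, mem_Icc, Nat.le_floor_iff hx0, and_assoc]
    constructor
    · rintro ⟨h1, h2, h3⟩
      exact ⟨h1, h2, fun i => h3 i i.2⟩
    · rintro ⟨h1, h2, h3⟩
      exact ⟨h1, h2, fun i hi => h3 ⟨i, hi⟩⟩
  rw [hset, Set.ncard_coe_finset, Finset.card_filter]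
  have hcast : (((∑ n ∈ Icc 1 ⌊x⌋₊, if ∀ i : Fin r, wc x (u i) (u (i + 1)) n = k i then 1 else 0 : ℕ) : ℝ) : ℂ) =
      ∑ n ∈ Icc 1 ⌊x⌋₊, (if ∀ i : Fin r, wc x (u i) (u (i + 1)) n = k i then (1 : ℂ) else 0) := by
    rw [Nat.cast_sum, Complex.ofReal_sum]
    apply Finset.sum_congr rfl
    intro n _
    split_ifs <;> simp
  rw [hcast]
  have hterm : ∀ n ∈ Icc 1 ⌊x⌋₊, (if ∀ i : Fin r, wc x (u i) (u (i + 1)) n = k i then (1 : ℂ) else 0) =
      (1 / (K : ℂ) ^ r) * ∑ j ∈ Fintype.piFinset (fun _ : Fin r => range K),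
        (∏ i : Fin r, (zq K ^ (j i * k i))⁻¹) * gx (phj K u r j) x n := by
    intro n hn
    rw [mem_Icc, Nat.le_floor_iff hx0] at hn
    have hn3 : (n : ℝ) ≤ x ^ 3 := by
      have : x ≤ x ^ 3 := by nlinarith [mul_nonneg hx0 hx0]
      linarith [hn.2]
    have h := win_inv K hK0 r (fun i => k i) (fun i => wc x (u i) (u (i + 1)) n) (fun i => hk i i.2)
      (fun i => wc_lt K (u 0) hu0 hK x hx n (by omega) hn3 _ _ (hu (Nat.zero_le _)))
    have hg : ∀ j : Fin r → ℕ, gx (phj K u r j) x n = ∏ i : Fin r, (zq K ^ (j i)) ^ wc x (u i) (u (i + 1)) n :=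
      fun j => gx_phj K hK0 u hu r j x (by linarith) n
    simp only [hg]
    rw [h]
    split_ifs
    · rw [one_div, inv_mul_cancel₀ hKc]
    · rw [mul_zero]
  rw [Finset.sum_congr rfl hterm, ← Finset.mul_sum, Finset.sum_comm]
  simp only [Finset.mul_sum]

/-- PROOF. For `x` large, by `win_inv`, `gx_phj`, `wc_lt` (`n ≤ x ≤ x³`), the count is `∑_(n ≤ x) (1 / K^r) ∑_j (∏ ..) gx (phj K u r j) x n`; divide by `x`, `mu_tendsto` for each `j` (`phj_step`); the limit of real numbers is real (take real parts; `cK` is a limit of real numbers, so `cK.re = cK`). -/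
theorem int_law (K : ℕ) (u : ℕ → ℝ) (hu0 : 0 < u 0) (hu : Monotone u) (hK : 3 < K * u 0) (r : ℕ) (k : ℕ → ℕ)
    (hk : ∀ i < r, k i < K) :
    ∃ c : ℝ, (c : ℂ) = cK K u r k ∧ Tendsto (fun x : ℝ => (Set.ncard {n : ℕ | 1 ≤ n ∧ (n : ℝ) ≤ x ∧
      ∀ i < r, wc x (u i) (u (i + 1)) n = k i} : ℝ) / x) atTop (nhds c) := by
  have hK0 : 0 < K := by
    rcases Nat.eq_zero_or_pos K with h | h
    · subst h
      simp at hK
      linarith
    · exact h
  set f : ℝ → ℝ := fun x : ℝ => (Set.ncard {n : ℕ | 1 ≤ n ∧ (n : ℝ) ≤ x ∧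
      ∀ i < r, wc x (u i) (u (i + 1)) n = k i} : ℝ) / x with hf
  have hlim : Tendsto (fun x : ℝ => ((f x : ℝ) : ℂ)) atTop (nhds (cK K u r k)) := by
    have h1 : Tendsto (fun x : ℝ => (1 / (K : ℂ) ^ r) * ∑ j ∈ Fintype.piFinset (fun _ : Fin r => range K),
        (∏ i : Fin r, (zq K ^ (j i * k i))⁻¹) * ((∑ n ∈ Icc 1 ⌊x⌋₊, gx (phj K u r j) x n) / x))
        atTop (nhds (cK K u r k)) := by
      unfold cK
      apply Tendsto.const_mul
      apply tendsto_finsetSum
      intro j _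
      exact (mu_tendsto _ (phj_step K hK0 u hu0 hu r j)).const_mul _
    refine h1.congr' ?_
    filter_upwards [eventually_ge_atTop (2 : ℝ)] with x hx
    have h2 := win_count K u hu0 hu hK r k hk x hx
    have h3 : ((f x : ℝ) : ℂ) = ((Set.ncard {n : ℕ | 1 ≤ n ∧ (n : ℝ) ≤ x ∧
      ∀ i < r, wc x (u i) (u (i + 1)) n = k i} : ℝ) : ℂ) / (x : ℂ) := by
      rw [hf]
      push_cast
      rfl
    rw [h3, h2, mul_div_assoc, Finset.sum_div]
    congr 1
    apply Finset.sum_congr rfl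
    intro j _
    rw [mul_div_assoc]
  have hre : Tendsto f atTop (nhds (cK K u r k).re) := by
    have := (Complex.continuous_re.tendsto _).comp hlim
    simpa [Function.comp_def] using this
  have him : (cK K u r k).im = 0 := by
    have := (Complex.continuous_im.tendsto _).comp hlim
    have h0 : Tendsto (fun _ : ℝ => (0 : ℝ)) atTop (nhds (cK K u r k).im) := by
      simpa [Function.comp_def] using this
    exact (tendsto_nhds_unique h0 tendsto_const_nhds)
  refine ⟨(cK K u r k).re, ?_, hre⟩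
  apply Complex.ext
  · simp
  · simp [him]

end Pool.Agent.LPr
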